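import Pool.Agent.Lib_helper71.LSPM2.DEF4

/-! LSP2, part M2, block BIL: algebra of the bilinear form of two mollifiers. -/

namespace Pool.Agent.LSP

open Pool.Agent.LEV Pool.Agent.LVB Pool.Agent.KSL
open Pool.Agent.FG61 (mu phi cc ff AA Lam)

/-- bilinear forms: replacing the arguments -/
theorem bil_err {c0 K : ℝ} (hc0 : 0 ≤ c0) (hK : 0 ≤ K) {c : Fin 4 → Fin 4 → ℝ}
    (hc : ∀ i j, |c i j| ≤ c0) {x m y n e f : Fin 4 → ℝ} (hx : ∀ i, |x i - m i| ≤ e i)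
    (hy : ∀ j, |y j - n j| ≤ f j) (hyK : ∀ j, |y j| ≤ K) (hmK : ∀ i, |m i| ≤ K) :
    |∑ i, ∑ j, c i j * (x i * y j) - ∑ i, ∑ j, c i j * (m i * n j)| ≤
      4 * c0 * K * (∑ i, e i + ∑ j, f j) := by
  have h1 : ∀ i j, |c i j * (x i * y j) - c i j * (m i * n j)| ≤ c0 * K * (e i + f j) := by
    intro i j
    have h0 : c i j * (x i * y j) - c i j * (m i * n j) =
        c i j * ((x i - m i) * y j + m i * (y j - n j)) := by ring
    rw [h0, abs_mul]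
    have h2 : |(x i - m i) * y j + m i * (y j - n j)| ≤ K * (e i + f j) := by
      refine (abs_add_le _ _).trans ?_
      rw [abs_mul, abs_mul]
      have a1 := mul_le_mul (hx i) (hyK j) (abs_nonneg _) ((abs_nonneg _).trans (hx i))
      have a2 := mul_le_mul (hmK i) (hy j) (abs_nonneg _) hK
      linarith
    calc |c i j| * |(x i - m i) * y j + m i * (y j - n j)| ≤ c0 * (K * (e i + f j)) :=
          mul_le_mul (hc i j) h2 (abs_nonneg _) hc0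
      _ = _ := by ring
  rw [← Finset.sum_sub_distrib]
  calc |∑ i, (∑ j, c i j * (x i * y j) - ∑ j, c i j * (m i * n j))|
      ≤ ∑ i, |∑ j, c i j * (x i * y j) - ∑ j, c i j * (m i * n j)| :=
        Finset.abs_sum_le_sum_abs _ _
    _ ≤ ∑ i, ∑ j, c0 * K * (e i + f j) := by
        refine Finset.sum_le_sum fun i _ => ?_
        rw [← Finset.sum_sub_distrib]
        exact (Finset.abs_sum_le_sum_abs _ _).trans (Finset.sum_le_sum fun j _ => h1 i j)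
    _ = _ := by
        simp only [Fin.sum_univ_four]
        ring

/-- the integrand of the cross form -/
noncomputable def Fc (LN lq lp ρ P0 P0' L0 L0' P1 P1' L1 L1' : ℝ) : ℝ :=
  LN * (2 * P0 * P1 - P0 * P1' - P0' * P1) +
    4 * (lq * (2 * P0 * P1 - P0 * P1') - (lq + lp) * P0' * P1) -
    2 * (P0 * (2 * L1 + lp * P1 - L1' + ρ * lp * P1') - P0' * (L1 + lp * P1)) -
    2 * (L0 * (2 * P1 - P1') - L0' * P1)

/-- the coefficients of the integrand -/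
noncomputable def Fcc (l t s ρ : ℝ) : Fin 4 → Fin 4 → ℝ :=
  ![![2 * l + 8 * t - 2 * s, -l - 4 * t - 2 * ρ * s, -4, 2],
    ![-l - 4 * t - 2 * s, 0, 2, 0],
    ![-4, 2, 0, 0],
    ![2, 0, 0, 0]]

theorem Fcc_le {l t s ρ : ℝ} (l0 : 0 ≤ l) (l1 : l ≤ 2) (t0 : 0 ≤ t) (t1 : t ≤ 1) (s0 : 0 ≤ s)
    (s1 : s ≤ 1) (r0 : 0 ≤ ρ) (r1 : ρ ≤ 2) (i j : Fin 4) : |Fcc l t s ρ i j| ≤ 12 := by
  have h1 : 0 ≤ ρ * s := mul_nonneg r0 s0
  have h2 : ρ * s ≤ 2 := by nlinarith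
  rw [abs_le]
  fin_cases i <;> fin_cases j <;> simp [Fcc] <;> (try constructor) <;> nlinarith

theorem Fc_eq {LX : ℝ} (hX : 0 < LX) (l t s ρ p0 p0' L0 L0' p1 p1' L1 L1' : ℝ) :
    LX * Fc (l * LX) (t * LX) (s * LX) ρ (p0 / LX) (p0' / LX) L0 L0' (p1 / LX) (p1' / LX) L1 L1' =
      ∑ i, ∑ j, Fcc l t s ρ i j * (![p0, p0', L0, L0'] i * ![p1, p1', L1, L1'] j) := by
  simp only [Fin.sum_univ_four, Fcc, Fc]
  simp
  field_simp
  ring

/-- the error -/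
theorem Fc_err {LX K LN lq lp ρ : ℝ} (hX : 0 < LX) (hK : 0 ≤ K) (l0 : 0 ≤ LN)
    (l1 : LN ≤ 2 * LX) (t0 : 0 ≤ lq) (t1 : lq ≤ LX) (s0 : 0 ≤ lp) (s1 : lp ≤ LX) (r0 : 0 ≤ ρ)
    (r1 : ρ ≤ 2) {P0 P0' L0 L0' P1 P1' L1 L1' m0 m0' n0 n0' m1 m1' n1 n1' e0 e0' e1 e1' : ℝ}
    (a1 : |P0 - m0| ≤ e0 / LX) (a2 : |P0' - m0'| ≤ e0' / LX) (a3 : |L0 - n0| ≤ e0)
    (a4 : |L0' - n0'| ≤ e0') (b1 : |P1 - m1| ≤ e1 / LX) (b2 : |P1' - m1'| ≤ e1' / LX)
    (b3 : |L1 - n1| ≤ e1) (b4 : |L1' - n1'| ≤ e1') (c1 : |m0| ≤ K / LX) (c2 : |m0'| ≤ K / LX)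
    (c3 : |n0| ≤ K) (c4 : |n0'| ≤ K) (d1 : |P1| ≤ K / LX) (d2 : |P1'| ≤ K / LX) (d3 : |L1| ≤ K)
    (d4 : |L1'| ≤ K) :
    |Fc LN lq lp ρ P0 P0' L0 L0' P1 P1' L1 L1' - Fc LN lq lp ρ m0 m0' n0 n0' m1 m1' n1 n1'| ≤
      96 * K * (e0 + e0' + e1 + e1') / LX := by
  have hX' := hX.ne'
  have h1 := Fc_eq hX (LN / LX) (lq / LX) (lp / LX) ρ (P0 * LX) (P0' * LX) L0 L0' (P1 * LX)
    (P1' * LX) L1 L1'
  have h2 := Fc_eq hX (LN / LX) (lq / LX) (lp / LX) ρ (m0 * LX) (m0' * LX) n0 n0' (m1 * LX)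
    (m1' * LX) n1 n1'
  simp only [div_mul_cancel₀ _ hX', mul_div_cancel_right₀ _ hX'] at h1 h2
  have hc := Fcc_le (l := LN / LX) (t := lq / LX) (s := lp / LX) (ρ := ρ) (by positivity)
    (by rw [div_le_iff₀ hX]; exact l1) (by positivity) ((div_le_one hX).2 t1) (by positivity)
    ((div_le_one hX).2 s1) r0 r1
  have hsc : ∀ u v : ℝ, |u| ≤ v / LX → |u * LX| ≤ v := fun u v h => by
    rw [abs_mul, abs_of_pos hX]
    rwa [le_div_iff₀ hX] at h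
  have hsc2 : ∀ u w v : ℝ, |u - w| ≤ v / LX → |u * LX - w * LX| ≤ v := fun u w v h => by
    rw [← sub_mul]
    exact hsc _ _ h
  have h3 := bil_err (c0 := 12) (K := K) (by norm_num) hK hc
    (x := ![P0 * LX, P0' * LX, L0, L0']) (m := ![m0 * LX, m0' * LX, n0, n0'])
    (y := ![P1 * LX, P1' * LX, L1, L1']) (n := ![m1 * LX, m1' * LX, n1, n1'])
    (e := ![e0, e0', e0, e0']) (f := ![e1, e1', e1, e1'])
    (by
      intro i
      fin_cases i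
      · exact hsc2 _ _ _ a1
      · exact hsc2 _ _ _ a2
      · exact a3
      · exact a4)
    (by
      intro i
      fin_cases i
      · exact hsc2 _ _ _ b1
      · exact hsc2 _ _ _ b2
      · exact b3
      · exact b4)
    (by
      intro i
      fin_cases i
      · exact hsc _ _ d1
      · exact hsc _ _ d2
      · exact d3
      · exact d4)
    (by
      intro i
      fin_cases i
      · exact hsc _ _ c1
      · exact hsc _ _ c2
      · exact c3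
      · exact c4)
  rw [← h1, ← h2, ← mul_sub, abs_mul, abs_of_pos hX] at h3
  rw [le_div_iff₀ hX, mul_comm]
  refine h3.trans (le_of_eq ?_)
  simp only [Fin.sum_univ_four]
  simp
  ring

/-- the size -/
theorem Fc_size {LX K LN lq lp ρ : ℝ} (hX : 0 < LX) (hK : 0 ≤ K) (l0 : 0 ≤ LN)
    (l1 : LN ≤ 2 * LX) (t0 : 0 ≤ lq) (t1 : lq ≤ LX) (s0 : 0 ≤ lp) (s1 : lp ≤ LX) (r0 : 0 ≤ ρ)
    (r1 : ρ ≤ 2) {m0 m0' n0 n0' m1 m1' n1 n1' : ℝ}
    (c1 : |m0| ≤ K / LX) (c2 : |m0'| ≤ K / LX)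
    (c3 : |n0| ≤ K) (c4 : |n0'| ≤ K) (d1 : |m1| ≤ K / LX) (d2 : |m1'| ≤ K / LX) (d3 : |n1| ≤ K)
    (d4 : |n1'| ≤ K) :
    |Fc LN lq lp ρ m0 m0' n0 n0' m1 m1' n1 n1'| ≤ 400 * K ^ 2 / LX := by
  have h1 := Fc_err (e0 := K) (e0' := K) (e1 := 0) (e1' := 0) (P0 := m0) (P0' := m0') (L0 := n0)
    (L0' := n0') (P1 := m1) (P1' := m1') (L1 := n1) (L1' := n1') (m0 := 0) (m0' := 0) (n0 := 0)
    (n0' := 0) (m1 := m1) (m1' := m1') (n1 := n1) (n1' := n1') hX hK l0 l1 t0 t1 s0 s1 r0 r1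
    (by simpa using c1) (by simpa using c2) (by simpa using c3) (by simpa using c4)
    (by simp) (by simp) (by simp) (by simp) (by simp; positivity) (by simp; positivity)
    (by simpa using hK) (by simpa using hK) d1 d2 d3 d4
  have h2 : Fc LN lq lp ρ 0 0 0 0 m1 m1' n1 n1' = 0 := by
    unfold Fc
    ring
  rw [h2, sub_zero] at h1
  refine h1.trans ?_
  rw [div_le_div_iff_of_pos_right hX]
  nlinarith [sq_nonneg K]

/-- main term -/
theorem Fc_main {LN lq lp L0 L1 a0 a1 b0 b1 : ℝ} (h0 : L0 ≠ 0) (h1 : L1 ≠ 0)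
    (e1 : a0 * a1 = a1) (e2 : a0 * b1 = b1) (e3 : b0 * a1 = b0) :
    Fc LN lq lp 1 (a0 / L0) (b0 / L0) (a0 * (2 * lq - L0) / L0)
      (b0 * (2 * (lp + lq) - L0) / L0) (a1 / L1) (b1 / L1) (a1 * (2 * lq - L1) / L1)
      (b1 * (2 * (lp + lq) - L1) / L1) =
      (a1 * (2 * LN + 4 * L1 + 4 * L0 - 2 * lp + -8 * lq) +
        b1 * (-LN + 2 * lp - 2 * L1 - 2 * L0 + 4 * lq) +
        b0 * (-LN + 2 * lp - 2 * L1 - 2 * L0 + 4 * lq)) / (L0 * L1) := by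
  unfold Fc
  rw [eq_div_iff (mul_ne_zero h0 h1)]
  field_simp
  linear_combination (2 * LN + 4 * L1 + 4 * L0 - 2 * lp - 8 * lq) * e1 +
    (-LN + 2 * lp - 2 * L1 - 2 * L0 + 4 * lq) * e2 +
    (-LN + 2 * lp - 2 * L1 - 2 * L0 + 4 * lq) * e3

/-- the exact identity at one denominator -/
theorem Fc_pt {m f V p LN lq lp P0 P0' L0 L0' P1 P1' L1 L1' : ℝ} (hf : f ≠ 0) (hV : V ≠ 0)
    (hp : p ≠ 0) (hp1 : p - 1 ≠ 0) :
    p * V ^ 2 * ((LN * (f * (m * P0 / (f * V) *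
        (2 / p * (m * P1 / (f * V)) + (1 - 1 / p) * (-m * P1' / ((p - 1) * f * V))))) +
      4 * (f * lq * (m * P0 / (f * V) *
        (2 / p * (m * P1 / (f * V)) + (1 - 1 / p) * (-m * P1' / ((p - 1) * f * V))))) -
      2 * (f * (m * P0 / (f * V) *
        (2 / p * (m * L1 / (f * V)) + lp / p * (m * P1 / (f * V)) +
          (1 - 1 / p) * (-m * L1' / ((p - 1) * f * V)) - lp * (-m * P1' / ((p - 1) * f * V))))) -
      2 * (f * (m * L0 / (f * V) *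
        (2 / p * (m * P1 / (f * V)) + (1 - 1 / p) * (-m * P1' / ((p - 1) * f * V)))))) +
      (LN * ((p - 1) * f * (-m * P0' / ((p - 1) * f * V) * (m * P1 / (f * V) / p))) +
      4 * ((p - 1) * f * (lp + lq) * (-m * P0' / ((p - 1) * f * V) * (m * P1 / (f * V) / p))) -
      2 * ((p - 1) * f * (-m * P0' / ((p - 1) * f * V) *
        ((m * L1 / (f * V) + lp * (m * P1 / (f * V))) / p))) -
      2 * ((p - 1) * f * (-m * L0' / ((p - 1) * f * V) * (m * P1 / (f * V) / p))))) =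
      m ^ 2 / f * Fc LN lq lp (p / (p - 1)) P0 P0' L0 L0' P1 P1' L1 L1' := by
  unfold Fc
  field_simp
  ring

end Pool.Agent.LSP
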