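import Pool.Agent.Lib_helper15.LSP2.BIA
import Pool.Agent.Lib_helper71.LSPM2.RMD
import Pool.Agent.Lib_helper14.LSPM2.VTA

/-! LSP2, part M2, block BIL: the exact formula. -/

namespace Pool.Agent.LSP

open Pool.Agent.LEV Pool.Agent.LVB Pool.Agent.KSL
open Pool.Agent.FG61 (mu phi cc ff AA Lam)

/-- longer range -/
theorem bil_wd_mono {z B B' : ℕ} {V : ℕ → ℝ} (hV : RVec z B V) (hB : B ≤ B') (q : ℕ) :
    wd B' V q = wd B V q := by
  unfold wd
  symm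
  refine Finset.sum_subset (Finset.Icc_subset_Icc le_rfl hB) fun d hd hd' => ?_
  rw [Finset.mem_Icc] at hd hd'
  have h0 : V d = 0 := by
    by_contra h
    exact hd' ⟨hd.1, (hV d h).2.2⟩
  rw [h0]
  split_ifs <;> rfl

theorem bil_wd_big {B q : ℕ} (V : ℕ → ℝ) (hq : B < q) : wd B V q = 0 := by
  unfold wd
  refine Finset.sum_eq_zero fun d hd => ?_
  rw [Finset.mem_Icc] at hd
  rw [if_neg]
  intro h
  have := Nat.le_of_dvd (by omega) h
  omega

theorem bil_RVec (δ : ℝ) (X : ℕ) : RVec (zz X) (2 * MM δ X) (YE δ X) :=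
  RVec_yE (by norm_num)

theorem bil_mu_sq {q : ℕ} (h : Squarefree q) : mu q ^ 2 = 1 := GDL_mu_sq h

theorem bil_mu_zero {q : ℕ} (h : ¬ Squarefree q) : mu q = 0 := by
  have := ArithmeticFunction.moebius_eq_zero_of_not_squarefree h
  unfold FG61.mu
  simp [this]

/-- the weights from the profiles -/
theorem bil_w {δ : ℝ} {X q : ℕ} (hq : 1 ≤ q) :
    wd (2 * MM δ X) (YE δ X) q = mu q * prP δ X q / (phi q * Vz (zz X)) ∧
    wd (2 * MM δ X) (lg (YE δ X)) q = mu q * prL δ X q / (phi q * Vz (zz X)) := by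
  have h1 := GDL_phi_pos hq
  have h2 := phi_Vz_pos (zz X)
  by_cases hs : Squarefree q ∧ rough (zz X) q
  · have h3 := bil_mu_sq hs.1
    unfold prP prL
    constructor
    · rw [eq_div_iff (by positivity)]
      linear_combination (-(phi q * Vz (zz X) * wd (2 * MM δ X) (YE δ X) q)) * h3
    · rw [eq_div_iff (by positivity)]
      linear_combination (-(phi q * Vz (zz X) * wd (2 * MM δ X) (lg (YE δ X)) q)) * h3
  · obtain ⟨h3, h4⟩ := wd_zero δ X hq hs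
    unfold prP prL
    rw [h3, h4]
    simp

/-- the sum over the multiples of `p` and the others -/
theorem bil_split {z X B p : ℕ} (hp : p.Prime) (_hzp : z < p) {G : ℕ → ℝ}
    (hG : ∀ q, 1 ≤ q → G q ≠ 0 → rough z q ∧ Squarefree q ∧ q ≤ X ∧ q ≤ B) :
    ∑ q ∈ Finset.Icc 1 B, G q = ∑ q ∈ (RO z X).filter (fun q => ¬ p ∣ q), (G q + G (p * q)) := by
  classical
  have h1 : ∑ q ∈ Finset.Icc 1 B, G q = ∑ q ∈ RO z X, G q := by
    refine Finset.sum_congr_of_eq_on_inter ?_ ?_ ?_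
    · intro q hq hq'
      by_contra h
      rw [Finset.mem_Icc] at hq
      obtain ⟨a1, a2, a3, a4⟩ := hG q hq.1 h
      exact hq' (GDL_mem_RO.2 ⟨hq.1, a3, a1⟩)
    · intro q hq hq'
      by_contra h
      obtain ⟨b1, b2, b3⟩ := GDL_mem_RO.1 hq
      obtain ⟨a1, a2, a3, a4⟩ := hG q b1 h
      exact hq' (Finset.mem_Icc.2 ⟨b1, a4⟩)
    · intro q _ _
      rfl
  rw [h1, Finset.sum_add_distrib, ← Finset.sum_filter_add_sum_filter_not (RO z X)
    (fun q => p ∣ q), add_comm]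
  congr 1
  symm
  refine Finset.sum_bij_ne_zero (fun m _ _ => p * m) ?_ ?_ ?_ ?_
  · intro m hm h0
    rw [Finset.mem_filter] at hm ⊢
    obtain ⟨b1, b2, b3⟩ := GDL_mem_RO.1 hm.1
    have hpm : 1 ≤ p * m := Nat.mul_pos hp.pos b1
    obtain ⟨a1, a2, a3, a4⟩ := hG _ hpm h0
    exact ⟨GDL_mem_RO.2 ⟨hpm, a3, a1⟩, Dvd.intro _ rfl⟩
  · intro m _ _ m' _ _ h
    exact Nat.eq_of_mul_eq_mul_left hp.pos h
  · intro q hq h0
    rw [Finset.mem_filter] at hq
    obtain ⟨b1, b2, b3⟩ := GDL_mem_RO.1 hq.1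
    obtain ⟨a1, a2, a3, a4⟩ := hG q b1 h0
    obtain ⟨m, rfl⟩ := hq.2
    have hm : 1 ≤ m := by
      rw [Nat.one_le_iff_ne_zero]
      rintro rfl
      omega
    refine ⟨m, ?_, h0, rfl⟩
    rw [Finset.mem_filter, GDL_mem_RO]
    refine ⟨⟨hm, (Nat.le_mul_of_pos_left m hp.pos).trans b2, ?_⟩, ?_⟩
    · intro r hr hrm
      exact b3 r hr (hrm.mul_left _)
    · intro hpm
      have := Nat.squarefree_mul_iff.1 a2
      exact (Nat.Prime.coprime_iff_not_dvd hp).1 this.1 hpm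
  · intro m _ _
    rfl

theorem bil_mu_mul {p q : ℕ} (hp : p.Prime) (hpq : ¬ p ∣ q) : mu (p * q) = -mu q := by
  have h1 : Nat.Coprime p q := (Nat.Prime.coprime_iff_not_dvd hp).2 hpq
  unfold FG61.mu
  rw [ArithmeticFunction.isMultiplicative_moebius.map_mul_of_coprime h1,
    ArithmeticFunction.moebius_apply_prime hp]
  push_cast
  ring

theorem bil_phi_mul {p q : ℕ} (hp : p.Prime) (hpq : ¬ p ∣ q) :
    phi (p * q) = (p - 1) * phi q := by
  unfold phi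
  rw [Nat.totient_mul_of_prime_of_not_dvd hp hpq]
  push_cast [Nat.cast_sub hp.one_lt.le]
  ring

/-- the exact formula for the cross form -/
theorem bil_exact {δ₀ δ₁ : ℝ} {X p B : ℕ} (hp : p.Prime) (hzp : zz X < p)
    (hX0 : 2 * MM δ₀ X ≤ X) (hB0 : 2 * MM δ₀ X ≤ B) (hB1 : p * (2 * MM δ₁ X) ≤ B) (LN : ℝ) :
    p * (Vz (zz X) * BFb B LN (YE δ₀ X) (VT p (YE δ₁ X))) =
      1 / Vz (zz X) * ∑ q ∈ (RO (zz X) X).filter (fun q => ¬ p ∣ q), nu q *
        Fc LN (Real.log q) (Real.log p) (p / (p - 1)) (prP δ₀ X q) (prP δ₀ X (p * q))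
          (prL δ₀ X q) (prL δ₀ X (p * q)) (prP δ₁ X q) (prP δ₁ X (p * q)) (prL δ₁ X q)
          (prL δ₁ X (p * q)) := by
  have hV := phi_Vz_pos (zz X)
  have hp0 : (0 : ℝ) < p := by exact_mod_cast hp.pos
  have hp1 : (p : ℝ) - 1 ≠ 0 := by
    have : (1 : ℝ) < p := by exact_mod_cast hp.one_lt
    linarith
  have hR0 := bil_RVec δ₀ X
  have hR1 := bil_RVec δ₁ X
  -- the integrand
  set G : ℕ → ℝ := fun q => LN * (phi q * (wd B (YE δ₀ X) q * wd B (VT p (YE δ₁ X)) q)) +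
    4 * (phL q * (wd B (YE δ₀ X) q * wd B (VT p (YE δ₁ X)) q)) - 2 * (phi q * (wd B (YE δ₀ X) q * wd B (lg (VT p (YE δ₁ X))) q)) -
    2 * (phi q * (wd B (lg (YE δ₀ X)) q * wd B (VT p (YE δ₁ X)) q)) with hG
  have h1 : BFb B LN (YE δ₀ X) (VT p (YE δ₁ X)) = ∑ q ∈ Finset.Icc 1 B, G q := by
    unfold BFb QF
    rw [Finset.mul_sum, Finset.mul_sum, Finset.mul_sum, Finset.mul_sum, ← Finset.sum_add_distrib,
      ← Finset.sum_sub_distrib, ← Finset.sum_sub_distrib]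
  have hU0 : ∀ q, wd B (YE δ₀ X) q = wd (2 * MM δ₀ X) (YE δ₀ X) q := bil_wd_mono hR0 hB0
  have hUL : ∀ q, wd B (lg (YE δ₀ X)) q = wd (2 * MM δ₀ X) (lg (YE δ₀ X)) q := bil_wd_mono (RVec_lg hR0) hB0
  have h2 : ∀ q, 1 ≤ q → G q ≠ 0 → rough (zz X) q ∧ Squarefree q ∧ q ≤ X ∧ q ≤ B := by
    intro q hq hne
    have h3 : wd (2 * MM δ₀ X) (YE δ₀ X) q ≠ 0 ∨ wd (2 * MM δ₀ X) (lg (YE δ₀ X)) q ≠ 0 := by
      by_contra hcon
      push Not at hcon
      apply hne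
      simp only [hG, hU0, hUL, hcon.1, hcon.2]
      ring
    have h4 : q ≤ 2 * MM δ₀ X := by
      by_contra h5
      push Not at h5
      rcases h3 with h3 | h3
      · exact h3 (bil_wd_big _ h5)
      · exact h3 (bil_wd_big _ h5)
    have h5 : Squarefree q ∧ rough (zz X) q := by
      by_contra h6
      obtain ⟨h7, h8⟩ := wd_zero δ₀ X hq h6
      rcases h3 with h3 | h3
      · exact h3 h7
      · exact h3 h8
    exact ⟨h5.2, h5.1, h4.trans hX0, h4.trans hB0⟩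
  rw [h1, bil_split hp hzp h2]
  have h3 : ∀ q ∈ (RO (zz X) X).filter (fun q => ¬ p ∣ q), p * Vz (zz X) ^ 2 * (G q + G (p * q)) = nu q *
        Fc LN (Real.log q) (Real.log p) (p / (p - 1)) (prP δ₀ X q) (prP δ₀ X (p * q))
          (prL δ₀ X q) (prL δ₀ X (p * q)) (prP δ₁ X q) (prP δ₁ X (p * q)) (prL δ₁ X q)
          (prL δ₁ X (p * q)) := by
    intro q hq
    rw [Finset.mem_filter] at hq
    obtain ⟨q1, q2, q3⟩ := GDL_mem_RO.1 hq.1
    have hpq : 1 ≤ p * q := Nat.mul_pos hp.pos q1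
    have hppq : 1 ≤ p * (p * q) := Nat.mul_pos hp.pos hpq
    have hq0 : (0 : ℝ) < q := by exact_mod_cast q1
    have hph := GDL_phi_pos q1
    obtain ⟨u1, u2⟩ := bil_w (δ := δ₀) (X := X) q1
    obtain ⟨u3, u4⟩ := bil_w (δ := δ₀) (X := X) hpq
    obtain ⟨w1, w2⟩ := bil_w (δ := δ₁) (X := X) q1
    obtain ⟨w3, w4⟩ := bil_w (δ := δ₁) (X := X) hpq
    have hns : ¬ Squarefree (p * (p * q)) := by
      intro h
      have := Nat.squarefree_mul_iff.1 h
      exact (Nat.Prime.coprime_iff_not_dvd hp).1 this.1 (Dvd.intro _ rfl)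
    obtain ⟨w5, w6⟩ := wd_zero δ₁ X hppq (fun h => hns h.1)
    have v1 := wd_VT_pr hR1 hp hB1 q1
    have v2 := wd_VT_pr hR1 hp hB1 hpq
    have v3 := wd_lg_VT_pr hR1 hp hB1 q1
    have v4 := wd_lg_VT_pr hR1 hp hB1 hpq
    rw [if_neg hq.2] at v1 v3
    rw [if_pos (Dvd.intro _ rfl), Nat.mul_div_cancel_left _ hp.pos] at v2 v4
    rw [bil_mu_mul hp hq.2, bil_phi_mul hp hq.2] at u3 u4 w3 w4
    have hlog : Real.log ((p * q : ℕ) : ℝ) = Real.log p + Real.log q := by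
      rw [Nat.cast_mul, Real.log_mul hp0.ne' hq0.ne']
    have h4 := Fc_pt (m := mu q) (f := phi q) (V := Vz (zz X)) (p := p) (LN := LN) (lq := Real.log q)
      (lp := Real.log p) (P0 := prP δ₀ X q) (P0' := prP δ₀ X (p * q)) (L0 := prL δ₀ X q)
      (L0' := prL δ₀ X (p * q)) (P1 := prP δ₁ X q) (P1' := prP δ₁ X (p * q)) (L1 := prL δ₁ X q)
      (L1' := prL δ₁ X (p * q)) hph.ne' hV.ne' hp0.ne' hp1
    unfold nu
    rw [← h4]
    simp only [hG, hU0, hUL, v1, v2, v3, v4, w1, w2, w3, w4, w5, w6, u1, u2, u3, u4, phL, hlog,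
      bil_phi_mul hp hq.2]
    ring
  rw [← Finset.sum_congr rfl h3, ← Finset.mul_sum]
  field_simp

/-- the exact formula for the diagonal form -/
theorem bil_exact_diag {δ : ℝ} {X B : ℕ} (hX0 : 2 * MM δ X ≤ X) (hB0 : 2 * MM δ X ≤ B) (LN : ℝ) :
    Vz (zz X) * BFb B LN (YE δ X) (YE δ X) =
      1 / Vz (zz X) * ∑ q ∈ RO (zz X) X, nu q *
        (Fc LN (Real.log q) 0 1 (prP δ X q) 0 (prL δ X q) 0 (prP δ X q) 0 (prL δ X q) 0 / 2) := by
  have hV := phi_Vz_pos (zz X)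
  have hR0 := bil_RVec δ X
  set G : ℕ → ℝ := fun q => LN * (phi q * (wd B (YE δ X) q * wd B (YE δ X) q)) +
    4 * (phL q * (wd B (YE δ X) q * wd B (YE δ X) q)) - 2 * (phi q * (wd B (YE δ X) q * wd B (lg (YE δ X)) q)) -
    2 * (phi q * (wd B (lg (YE δ X)) q * wd B (YE δ X) q)) with hG
  have h1 : BFb B LN (YE δ X) (YE δ X) = ∑ q ∈ Finset.Icc 1 B, G q := by
    unfold BFb QF
    rw [Finset.mul_sum, Finset.mul_sum, Finset.mul_sum, Finset.mul_sum, ← Finset.sum_add_distrib,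
      ← Finset.sum_sub_distrib, ← Finset.sum_sub_distrib]
  have hU0 : ∀ q, wd B (YE δ X) q = wd (2 * MM δ X) (YE δ X) q := bil_wd_mono hR0 hB0
  have hUL : ∀ q, wd B (lg (YE δ X)) q = wd (2 * MM δ X) (lg (YE δ X)) q := bil_wd_mono (RVec_lg hR0) hB0
  have h2 : ∀ q, 1 ≤ q → G q ≠ 0 → rough (zz X) q ∧ Squarefree q ∧ q ≤ X ∧ q ≤ B := by
    intro q hq hne
    have h3 : wd (2 * MM δ X) (YE δ X) q ≠ 0 ∨ wd (2 * MM δ X) (lg (YE δ X)) q ≠ 0 := by
      by_contra hcon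
      push Not at hcon
      apply hne
      simp only [hG, hU0, hUL, hcon.1, hcon.2]
      ring
    have h4 : q ≤ 2 * MM δ X := by
      by_contra h5
      push Not at h5
      rcases h3 with h3 | h3
      · exact h3 (bil_wd_big _ h5)
      · exact h3 (bil_wd_big _ h5)
    have h5 : Squarefree q ∧ rough (zz X) q := by
      by_contra h6
      obtain ⟨h7, h8⟩ := wd_zero δ X hq h6
      rcases h3 with h3 | h3
      · exact h3 h7
      · exact h3 h8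
    exact ⟨h5.2, h5.1, h4.trans hX0, h4.trans hB0⟩
  have h4 : ∑ q ∈ Finset.Icc 1 B, G q = ∑ q ∈ RO (zz X) X, G q := by
    refine Finset.sum_congr_of_eq_on_inter ?_ ?_ ?_
    · intro q hq hq'
      by_contra h
      rw [Finset.mem_Icc] at hq
      obtain ⟨a1, a2, a3, a4⟩ := h2 q hq.1 h
      exact hq' (GDL_mem_RO.2 ⟨hq.1, a3, a1⟩)
    · intro q hq hq'
      by_contra h
      obtain ⟨b1, b2, b3⟩ := GDL_mem_RO.1 hq
      obtain ⟨a1, a2, a3, a4⟩ := h2 q b1 h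
      exact hq' (Finset.mem_Icc.2 ⟨b1, a4⟩)
    · intro q _ _
      rfl
  rw [h1, h4]
  have h3 : ∀ q ∈ RO (zz X) X, Vz (zz X) ^ 2 * G q = nu q *
      (Fc LN (Real.log q) 0 1 (prP δ X q) 0 (prL δ X q) 0 (prP δ X q) 0 (prL δ X q) 0 / 2) := by
    intro q hq
    obtain ⟨q1, q2, q3⟩ := GDL_mem_RO.1 hq
    have hph := GDL_phi_pos q1
    obtain ⟨u1, u2⟩ := bil_w (δ := δ) (X := X) q1
    simp only [hG, hU0, hUL, u1, u2, phL, nu, Fc]
    field_simp
    ring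
  rw [← Finset.sum_congr rfl h3, ← Finset.mul_sum]
  field_simp

end Pool.Agent.LSP
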