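import Pool.Agent.Lib_helper15.LSP2.BIB
import Pool.Agent.Lib_helper97.LSPM2.SUM

/-! LSP2, part M2, block BIL: the asymptotics. -/

namespace Pool.Agent.LSP

open Pool.Agent.LEV Pool.Agent.LVB Pool.Agent.KSL
open Pool.Agent.FG61 (mu phi cc ff AA Lam)
open Filter

theorem bic_nu_nonneg (q : ℕ) : 0 ≤ nu q := by
  unfold nu FG61.phi
  positivity

/-- the basic sizes -/
theorem bic_sizes {δ : ℝ} (h0 : -(1 / 4) < δ) (h1 : δ < 1 / 4) : ∃ X₀ : ℕ, ∀ X : ℕ, X₀ ≤ X →
    3 ≤ X ∧ 1 ≤ MM δ X ∧ 2 * MM δ X ≤ X ∧ Real.log X / 5 ≤ Real.log (MM δ X) ∧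
      Real.log (MM δ X) ≤ Real.log X ∧ 1 ≤ Real.log X := by
  obtain ⟨N₀, hN₀⟩ := sizesM h0 h1 (ε := 1) one_pos
  have hL : Tendsto (fun N : ℕ => Real.log N) atTop atTop :=
    Real.tendsto_log_atTop.comp tendsto_natCast_atTop_atTop
  obtain ⟨N₁, hN₁⟩ := eventually_atTop.1 (hL.eventually_ge_atTop 20)
  refine ⟨max N₀ N₁, fun X hX => ?_⟩
  obtain ⟨a1, a2, a3, -, -, -, a7, -, -⟩ := hN₀ X ((le_max_left _ _).trans hX)
  have hl := hN₁ X ((le_max_right _ _).trans hX)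
  obtain ⟨b1, b2⟩ := abs_le.1 a7
  have hM1 : 1 ≤ MM δ X := by omega
  have hX0 : (0 : ℝ) < X := by exact_mod_cast (by omega : 0 < X)
  have hM0 : (0 : ℝ) < MM δ X := by exact_mod_cast hM1
  have hlow : 1 / 4 * Real.log X ≤ (1 / 2 - δ) * Real.log X :=
    mul_le_mul_of_nonneg_right (by linarith) (by linarith)
  have hup : (1 / 2 - δ) * Real.log X ≤ 3 / 4 * Real.log X :=
    mul_le_mul_of_nonneg_right (by linarith) (by linarith)
  have h2 : Real.log 2 ≤ 1 := by
    have := Real.log_two_lt_d9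
    linarith
  have h3 : Real.log (2 * MM δ X) ≤ Real.log X := by
    rw [Real.log_mul (by norm_num) hM0.ne']
    linarith
  have h4 : (2 * MM δ X : ℝ) ≤ X := (Real.log_le_log_iff (by positivity) hX0).1 h3
  refine ⟨a1, hM1, by exact_mod_cast h4, by linarith, by linarith, by linarith⟩

/-- the sums with a cut off -/
theorem bic_cut {ε : ℝ} (hε : 0 < ε) : ∃ X₀ : ℕ, ∀ X : ℕ, X₀ ≤ X → ∀ y : ℝ, 1 ≤ y → y ≤ X →
    ∀ A B : ℝ, |∑ q ∈ RO (zz X) X, nu q * ((if (q : ℝ) ≤ y then 1 else 0) * (A + B * Real.log q)) -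
      Vz (zz X) * (A * Real.log y + B * (Real.log y ^ 2 / 2))| ≤
      ε * (Vz (zz X) * Real.log X) * (|A| + |B| * Real.log X) := by
  obtain ⟨N₀, hN₀⟩ := sum_nu_pr hε
  obtain ⟨N₁, hN₁⟩ := sum_log_pr hε
  refine ⟨max N₀ N₁, fun X hX y hy hyX A B => ?_⟩
  have h1 := hN₀ X ((le_max_left _ _).trans hX) y hy hyX
  have h2 := hN₁ X ((le_max_right _ _).trans hX) y hy hyX
  have h3 : ∑ q ∈ RO (zz X) X, nu q * ((if (q : ℝ) ≤ y then 1 else 0) * (A + B * Real.log q)) =
      A * ∑ q ∈ (RO (zz X) X).filter (fun q : ℕ => (q : ℝ) ≤ y), nu q +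
      B * ∑ q ∈ (RO (zz X) X).filter (fun q : ℕ => (q : ℝ) ≤ y), nu q * Real.log q := by
    rw [Finset.mul_sum, Finset.mul_sum, ← Finset.sum_add_distrib, Finset.sum_filter]
    refine Finset.sum_congr rfl fun q _ => ?_
    split_ifs
    · ring
    · ring
  rw [h3]
  set S := ∑ q ∈ (RO (zz X) X).filter (fun q : ℕ => (q : ℝ) ≤ y), nu q
  set S' := ∑ q ∈ (RO (zz X) X).filter (fun q : ℕ => (q : ℝ) ≤ y), nu q * Real.log q
  have e1 : A * S + B * S' - Vz (zz X) * (A * Real.log y + B * (Real.log y ^ 2 / 2)) =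
      A * (S - Vz (zz X) * Real.log y) + B * (S' - Vz (zz X) * (Real.log y ^ 2 / 2)) := by ring
  rw [e1]
  refine (abs_add_le _ _).trans ?_
  rw [abs_mul, abs_mul]
  have a1 := mul_le_mul_of_nonneg_left h1 (abs_nonneg A)
  have a2 := mul_le_mul_of_nonneg_left h2 (abs_nonneg B)
  refine (add_le_add a1 a2).trans (le_of_eq ?_)
  ring

/-- the multiples of `p` -/
theorem bic_dvd {z X p : ℕ} (hp : p.Prime) :
    ∑ q ∈ (RO z X).filter (fun q => p ∣ q), nu q ≤ 2 / p * ∑ q ∈ RO z X, nu q := by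
  classical
  have hp0 : (0 : ℝ) < p := by exact_mod_cast hp.pos
  have hp2 : (2 : ℝ) ≤ p := by exact_mod_cast hp.two_le
  have h1 : ∀ q ∈ (RO z X).filter (fun q => p ∣ q), nu q ≤ 2 / p * nu (q / p) := by
    intro q hq
    rw [Finset.mem_filter] at hq
    obtain ⟨b1, b2, b3⟩ := GDL_mem_RO.1 hq.1
    obtain ⟨m, rfl⟩ := hq.2
    rw [Nat.mul_div_cancel_left _ hp.pos]
    have hm : 1 ≤ m := by
      rw [Nat.one_le_iff_ne_zero]
      rintro rfl
      omega
    by_cases hpm : p ∣ m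
    · have h2 : nu (p * m) = 0 := by
        unfold nu
        rw [bil_mu_zero, zero_pow two_ne_zero, zero_div]
        intro h
        have := Nat.squarefree_mul_iff.1 h
        exact (Nat.Prime.coprime_iff_not_dvd hp).1 this.1 hpm
      rw [h2]
      have := bic_nu_nonneg m
      positivity
    · have h3 := GDL_phi_pos hm
      unfold nu
      rw [bil_mu_mul hp hpm, bil_phi_mul hp hpm, neg_sq]
      have h4 : (p : ℝ) / 2 ≤ p - 1 := by linarith
      calc mu m ^ 2 / ((p - 1) * phi m) ≤ mu m ^ 2 / (p / 2 * phi m) := by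
            refine div_le_div_of_nonneg_left (sq_nonneg _) (by positivity) ?_
            exact mul_le_mul_of_nonneg_right h4 h3.le
        _ = _ := by field_simp
  refine (Finset.sum_le_sum h1).trans ?_
  rw [← Finset.mul_sum]
  refine mul_le_mul_of_nonneg_left ?_ (by positivity)
  have h2 : ∑ q ∈ (RO z X).filter (fun q => p ∣ q), nu (q / p) =
      ∑ m ∈ ((RO z X).filter (fun q => p ∣ q)).image (fun q => q / p), nu m := by
    rw [Finset.sum_image]
    intro a ha b hb hab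
    rw [Finset.mem_coe, Finset.mem_filter] at ha hb
    simp only at hab
    rw [← Nat.div_mul_cancel ha.2, ← Nat.div_mul_cancel hb.2, hab]
  rw [h2]
  refine Finset.sum_le_sum_of_subset_of_nonneg ?_ fun m _ _ => bic_nu_nonneg m
  intro m hm
  rw [Finset.mem_image] at hm
  obtain ⟨q, hq, rfl⟩ := hm
  rw [Finset.mem_filter] at hq
  obtain ⟨b1, b2, b3⟩ := GDL_mem_RO.1 hq.1
  rw [GDL_mem_RO]
  refine ⟨Nat.div_pos (Nat.le_of_dvd b1 hq.2) hp.pos, (Nat.div_le_self _ _).trans b2, ?_⟩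
  intro r hr hrq
  exact b3 r hr (hrq.trans (Nat.div_dvd_of_dvd hq.2))

/-- the indicator function of the range -/
noncomputable def ia (δ : ℝ) (X : ℕ) (x : ℝ) : ℝ := if x ≤ MM δ X then 1 else 0

theorem mP_eq (δ : ℝ) (X : ℕ) (x : ℝ) : mP δ X x = ia δ X x / Real.log (MM δ X) := by
  unfold mP ia
  split_ifs
  · rfl
  · simp

theorem mL_eq (δ : ℝ) (X : ℕ) (x : ℝ) :
    mL δ X x = ia δ X x * (2 * Real.log x - Real.log (MM δ X)) / Real.log (MM δ X) := by
  unfold mL ia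
  split_ifs
  · rw [one_mul]
  · simp

/-- bounds for the main terms -/
theorem bic_mP {δ : ℝ} {X : ℕ} {LX : ℝ} (hX : 0 < LX) (h1 : LX / 5 ≤ Real.log (MM δ X)) {x : ℝ}
    (hx : 1 ≤ x) : |mP δ X x| ≤ 5 / LX ∧ |mL δ X x| ≤ 1 := by
  have hL : 0 < Real.log (MM δ X) := lt_of_lt_of_le (by positivity) h1
  have hM : (0 : ℝ) < MM δ X := by
    rcases Nat.eq_zero_or_pos (MM δ X) with h | h
    · rw [h] at hL
      simp at hL
    · exact_mod_cast h
  unfold mP mL
  constructor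
  · split_ifs
    · rw [abs_of_pos (by positivity), div_le_div_iff₀ hL hX]
      linarith
    · rw [abs_zero]
      positivity
  · split_ifs with h
    · have h2 : Real.log x ≤ Real.log (MM δ X) := Real.log_le_log (by linarith) h
      have h3 : 0 ≤ Real.log x := Real.log_nonneg hx
      rw [abs_div, abs_of_pos hL, div_le_one hL, abs_le]
      constructor <;> linarith
    · simp

theorem bic_er {C ε δ : ℝ} (hC : 0 ≤ C) (hε : 0 ≤ ε) (X : ℕ) (x : ℝ) :
    0 ≤ erP C ε δ X x ∧ erP C ε δ X x ≤ ε + C := by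
  unfold erP
  constructor
  · split_ifs <;> linarith
  · split_ifs <;> linarith

end Pool.Agent.LSP
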