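import Pool.Agent.Lib_helper15.LSP2.BIC

/-! LSP2, part M2, block BIL: the cross form for a fixed prime. -/

namespace Pool.Agent.LSP

open Pool.Agent.LEV Pool.Agent.LVB Pool.Agent.KSL
open Pool.Agent.FG61 (mu phi cc ff AA Lam)
open Filter

/-- the integrand at the main terms -/
noncomputable def Fm (δ₀ δ₁ LN ρ : ℝ) (X p q : ℕ) : ℝ :=
  Fc LN (Real.log q) (Real.log p) ρ (mP δ₀ X q) (mP δ₀ X ((p * q : ℕ) : ℝ)) (mL δ₀ X q)
    (mL δ₀ X ((p * q : ℕ) : ℝ)) (mP δ₁ X q) (mP δ₁ X ((p * q : ℕ) : ℝ)) (mL δ₁ X q)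
    (mL δ₁ X ((p * q : ℕ) : ℝ))

/-- the integrand -/
noncomputable def Fa (δ₀ δ₁ LN : ℝ) (X p q : ℕ) : ℝ :=
  Fc LN (Real.log q) (Real.log p) (p / (p - 1)) (prP δ₀ X q) (prP δ₀ X (p * q))
    (prL δ₀ X q) (prL δ₀ X (p * q)) (prP δ₁ X q) (prP δ₁ X (p * q)) (prL δ₁ X q)
    (prL δ₁ X (p * q))

theorem bid_main {δ₀ δ₁ LN ε : ℝ} {X p : ℕ} (hε : 0 < ε) (hp : p.Prime)
    (s0 : Real.log X / 5 ≤ Real.log (MM δ₀ X)) (s0' : Real.log (MM δ₀ X) ≤ Real.log X)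
    (s1 : Real.log X / 5 ≤ Real.log (MM δ₁ X)) (s1' : Real.log (MM δ₁ X) ≤ Real.log X)
    (hLX : 1 ≤ Real.log X) (hM1 : 1 ≤ MM δ₁ X)
    (h2M0 : 2 * MM δ₀ X ≤ X) (hM10 : MM δ₁ X ≤ MM δ₀ X) (hM0p : MM δ₀ X ≤ p * MM δ₁ X)
    (hpM1 : p ≤ MM δ₁ X) (hLN0 : 0 ≤ LN) (hLN1 : LN ≤ 2 * Real.log X)
    (cut : ∀ y : ℝ, 1 ≤ y → y ≤ X → ∀ A B : ℝ,
      |∑ q ∈ RO (zz X) X, nu q * ((if (q : ℝ) ≤ y then 1 else 0) * (A + B * Real.log q)) -
      Vz (zz X) * (A * Real.log y + B * (Real.log y ^ 2 / 2))| ≤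
      ε * (Vz (zz X) * Real.log X) * (|A| + |B| * Real.log X)) :
    |∑ q ∈ RO (zz X) X, nu q * Fm δ₀ δ₁ LN 1 X p q - Vz (zz X) *
      (LN / Real.log (MM δ₀ X) *
            ((Real.log (MM δ₁ X) - Real.log (MM δ₀ X) + Real.log p) / Real.log (MM δ₁ X)) +
          Real.log p / Real.log (MM δ₁ X) * (LN / Real.log (MM δ₀ X) + 2))| ≤
      1000 * ε * Vz (zz X) := by
  have hV := phi_Vz_pos (zz X)
  set V := Vz (zz X) with hVd
  set LX := Real.log X with hLXd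
  set L0 := Real.log (MM δ₀ X) with hL0d
  set L1 := Real.log (MM δ₁ X) with hL1d
  set lp := Real.log p with hlpd
  have hp0 : (0 : ℝ) < p := by exact_mod_cast hp.pos
  have hp1 : (1 : ℝ) ≤ p := by exact_mod_cast hp.one_lt.le
  have hlp0 : 0 ≤ lp := Real.log_nonneg hp1
  have hM1r : (1 : ℝ) ≤ MM δ₁ X := by exact_mod_cast hM1
  have hM0r : (1 : ℝ) ≤ MM δ₀ X := by exact_mod_cast hM1.trans hM10
  have hM10r : (MM δ₁ X : ℝ) ≤ MM δ₀ X := by exact_mod_cast hM10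
  have hpM1r : (p : ℝ) ≤ MM δ₁ X := by exact_mod_cast hpM1
  have hM0X : (MM δ₀ X : ℝ) ≤ X := by
    have : MM δ₀ X ≤ X := by omega
    exact_mod_cast this
  have hM0pr : (MM δ₀ X : ℝ) ≤ p * MM δ₁ X := by exact_mod_cast hM0p
  have hlp1 : lp ≤ L1 := Real.log_le_log hp0 hpM1r
  have hL0 : 0 < L0 := by linarith
  have hL1 : 0 < L1 := by linarith
  have hLX0 : 0 < LX := by linarith
  -- pointwise
  have h1 : ∀ q ∈ RO (zz X) X, nu q * Fm δ₀ δ₁ LN 1 X p q =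
      (nu q * ((if (q : ℝ) ≤ MM δ₁ X then 1 else 0) *
        ((2 * LN + 4 * L1 + 4 * L0 - 2 * lp) + -8 * Real.log q)) +
      nu q * ((if (q : ℝ) ≤ MM δ₁ X / p then 1 else 0) *
        ((-LN + 2 * lp - 2 * L1 - 2 * L0) + 4 * Real.log q)) +
      nu q * ((if (q : ℝ) ≤ MM δ₀ X / p then 1 else 0) *
        ((-LN + 2 * lp - 2 * L1 - 2 * L0) + 4 * Real.log q))) / (L0 * L1) := by
    intro q hq
    obtain ⟨q1, -, -⟩ := GDL_mem_RO.1 hq
    have hq1 : (1 : ℝ) ≤ q := by exact_mod_cast q1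
    have hq0 : (0 : ℝ) < q := by linarith
    have hlog : Real.log ((p * q : ℕ) : ℝ) = lp + Real.log q := by
      rw [Nat.cast_mul, Real.log_mul hp0.ne' hq0.ne']
    have i1 : ia δ₁ X ((p * q : ℕ) : ℝ) = if (q : ℝ) ≤ MM δ₁ X / p then 1 else 0 := by
      unfold ia
      have : (((p * q : ℕ) : ℝ) ≤ MM δ₁ X) ↔ ((q : ℝ) ≤ MM δ₁ X / p) := by
        rw [le_div_iff₀ hp0, Nat.cast_mul, mul_comm]
      simp only [this]
    have i2 : ia δ₀ X ((p * q : ℕ) : ℝ) = if (q : ℝ) ≤ MM δ₀ X / p then 1 else 0 := by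
      unfold ia
      have : (((p * q : ℕ) : ℝ) ≤ MM δ₀ X) ↔ ((q : ℝ) ≤ MM δ₀ X / p) := by
        rw [le_div_iff₀ hp0, Nat.cast_mul, mul_comm]
      simp only [this]
    have e1 : ia δ₀ X q * ia δ₁ X q = ia δ₁ X q := by
      unfold ia
      split_ifs with a b b
      · simp
      · simp
      · exact absurd (b.trans hM10r) a
      · simp
    have e2 : ia δ₀ X q * ia δ₁ X ((p * q : ℕ) : ℝ) = ia δ₁ X ((p * q : ℕ) : ℝ) := by
      rw [i1]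
      unfold ia
      split_ifs with a b b
      · simp
      · simp
      · refine absurd ?_ a
        have : (MM δ₁ X : ℝ) / p ≤ MM δ₁ X := div_le_self (by linarith) hp1
        linarith
      · simp
    have e3 : ia δ₀ X ((p * q : ℕ) : ℝ) * ia δ₁ X q = ia δ₀ X ((p * q : ℕ) : ℝ) := by
      rw [i2]
      unfold ia
      split_ifs with a b b
      · simp
      · refine absurd ?_ b
        have : (MM δ₀ X : ℝ) / p ≤ MM δ₁ X := by
          rw [div_le_iff₀ hp0]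
          linarith
        linarith
      · simp
      · simp
    unfold Fm
    rw [mP_eq, mP_eq, mP_eq, mP_eq, mL_eq, mL_eq, mL_eq, mL_eq, hlog]
    rw [Fc_main hL0.ne' hL1.ne' e1 e2 e3, i1, i2]
    have i3 : ia δ₁ X q = if (q : ℝ) ≤ MM δ₁ X then 1 else 0 := rfl
    rw [i3]
    ring
  rw [Finset.sum_congr rfl h1, ← Finset.sum_div, Finset.sum_add_distrib, Finset.sum_add_distrib]
  have c1 := cut (MM δ₁ X) hM1r (hM10r.trans hM0X) (2 * LN + 4 * L1 + 4 * L0 - 2 * lp) (-8)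
  have hy1 : 1 ≤ (MM δ₁ X : ℝ) / p := by
    rw [le_div_iff₀ hp0]
    linarith
  have hy0 : 1 ≤ (MM δ₀ X : ℝ) / p := by
    rw [le_div_iff₀ hp0]
    linarith
  have c2 := cut (MM δ₁ X / p) hy1 ((div_le_self (by linarith) hp1).trans (hM10r.trans hM0X))
    (-LN + 2 * lp - 2 * L1 - 2 * L0) 4
  have c3 := cut (MM δ₀ X / p) hy0 ((div_le_self (by linarith) hp1).trans hM0X)
    (-LN + 2 * lp - 2 * L1 - 2 * L0) 4
  have l1 : Real.log (MM δ₁ X / p : ℝ) = L1 - lp := Real.log_div (by linarith) hp0.ne'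
  have l0 : Real.log (MM δ₀ X / p : ℝ) = L0 - lp := Real.log_div (by linarith) hp0.ne'
  rw [l1] at c2
  rw [l0] at c3
  set S1 := ∑ q ∈ RO (zz X) X, nu q * ((if (q : ℝ) ≤ MM δ₁ X then 1 else 0) *
        ((2 * LN + 4 * L1 + 4 * L0 - 2 * lp) + -8 * Real.log q))
  set S2 := ∑ q ∈ RO (zz X) X, nu q * ((if (q : ℝ) ≤ MM δ₁ X / p then 1 else 0) *
        ((-LN + 2 * lp - 2 * L1 - 2 * L0) + 4 * Real.log q))
  set S3 := ∑ q ∈ RO (zz X) X, nu q * ((if (q : ℝ) ≤ MM δ₀ X / p then 1 else 0) *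
        ((-LN + 2 * lp - 2 * L1 - 2 * L0) + 4 * Real.log q))
  have hA1 : |2 * LN + 4 * L1 + 4 * L0 - 2 * lp| + |(-8 : ℝ)| * LX ≤ 20 * LX := by
    rw [abs_of_nonneg (by linarith : 0 ≤ 2 * LN + 4 * L1 + 4 * L0 - 2 * lp)]
    rw [show |(-8 : ℝ)| = 8 by norm_num]
    linarith
  have hA2 : |-LN + 2 * lp - 2 * L1 - 2 * L0| + |(4 : ℝ)| * LX ≤ 10 * LX := by
    rw [abs_of_nonpos (by linarith : -LN + 2 * lp - 2 * L1 - 2 * L0 ≤ 0)]
    rw [show |(4 : ℝ)| = 4 by norm_num]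
    linarith
  have hE0 : 0 ≤ ε * (V * LX) := by positivity
  have c1' := c1.trans (mul_le_mul_of_nonneg_left hA1 hE0)
  have c2' := c2.trans (mul_le_mul_of_nonneg_left hA2 hE0)
  have c3' := c3.trans (mul_le_mul_of_nonneg_left hA2 hE0)
  have key : (S1 + S2 + S3) / (L0 * L1) - V *
      (LN / L0 * ((L1 - L0 + lp) / L1) + lp / L1 * (LN / L0 + 2)) =
      ((S1 - V * ((2 * LN + 4 * L1 + 4 * L0 - 2 * lp) * L1 + -8 * (L1 ^ 2 / 2))) +
       (S2 - V * ((-LN + 2 * lp - 2 * L1 - 2 * L0) * (L1 - lp) + 4 * ((L1 - lp) ^ 2 / 2))) +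
       (S3 - V * ((-LN + 2 * lp - 2 * L1 - 2 * L0) * (L0 - lp) + 4 * ((L0 - lp) ^ 2 / 2)))) /
        (L0 * L1) := by
    field_simp
    ring
  rw [key, abs_div, abs_of_pos (by positivity : 0 < L0 * L1), div_le_iff₀ (by positivity)]
  refine (abs_add_le _ _).trans ((add_le_add (abs_add_le _ _) le_rfl).trans ?_)
  have hLL : LX ^ 2 / 25 ≤ L0 * L1 := by
    have := mul_le_mul s0 s1 (by positivity) hL0.le
    linarith
  calc _ ≤ ε * (V * LX) * (20 * LX) + ε * (V * LX) * (10 * LX) + ε * (V * LX) * (10 * LX) :=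
        add_le_add (add_le_add c1' c2') c3'
    _ = 1000 * ε * V * (LX ^ 2 / 25) := by ring
    _ ≤ _ := mul_le_mul_of_nonneg_left hLL (by positivity)

end Pool.Agent.LSP
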