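import Pool.Agent.Lib_helper15.LSP2.BID

/-! LSP2, part M2, block BIL: the cross form. -/

namespace Pool.Agent.LSP

open Pool.Agent.LEV Pool.Agent.LVB Pool.Agent.KSL
open Pool.Agent.FG61 (mu phi cc ff AA Lam)
open Filter

/-- the error at one denominator -/
theorem bie_pt {δ₀ δ₁ C ε LN : ℝ} {X p q : ℕ} (hC : 1 ≤ C) (hε : 0 < ε) (hε1 : ε ≤ 1)
    (hp : p.Prime) (hzp : zz X < p) (hpX : p ≤ X)
    (s0 : Real.log X / 5 ≤ Real.log (MM δ₀ X)) (s1 : Real.log X / 5 ≤ Real.log (MM δ₁ X))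
    (hLX : 1 ≤ Real.log X) (hLN0 : 0 ≤ LN) (hLN1 : LN ≤ 2 * Real.log X)
    (pr0 : ∀ q : ℕ, 1 ≤ q → Squarefree q → rough (zz X) q →
      |prP δ₀ X q - mP δ₀ X q| ≤ erP C ε δ₀ X q / Real.log X ∧
      |prL δ₀ X q - mL δ₀ X q| ≤ erP C ε δ₀ X q)
    (pr1 : ∀ q : ℕ, 1 ≤ q → Squarefree q → rough (zz X) q →
      |prP δ₁ X q - mP δ₁ X q| ≤ erP C ε δ₁ X q / Real.log X ∧
      |prL δ₁ X q - mL δ₁ X q| ≤ erP C ε δ₁ X q)
    (hq : q ∈ (RO (zz X) X).filter (fun q => ¬ p ∣ q)) :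
    |nu q * Fa δ₀ δ₁ LN X p q - nu q * Fm δ₀ δ₁ LN 1 X p q| ≤
      nu q * (96 * (C + 7) * (erP C ε δ₀ X q + erP C ε δ₀ X (p * q) + erP C ε δ₁ X q +
        erP C ε δ₁ X (p * q)) / Real.log X + 100 / (p * Real.log X)) := by
  rw [Finset.mem_filter] at hq
  obtain ⟨q1, q2, q3⟩ := GDL_mem_RO.1 hq.1
  have hnu := bic_nu_nonneg q
  set LX := Real.log X with hLXd
  have hLX0 : 0 < LX := by linarith
  have hp0 : (0 : ℝ) < p := by exact_mod_cast hp.pos
  have hp2 : (2 : ℝ) ≤ p := by exact_mod_cast hp.two_le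
  rw [← mul_sub, abs_mul, abs_of_nonneg hnu]
  by_cases hsq : Squarefree q
  · refine mul_le_mul_of_nonneg_left ?_ hnu
    have hpq : 1 ≤ p * q := Nat.mul_pos hp.pos q1
    have hsq' : Squarefree (p * q) :=
      (Nat.squarefree_mul ((Nat.Prime.coprime_iff_not_dvd hp).2 hq.2)).2
        ⟨hp.squarefree, hsq⟩
    have hr' : rough (zz X) (p * q) := by
      intro r hr hrpq
      rcases (Nat.Prime.dvd_mul hr).1 hrpq with h | h
      · rw [(Nat.prime_dvd_prime_iff_eq hr hp).1 h]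
        exact hzp
      · exact q3 r hr h
    obtain ⟨a1, a3⟩ := pr0 q q1 hsq q3
    obtain ⟨a2, a4⟩ := pr0 _ hpq hsq' hr'
    obtain ⟨b1, b3⟩ := pr1 q q1 hsq q3
    obtain ⟨b2, b4⟩ := pr1 _ hpq hsq' hr'
    have hq1r : (1 : ℝ) ≤ q := by exact_mod_cast q1
    have hpq1r : (1 : ℝ) ≤ ((p * q : ℕ) : ℝ) := by exact_mod_cast hpq
    obtain ⟨c1, c3⟩ := bic_mP (x := q) hLX0 s0 hq1r
    obtain ⟨c2, c4⟩ := bic_mP (x := ((p * q : ℕ) : ℝ)) hLX0 s0 hpq1r
    obtain ⟨d1, d3⟩ := bic_mP (x := q) hLX0 s1 hq1r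
    obtain ⟨d2, d4⟩ := bic_mP (x := ((p * q : ℕ) : ℝ)) hLX0 s1 hpq1r
    have hK0 : 0 ≤ C + 7 := by linarith
    have hcast : ((p * q : ℕ) : ℝ) = p * q := Nat.cast_mul _ _
    have hbig : ∀ u w e : ℝ, |u - w| ≤ e / LX → |w| ≤ 5 / LX → e ≤ ε + C →
        |u| ≤ (C + 7) / LX := by
      intro u w e h1 h2 h3
      have h4 : |u| ≤ |u - w| + |w| := by
        have := abs_add_le (u - w) w
        rwa [sub_add_cancel] at this
      have h5 : e / LX + 5 / LX ≤ (C + 7) / LX := by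
        rw [← add_div]
        exact div_le_div_of_nonneg_right (by linarith) hLX0.le
      linarith
    have hbig' : ∀ u w e : ℝ, |u - w| ≤ e → |w| ≤ 1 → e ≤ ε + C → |u| ≤ C + 7 := by
      intro u w e h1 h2 h3
      have h4 : |u| ≤ |u - w| + |w| := by
        have := abs_add_le (u - w) w
        rwa [sub_add_cancel] at this
      linarith
    have h5K : 5 / LX ≤ (C + 7) / LX := div_le_div_of_nonneg_right (by linarith) hLX0.le
    have hr0 : (0 : ℝ) ≤ p / (p - 1) := div_nonneg hp0.le (by linarith)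
    have hr2 : (p : ℝ) / (p - 1) ≤ 2 := by
      rw [div_le_iff₀ (by linarith)]
      linarith
    have hlq0 : 0 ≤ Real.log q := Real.log_nonneg hq1r
    have hlqX : Real.log q ≤ LX := Real.log_le_log (by linarith) (by exact_mod_cast q2)
    have hlp0 : 0 ≤ Real.log p := Real.log_nonneg (by linarith)
    have hlpX : Real.log p ≤ LX := Real.log_le_log hp0 (by exact_mod_cast hpX)
    have er1 := (bic_er (C := C) (ε := ε) (δ := δ₁) (by linarith) hε.le X q).2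
    have er2 := (bic_er (C := C) (ε := ε) (δ := δ₁) (by linarith) hε.le X ((p * q : ℕ) : ℝ)).2
    have h1 := Fc_err (ρ := (p : ℝ) / (p - 1)) hLX0 hK0 hLN0 hLN1 hlq0 hlqX hlp0 hlpX hr0 hr2
      a1 a2 a3 a4 b1 b2 b3 b4 (c1.trans h5K) (c2.trans h5K) (by linarith) (by linarith)
      (hbig _ _ _ b1 d1 er1) (hbig _ _ _ b2 d2 er2) (hbig' _ _ _ b3 d3 er1)
      (hbig' _ _ _ b4 d4 er2)
    have h2 : |Fm δ₀ δ₁ LN (p / (p - 1)) X p q - Fm δ₀ δ₁ LN 1 X p q| ≤ 100 / (p * LX) := by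
      have e1 : Fm δ₀ δ₁ LN (p / (p - 1)) X p q - Fm δ₀ δ₁ LN 1 X p q =
          -(2 * (1 / (p - 1)) * Real.log p * (mP δ₀ X q * mP δ₁ X ((p * q : ℕ) : ℝ))) := by
        unfold Fm Fc
        have : (p : ℝ) / (p - 1) = 1 + 1 / (p - 1) := by
          have : (p : ℝ) - 1 ≠ 0 := by linarith
          field_simp
          ring
        rw [this]
        ring
      rw [e1, abs_neg, abs_mul, abs_mul (mP δ₀ X q)]
      have hpi : 0 ≤ 1 / ((p : ℝ) - 1) := div_nonneg zero_le_one (by linarith)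
      have hpi2 : 1 / ((p : ℝ) - 1) ≤ 2 / p := by
        rw [div_le_div_iff₀ (by linarith) hp0]
        linarith
      rw [abs_of_nonneg (by positivity)]
      have k1 : 2 * (1 / ((p : ℝ) - 1)) * Real.log p ≤ 2 * (2 / p) * LX :=
        mul_le_mul (by linarith) hlpX hlp0 (by positivity)
      have k2 : |mP δ₀ X q| * |mP δ₁ X ((p * q : ℕ) : ℝ)| ≤ 5 / LX * (5 / LX) :=
        mul_le_mul c1 d2 (abs_nonneg _) (by positivity)
      calc _ ≤ 2 * (2 / p) * LX * (5 / LX * (5 / LX)) :=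
            mul_le_mul k1 k2 (by positivity) (by positivity)
        _ = _ := by
            field_simp
            ring
    have h3 : |Fa δ₀ δ₁ LN X p q - Fm δ₀ δ₁ LN 1 X p q| ≤
        |Fa δ₀ δ₁ LN X p q - Fm δ₀ δ₁ LN (p / (p - 1)) X p q| +
        |Fm δ₀ δ₁ LN (p / (p - 1)) X p q - Fm δ₀ δ₁ LN 1 X p q| := abs_sub_le _ _ _
    refine h3.trans (add_le_add ?_ h2)
    rw [hcast] at h1
    unfold Fa Fm
    rw [hcast]
    exact h1
  · have h0 : nu q = 0 := by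
      unfold nu
      rw [bil_mu_zero hsq, zero_pow two_ne_zero, zero_div]
    rw [h0]
    simp

/-- the size of the main integrand -/
theorem bie_size {δ₀ δ₁ LN : ℝ} {X p q : ℕ} (hp : p.Prime) (hpX : p ≤ X)
    (s0 : Real.log X / 5 ≤ Real.log (MM δ₀ X)) (s1 : Real.log X / 5 ≤ Real.log (MM δ₁ X))
    (hLX : 1 ≤ Real.log X) (hLN0 : 0 ≤ LN) (hLN1 : LN ≤ 2 * Real.log X) (hq : q ∈ RO (zz X) X) :
    |Fm δ₀ δ₁ LN 1 X p q| ≤ 10000 / Real.log X := by
  obtain ⟨q1, q2, q3⟩ := GDL_mem_RO.1 hq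
  set LX := Real.log X with hLXd
  have hLX0 : 0 < LX := by linarith
  have hp0 : (0 : ℝ) < p := by exact_mod_cast hp.pos
  have hp2 : (2 : ℝ) ≤ p := by exact_mod_cast hp.two_le
  have hpq : 1 ≤ p * q := Nat.mul_pos hp.pos q1
  have hq1r : (1 : ℝ) ≤ q := by exact_mod_cast q1
  have hpq1r : (1 : ℝ) ≤ ((p * q : ℕ) : ℝ) := by exact_mod_cast hpq
  obtain ⟨c1, c3⟩ := bic_mP (x := q) hLX0 s0 hq1r
  obtain ⟨c2, c4⟩ := bic_mP (x := ((p * q : ℕ) : ℝ)) hLX0 s0 hpq1r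
  obtain ⟨d1, d3⟩ := bic_mP (x := q) hLX0 s1 hq1r
  obtain ⟨d2, d4⟩ := bic_mP (x := ((p * q : ℕ) : ℝ)) hLX0 s1 hpq1r
  have hlq0 : 0 ≤ Real.log q := Real.log_nonneg hq1r
  have hlqX : Real.log q ≤ LX := Real.log_le_log (by linarith) (by exact_mod_cast q2)
  have hlp0 : 0 ≤ Real.log p := Real.log_nonneg (by linarith)
  have hlpX : Real.log p ≤ LX := Real.log_le_log hp0 (by exact_mod_cast hpX)
  have h1 := Fc_size (K := 5) (ρ := 1) hLX0 (by norm_num) hLN0 hLN1 hlq0 hlqX hlp0 hlpX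
    zero_le_one one_le_two c1 c2 (c3.trans (by norm_num)) (c4.trans (by norm_num)) d1 d2
    (d3.trans (by norm_num)) (d4.trans (by norm_num))
  unfold Fm
  refine h1.trans (le_of_eq ?_)
  norm_num

/-- the cross form for a fixed prime -/
theorem bie_core {δ₀ δ₁ C ε LN : ℝ} {X p : ℕ} (hC : 1 ≤ C) (hε : 0 < ε) (hε1 : ε ≤ 1)
    (hp : p.Prime) (hzp : zz X < p)
    (s0 : Real.log X / 5 ≤ Real.log (MM δ₀ X)) (s0' : Real.log (MM δ₀ X) ≤ Real.log X)
    (s1 : Real.log X / 5 ≤ Real.log (MM δ₁ X)) (s1' : Real.log (MM δ₁ X) ≤ Real.log X)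
    (hLX : 1 ≤ Real.log X) (hM1 : 1 ≤ MM δ₁ X) (hX1 : 1 ≤ X)
    (h2M0 : 2 * MM δ₀ X ≤ X) (hM10 : MM δ₁ X ≤ MM δ₀ X) (hM0p : MM δ₀ X ≤ p * MM δ₁ X)
    (hpM1 : p ≤ MM δ₁ X) (hLN0 : 0 ≤ LN) (hLN1 : LN ≤ 2 * Real.log X)
    (pr0 : ∀ q : ℕ, 1 ≤ q → Squarefree q → rough (zz X) q →
      |prP δ₀ X q - mP δ₀ X q| ≤ erP C ε δ₀ X q / Real.log X ∧
      |prL δ₀ X q - mL δ₀ X q| ≤ erP C ε δ₀ X q)
    (pr1 : ∀ q : ℕ, 1 ≤ q → Squarefree q → rough (zz X) q →
      |prP δ₁ X q - mP δ₁ X q| ≤ erP C ε δ₁ X q / Real.log X ∧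
      |prL δ₁ X q - mL δ₁ X q| ≤ erP C ε δ₁ X q)
    (er0 : ∀ s : ℝ, 1 ≤ s → ∑ q ∈ RO (zz X) X, nu q * erP C ε δ₀ X (s * q) ≤
      (8 + 8 * C) * ε * (Vz (zz X) * Real.log X))
    (er1 : ∀ s : ℝ, 1 ≤ s → ∑ q ∈ RO (zz X) X, nu q * erP C ε δ₁ X (s * q) ≤
      (8 + 8 * C) * ε * (Vz (zz X) * Real.log X))
    (cut : ∀ y : ℝ, 1 ≤ y → y ≤ X → ∀ A B : ℝ,
      |∑ q ∈ RO (zz X) X, nu q * ((if (q : ℝ) ≤ y then 1 else 0) * (A + B * Real.log q)) -
      Vz (zz X) * (A * Real.log y + B * (Real.log y ^ 2 / 2))| ≤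
      ε * (Vz (zz X) * Real.log X) * (|A| + |B| * Real.log X)) :
    |1 / Vz (zz X) * ∑ q ∈ (RO (zz X) X).filter (fun q => ¬ p ∣ q), nu q * Fa δ₀ δ₁ LN X p q -
      (LN / Real.log (MM δ₀ X) *
            ((Real.log (MM δ₁ X) - Real.log (MM δ₀ X) + Real.log p) / Real.log (MM δ₁ X)) +
          Real.log p / Real.log (MM δ₁ X) * (LN / Real.log (MM δ₀ X) + 2))| ≤
      (3072 * (C + 7) * (1 + C) + 1000) * ε + 50000 / p := by
  have hmain := bid_main hε hp s0 s0' s1 s1' hLX hM1 h2M0 hM10 hM0p hpM1 hLN0 hLN1 cut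
  have hV := phi_Vz_pos (zz X)
  have hp0 : (0 : ℝ) < p := by exact_mod_cast hp.pos
  have hp1 : (1 : ℝ) ≤ p := by exact_mod_cast hp.one_lt.le
  have hpX : p ≤ X := by omega
  set T := LN / Real.log (MM δ₀ X) *
            ((Real.log (MM δ₁ X) - Real.log (MM δ₀ X) + Real.log p) / Real.log (MM δ₁ X)) +
          Real.log p / Real.log (MM δ₁ X) * (LN / Real.log (MM δ₀ X) + 2) with hT
  set V := Vz (zz X) with hVd
  set LX := Real.log X with hLXd
  have hLX0 : 0 < LX := by linarith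
  set Sp := (RO (zz X) X).filter (fun q => ¬ p ∣ q) with hSp
  -- the total sum
  have hX1r : (1 : ℝ) ≤ X := by exact_mod_cast hX1
  have hS : ∑ q ∈ RO (zz X) X, nu q ≤ 2 * (V * LX) := by
    have h := cut X hX1r le_rfl 1 0
    have e1 : ∑ q ∈ RO (zz X) X, nu q * ((if (q : ℝ) ≤ X then 1 else 0) *
        (1 + 0 * Real.log q)) = ∑ q ∈ RO (zz X) X, nu q := by
      refine Finset.sum_congr rfl fun q hq => ?_
      obtain ⟨q1, q2, q3⟩ := GDL_mem_RO.1 hq
      rw [if_pos (by exact_mod_cast q2)]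
      ring
    rw [e1] at h
    have h2 := (abs_le.1 h).2
    simp only [one_mul, zero_mul, add_zero, abs_one, abs_zero, mul_one] at h2
    have h3 : ε * (V * LX) ≤ 1 * (V * LX) := mul_le_mul_of_nonneg_right hε1 (by positivity)
    linarith
  -- first comparison
  have h1 : |∑ q ∈ Sp, nu q * Fa δ₀ δ₁ LN X p q - ∑ q ∈ Sp, nu q * Fm δ₀ δ₁ LN 1 X p q| ≤
      V * (3072 * (C + 7) * (1 + C) * ε + 200 / p) := by
    rw [← Finset.sum_sub_distrib]
    refine (Finset.abs_sum_le_sum_abs _ _).trans ?_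
    refine (Finset.sum_le_sum fun q hq => bie_pt hC hε hε1 hp hzp hpX s0 s1 hLX hLN0 hLN1 pr0 pr1
      hq).trans ?_
    have hsub : Sp ⊆ RO (zz X) X := Finset.filter_subset _ _
    refine (Finset.sum_le_sum_of_subset_of_nonneg hsub fun q _ _ => ?_).trans ?_
    · have a1 := (bic_er (C := C) (ε := ε) (δ := δ₀) (by linarith) hε.le X q).1
      have a2 := (bic_er (C := C) (ε := ε) (δ := δ₀) (by linarith) hε.le X (p * q)).1
      have a3 := (bic_er (C := C) (ε := ε) (δ := δ₁) (by linarith) hε.le X q).1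
      have a4 := (bic_er (C := C) (ε := ε) (δ := δ₁) (by linarith) hε.le X (p * q)).1
      have a5 := bic_nu_nonneg q
      have a6 : 0 ≤ 96 * (C + 7) := by linarith
      positivity
    · have e0 := er0 1 le_rfl
      have e0' := er0 p hp1
      have e1 := er1 1 le_rfl
      have e1' := er1 p hp1
      simp only [one_mul] at e0 e1
      have e2 : ∑ q ∈ RO (zz X) X, nu q * (96 * (C + 7) * (erP C ε δ₀ X q +
          erP C ε δ₀ X (p * q) + erP C ε δ₁ X q + erP C ε δ₁ X (p * q)) / LX +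
          100 / (p * LX)) =
          96 * (C + 7) / LX * (∑ q ∈ RO (zz X) X, nu q * erP C ε δ₀ X q +
            ∑ q ∈ RO (zz X) X, nu q * erP C ε δ₀ X (p * q) +
            ∑ q ∈ RO (zz X) X, nu q * erP C ε δ₁ X q +
            ∑ q ∈ RO (zz X) X, nu q * erP C ε δ₁ X (p * q)) +
          100 / (p * LX) * ∑ q ∈ RO (zz X) X, nu q := by
        rw [← Finset.sum_add_distrib, ← Finset.sum_add_distrib, ← Finset.sum_add_distrib,
          Finset.mul_sum, Finset.mul_sum, ← Finset.sum_add_distrib]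
        refine Finset.sum_congr rfl fun q _ => ?_
        ring
      rw [e2]
      have k1 : 96 * (C + 7) / LX * (∑ q ∈ RO (zz X) X, nu q * erP C ε δ₀ X q +
            ∑ q ∈ RO (zz X) X, nu q * erP C ε δ₀ X (p * q) +
            ∑ q ∈ RO (zz X) X, nu q * erP C ε δ₁ X q +
            ∑ q ∈ RO (zz X) X, nu q * erP C ε δ₁ X (p * q)) ≤
          96 * (C + 7) / LX * (4 * ((8 + 8 * C) * ε * (V * LX))) := by
        refine mul_le_mul_of_nonneg_left ?_ (div_nonneg (by linarith) hLX0.le)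
        linarith
      have k2 : 100 / (p * LX) * ∑ q ∈ RO (zz X) X, nu q ≤ 100 / (p * LX) * (2 * (V * LX)) :=
        mul_le_mul_of_nonneg_left hS (by positivity)
      refine (add_le_add k1 k2).trans (le_of_eq ?_)
      field_simp
      ring
  -- second comparison
  have h2 : |∑ q ∈ Sp, nu q * Fm δ₀ δ₁ LN 1 X p q -
      ∑ q ∈ RO (zz X) X, nu q * Fm δ₀ δ₁ LN 1 X p q| ≤ V * (40000 / p) := by
    rw [← Finset.sum_filter_add_sum_filter_not (RO (zz X) X) (fun q => p ∣ q)]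
    rw [abs_sub_comm, add_sub_cancel_right]
    refine (Finset.abs_sum_le_sum_abs _ _).trans ?_
    have k1 : ∀ q ∈ (RO (zz X) X).filter (fun q => p ∣ q), |nu q * Fm δ₀ δ₁ LN 1 X p q| ≤
        10000 / LX * nu q := by
      intro q hq
      rw [abs_mul, abs_of_nonneg (bic_nu_nonneg q), mul_comm]
      exact mul_le_mul_of_nonneg_right (bie_size hp hpX s0 s1 hLX hLN0 hLN1
        (Finset.mem_filter.1 hq).1) (bic_nu_nonneg q)
    refine (Finset.sum_le_sum k1).trans ?_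
    rw [← Finset.mul_sum]
    have k2 := bic_dvd (z := zz X) (X := X) hp
    calc 10000 / LX * ∑ q ∈ (RO (zz X) X).filter (fun q => p ∣ q), nu q
        ≤ 10000 / LX * (2 / p * (2 * (V * LX))) := by
          refine mul_le_mul_of_nonneg_left (k2.trans ?_) (by positivity)
          exact mul_le_mul_of_nonneg_left hS (by positivity)
      _ = _ := by
          field_simp
          ring
  have h3 : |∑ q ∈ Sp, nu q * Fa δ₀ δ₁ LN X p q - V * T| ≤
      V * (3072 * (C + 7) * (1 + C) * ε + 200 / p) + V * (40000 / p) + 1000 * ε * V := by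
    have t1 := abs_sub_le (∑ q ∈ Sp, nu q * Fa δ₀ δ₁ LN X p q)
      (∑ q ∈ Sp, nu q * Fm δ₀ δ₁ LN 1 X p q) (V * T)
    have t2 := abs_sub_le (∑ q ∈ Sp, nu q * Fm δ₀ δ₁ LN 1 X p q)
      (∑ q ∈ RO (zz X) X, nu q * Fm δ₀ δ₁ LN 1 X p q) (V * T)
    linarith
  have h4 : 1 / V * ∑ q ∈ Sp, nu q * Fa δ₀ δ₁ LN X p q - T =
      1 / V * (∑ q ∈ Sp, nu q * Fa δ₀ δ₁ LN X p q - V * T) := by
    field_simp
  rw [h4, abs_mul, abs_of_pos (by positivity : 0 < 1 / V), one_div_mul_eq_div, div_le_iff₀ hV]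
  refine h3.trans ?_
  have h5 : 200 / (p : ℝ) + 40000 / p ≤ 50000 / p := by
    rw [← add_div]
    exact div_le_div_of_nonneg_right (by norm_num) hp0.le
  nlinarith [mul_le_mul_of_nonneg_left h5 hV.le]

/-- the cross form -/
theorem bf_cross_pr {δ₀ δ₁ v : ℝ} (h0 : -(1 / 4) < δ₀) (h1 : δ₀ < 1 / 4) (h2 : -(1 / 4) < δ₁)
    (h3 : δ₁ < 1 / 4) (h01 : δ₀ < δ₁) (hv : 0 < v) (hv1 : v < 1 / 8) {ε : ℝ} (hε : 0 < ε) :
    ∃ X₀ : ℕ, ∀ X : ℕ, X₀ ≤ X → ∀ p : ℕ, p.Prime → (X : ℝ) ^ v ≤ 4 * p →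
    (p : ℝ) ≤ (X : ℝ) ^ (1 / 4 - δ₁ / 2) →
    Real.log (MM δ₀ X) ≤ Real.log (MM δ₁ X) + Real.log p →
    ∀ B : ℕ, 2 * MM δ₀ X ≤ B → p * (2 * MM δ₁ X) ≤ B → ∀ LN : ℝ, 0 ≤ LN → LN ≤ 2 * Real.log X →
      |p * (Vz (zz X) * BFb B LN (YE δ₀ X) (VT p (YE δ₁ X))) -
        (LN / Real.log (MM δ₀ X) *
            ((Real.log (MM δ₁ X) - Real.log (MM δ₀ X) + Real.log p) / Real.log (MM δ₁ X)) +
          Real.log p / Real.log (MM δ₁ X) * (LN / Real.log (MM δ₀ X) + 2))| ≤ ε := by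
  obtain ⟨C, hC, hprof⟩ := profile
  set D : ℝ := 3072 * (C + 7) * (1 + C) + 1000 with hD
  have hD0 : 0 < D := by positivity
  set ε' : ℝ := min 1 (ε / (2 * D)) with hε'
  have hε'0 : 0 < ε' := lt_min one_pos (by positivity)
  have hε'1 : ε' ≤ 1 := min_le_left _ _
  have hε'2 : D * ε' ≤ ε / 2 := by
    have : ε' ≤ ε / (2 * D) := min_le_right _ _
    calc D * ε' ≤ D * (ε / (2 * D)) := mul_le_mul_of_nonneg_left this hD0.le
      _ = ε / 2 := by field_simp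
  obtain ⟨N₁, hN₁⟩ := hprof δ₀ h0 h1 ε' hε'0 hε'1
  obtain ⟨N₂, hN₂⟩ := hprof δ₁ h2 h3 ε' hε'0 hε'1
  obtain ⟨N₃, hN₃⟩ := bic_sizes h0 h1
  obtain ⟨N₄, hN₄⟩ := bic_sizes h2 h3
  obtain ⟨N₅, hN₅⟩ := bic_cut hε'0
  obtain ⟨N₆, hN₆⟩ := err_sum_pr (C := C) (by linarith) h0 h1 hε'0 hε'1
  obtain ⟨N₇, hN₇⟩ := err_sum_pr (C := C) (by linarith) h2 h3 hε'0 hε'1
  obtain ⟨N₈, hN₈⟩ := sizesM h0 h1 (ε := v / 2) (by linarith)
  have hlim : Tendsto (fun X : ℕ => (X : ℝ) ^ (v / 2)) atTop atTop :=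
    (tendsto_rpow_atTop (by linarith)).comp tendsto_natCast_atTop_atTop
  obtain ⟨N₉, hN₉⟩ := eventually_atTop.1 (hlim.eventually_gt_atTop (4 + 400000 / ε))
  refine ⟨max N₁ (max N₂ (max N₃ (max N₄ (max N₅ (max N₆ (max N₇ (max N₈ N₉))))))),
    fun X hX p hp hXp hpX hlog B hB0 hB1 LN hLN0 hLN1 => ?_⟩
  simp only [max_le_iff] at hX
  obtain ⟨x1, x2, x3, x4, x5, x6, x7, x8, x9⟩ := hX
  obtain ⟨a1, a2, a3, a4, a5, a6⟩ := hN₃ X x3
  obtain ⟨b1, b2, b3, b4, b5, b6⟩ := hN₄ X x4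
  obtain ⟨-, -, -, c4, -, -, -, -, -⟩ := hN₈ X x8
  have c9 := hN₉ X x9
  have hp0 : (0 : ℝ) < p := by exact_mod_cast hp.pos
  have hX1 : 1 ≤ X := by omega
  have hX1r : (1 : ℝ) ≤ X := by exact_mod_cast hX1
  have hX0r : (0 : ℝ) < X := by linarith
  have hvv : (X : ℝ) ^ v = (X : ℝ) ^ (v / 2) * (X : ℝ) ^ (v / 2) := by
    rw [← Real.rpow_add hX0r]
    congr 1
    ring
  have hfrac : 0 < 400000 / ε := by positivity
  have hXv : 1 ≤ (X : ℝ) ^ (v / 2) := by linarith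
  have hzp : zz X < p := by
    have : (zz X : ℝ) < p := by
      have k1 : 4 * (X : ℝ) ^ (v / 2) < (X : ℝ) ^ v := by
        rw [hvv]
        exact mul_lt_mul_of_pos_right (by linarith) (by linarith)
      linarith
    exact_mod_cast this
  have hM10 : MM δ₁ X ≤ MM δ₀ X := by
    unfold MM
    exact Nat.floor_le_floor (Real.rpow_le_rpow_of_exponent_le hX1r (by linarith))
  have hM1pos : (0 : ℝ) < MM δ₁ X := by exact_mod_cast b2
  have hM0p : MM δ₀ X ≤ p * MM δ₁ X := by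
    have hM0pos : (0 : ℝ) < MM δ₀ X := by exact_mod_cast a2
    have k1 : Real.log (MM δ₀ X) ≤ Real.log (p * MM δ₁ X) := by
      rw [Real.log_mul hp0.ne' hM1pos.ne']
      linarith
    have k2 := (Real.log_le_log_iff hM0pos (by positivity)).1 k1
    exact_mod_cast k2
  have hpM1 : p ≤ MM δ₁ X := by
    unfold MM
    refine Nat.le_floor (hpX.trans ?_)
    exact Real.rpow_le_rpow_of_exponent_le hX1r (by linarith)
  have hcore := bie_core (δ₀ := δ₀) (δ₁ := δ₁) (LN := LN) hC hε'0 hε'1 hp hzp a4 a5 b4 b5 a6 b2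
    hX1 a3 hM10 hM0p hpM1 hLN0 hLN1 (hN₁ X x1) (hN₂ X x2) (hN₆ X x6) (hN₇ X x7) (hN₅ X x5)
  have hex := bil_exact (δ₀ := δ₀) (δ₁ := δ₁) hp hzp a3 hB0 hB1 LN
  rw [hex]
  refine hcore.trans ?_
  have hpbig : 100000 / ε ≤ p := by
    have k1 : (X : ℝ) ^ (v / 2) ≤ (X : ℝ) ^ v :=
      Real.rpow_le_rpow_of_exponent_le hX1r (by linarith)
    have k2 : 400000 / ε = 4 * (100000 / ε) := by ring
    linarith
  have h6 : 50000 / (p : ℝ) ≤ ε / 2 := by
    rw [div_le_iff₀ hε] at hpbig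
    rw [div_le_div_iff₀ hp0 (by norm_num)]
    linarith
  linarith

/-- the diagonal form -/
theorem bf_diag_pr {δ : ℝ} (h0 : -(1 / 4) < δ) (h1 : δ < 1 / 4) {ε : ℝ} (hε : 0 < ε) :
    ∃ X₀ : ℕ, ∀ X : ℕ, X₀ ≤ X → ∀ B : ℕ, 2 * MM δ X ≤ B → ∀ LN : ℝ, 0 ≤ LN →
    LN ≤ 2 * Real.log X →
      |Vz (zz X) * BFb B LN (YE δ X) (YE δ X) - (LN / Real.log (MM δ X) + 2)| ≤ ε := by
  obtain ⟨C, hC, hprof⟩ := profile
  set D : ℝ := 96 * (C + 7) * (8 + 8 * C) + 1000 with hD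
  have hD0 : 0 < D := by positivity
  set ε' : ℝ := min 1 (ε / D) with hε'
  have hε'0 : 0 < ε' := lt_min one_pos (by positivity)
  have hε'1 : ε' ≤ 1 := min_le_left _ _
  have hε'2 : D * ε' ≤ ε := by
    have : ε' ≤ ε / D := min_le_right _ _
    calc D * ε' ≤ D * (ε / D) := mul_le_mul_of_nonneg_left this hD0.le
      _ = ε := by field_simp
  obtain ⟨N₁, hN₁⟩ := hprof δ h0 h1 ε' hε'0 hε'1
  obtain ⟨N₃, hN₃⟩ := bic_sizes h0 h1
  obtain ⟨N₅, hN₅⟩ := bic_cut hε'0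
  obtain ⟨N₆, hN₆⟩ := err_sum_pr (C := C) (by linarith) h0 h1 hε'0 hε'1
  refine ⟨max N₁ (max N₃ (max N₅ N₆)), fun X hX B hB0 LN hLN0 hLN1 => ?_⟩
  simp only [max_le_iff] at hX
  obtain ⟨x1, x3, x5, x6⟩ := hX
  obtain ⟨a1, a2, a3, a4, a5, a6⟩ := hN₃ X x3
  have pr := hN₁ X x1
  have cut := hN₅ X x5
  have er := hN₆ X x6 1 le_rfl
  simp only [one_mul] at er
  rw [bil_exact_diag a3 hB0 LN]
  have hV := phi_Vz_pos (zz X)
  set V := Vz (zz X) with hVd
  set LX := Real.log X with hLXd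
  set L0 := Real.log (MM δ X) with hL0d
  have hLX0 : 0 < LX := by linarith
  have hL0 : 0 < L0 := by linarith
  have hM1r : (1 : ℝ) ≤ MM δ X := by exact_mod_cast a2
  have hM0X : (MM δ X : ℝ) ≤ X := by
    have : MM δ X ≤ X := by omega
    exact_mod_cast this
  -- comparison
  have h2 : |∑ q ∈ RO (zz X) X, nu q *
        (Fc LN (Real.log q) 0 1 (prP δ X q) 0 (prL δ X q) 0 (prP δ X q) 0 (prL δ X q) 0 / 2) -
      ∑ q ∈ RO (zz X) X, nu q *
        (Fc LN (Real.log q) 0 1 (mP δ X q) 0 (mL δ X q) 0 (mP δ X q) 0 (mL δ X q) 0 / 2)| ≤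
      V * (96 * (C + 7) * (8 + 8 * C) * ε') := by
    rw [← Finset.sum_sub_distrib]
    refine (Finset.abs_sum_le_sum_abs _ _).trans ?_
    have k1 : ∀ q ∈ RO (zz X) X, |nu q *
        (Fc LN (Real.log q) 0 1 (prP δ X q) 0 (prL δ X q) 0 (prP δ X q) 0 (prL δ X q) 0 / 2) -
      nu q *
        (Fc LN (Real.log q) 0 1 (mP δ X q) 0 (mL δ X q) 0 (mP δ X q) 0 (mL δ X q) 0 / 2)| ≤
        96 * (C + 7) / LX * (nu q * erP C ε' δ X q) := by
      intro q hq
      obtain ⟨q1, q2, q3⟩ := GDL_mem_RO.1 hq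
      have hnu := bic_nu_nonneg q
      by_cases hsq : Squarefree q
      · obtain ⟨p1, p2⟩ := pr q q1 hsq q3
        have hq1r : (1 : ℝ) ≤ q := by exact_mod_cast q1
        obtain ⟨c1, c3⟩ := bic_mP (x := q) hLX0 a4 hq1r
        have er1 := (bic_er (C := C) (ε := ε') (δ := δ) (by linarith) hε'0.le X q).2
        have hlq0 : 0 ≤ Real.log q := Real.log_nonneg hq1r
        have hlqX : Real.log q ≤ LX := Real.log_le_log (by linarith) (by exact_mod_cast q2)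
        have h5K : 5 / LX ≤ (C + 7) / LX := div_le_div_of_nonneg_right (by linarith) hLX0.le
        have hK0 : 0 ≤ (C + 7) / LX := by positivity
        have u1 : |prP δ X q| ≤ (C + 7) / LX := by
          have h4 : |prP δ X q| ≤ |prP δ X q - mP δ X q| + |mP δ X q| := by
            have := abs_add_le (prP δ X q - mP δ X q) (mP δ X q)
            rwa [sub_add_cancel] at this
          have h5 : erP C ε' δ X q / LX + 5 / LX ≤ (C + 7) / LX := by
            rw [← add_div]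
            exact div_le_div_of_nonneg_right (by linarith) hLX0.le
          linarith
        have u2 : |prL δ X q| ≤ C + 7 := by
          have h4 : |prL δ X q| ≤ |prL δ X q - mL δ X q| + |mL δ X q| := by
            have := abs_add_le (prL δ X q - mL δ X q) (mL δ X q)
            rwa [sub_add_cancel] at this
          linarith
        have h1 := Fc_err (K := C + 7) (ρ := 1) (LN := LN) (lq := Real.log q) (lp := 0)
          (e0 := erP C ε' δ X q) (e0' := 0) (e1 := erP C ε' δ X q) (e1' := 0)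
          (P0' := 0) (L0' := 0) (P1' := 0) (L1' := 0) (m0' := 0) (n0' := 0) (m1' := 0) (n1' := 0)
          hLX0 (by linarith) hLN0 hLN1 hlq0 hlqX le_rfl hLX0.le zero_le_one one_le_two
          p1 (by simp) p2 (by simp) p1 (by simp) p2 (by simp)
          (c1.trans h5K) (by simpa using hK0) (by linarith) (by simp; linarith) u1
          (by simpa using hK0) u2 (by simp; linarith)
        rw [← mul_sub, ← sub_div, abs_mul, abs_of_nonneg hnu, abs_div, abs_two]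
        calc nu q * (|Fc LN (Real.log q) 0 1 (prP δ X q) 0 (prL δ X q) 0 (prP δ X q) 0 (prL δ X q)
              0 - Fc LN (Real.log q) 0 1 (mP δ X q) 0 (mL δ X q) 0 (mP δ X q) 0 (mL δ X q) 0| / 2)
            ≤ nu q * ((96 * (C + 7) * (erP C ε' δ X q + 0 + erP C ε' δ X q + 0) / LX) / 2) := by
              refine mul_le_mul_of_nonneg_left ?_ hnu
              exact div_le_div_of_nonneg_right h1 (by norm_num)
          _ = _ := by ring
      · have h0' : nu q = 0 := by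
          unfold nu
          rw [bil_mu_zero hsq, zero_pow two_ne_zero, zero_div]
        rw [h0']
        simp
    refine (Finset.sum_le_sum k1).trans ?_
    rw [← Finset.mul_sum]
    calc 96 * (C + 7) / LX * ∑ q ∈ RO (zz X) X, nu q * erP C ε' δ X q
        ≤ 96 * (C + 7) / LX * ((8 + 8 * C) * ε' * (V * LX)) :=
          mul_le_mul_of_nonneg_left er (by positivity)
      _ = _ := by
          field_simp
  -- main term
  have h3 : |∑ q ∈ RO (zz X) X, nu q *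
        (Fc LN (Real.log q) 0 1 (mP δ X q) 0 (mL δ X q) 0 (mP δ X q) 0 (mL δ X q) 0 / 2) -
      V * (LN / L0 + 2)| ≤ 1000 * ε' * V := by
    have e1 : ∀ q ∈ RO (zz X) X, nu q *
        (Fc LN (Real.log q) 0 1 (mP δ X q) 0 (mL δ X q) 0 (mP δ X q) 0 (mL δ X q) 0 / 2) =
        nu q * ((if (q : ℝ) ≤ MM δ X then 1 else 0) * ((LN + 4 * L0) + -4 * Real.log q)) /
          (L0 * L0) := by
      intro q hq
      rw [mP_eq, mL_eq]
      have i3 : ia δ X q = if (q : ℝ) ≤ MM δ X then 1 else 0 := rfl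
      rw [i3, ← hL0d]
      unfold Fc
      split_ifs
      · field_simp
        ring
      · simp
    rw [Finset.sum_congr rfl e1, ← Finset.sum_div]
    have c1 := cut (MM δ X) hM1r hM0X (LN + 4 * L0) (-4)
    rw [← hL0d] at c1
    set S1 := ∑ q ∈ RO (zz X) X, nu q * ((if (q : ℝ) ≤ MM δ X then 1 else 0) *
      ((LN + 4 * L0) + -4 * Real.log q))
    have hA1 : |LN + 4 * L0| + |(-4 : ℝ)| * LX ≤ 10 * LX := by
      rw [abs_of_nonneg (by linarith : 0 ≤ LN + 4 * L0)]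
      rw [show |(-4 : ℝ)| = 4 by norm_num]
      linarith
    have hE0 : 0 ≤ ε' * (V * LX) := by positivity
    have c1' := c1.trans (mul_le_mul_of_nonneg_left hA1 hE0)
    have key : S1 / (L0 * L0) - V * (LN / L0 + 2) =
        (S1 - V * ((LN + 4 * L0) * L0 + -4 * (L0 ^ 2 / 2))) / (L0 * L0) := by
      field_simp
      ring
    rw [key, abs_div, abs_of_pos (by positivity : 0 < L0 * L0), div_le_iff₀ (by positivity)]
    have hLL : LX ^ 2 / 25 ≤ L0 * L0 := by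
      have := mul_le_mul a4 a4 (by positivity) hL0.le
      linarith
    calc _ ≤ ε' * (V * LX) * (10 * LX) := c1'
      _ = 250 * ε' * V * (LX ^ 2 / 25) := by ring
      _ ≤ 250 * ε' * V * (L0 * L0) := mul_le_mul_of_nonneg_left hLL (by positivity)
      _ ≤ 1000 * ε' * V * (L0 * L0) := by
          have : 0 ≤ ε' * V * (L0 * L0) := by positivity
          nlinarith
  have h4 : ∀ S T : ℝ, 1 / V * S - T = 1 / V * (S - V * T) := by
    intro S T
    field_simp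
  rw [h4, abs_mul, abs_of_pos (by positivity : 0 < 1 / V), one_div_mul_eq_div, div_le_iff₀ hV]
  have t1 := abs_sub_le (∑ q ∈ RO (zz X) X, nu q *
        (Fc LN (Real.log q) 0 1 (prP δ X q) 0 (prL δ X q) 0 (prP δ X q) 0 (prL δ X q) 0 / 2))
    (∑ q ∈ RO (zz X) X, nu q *
        (Fc LN (Real.log q) 0 1 (mP δ X q) 0 (mL δ X q) 0 (mP δ X q) 0 (mL δ X q) 0 / 2))
    (V * (LN / L0 + 2))
  have t2 : V * (96 * (C + 7) * (8 + 8 * C) * ε') + 1000 * ε' * V = (D * ε') * V := by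
    rw [hD]
    ring
  have t3 : (D * ε') * V ≤ ε * V := mul_le_mul_of_nonneg_right hε'2 hV.le
  linarith

end Pool.Agent.LSP
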