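import Pool.Agent.Lib_helper15.LSP.DefsP

/-!
# LSP, version 2, part P2: the principal part for general coefficients. Definitions.

`X` is the global scale, `Y` the scale of the centre, `lam` the logarithm by which the hyperbola cut
is enlarged.
-/

set_option autoImplicit false

namespace Pool.Agent.LSPP

open Pool.Agent.LSP (tau sg1 CC Gs Adm)
open Pool.Agent.LSPO (hyp cl KK rho b1 GOK)
open Pool.Agent.FG61 (mu phi cc)
open MeasureTheory Filter Topology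

/-- the nonzero integers up to `V` -/
noncomputable def GV (V : ℕ) : Finset ℤ := (Finset.Icc (-(V : ℤ)) (V : ℤ)).erase 0

/-- the principal part after the summation over the moduli, cut enlarged by `exp lam` -/
noncomputable def M5l (lam : ℝ) (C : ℕ → ℝ) (G : ℝ → ℝ) (Q : ℕ) (S : Finset ℤ) (R : ℕ)
    (om Z : ℝ) : ℝ :=
  4 * Real.pi * ∑ n ∈ Finset.Icc 1 Q, C n * ∑ g ∈ S, tau g.natAbs *
    (KK G om ((g : ℝ) * Z / n) * ∑ c ∈ Finset.Icc 1 R,
      cc c n * cc c g.natAbs / (c * phi c) *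
        (Real.log |(n : ℝ) - g * Z| / 2 + (lam / 2 + ga) - Real.log c))

/-- the average of the principal part -/
noncomputable def M6l (lam : ℝ) (C : ℕ → ℝ) (G : ℝ → ℝ) (Q : ℕ) (S : Finset ℤ) (R : ℕ)
    (Y : ℝ) : ℝ :=
  4 * Real.pi * ∑ n ∈ Finset.Icc 1 Q, C n * ∑ c ∈ Finset.Icc 1 R, cc c n / (c * phi c) *
    ((Real.log n / 2 + (lam / 2 + ga) - Real.log c) *
        ∑ g ∈ S, tau g.natAbs * cc c g.natAbs * av (fun t => G ((g : ℝ) * (t * Y) / n)) +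
      ∑ g ∈ S, tau g.natAbs * cc c g.natAbs * av (fun t => G1 G ((g : ℝ) * (t * Y) / n)))

/-- the contribution of the remainders -/
noncomputable def M7l (lam : ℝ) (C : ℕ → ℝ) (G : ℝ → ℝ) (Q R : ℕ) (Y : ℝ) : ℝ :=
  ∑ n ∈ Finset.Icc 1 Q, C n * ∑ c ∈ Finset.Icc 1 R, cc c n / (c * phi c) *
    ((Real.log n / 2 + (lam / 2 + ga) - Real.log c) * RR G c (n / Y) + RR (G1 G) c (n / Y))

/-- the conditions on the coefficients: `X` global scale, `Y` scale of the centre, `R` the number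
of Ramanujan sums -/
structure PC (κ : ℝ) (B B' : ℕ) (X Y : ℝ) (R Q : ℕ) (C : ℕ → ℝ) : Prop where
  size : (Q : ℝ) ≤ Y * X ^ (101 / 50 * κ)
  bdd : ∀ n, 1 ≤ n → |C n| ≤ X ^ (κ / 100) / n
  sig : ∑ n ∈ Finset.Icc 1 Q, C n * sg1 n = 0
  mob : ∀ c z₁ z₂ : ℕ, 1 ≤ c → c ≤ R → Y ^ (1 / 2 : ℝ) ≤ z₁ →
    |∑ n ∈ Finset.Ioc z₁ z₂, C n * cc c n| ≤ tau c ^ B / Real.log X ^ B'

end Pool.Agent.LSPP
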