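import Pool.Agent.Lib_helper15.LSP2.DefsP2
import Pool.Agent.Lib_helper15.LSPF.PG3

/-! LSP, version 2, part P2: the principal part is Lipschitz in the centre. -/

set_option autoImplicit false

namespace Pool.Agent.LSPP

open Pool.Agent.LSP (tau sg1 CC Gs Adm)
open Pool.Agent.LSPO (hyp cl KK rho b1 GOK)
open Pool.Agent.FG61 (mu phi cc)
open MeasureTheory Filter Topology

/-- the term of `M5l` -/
noncomputable def pfT (lam : ℝ) (G : ℝ → ℝ) (R : ℕ) (om : ℝ) (n : ℕ) (g : ℤ) (Z : ℝ) : ℝ :=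
  KK G om ((g : ℝ) * Z / n) * ∑ c ∈ Finset.Icc 1 R,
    cc c n * cc c g.natAbs / (c * phi c) *
      (Real.log |(n : ℝ) - g * Z| / 2 + (lam / 2 + ga) - Real.log c)

theorem pfT_eq (lam : ℝ) (G : ℝ → ℝ) (R : ℕ) {om : ℝ} (ho : 0 < om) {n : ℕ} (hn : 1 ≤ n) (g : ℤ)
    (Z : ℝ) :
    pfT lam G R om n g Z = KK G om ((g : ℝ) * Z / n) *
      ((pga R n g + lam * pgb R n g) + pgb R n g * Real.log (|1 - (g : ℝ) * Z / n|)) := by
  have h1 : pfT lam G R om n g Z = pgT G R om n g Z +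
      KK G om ((g : ℝ) * Z / n) * (lam * pgb R n g) := by
    unfold pfT pgT pgb
    rw [← mul_add]
    congr 1
    rw [Finset.mul_sum, ← Finset.sum_add_distrib]
    refine Finset.sum_congr rfl fun c _ => ?_
    ring
  rw [h1, pgT_eq G R ho hn]
  ring

theorem pf_term_lip {G : ℝ → ℝ} {U c₀ : ℝ} (hG : GOK G U c₀) {lam u₀ om X : ℝ} (hl : 0 ≤ lam)
    (hu₀ : 0 < u₀)
    (ho : 0 < om) (hX : 0 < X) {R n : ℕ} {g : ℤ} (hn : 1 ≤ n)
    (hu : u₀ ≤ |(g : ℝ)| * X / n) {s t : ℝ} (hs : 1 ≤ s) (ht : 1 ≤ t) :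
    |pfT lam G R om n g (t * X) - pfT lam G R om n g (s * X)| ≤
      if |(g : ℝ)| ≤ U * n / X then
        ((pgP U c₀ u₀ om * (2 + U + 1 / om) + pgB U c₀ u₀ om / om) *
          ((1 + lam) * (|pga R n g| + |pgb R n g|))) * U * |t - s| else 0 := by
  have hU := hG.one_le
  have hc := hG.one_le'
  have hn0 : (0 : ℝ) < n := by exact_mod_cast hn
  have hB : 0 ≤ pgB U c₀ u₀ om := by unfold pgB; positivity
  have hP : 0 ≤ pgP U c₀ u₀ om := by unfold pgP; positivity
  have habs : ∀ r : ℝ, 1 ≤ r → |(g : ℝ) * (r * X) / n| = r * (|(g : ℝ)| * X / n) := by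
    intro r hr
    rw [abs_div, abs_mul, abs_of_pos hn0, abs_of_pos (show 0 < r * X by positivity)]
    ring
  have hbig : ∀ r : ℝ, 1 ≤ r → |(g : ℝ)| * X / n ≤ |(g : ℝ) * (r * X) / n| := by
    intro r hr
    rw [habs r hr]
    have : 0 ≤ |(g : ℝ)| * X / n := by positivity
    nlinarith
  split_ifs with h
  · rw [pfT_eq lam G R ho hn, pfT_eq lam G R ho hn]
    refine (pg_h_lip hG (pga R n g + lam * pgb R n g) (pgb R n g) hu₀ ho (hu.trans (hbig t ht))
      (hu.trans (hbig s hs))).trans ?_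
    have e1 : |(g : ℝ) * (t * X) / n - (g : ℝ) * (s * X) / n| ≤ U * |t - s| := by
      have e2 : (g : ℝ) * (t * X) / n - (g : ℝ) * (s * X) / n = ((g : ℝ) * X / n) * (t - s) := by
        ring
      rw [e2, abs_mul]
      apply mul_le_mul_of_nonneg_right _ (abs_nonneg _)
      rw [abs_div, abs_mul, abs_of_pos hn0, abs_of_pos hX, div_le_iff₀ hn0]
      rwa [le_div_iff₀ hX] at h
    have e0 : |pga R n g + lam * pgb R n g| + |pgb R n g| ≤
        (1 + lam) * (|pga R n g| + |pgb R n g|) := by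
      have g1 := abs_add_le (pga R n g) (lam * pgb R n g)
      rw [abs_mul, abs_of_nonneg hl] at g1
      have g2 : 0 ≤ lam * |pga R n g| := by positivity
      nlinarith
    have e3 : pgL U c₀ u₀ om (pga R n g + lam * pgb R n g) (pgb R n g) ≤
        (pgP U c₀ u₀ om * (2 + U + 1 / om) + pgB U c₀ u₀ om / om) *
          (|pga R n g + lam * pgb R n g| + |pgb R n g|) := by
      unfold pgL
      have a0 : 0 ≤ |pga R n g + lam * pgb R n g| := abs_nonneg _
      have b0 : 0 ≤ |pgb R n g| := abs_nonneg _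
      have o0 : 0 ≤ 1 / om := by positivity
      have f1 : |pga R n g + lam * pgb R n g| + |pgb R n g| * (1 + U + 1 / om) ≤
          (2 + U + 1 / om) * (|pga R n g + lam * pgb R n g| + |pgb R n g|) := by nlinarith
      have f2 : pgB U c₀ u₀ om * |pgb R n g| / om ≤
          pgB U c₀ u₀ om / om * (|pga R n g + lam * pgb R n g| + |pgb R n g|) := by
        have : pgB U c₀ u₀ om * |pgb R n g| / om = pgB U c₀ u₀ om / om * |pgb R n g| := by ring
        rw [this]
        apply mul_le_mul_of_nonneg_left _ (by positivity)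
        linarith
      have f3 := mul_le_mul_of_nonneg_left f1 hP
      linarith
    have hW : 0 ≤ pgP U c₀ u₀ om * (2 + U + 1 / om) + pgB U c₀ u₀ om / om := by positivity
    have e4 := e3.trans (mul_le_mul_of_nonneg_left e0 hW)
    calc pgL U c₀ u₀ om (pga R n g + lam * pgb R n g) (pgb R n g) *
          |(g : ℝ) * (t * X) / n - (g : ℝ) * (s * X) / n|
        ≤ ((pgP U c₀ u₀ om * (2 + U + 1 / om) + pgB U c₀ u₀ om / om) *
          ((1 + lam) * (|pga R n g| + |pgb R n g|))) * (U * |t - s|) := by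
          apply mul_le_mul e4 e1 (abs_nonneg _)
          have : 0 ≤ 1 + lam := by linarith
          positivity
      _ = _ := by ring
  · have h2 : U < |(g : ℝ)| * X / n := by
      rw [not_le, div_lt_iff₀ hX] at h
      rw [lt_div_iff₀ hn0]; exact h
    have hz : ∀ r : ℝ, 1 ≤ r → pfT lam G R om n g (r * X) = 0 := by
      intro r hr
      unfold pfT KK
      rw [hG.supp _ (h2.trans_le (hbig r hr)), zero_mul, zero_mul]
    rw [hz t ht, hz s hs, sub_zero, abs_zero]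

theorem pf_large {A B κ : ℝ} (h0 : 0 < κ) : ∃ X₀ : ℝ, ∀ X : ℝ, X₀ ≤ X →
    1 ≤ X ∧ 1 ≤ Real.log X ∧ B ≤ X ^ (1 / 2 : ℝ) ∧ A * Real.log X ^ 4 ≤ X ^ κ := by
  have e0 : ∀ᶠ X : ℝ in atTop, 1 ≤ X := eventually_ge_atTop 1
  have e1 : ∀ᶠ X : ℝ in atTop, 1 ≤ Real.log X := Real.tendsto_log_atTop.eventually_ge_atTop 1
  have e3 : ∀ᶠ X : ℝ in atTop, B ≤ X ^ (1 / 2 : ℝ) :=
    (tendsto_rpow_atTop (by norm_num)).eventually_ge_atTop B
  have e5 : ∀ᶠ X : ℝ in atTop, A * Real.log X ^ 4 ≤ X ^ κ := by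
    have h := isLittleO_log_rpow_rpow_atTop (4 : ℝ) h0
    have h2 := h.bound (show (0 : ℝ) < 1 / (|A| + 1) by positivity)
    filter_upwards [h2, eventually_ge_atTop 1] with X h3 h4
    have h5 : 0 ≤ Real.log X := Real.log_nonneg h4
    rw [Real.norm_of_nonneg (Real.rpow_nonneg h5 _), Real.norm_of_nonneg
      (Real.rpow_nonneg (by linarith) _)] at h3
    have h6 : Real.log X ^ (4 : ℝ) = Real.log X ^ 4 := by
      rw [← Real.rpow_natCast]
      norm_num
    rw [h6] at h3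
    calc A * Real.log X ^ 4 ≤ (|A| + 1) * Real.log X ^ 4 := by
          apply mul_le_mul_of_nonneg_right _ (by positivity)
          linarith [le_abs_self A]
      _ ≤ (|A| + 1) * (1 / (|A| + 1) * X ^ κ) := by gcongr
      _ = X ^ κ := by field_simp
  obtain ⟨X₀, hX⟩ := eventually_atTop.1 (e0.and (e1.and (e3.and e5)))
  exact ⟨X₀, fun X h => hX X h⟩

/-- `M5l` is Lipschitz in the centre -/
theorem pf_lip {G : ℝ → ℝ} {U c₀ : ℝ} (hG : GOK G U c₀) {κ κ₁ : ℝ} (h0 : 0 < κ)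
    (h1 : 9 / 4 * κ ≤ κ₁) (h2 : κ₁ ≤ 1 / 100) :
    ∃ X₀ : ℝ, ∀ X : ℝ, X₀ ≤ X → ∀ Y : ℝ, X ^ (1 / 2 : ℝ) ≤ Y → Y ≤ X ^ 2 →
    ∀ (Q : ℕ) (C : ℕ → ℝ), (Q : ℝ) ≤ Y * X ^ (101 / 50 * κ) →
    (∀ n, 1 ≤ n → |C n| ≤ X ^ (κ / 100) / n) → ∀ S : Finset ℤ, 0 ∉ S →
    ∀ R : ℕ, (R : ℝ) ≤ X → ∀ lam : ℝ, 0 ≤ lam → lam ≤ 4 * Real.log X →
    ∀ s t : ℝ, 1 ≤ s → 1 ≤ t →
      |M5l lam C G Q S R (X ^ (-(4 * κ₁))) (t * Y) -
        M5l lam C G Q S R (X ^ (-(4 * κ₁))) (s * Y)| ≤ X ^ (17 * κ₁) * |t - s| := by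
  obtain ⟨Cτ, hC1, hCτ⟩ := tau_le (ε := κ / 1000) (by positivity)
  have hU := hG.one_le
  have hc := hG.one_le'
  have h0' : 0 < κ₁ := by linarith
  -- the constant
  set A : ℝ := 4 * Real.pi * (4 * (2 * U * Cτ)) * (800 * (Cτ * Cτ)) *
    (c₀ * (70 + 2 * U) * (4 + U)) * U with hA
  obtain ⟨X₀, hX₀⟩ := pf_large (A := A) (B := U) (show 0 < κ₁ / 100 by positivity)
  refine ⟨X₀, fun X hX Y hXY hY2 Q C hsz hbd S hS R hRX lam hl0 hl1 s t hs ht => ?_⟩
  obtain ⟨hX1, hlog1, hUX, hAX⟩ := hX₀ X hX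
  have hX0 : 0 < X := by linarith
  have hY1 : 1 ≤ Y := (Real.one_le_rpow hX1 (by norm_num)).trans hXY
  have hY0 : 0 < Y := by linarith
  set om := X ^ (-(4 * κ₁)) with hom
  set u₀ := X ^ (-(3 * κ₁)) with hu₀d
  have hom0 : 0 < om := Real.rpow_pos_of_pos hX0 _
  have hu₀0 : 0 < u₀ := Real.rpow_pos_of_pos hX0 _
  set L := Real.log X with hL
  -- logs
  have hlogR : Real.log R ≤ L := by
    rcases Nat.eq_zero_or_pos R with h | h
    · rw [h]; simp; linarith
    · exact Real.log_le_log (by exact_mod_cast h) hRX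
  have hlogR0 : 0 ≤ Real.log R := Real.log_natCast_nonneg R
  have hQ3 : (Q : ℝ) ≤ X ^ (3 : ℝ) := by
    have h2 : X ^ (101 / 50 * κ) ≤ X ^ (1 : ℝ) :=
      Real.rpow_le_rpow_of_exponent_le hX1 (by linarith)
    calc (Q : ℝ) ≤ Y * X ^ (101 / 50 * κ) := hsz
      _ ≤ X ^ 2 * X ^ (1 : ℝ) := by gcongr
      _ = X ^ (3 : ℝ) := by
          rw [← Real.rpow_natCast, ← Real.rpow_add hX0]
          norm_num
  have hQY : (Q : ℝ) ≤ Y * X ^ (3 * κ₁) := by
    refine hsz.trans (mul_le_mul_of_nonneg_left ?_ hY0.le)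
    exact Real.rpow_le_rpow_of_exponent_le hX1 (by linarith)
  have hlogn : ∀ n : ℕ, 1 ≤ n → n ≤ Q → Real.log n ≤ 3 * L := by
    intro n hn hnQ
    have e1 : (n : ℝ) ≤ X ^ (3 : ℝ) := by
      have : (n : ℝ) ≤ Q := by exact_mod_cast hnQ
      exact this.trans hQ3
    have e2 := Real.log_le_log (by exact_mod_cast hn) e1
    rwa [Real.log_rpow hX0] at e2
  have hlogQ : Real.log Q ≤ 3 * L := by
    rcases Nat.eq_zero_or_pos Q with h | h
    · rw [h]; simp; linarith
    · exact hlogn Q h le_rfl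
  -- tau
  have hτ : ∀ m : ℕ, (m : ℝ) ≤ X ^ (3 : ℝ) → tau m ≤ Cτ * X ^ (κ₁ / 300) := by
    intro m hm
    refine (hCτ m).trans ?_
    apply mul_le_mul_of_nonneg_left _ (by linarith)
    calc (m : ℝ) ^ (κ / 1000) ≤ (X ^ (3 : ℝ)) ^ (κ / 1000) :=
          Real.rpow_le_rpow (Nat.cast_nonneg _) hm (by positivity)
      _ = X ^ (3 * (κ / 1000)) := by rw [← Real.rpow_mul hX0.le]
      _ ≤ X ^ (κ₁ / 300) := Real.rpow_le_rpow_of_exponent_le hX1 (by linarith)
  have hτ0 : ∀ m : ℕ, 0 ≤ tau m := fun m => by unfold tau; positivity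
  have hUQX : U * Q / Y ≤ X ^ (3 : ℝ) := by
    rw [div_le_iff₀ hY0]
    calc U * Q ≤ X ^ (1 / 2 : ℝ) * X ^ (3 : ℝ) := by gcongr
      _ ≤ Y * X ^ (3 : ℝ) := by gcongr
      _ = _ := by ring
  set W := c₀ * (70 + 2 * U) * (4 + U) * X ^ (16 * κ₁) with hW
  have hW0 : 0 ≤ W := by positivity
  have hW' := pg_W (U := U) (c₀ := c₀) hU hc hX1 h0'
  -- the term
  have hterm : ∀ n ∈ Finset.Icc 1 Q, ∀ g ∈ S,
      |pfT lam G R om n g (t * Y) - pfT lam G R om n g (s * Y)| ≤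
      if |(g : ℝ)| ≤ U * Q / Y then
        (W * (800 * L ^ 3 * ((Cτ * X ^ (κ₁ / 300)) * (Cτ * X ^ (κ₁ / 300))))) * U * |t - s|
        else 0 := by
    intro n hn g hg
    rw [Finset.mem_Icc] at hn
    have hn0 : (0 : ℝ) < n := by exact_mod_cast hn.1
    have hg0 : g ≠ 0 := fun h => hS (h ▸ hg)
    have hg1 : 1 ≤ |(g : ℝ)| := by
      have : (1 : ℤ) ≤ |g| := Int.one_le_abs hg0
      exact_mod_cast this
    have hnQ : (n : ℝ) ≤ Q := by exact_mod_cast hn.2
    have hu : u₀ ≤ |(g : ℝ)| * Y / n := by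
      rw [le_div_iff₀ hn0]
      calc u₀ * n ≤ X ^ (-(3 * κ₁)) * (Y * X ^ (3 * κ₁)) := by
            rw [hu₀d]
            apply mul_le_mul_of_nonneg_left (hnQ.trans hQY) (by positivity)
        _ = Y * (X ^ (-(3 * κ₁)) * X ^ (3 * κ₁)) := by ring
        _ = Y := by rw [← Real.rpow_add hX0]; simp
        _ ≤ |(g : ℝ)| * Y := by nlinarith
    refine (pf_term_lip hG hl0 hu₀0 hom0 hY0 hn.1 hu hs ht).trans ?_
    by_cases h : |(g : ℝ)| ≤ U * n / Y
    · have h2 : |(g : ℝ)| ≤ U * Q / Y := by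
        refine h.trans ?_
        gcongr
      rw [if_pos h, if_pos h2]
      have e1 := pg_ab (R := R) hn.1 hg0
      have hab0 : 0 ≤ |pga R n g| + |pgb R n g| := by positivity
      have e2 : (1 + lam) * (|pga R n g| + |pgb R n g|) ≤
          800 * L ^ 3 * ((Cτ * X ^ (κ₁ / 300)) * (Cτ * X ^ (κ₁ / 300))) := by
        have f1 : 1 + Real.log R ≤ 2 * L := by linarith
        have f2 : 1 + Real.log n + Real.log R ≤ 5 * L := by
          have := hlogn n hn.1 hn.2
          linarith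
        have f3 : tau n ≤ Cτ * X ^ (κ₁ / 300) := hτ n (hnQ.trans hQ3)
        have f4 : tau g.natAbs ≤ Cτ * X ^ (κ₁ / 300) := by
          apply hτ
          rw [Nat.cast_natAbs, Int.cast_abs]
          exact h2.trans hUQX
        have f5 : 0 ≤ Real.log n := Real.log_natCast_nonneg n
        have f6 : 1 + lam ≤ 5 * L := by linarith
        have f7 : |pga R n g| + |pgb R n g| ≤
            16 * (2 * L) * (5 * L) * ((Cτ * X ^ (κ₁ / 300)) * (Cτ * X ^ (κ₁ / 300))) := by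
          refine e1.trans ?_
          have := hτ0 n
          have := hτ0 g.natAbs
          gcongr
        calc (1 + lam) * (|pga R n g| + |pgb R n g|)
            ≤ (5 * L) * (16 * (2 * L) * (5 * L) *
                ((Cτ * X ^ (κ₁ / 300)) * (Cτ * X ^ (κ₁ / 300)))) :=
              mul_le_mul f6 f7 hab0 (by linarith)
          _ = 800 * L ^ 3 * ((Cτ * X ^ (κ₁ / 300)) * (Cτ * X ^ (κ₁ / 300))) := by ring
      have e3 : 0 ≤ (1 + lam) * (|pga R n g| + |pgb R n g|) := by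
        have : 0 ≤ 1 + lam := by linarith
        positivity
      apply mul_le_mul_of_nonneg_right _ (abs_nonneg _)
      apply mul_le_mul_of_nonneg_right _ (by linarith)
      exact mul_le_mul hW' e2 e3 hW0
    · rw [if_neg h]
      have hL0 : 0 ≤ L := by linarith
      split_ifs
      · positivity
      · exact le_rfl
  -- sum up
  have hM : M5l lam C G Q S R om (t * Y) - M5l lam C G Q S R om (s * Y) =
      4 * Real.pi * ∑ n ∈ Finset.Icc 1 Q, C n * ∑ g ∈ S, tau g.natAbs *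
        (pfT lam G R om n g (t * Y) - pfT lam G R om n g (s * Y)) := by
    unfold M5l pfT
    rw [← mul_sub, ← Finset.sum_sub_distrib]
    congr 1
    refine Finset.sum_congr rfl fun n _ => ?_
    rw [← mul_sub, ← Finset.sum_sub_distrib]
    congr 1
    refine Finset.sum_congr rfl fun g _ => ?_
    ring
  rw [hM, abs_mul, abs_of_pos (show 0 < 4 * Real.pi by positivity)]
  have hL0 : 0 ≤ L := by linarith
  set T := Cτ * X ^ (κ₁ / 300) with hT
  have hT0 : 0 ≤ T := by positivity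
  set V := (W * (800 * L ^ 3 * (T * T))) * U * |t - s| with hV
  have hV0 : 0 ≤ V := by positivity
  have hinner : ∀ n ∈ Finset.Icc 1 Q, |∑ g ∈ S, tau g.natAbs *
      (pfT lam G R om n g (t * Y) - pfT lam G R om n g (s * Y))| ≤
        2 * (U * Q / Y) * (T * V) := by
    intro n hn
    refine (Finset.abs_sum_le_sum_abs _ _).trans ?_
    calc ∑ g ∈ S, |tau g.natAbs * (pfT lam G R om n g (t * Y) - pfT lam G R om n g (s * Y))|
        ≤ ∑ g ∈ S, if |(g : ℝ)| ≤ U * Q / Y then T * V else 0 := by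
          refine Finset.sum_le_sum fun g hg => ?_
          rw [abs_mul, abs_of_nonneg (hτ0 _)]
          have e1 := hterm n hn g hg
          split_ifs at e1 ⊢ with h
          · apply mul_le_mul _ e1 (abs_nonneg _) hT0
            apply hτ
            rw [Nat.cast_natAbs, Int.cast_abs]
            exact h.trans hUQX
          · have : |pfT lam G R om n g (t * Y) - pfT lam G R om n g (s * Y)| = 0 :=
              le_antisymm e1 (abs_nonneg _)
            rw [this, mul_zero]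
      _ = ((S.filter (fun g : ℤ => |(g : ℝ)| ≤ U * Q / Y)).card : ℝ) * (T * V) := by
          rw [← Finset.sum_filter, Finset.sum_const, nsmul_eq_mul]
      _ ≤ 2 * (U * Q / Y) * (T * V) := by
          apply mul_le_mul_of_nonneg_right (pg_card S hS (by positivity)) (by positivity)
  have hsum : |∑ n ∈ Finset.Icc 1 Q, C n * ∑ g ∈ S, tau g.natAbs *
      (pfT lam G R om n g (t * Y) - pfT lam G R om n g (s * Y))| ≤
      X ^ (κ / 100) * (4 * L) * (2 * (U * Q / Y) * (T * V)) := by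
    refine (Finset.abs_sum_le_sum_abs _ _).trans ?_
    calc ∑ n ∈ Finset.Icc 1 Q, |C n * ∑ g ∈ S, tau g.natAbs *
          (pfT lam G R om n g (t * Y) - pfT lam G R om n g (s * Y))|
        ≤ ∑ n ∈ Finset.Icc 1 Q, (X ^ (κ / 100) * (2 * (U * Q / Y) * (T * V))) * (1 / (n : ℝ)) := by
          refine Finset.sum_le_sum fun n hn => ?_
          rw [abs_mul]
          have e1 := hbd n (Finset.mem_Icc.mp hn).1
          calc |C n| * |∑ g ∈ S, tau g.natAbs *
                (pfT lam G R om n g (t * Y) - pfT lam G R om n g (s * Y))|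
              ≤ (X ^ (κ / 100) / n) * (2 * (U * Q / Y) * (T * V)) :=
                mul_le_mul e1 (hinner n hn) (abs_nonneg _) (by positivity)
            _ = _ := by ring
      _ = (X ^ (κ / 100) * (2 * (U * Q / Y) * (T * V))) * ∑ n ∈ Finset.Icc 1 Q, 1 / (n : ℝ) := by
          rw [Finset.mul_sum]
      _ ≤ (X ^ (κ / 100) * (2 * (U * Q / Y) * (T * V))) * (4 * L) := by
          apply mul_le_mul_of_nonneg_left _ (by positivity)
          refine (pg_harm Q).trans ?_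
          linarith
      _ = X ^ (κ / 100) * (4 * L) * (2 * (U * Q / Y) * (T * V)) := by ring
  have hQX : (Q : ℝ) / Y ≤ X ^ (101 / 50 * κ) := by
    rw [div_le_iff₀ hY0]
    linarith
  calc 4 * Real.pi * |∑ n ∈ Finset.Icc 1 Q, C n * ∑ g ∈ S, tau g.natAbs *
        (pfT lam G R om n g (t * Y) - pfT lam G R om n g (s * Y))|
      ≤ 4 * Real.pi * (X ^ (κ / 100) * (4 * L) * (2 * (U * Q / Y) * (T * V))) := by gcongr
    _ = 4 * Real.pi * (X ^ (κ / 100) * (4 * L) * (2 * U * (Q / Y) * (T * V))) := by ring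
    _ ≤ 4 * Real.pi * (X ^ (κ / 100) * (4 * L) * (2 * U * X ^ (101 / 50 * κ) * (T * V))) := by
        gcongr
    _ = A * L ^ 4 * (X ^ (κ / 100) * X ^ (101 / 50 * κ) * X ^ (κ₁ / 300) * X ^ (κ₁ / 300) *
        X ^ (κ₁ / 300) * X ^ (16 * κ₁)) * |t - s| := by
        rw [hA, hV, hT, hW]; ring
    _ ≤ X ^ (κ₁ / 100) * X ^ (17 * κ₁ - κ₁ / 100) * |t - s| := by
        apply mul_le_mul_of_nonneg_right _ (abs_nonneg _)
        apply mul_le_mul hAX _ (by positivity) (by positivity)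
        rw [← Real.rpow_add hX0, ← Real.rpow_add hX0, ← Real.rpow_add hX0, ← Real.rpow_add hX0,
          ← Real.rpow_add hX0]
        apply Real.rpow_le_rpow_of_exponent_le hX1
        linarith
    _ = X ^ (17 * κ₁) * |t - s| := by
        rw [← Real.rpow_add hX0]; congr 2; ring

end Pool.Agent.LSPP
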