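import Pool.Agent.Lib_helper15.LSP2.PE
import Pool.Agent.Lib_helper15.LSP2.PF
import Pool.Agent.Lib_helper15.LSPF.PG4

/-! LSP, version 2, part P2: weights on a logarithmic grid and the discrete average.

`a` is the step of the grid, `K` the number of steps that cover `[0, log 2]`. -/

set_option autoImplicit false

namespace Pool.Agent.LSPP

open Pool.Agent.LSP (tau sg1 CC Gs Adm)
open Pool.Agent.LSPO (hyp cl KK rho b1 GOK)
open Pool.Agent.FG61 (mu phi cc)
open MeasureTheory Filter Topology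

/-- the elementary weights: `k < K` -/
noncomputable def tk (a : ℝ) (k : ℕ) : ℝ :=
  (∫ t in (Real.exp (k * a))..(Real.exp (((k + 1 : ℕ) : ℝ) * a)), th (1 / t) / t) / wT

/-- the weights of the grid points `j < J` -/
noncomputable def gw (a : ℝ) (K J j : ℕ) : ℝ :=
  ∑ k ∈ Finset.range K, ∑ l ∈ Finset.range K,
    tk a k * tk a l * (if 2 * K ≤ j + k + l ∧ j + k + l < J then 1 else 0)

/-- `K` steps of length `a` cover `[0, log 2]` -/
structure Cov (a : ℝ) (K : ℕ) : Prop where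
  pos : 0 < a
  le_one : a ≤ 1
  lo : Real.log 2 ≤ K * a
  up : K * a ≤ Real.log 2 + a

theorem gr_log2 : Real.log 2 ≤ 1 := by
  have := Real.log_le_sub_one_of_pos (show (0 : ℝ) < 2 by norm_num)
  linarith

theorem Cov.up2 {a : ℝ} {K : ℕ} (h : Cov a K) : K * a ≤ 2 := by
  have := h.up
  have := h.le_one
  have := gr_log2
  linarith

/-- the number of steps -/
theorem cov_exists {a : ℝ} (h0 : 0 < a) (h1 : a ≤ 1) : Cov a ⌈Real.log 2 / a⌉₊ := by
  have hl : 0 < Real.log 2 := Real.log_pos (by norm_num)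
  refine ⟨h0, h1, ?_, ?_⟩
  · have := Nat.le_ceil (Real.log 2 / a)
    rw [div_le_iff₀ h0] at this
    exact this
  · have h2 := (Nat.ceil_lt_add_one (a := Real.log 2 / a) (by positivity)).le
    calc (⌈Real.log 2 / a⌉₊ : ℝ) * a ≤ (Real.log 2 / a + 1) * a :=
          mul_le_mul_of_nonneg_right h2 h0.le
      _ = Real.log 2 + a := by field_simp

theorem gr_pt_le {a : ℝ} (ha : 0 ≤ a) (k : ℕ) :
    Real.exp (k * a) ≤ Real.exp (((k + 1 : ℕ) : ℝ) * a) := by
  apply Real.exp_le_exp.mpr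
  push_cast
  nlinarith

theorem gr_pt_one {a : ℝ} (ha : 0 ≤ a) (k : ℕ) : 1 ≤ Real.exp (k * a) := by
  apply Real.one_le_exp
  positivity

theorem tk_nonneg {a : ℝ} (ha : 0 ≤ a) (k : ℕ) : 0 ≤ tk a k := by
  unfold tk
  apply div_nonneg _ wT_pos.le
  apply intervalIntegral.integral_nonneg (gr_pt_le ha k)
  intro t ht
  exact (pg_w_bd ((gr_pt_one ha k).trans ht.1)).1

theorem gr_th_zero {t : ℝ} (ht : 2 < t) : th (1 / t) / t = 0 := by
  have h0 : 0 < t := by linarith
  have h1 : 1 / t < 1 / 2 := one_div_lt_one_div_of_lt (by norm_num) ht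
  unfold th
  rw [if_neg, zero_div]
  rintro ⟨h2, _⟩
  linarith

theorem gr_int2 {f : ℝ → ℝ} (hf : IntervalIntegrable f volume 1 2) (h0 : ∀ t, 2 < t → f t = 0)
    {b : ℝ} (hb : 2 ≤ b) : IntervalIntegrable f volume 1 b ∧
    ∫ t in (1 : ℝ)..b, f t = ∫ t in (1 : ℝ)..2, f t := by
  have h1 : IntervalIntegrable f volume 2 b := by
    have hz : IntervalIntegrable (fun _ : ℝ => (0 : ℝ)) volume 2 b := intervalIntegrable_const
    refine hz.congr ?_
    intro t ht
    rw [Set.uIoc_of_le hb] at ht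
    exact (h0 t ht.1).symm
  have h2 : ∫ t in (2 : ℝ)..b, f t = 0 := by
    have : ∫ t in (2 : ℝ)..b, f t = ∫ t in (2 : ℝ)..b, (0 : ℝ) := by
      apply intervalIntegral.integral_congr_ae
      refine Eventually.of_forall fun t ht => ?_
      rw [Set.uIoc_of_le hb] at ht
      exact h0 t ht.1
    rw [this]
    simp
  refine ⟨hf.trans h1, ?_⟩
  rw [← intervalIntegral.integral_add_adjacent_intervals hf h1, h2, add_zero]

theorem gr_split {a : ℝ} {K : ℕ} (hK : Cov a K) {f : ℝ → ℝ}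
    (hf : IntervalIntegrable f volume 1 2) (h0 : ∀ t, 2 < t → f t = 0) :
    ∑ k ∈ Finset.range K,
      ∫ t in (Real.exp (k * a))..(Real.exp (((k + 1 : ℕ) : ℝ) * a)), f t =
      ∫ t in (1 : ℝ)..2, f t := by
  have hb : 2 ≤ Real.exp (K * a) := by
    calc (2 : ℝ) = Real.exp (Real.log 2) := (Real.exp_log (by norm_num)).symm
      _ ≤ Real.exp (K * a) := Real.exp_le_exp.mpr hK.lo
  obtain ⟨hi, he⟩ := gr_int2 hf h0 hb
  have h := intervalIntegral.sum_integral_adjacent_intervals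
    (a := fun k : ℕ => Real.exp (k * a)) (n := K) (f := f) (μ := volume) (fun k hk => ?_)
  · rw [h, ← he]
    simp only [Nat.cast_zero, zero_mul, Real.exp_zero]
  · apply hi.mono_set
    rw [Set.uIcc_of_le (gr_pt_le hK.pos.le k), Set.uIcc_of_le (by linarith)]
    apply Set.Icc_subset_Icc (gr_pt_one hK.pos.le k)
    apply Real.exp_le_exp.mpr
    apply mul_le_mul_of_nonneg_right _ hK.pos.le
    exact_mod_cast hk

theorem tk_sum {a : ℝ} {K : ℕ} (hK : Cov a K) : ∑ k ∈ Finset.range K, tk a k = 1 := by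
  unfold tk
  rw [← Finset.sum_div, gr_split hK (pg_w_int le_rfl (by norm_num)) fun t ht => gr_th_zero ht]
  exact div_self wT_pos.ne'

/-- the width of a step of the multiplicative grid -/
theorem gr_width {a : ℝ} {K k : ℕ} (hK : Cov a K) (hk : k < K) :
    Real.exp (((k + 1 : ℕ) : ℝ) * a) - Real.exp (k * a) ≤ 16 * a := by
  have hs := hK.pos
  have e1 : Real.exp (((k + 1 : ℕ) : ℝ) * a) = Real.exp (k * a) * Real.exp a := by
    rw [← Real.exp_add]
    congr 1
    push_cast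
    ring
  have e2 : Real.exp (k * a) ≤ 8 := by
    have h1 : (k : ℝ) * a ≤ 2 := by
      refine le_trans ?_ hK.up2
      apply mul_le_mul_of_nonneg_right _ hs.le
      exact_mod_cast hk.le
    calc Real.exp (k * a) ≤ Real.exp 2 := Real.exp_le_exp.mpr h1
      _ = Real.exp 1 * Real.exp 1 := by rw [← Real.exp_add]; norm_num
      _ ≤ 2.7182818286 * 2.7182818286 := by
          have := Real.exp_one_lt_d9.le
          have h0 := (Real.exp_pos 1).le
          exact mul_le_mul this this h0 (by norm_num)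
      _ ≤ 8 := by norm_num
  have e3 : Real.exp a - 1 ≤ 2 * a := by
    have h := Real.abs_exp_sub_one_le (x := a) (by rw [abs_of_nonneg hs.le]; exact hK.le_one)
    rw [abs_of_nonneg hs.le] at h
    exact (le_abs_self _).trans h
  have e4 : 0 ≤ Real.exp a - 1 := by
    have := Real.one_le_exp hs.le
    linarith
  calc Real.exp (((k + 1 : ℕ) : ℝ) * a) - Real.exp (k * a)
      = Real.exp (k * a) * (Real.exp a - 1) := by rw [e1]; ring
    _ ≤ 8 * (2 * a) := mul_le_mul e2 e3 e4 (by norm_num)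
    _ = 16 * a := by ring

/-- **the discrete average**: the average of the principal part over a short multiplicative grid -/
theorem gr_av {G : ℝ → ℝ} {U c₀ : ℝ} (hG : GOK G U c₀) (ha : ∀ u, G (1 - u) = - G u) (B : ℕ) :
    ∃ B' : ℕ, ∀ κ κ₁ : ℝ, 0 < κ → κ ≤ 1 / 1000 → 9 / 4 * κ ≤ κ₁ → κ₁ ≤ 1 / 100 →
    ∀ δ : ℝ, 0 < δ →
    ∃ X₀ : ℝ, ∀ X : ℝ, X₀ ≤ X → ∀ Y : ℝ, X ^ (1 / 2 : ℝ) ≤ Y → Y ≤ X ^ 2 →
    ∀ (R Q V : ℕ) (C : ℕ → ℝ), PC κ B B' X Y R Q C → U * Q ≤ V * Y →
    X ^ (6 * κ) / 2 ≤ R → (R : ℝ) ≤ X ^ (1 / 100 : ℝ) → ∀ lam : ℝ, 0 ≤ lam →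
    lam ≤ 4 * Real.log X → ∀ (a : ℝ) (K : ℕ), Cov a K → a ≤ X ^ (-(18 * κ₁)) →
      |∑ k ∈ Finset.range K, tk a k *
        M5l lam C G Q (GV V) R (X ^ (-(4 * κ₁))) (Real.exp (k * a) * Y)| ≤ δ := by
  obtain ⟨B', hav⟩ := p2_av hG ha B
  refine ⟨B', fun κ κ₁ h0 h1 h2 h3 δ hδ => ?_⟩
  have h0' : 0 < κ₁ := by linarith
  have hT := wT_pos
  obtain ⟨X₁, hav⟩ := hav κ h0 h1 (wT * δ / 2) (by positivity)
  obtain ⟨X₃, hlip⟩ := pf_lip hG h0 h2 h3
  have t1 : Tendsto (fun X : ℝ => X ^ (-κ₁)) atTop (𝓝 0) := tendsto_rpow_neg_atTop h0'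
  have ev1 : ∀ᶠ X : ℝ in atTop, X ^ (-κ₁) < δ / 32 :=
    t1.eventually (gt_mem_nhds (show (0 : ℝ) < δ / 32 by positivity))
  obtain ⟨X₅, hX₅⟩ := eventually_atTop.mp ev1
  refine ⟨max (max X₁ X₃) (max X₅ 3), fun X hX Y hY1 hY2 R Q V C hC hV hR0 hR1 lam hl0 hl1
    a K hK haX => ?_⟩
  have hXa : X₁ ≤ X := le_trans (by simp) hX
  have hXc : X₃ ≤ X := le_trans (by simp) hX
  have hXe : X₅ ≤ X := le_trans (by simp) hX
  have hXf : 3 ≤ X := le_trans (by simp) hX
  have hX1 : (1 : ℝ) ≤ X := by linarith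
  have hX0 : (0 : ℝ) < X := by linarith
  have hY0 : 0 < Y := (Real.rpow_pos_of_pos hX0 _).trans_le hY1
  have ha0 := hK.pos
  have hRX : (R : ℝ) ≤ X := by
    refine hR1.trans ?_
    calc X ^ (1 / 100 : ℝ) ≤ X ^ (1 : ℝ) :=
          Real.rpow_le_rpow_of_exponent_le hX1 (by norm_num)
      _ = X := Real.rpow_one X
  set F : ℝ → ℝ := fun t => M5l lam C G Q (GV V) R (X ^ (-(4 * κ₁))) (t * Y) with hF
  have hint : IntervalIntegrable (fun t => F t * (th (1 / t) / t)) volume 1 2 :=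
    pa_int hG lam C Q (GV V) R (om := X ^ (-(4 * κ₁))) (X := Y) (Real.rpow_pos_of_pos hX0 _) hY0
  have hzero : ∀ t : ℝ, 2 < t → F t * (th (1 / t) / t) = 0 := by
    intro t ht
    rw [gr_th_zero ht, mul_zero]
  have hL : ∀ s t : ℝ, 1 ≤ s → 1 ≤ t → |F t - F s| ≤ X ^ (17 * κ₁) * |t - s| :=
    hlip X hXc Y hY1 hY2 Q C hC.size hC.bdd (GV V) (GV_zero V) R hRX lam hl0 hl1
  set δ' : ℝ := δ / 2 with hδ'
  set W : ℕ → ℝ := fun k => ∫ t in (Real.exp (k * a))..(Real.exp (((k + 1 : ℕ) : ℝ) * a)),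
    th (1 / t) / t with hW
  have hWtk : ∀ k, W k = wT * tk a k := by
    intro k
    simp only [hW, tk]
    field_simp
  have hb2 : 2 ≤ Real.exp (K * a) := by
    calc (2 : ℝ) = Real.exp (Real.log 2) := (Real.exp_log (by norm_num)).symm
      _ ≤ Real.exp (K * a) := Real.exp_le_exp.mpr hK.lo
  have hpt : ∀ k ∈ Finset.range K, |W k * F (Real.exp (k * a)) -
      ∫ t in (Real.exp (k * a))..(Real.exp (((k + 1 : ℕ) : ℝ) * a)),
        F t * (th (1 / t) / t)| ≤ δ' * W k := by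
    intro j hj
    rw [Finset.mem_range] at hj
    have hlen := gr_width hK hj
    have h01 := gr_pt_le ha0.le j
    have h1a := gr_pt_one ha0.le j
    have haK : Real.exp (((j + 1 : ℕ) : ℝ) * a) ≤ Real.exp (K * a) := by
      apply Real.exp_le_exp.mpr
      apply mul_le_mul_of_nonneg_right _ ha0.le
      exact_mod_cast hj
    simp only [hW]
    set a₀ := Real.exp (j * a) with ha₀
    set a₁ := Real.exp (((j + 1 : ℕ) : ℝ) * a) with ha₁
    have hwi : IntervalIntegrable (fun t : ℝ => th (1 / t) / t) volume a₀ a₁ :=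
      pg_w_int h1a (h1a.trans h01)
    have hFi : IntervalIntegrable (fun t => F t * (th (1 / t) / t)) volume a₀ a₁ := by
      apply (gr_int2 hint hzero hb2).1.mono_set
      rw [Set.uIcc_of_le h01, Set.uIcc_of_le (by linarith)]
      exact Set.Icc_subset_Icc h1a haK
    have f1 : (∫ t in a₀..a₁, th (1 / t) / t) * F a₀ =
        ∫ t in a₀..a₁, F a₀ * (th (1 / t) / t) := by
      rw [intervalIntegral.integral_const_mul, mul_comm]
    rw [f1, ← intervalIntegral.integral_sub (hwi.const_mul _) hFi]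
    have f2 : ∀ t ∈ Set.Icc a₀ a₁, |F a₀ * (th (1 / t) / t) - F t * (th (1 / t) / t)| ≤
        δ' * (th (1 / t) / t) := by
      intro t ht
      have h1t : 1 ≤ t := h1a.trans ht.1
      obtain ⟨g1, g2⟩ := pg_w_bd h1t
      rw [← sub_mul, abs_mul, abs_of_nonneg g1]
      apply mul_le_mul_of_nonneg_right _ g1
      rw [abs_sub_comm]
      refine (hL a₀ t h1a h1t).trans ?_
      have g3 : |t - a₀| ≤ 16 * a := by
        rw [abs_of_nonneg (by linarith [ht.1])]
        linarith [ht.2]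
      calc X ^ (17 * κ₁) * |t - a₀| ≤ X ^ (17 * κ₁) * (16 * X ^ (-(18 * κ₁))) := by
            apply mul_le_mul_of_nonneg_left _ (by positivity)
            exact g3.trans (mul_le_mul_of_nonneg_left haX (by norm_num))
        _ = 16 * X ^ (-κ₁) := by
            rw [show -κ₁ = 17 * κ₁ + -(18 * κ₁) by ring, Real.rpow_add hX0]
            ring
        _ ≤ δ' := by
            have := (hX₅ X hXe).le
            rw [hδ']
            linarith
    calc |∫ t in a₀..a₁, (F a₀ * (th (1 / t) / t) - F t * (th (1 / t) / t))|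
        ≤ ∫ t in a₀..a₁, |F a₀ * (th (1 / t) / t) - F t * (th (1 / t) / t)| :=
          intervalIntegral.abs_integral_le_integral_abs h01
      _ ≤ ∫ t in a₀..a₁, δ' * (th (1 / t) / t) := by
          apply intervalIntegral.integral_mono_on h01 _ (hwi.const_mul _) f2
          exact ((hwi.const_mul _).sub hFi).abs
      _ = δ' * ∫ t in a₀..a₁, th (1 / t) / t := by
          rw [intervalIntegral.integral_const_mul]
  have h5 : |av F| ≤ wT * δ / 2 :=
    hav X hXa Y hY1 hY2 R Q V C hC hV hR0 hR1 (X ^ (-(4 * κ₁))) (Real.rpow_pos_of_pos hX0 _)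
      (Real.rpow_le_rpow_of_exponent_le hX1 (by linarith)) lam hl0 hl1
  have h6 : |∑ k ∈ Finset.range K, W k * F (Real.exp (k * a)) - av F| ≤ wT * δ / 2 := by
    have e1 : av F = ∑ k ∈ Finset.range K,
        ∫ t in (Real.exp (k * a))..(Real.exp (((k + 1 : ℕ) : ℝ) * a)),
          F t * (th (1 / t) / t) := by
      rw [gr_split hK hint hzero]; rfl
    have e2 : ∑ k ∈ Finset.range K, W k = wT := by
      rw [Finset.sum_congr rfl fun k _ => hWtk k, ← Finset.mul_sum, tk_sum hK, mul_one]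
    rw [e1, ← Finset.sum_sub_distrib]
    refine (Finset.abs_sum_le_sum_abs _ _).trans ((Finset.sum_le_sum hpt).trans ?_)
    rw [← Finset.mul_sum, e2, hδ']
    apply le_of_eq
    ring
  have h7 : ∑ k ∈ Finset.range K, tk a k *
      M5l lam C G Q (GV V) R (X ^ (-(4 * κ₁))) (Real.exp (k * a) * Y) =
      (∑ k ∈ Finset.range K, W k * F (Real.exp (k * a))) / wT := by
    rw [Finset.sum_div]
    refine Finset.sum_congr rfl fun k _ => ?_
    rw [hWtk k]
    simp only [hF]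
    field_simp
  rw [h7, abs_div, abs_of_pos hT, div_le_iff₀ hT]
  have h8 : |∑ k ∈ Finset.range K, W k * F (Real.exp (k * a))| ≤ wT * δ := by
    rw [abs_le] at h5 h6 ⊢
    constructor
    · linarith [h5.1, h6.1]
    · linarith [h5.2, h6.2]
  linarith

end Pool.Agent.LSPP
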