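import Pool.Agent.Lib_helper15.LSP2.GR1

/-! LSP, version 2, part P2: sums over the grid with the weights `gw`. -/

set_option autoImplicit false

namespace Pool.Agent.LSPP

open MeasureTheory Filter Topology

/-- the change of variables `r = j + k + l` -/
theorem gr_sum (a : ℝ) (K J : ℕ) (f : ℕ → ℝ) :
    ∑ j ∈ Finset.range J, gw a K J j * f j =
      ∑ r ∈ Finset.Ico (2 * K) J, ∑ k ∈ Finset.range K, ∑ l ∈ Finset.range K,
        tk a k * tk a l * f (r - k - l) := by
  have h1 : ∀ k ∈ Finset.range K, ∀ l ∈ Finset.range K,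
      ∑ j ∈ Finset.range J, (if 2 * K ≤ j + k + l ∧ j + k + l < J then 1 else 0) * f j =
        ∑ r ∈ Finset.Ico (2 * K) J, f (r - k - l) := by
    intro k hk l hl
    rw [Finset.mem_range] at hk hl
    have e1 : ∀ j ∈ Finset.range J,
        (if 2 * K ≤ j + k + l ∧ j + k + l < J then (1 : ℝ) else 0) * f j =
        if 2 * K ≤ j + k + l ∧ j + k + l < J then f j else 0 := by
      intro j _
      split_ifs <;> simp
    rw [Finset.sum_congr rfl e1, ← Finset.sum_filter]
    refine Finset.sum_nbij' (fun j => j + k + l) (fun r => r - k - l) ?_ ?_ ?_ ?_ ?_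
    · intro j hj
      simp only [Finset.mem_filter, Finset.mem_range, Finset.mem_Ico] at hj ⊢
      exact hj.2
    · intro r hr
      simp only [Finset.mem_filter, Finset.mem_range, Finset.mem_Ico] at hr ⊢
      omega
    · intro j hj
      simp only [Finset.mem_filter, Finset.mem_range] at hj
      omega
    · intro r hr
      simp only [Finset.mem_Ico] at hr
      omega
    · intro j hj
      have : j + k + l - k - l = j := by omega
      simp only [this]
  calc ∑ j ∈ Finset.range J, gw a K J j * f j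
      = ∑ j ∈ Finset.range J, ∑ k ∈ Finset.range K, ∑ l ∈ Finset.range K,
          tk a k * tk a l * ((if 2 * K ≤ j + k + l ∧ j + k + l < J then 1 else 0) * f j) := by
        refine Finset.sum_congr rfl fun j _ => ?_
        unfold gw
        rw [Finset.sum_mul]
        refine Finset.sum_congr rfl fun k _ => ?_
        rw [Finset.sum_mul]
        refine Finset.sum_congr rfl fun l _ => ?_
        ring
    _ = ∑ k ∈ Finset.range K, ∑ l ∈ Finset.range K, ∑ j ∈ Finset.range J,
          tk a k * tk a l * ((if 2 * K ≤ j + k + l ∧ j + k + l < J then 1 else 0) * f j) := by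
        rw [Finset.sum_comm]
        refine Finset.sum_congr rfl fun k _ => ?_
        rw [Finset.sum_comm]
    _ = ∑ k ∈ Finset.range K, ∑ l ∈ Finset.range K, ∑ r ∈ Finset.Ico (2 * K) J,
          tk a k * tk a l * f (r - k - l) := by
        refine Finset.sum_congr rfl fun k hk => Finset.sum_congr rfl fun l hl => ?_
        rw [← Finset.mul_sum, h1 k hk l hl, Finset.mul_sum]
    _ = _ := by
        rw [Finset.sum_comm' (s := Finset.Ico (2 * K) J) (t := fun _ => Finset.range K)
          (s' := fun _ => Finset.Ico (2 * K) J) (t' := Finset.range K) (by simp [and_comm])]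
        refine Finset.sum_congr rfl fun k _ => ?_
        rw [Finset.sum_comm]

theorem gw_nonneg {a : ℝ} (ha : 0 ≤ a) (K J j : ℕ) : 0 ≤ gw a K J j := by
  unfold gw
  refine Finset.sum_nonneg fun k _ => Finset.sum_nonneg fun l _ => ?_
  have := tk_nonneg ha k
  have := tk_nonneg ha l
  split_ifs <;> positivity

theorem gw_le {a : ℝ} {K : ℕ} (hK : Cov a K) (J j : ℕ) : gw a K J j ≤ 1 := by
  unfold gw
  calc ∑ k ∈ Finset.range K, ∑ l ∈ Finset.range K,
        tk a k * tk a l * (if 2 * K ≤ j + k + l ∧ j + k + l < J then 1 else 0)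
      ≤ ∑ k ∈ Finset.range K, ∑ l ∈ Finset.range K, tk a k * tk a l := by
        refine Finset.sum_le_sum fun k _ => Finset.sum_le_sum fun l _ => ?_
        have h1 := tk_nonneg hK.pos.le k
        have h2 := tk_nonneg hK.pos.le l
        have h3 : 0 ≤ tk a k * tk a l := mul_nonneg h1 h2
        split_ifs
        · rw [mul_one]
        · rw [mul_zero]; exact h3
    _ = 1 := by
        rw [← Finset.sum_mul_sum, tk_sum hK, mul_one]

theorem gw_sum {a : ℝ} {K : ℕ} (hK : Cov a K) {J : ℕ} (hJ : 2 * K ≤ J) :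
    ∑ j ∈ Finset.range J, gw a K J j = (J : ℝ) - 2 * K := by
  have h := gr_sum a K J (fun _ => 1)
  simp only [mul_one] at h
  rw [h]
  have e : ∑ k ∈ Finset.range K, ∑ l ∈ Finset.range K, tk a k * tk a l = 1 := by
    rw [← Finset.sum_mul_sum, tk_sum hK, mul_one]
  rw [e, Finset.sum_const, Nat.card_Ico, nsmul_eq_mul, Nat.cast_sub hJ]
  push_cast
  ring

/-- antisymmetric double sums vanish -/
theorem gr_anti2 (K : ℕ) (H : ℕ → ℕ → ℝ) (hH : ∀ k l, H k l = - H l k) :
    ∑ k ∈ Finset.range K, ∑ l ∈ Finset.range K, H k l = 0 := by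
  have h1 : ∑ k ∈ Finset.range K, ∑ l ∈ Finset.range K, H k l =
      - ∑ k ∈ Finset.range K, ∑ l ∈ Finset.range K, H k l := by
    conv_lhs => rw [Finset.sum_comm]
    rw [← Finset.sum_neg_distrib]
    refine Finset.sum_congr rfl fun k _ => ?_
    rw [← Finset.sum_neg_distrib]
    exact Finset.sum_congr rfl fun l _ => hH l k
  linarith

/-- the linear sum -/
theorem gr_lin {a : ℝ} {K J : ℕ} (hK : Cov a K) (Φ Ψ : ℝ → ℝ) (s0 ε : ℝ) (hε : 0 ≤ ε)
    (hav : ∀ q lam : ℝ, s0 ≤ q → q ≤ s0 + J * a → s0 ≤ lam → lam ≤ s0 + J * a →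
      |∑ l ∈ Finset.range K, tk a l * (Φ (q - l * a) + lam * Ψ (q - l * a))| ≤ ε) :
    |∑ j ∈ Finset.range J, gw a K J j *
      (Φ (s0 + j * a) + (s0 + j * a) * Ψ (s0 + j * a))| ≤ ε * J := by
  have ha0 : 0 ≤ a := hK.pos.le
  rw [gr_sum a K J (fun j => Φ (s0 + j * a) + (s0 + j * a) * Ψ (s0 + j * a))]
  have key : ∀ r ∈ Finset.Ico (2 * K) J,
      |∑ k ∈ Finset.range K, ∑ l ∈ Finset.range K, tk a k * tk a l *
        (Φ (s0 + ((r - k - l : ℕ) : ℝ) * a) +
          (s0 + ((r - k - l : ℕ) : ℝ) * a) * Ψ (s0 + ((r - k - l : ℕ) : ℝ) * a))| ≤ ε := by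
    intro r hr
    rw [Finset.mem_Ico] at hr
    have e1 : ∑ k ∈ Finset.range K, ∑ l ∈ Finset.range K, tk a k * tk a l *
        (Φ (s0 + ((r - k - l : ℕ) : ℝ) * a) +
          (s0 + ((r - k - l : ℕ) : ℝ) * a) * Ψ (s0 + ((r - k - l : ℕ) : ℝ) * a)) =
        ∑ k ∈ Finset.range K, tk a k * ∑ l ∈ Finset.range K, tk a l *
          (Φ ((s0 + r * a - k * a) - l * a) +
            (s0 + r * a - 2 * k * a) * Ψ ((s0 + r * a - k * a) - l * a)) := by
      have e2 : ∑ k ∈ Finset.range K, ∑ l ∈ Finset.range K,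
          (tk a k * tk a l * (((k : ℝ) - l) * a * Ψ (s0 + r * a - (k + l) * a))) = 0 := by
        apply gr_anti2
        intro k l
        rw [show ((l : ℝ) + k) = k + l by ring]
        ring
      have e3 : ∀ k ∈ Finset.range K, ∀ l ∈ Finset.range K, tk a k * tk a l *
          (Φ (s0 + ((r - k - l : ℕ) : ℝ) * a) +
          (s0 + ((r - k - l : ℕ) : ℝ) * a) * Ψ (s0 + ((r - k - l : ℕ) : ℝ) * a)) =
          tk a k * (tk a l * (Φ ((s0 + r * a - k * a) - l * a) +
            (s0 + r * a - 2 * k * a) * Ψ ((s0 + r * a - k * a) - l * a))) +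
          (tk a k * tk a l * (((k : ℝ) - l) * a * Ψ (s0 + r * a - (k + l) * a))) := by
        intro k hk l hl
        rw [Finset.mem_range] at hk hl
        have c1 : ((r - k - l : ℕ) : ℝ) = (r : ℝ) - k - l := by
          rw [Nat.cast_sub (by omega), Nat.cast_sub (by omega)]
        rw [c1, show s0 + ((r : ℝ) - k - l) * a = s0 + r * a - (k + l) * a by ring,
          show s0 + r * a - k * a - l * a = s0 + r * a - (k + l) * a by ring]
        ring
      rw [Finset.sum_congr rfl fun k hk => Finset.sum_congr rfl fun l hl => e3 k hk l hl]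
      simp only [Finset.sum_add_distrib]
      rw [e2, add_zero]
      refine Finset.sum_congr rfl fun k _ => ?_
      rw [Finset.mul_sum]
    rw [e1]
    refine (Finset.abs_sum_le_sum_abs _ _).trans ?_
    have e4 : ∀ k ∈ Finset.range K, |tk a k * ∑ l ∈ Finset.range K, tk a l *
          (Φ ((s0 + r * a - k * a) - l * a) +
            (s0 + r * a - 2 * k * a) * Ψ ((s0 + r * a - k * a) - l * a))| ≤ tk a k * ε := by
      intro k hk
      rw [Finset.mem_range] at hk
      rw [abs_mul, abs_of_nonneg (tk_nonneg ha0 k)]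
      apply mul_le_mul_of_nonneg_left _ (tk_nonneg ha0 k)
      have hkK : (k : ℝ) ≤ K := by exact_mod_cast hk.le
      have hk0 : (0 : ℝ) ≤ k := Nat.cast_nonneg k
      have hrK : 2 * (K : ℝ) ≤ r := by exact_mod_cast hr.1
      have hrJ : (r : ℝ) ≤ J := by exact_mod_cast hr.2.le
      have hka : (k : ℝ) * a ≤ K * a := mul_le_mul_of_nonneg_right hkK ha0
      have hka0 : 0 ≤ (k : ℝ) * a := mul_nonneg hk0 ha0
      have hra : 2 * (K : ℝ) * a ≤ r * a := mul_le_mul_of_nonneg_right hrK ha0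
      have hrJa : (r : ℝ) * a ≤ J * a := mul_le_mul_of_nonneg_right hrJ ha0
      apply hav
      · linarith
      · linarith
      · linarith
      · linarith
    refine (Finset.sum_le_sum e4).trans ?_
    rw [← Finset.sum_mul, tk_sum hK, one_mul]
  refine (Finset.abs_sum_le_sum_abs _ _).trans ((Finset.sum_le_sum key).trans ?_)
  rw [Finset.sum_const, Nat.card_Ico, nsmul_eq_mul, mul_comm]
  apply mul_le_mul_of_nonneg_left _ hε
  exact_mod_cast Nat.sub_le J (2 * K)

/-- the double sum -/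
theorem gr_sum2 (a : ℝ) (K J : ℕ) (f : ℕ → ℕ → ℝ) :
    ∑ j ∈ Finset.range J, ∑ j' ∈ Finset.range J, gw a K J j * gw a K J j' * f j j' =
      ∑ r ∈ Finset.Ico (2 * K) J, ∑ r' ∈ Finset.Ico (2 * K) J,
        ∑ k ∈ Finset.range K, ∑ l ∈ Finset.range K,
        ∑ k' ∈ Finset.range K, ∑ l' ∈ Finset.range K,
        tk a k * tk a l * (tk a k' * tk a l') * f (r - k - l) (r' - k' - l') := by
  calc ∑ j ∈ Finset.range J, ∑ j' ∈ Finset.range J, gw a K J j * gw a K J j' * f j j'
      = ∑ j ∈ Finset.range J, gw a K J j * ∑ j' ∈ Finset.range J, gw a K J j' * f j j' := by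
        refine Finset.sum_congr rfl fun j _ => ?_
        rw [Finset.mul_sum]
        refine Finset.sum_congr rfl fun j' _ => ?_
        ring
    _ = ∑ j ∈ Finset.range J, gw a K J j * (fun j => ∑ r' ∈ Finset.Ico (2 * K) J,
          ∑ k' ∈ Finset.range K, ∑ l' ∈ Finset.range K,
          tk a k' * tk a l' * f j (r' - k' - l')) j := by
        refine Finset.sum_congr rfl fun j _ => ?_
        rw [gr_sum a K J (fun j' => f j j')]
    _ = ∑ r ∈ Finset.Ico (2 * K) J, ∑ k ∈ Finset.range K, ∑ l ∈ Finset.range K,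
          tk a k * tk a l * ∑ r' ∈ Finset.Ico (2 * K) J,
          ∑ k' ∈ Finset.range K, ∑ l' ∈ Finset.range K,
          tk a k' * tk a l' * f (r - k - l) (r' - k' - l') := gr_sum a K J _
    _ = _ := by
        refine Finset.sum_congr rfl fun r _ => ?_
        rw [Finset.sum_comm' (s := Finset.Ico (2 * K) J) (t := fun _ => Finset.range K)
          (s' := fun _ => Finset.Ico (2 * K) J) (t' := Finset.range K) (by simp [and_comm])]
        refine Finset.sum_congr rfl fun k _ => ?_
        rw [Finset.sum_comm' (s := Finset.Ico (2 * K) J) (t := fun _ => Finset.range K)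
          (s' := fun _ => Finset.Ico (2 * K) J) (t' := Finset.range K) (by simp [and_comm])]
        refine Finset.sum_congr rfl fun l _ => ?_
        rw [Finset.mul_sum]
        refine Finset.sum_congr rfl fun r' _ => ?_
        rw [Finset.mul_sum]
        refine Finset.sum_congr rfl fun k' _ => ?_
        rw [Finset.mul_sum]
        refine Finset.sum_congr rfl fun l' _ => ?_
        ring

/-- the quadratic sum -/
theorem gr_quad {a : ℝ} {K J : ℕ} (hK : Cov a K) (Φ Ψ : ℝ → ℝ) (s0 ε : ℝ) (hε : 0 ≤ ε)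
    (hav : ∀ q lam : ℝ, 2 * s0 ≤ q → q ≤ 2 * (s0 + J * a) → 2 * s0 ≤ lam →
      lam ≤ 2 * (s0 + J * a) →
      |∑ l ∈ Finset.range K, tk a l * (Φ (q - l * a) + lam * Ψ (q - l * a))| ≤ ε) :
    |∑ j ∈ Finset.range J, ∑ j' ∈ Finset.range J, gw a K J j * gw a K J j' *
      (Φ ((s0 + j * a) + (s0 + j' * a)) +
        ((s0 + j * a) + (s0 + j' * a)) * Ψ ((s0 + j * a) + (s0 + j' * a)))| ≤
      ε * (J : ℝ) ^ 2 := by
  have ha0 : 0 ≤ a := hK.pos.le
  rw [gr_sum2 a K J (fun j j' => Φ ((s0 + j * a) + (s0 + j' * a)) +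
        ((s0 + j * a) + (s0 + j' * a)) * Ψ ((s0 + j * a) + (s0 + j' * a)))]
  have key : ∀ r ∈ Finset.Ico (2 * K) J, ∀ r' ∈ Finset.Ico (2 * K) J,
      |∑ k ∈ Finset.range K, ∑ l ∈ Finset.range K,
        ∑ k' ∈ Finset.range K, ∑ l' ∈ Finset.range K,
        tk a k * tk a l * (tk a k' * tk a l') *
        (Φ ((s0 + ((r - k - l : ℕ) : ℝ) * a) + (s0 + ((r' - k' - l' : ℕ) : ℝ) * a)) +
        ((s0 + ((r - k - l : ℕ) : ℝ) * a) + (s0 + ((r' - k' - l' : ℕ) : ℝ) * a)) *
          Ψ ((s0 + ((r - k - l : ℕ) : ℝ) * a) + (s0 + ((r' - k' - l' : ℕ) : ℝ) * a)))| ≤ ε := by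
    intro r hr r' hr'
    rw [Finset.mem_Ico] at hr hr'
    set σ : ℝ := 2 * s0 + (r + r') * a with hσ
    set H : ℕ → ℕ → ℕ → ℕ → ℝ := fun k l k' l' =>
      tk a k * tk a l * (tk a k' * tk a l') * (a * Ψ (σ - ((k : ℝ) + l + k' + l') * a)) with hH
    have z1 : ∑ k ∈ Finset.range K, ∑ l ∈ Finset.range K,
        ∑ k' ∈ Finset.range K, ∑ l' ∈ Finset.range K, ((k : ℝ) - l) * H k l k' l' = 0 := by
      apply gr_anti2 K (fun k l => ∑ k' ∈ Finset.range K, ∑ l' ∈ Finset.range K,
        ((k : ℝ) - l) * H k l k' l')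
      intro k l
      rw [← Finset.sum_neg_distrib]
      refine Finset.sum_congr rfl fun k' _ => ?_
      rw [← Finset.sum_neg_distrib]
      refine Finset.sum_congr rfl fun l' _ => ?_
      simp only [hH]
      rw [show ((l : ℝ) + k + k' + l') = k + l + k' + l' by ring]
      ring
    have z2 : ∑ k ∈ Finset.range K, ∑ l ∈ Finset.range K,
        ∑ k' ∈ Finset.range K, ∑ l' ∈ Finset.range K, ((k' : ℝ) - l') * H k l k' l' = 0 := by
      refine Finset.sum_eq_zero fun k _ => Finset.sum_eq_zero fun l _ => ?_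
      apply gr_anti2 K (fun k' l' => ((k' : ℝ) - l') * H k l k' l')
      intro k' l'
      simp only [hH]
      rw [show ((k : ℝ) + l + l' + k') = k + l + k' + l' by ring]
      ring
    have z3 : ∑ k ∈ Finset.range K, ∑ l ∈ Finset.range K,
        ∑ k' ∈ Finset.range K, ∑ l' ∈ Finset.range K, (2 * ((k : ℝ) - k')) * H k l k' l' = 0 := by
      rw [Finset.sum_comm]
      refine Finset.sum_eq_zero fun l _ => ?_
      apply gr_anti2 K (fun k k' => ∑ l' ∈ Finset.range K, (2 * ((k : ℝ) - k')) * H k l k' l')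
      intro k k'
      rw [← Finset.sum_neg_distrib]
      refine Finset.sum_congr rfl fun l' _ => ?_
      simp only [hH]
      rw [show ((k' : ℝ) + l + k + l') = k + l + k' + l' by ring]
      ring
    have e1 : ∑ k ∈ Finset.range K, ∑ l ∈ Finset.range K,
        ∑ k' ∈ Finset.range K, ∑ l' ∈ Finset.range K,
        tk a k * tk a l * (tk a k' * tk a l') *
        (Φ ((s0 + ((r - k - l : ℕ) : ℝ) * a) + (s0 + ((r' - k' - l' : ℕ) : ℝ) * a)) +
        ((s0 + ((r - k - l : ℕ) : ℝ) * a) + (s0 + ((r' - k' - l' : ℕ) : ℝ) * a)) *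
          Ψ ((s0 + ((r - k - l : ℕ) : ℝ) * a) + (s0 + ((r' - k' - l' : ℕ) : ℝ) * a))) =
        ∑ k ∈ Finset.range K, ∑ l ∈ Finset.range K,
        ∑ k' ∈ Finset.range K, tk a k * tk a l * tk a k' * ∑ l' ∈ Finset.range K, tk a l' *
          (Φ ((σ - (k + l + k') * a) - l' * a) +
            (σ - 4 * k * a) * Ψ ((σ - (k + l + k') * a) - l' * a)) := by
      have e3 : ∀ k ∈ Finset.range K, ∀ l ∈ Finset.range K, ∀ k' ∈ Finset.range K,
          ∀ l' ∈ Finset.range K, tk a k * tk a l * (tk a k' * tk a l') *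
          (Φ ((s0 + ((r - k - l : ℕ) : ℝ) * a) + (s0 + ((r' - k' - l' : ℕ) : ℝ) * a)) +
          ((s0 + ((r - k - l : ℕ) : ℝ) * a) + (s0 + ((r' - k' - l' : ℕ) : ℝ) * a)) *
          Ψ ((s0 + ((r - k - l : ℕ) : ℝ) * a) + (s0 + ((r' - k' - l' : ℕ) : ℝ) * a))) =
          tk a k * tk a l * tk a k' * (tk a l' *
          (Φ ((σ - (k + l + k') * a) - l' * a) +
            (σ - 4 * k * a) * Ψ ((σ - (k + l + k') * a) - l' * a))) +
          (((k : ℝ) - l) * H k l k' l' + ((k' : ℝ) - l') * H k l k' l' +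
            (2 * ((k : ℝ) - k')) * H k l k' l') := by
        intro k hk l hl k' hk' l' hl'
        rw [Finset.mem_range] at hk hl hk' hl'
        have c1 : ((r - k - l : ℕ) : ℝ) = (r : ℝ) - k - l := by
          rw [Nat.cast_sub (by omega), Nat.cast_sub (by omega)]
        have c2 : ((r' - k' - l' : ℕ) : ℝ) = (r' : ℝ) - k' - l' := by
          rw [Nat.cast_sub (by omega), Nat.cast_sub (by omega)]
        have c3 : (s0 + ((r : ℝ) - k - l) * a) + (s0 + ((r' : ℝ) - k' - l') * a) =
            σ - ((k : ℝ) + l + k' + l') * a := by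
          rw [hσ]; ring
        have c4 : σ - ((k : ℝ) + l + k') * a - l' * a = σ - ((k : ℝ) + l + k' + l') * a := by ring
        rw [c1, c2, c3, c4]
        simp only [hH]
        ring
      rw [Finset.sum_congr rfl fun k hk => Finset.sum_congr rfl fun l hl =>
        Finset.sum_congr rfl fun k' hk' => Finset.sum_congr rfl fun l' hl' =>
          e3 k hk l hl k' hk' l' hl']
      simp only [Finset.sum_add_distrib]
      rw [z1, z2, z3, add_zero, add_zero, add_zero]
      refine Finset.sum_congr rfl fun k _ => Finset.sum_congr rfl fun l _ =>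
        Finset.sum_congr rfl fun k' _ => ?_
      rw [Finset.mul_sum]
    rw [e1]
    have e4 : ∀ k ∈ Finset.range K, ∀ l ∈ Finset.range K, ∀ k' ∈ Finset.range K,
        |tk a k * tk a l * tk a k' * ∑ l' ∈ Finset.range K, tk a l' *
          (Φ ((σ - (k + l + k') * a) - l' * a) +
            (σ - 4 * k * a) * Ψ ((σ - (k + l + k') * a) - l' * a))| ≤
          tk a k * tk a l * tk a k' * ε := by
      intro k hk l hl k' hk'
      rw [Finset.mem_range] at hk hl hk'
      have ht : 0 ≤ tk a k * tk a l * tk a k' :=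
        mul_nonneg (mul_nonneg (tk_nonneg ha0 k) (tk_nonneg ha0 l)) (tk_nonneg ha0 k')
      rw [abs_mul, abs_of_nonneg ht]
      apply mul_le_mul_of_nonneg_left _ ht
      have b1 : ∀ x : ℕ, x < K → 0 ≤ (x : ℝ) * a ∧ (x : ℝ) * a ≤ K * a := by
        intro x hx
        exact ⟨mul_nonneg (Nat.cast_nonneg x) ha0,
          mul_le_mul_of_nonneg_right (by exact_mod_cast hx.le) ha0⟩
      obtain ⟨k1, k2⟩ := b1 k hk
      obtain ⟨l1, l2⟩ := b1 l hl
      obtain ⟨m1, m2⟩ := b1 k' hk'
      have b2 : ∀ x : ℕ, 2 * K ≤ x → x < J → 2 * ((K : ℝ) * a) ≤ x * a ∧ (x : ℝ) * a ≤ J * a := by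
        intro x h1 h2
        constructor
        · have : 2 * (K : ℝ) ≤ x := by exact_mod_cast h1
          nlinarith
        · exact mul_le_mul_of_nonneg_right (by exact_mod_cast h2.le) ha0
      obtain ⟨r1, r2⟩ := b2 r hr.1 hr.2
      obtain ⟨s1, s2⟩ := b2 r' hr'.1 hr'.2
      have hσ' : σ = 2 * s0 + (r * a + r' * a) := by rw [hσ]; ring
      apply hav
      · rw [hσ']; linarith
      · rw [hσ']; linarith
      · rw [hσ']; linarith
      · rw [hσ']; linarith
    calc |∑ k ∈ Finset.range K, ∑ l ∈ Finset.range K,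
        ∑ k' ∈ Finset.range K, tk a k * tk a l * tk a k' * ∑ l' ∈ Finset.range K, tk a l' *
          (Φ ((σ - (k + l + k') * a) - l' * a) +
            (σ - 4 * k * a) * Ψ ((σ - (k + l + k') * a) - l' * a))|
        ≤ ∑ k ∈ Finset.range K, ∑ l ∈ Finset.range K,
          ∑ k' ∈ Finset.range K, tk a k * tk a l * tk a k' * ε := by
          refine (Finset.abs_sum_le_sum_abs _ _).trans (Finset.sum_le_sum fun k hk => ?_)
          refine (Finset.abs_sum_le_sum_abs _ _).trans (Finset.sum_le_sum fun l hl => ?_)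
          refine (Finset.abs_sum_le_sum_abs _ _).trans (Finset.sum_le_sum fun k' hk' => ?_)
          exact e4 k hk l hl k' hk'
      _ = ε := by
          have f1 : ∀ k ∈ Finset.range K, ∀ l ∈ Finset.range K,
              ∑ k' ∈ Finset.range K, tk a k * tk a l * tk a k' * ε = tk a k * tk a l * ε := by
            intro k _ l _
            rw [← Finset.sum_mul, ← Finset.mul_sum, tk_sum hK, mul_one]
          rw [Finset.sum_congr rfl fun k hk => Finset.sum_congr rfl fun l hl => f1 k hk l hl]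
          have f2 : ∀ k ∈ Finset.range K,
              ∑ l ∈ Finset.range K, tk a k * tk a l * ε = tk a k * ε := by
            intro k _
            rw [← Finset.sum_mul, ← Finset.mul_sum, tk_sum hK, mul_one]
          rw [Finset.sum_congr rfl f2, ← Finset.sum_mul, tk_sum hK, one_mul]
  calc _ ≤ ∑ r ∈ Finset.Ico (2 * K) J, ∑ r' ∈ Finset.Ico (2 * K) J, ε := by
        refine (Finset.abs_sum_le_sum_abs _ _).trans (Finset.sum_le_sum fun r hr => ?_)
        exact (Finset.abs_sum_le_sum_abs _ _).trans (Finset.sum_le_sum fun r' hr' => key r hr r' hr')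
    _ = ε * (((J - 2 * K : ℕ) : ℝ) ^ 2) := by
        rw [Finset.sum_const, Finset.sum_const, Nat.card_Ico, nsmul_eq_mul, nsmul_eq_mul]
        ring
    _ ≤ ε * (J : ℝ) ^ 2 := by
        apply mul_le_mul_of_nonneg_left _ hε
        apply pow_le_pow_left₀ (Nat.cast_nonneg _)
        exact_mod_cast Nat.sub_le J (2 * K)

end Pool.Agent.LSPP
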