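import Pool.Agent.Lib_helper15.LSP2.GR2

/-! LSP, version 2, part P2: the principal part summed over the grid points with the weights
`gw` is small, once and twice. -/

set_option autoImplicit false

namespace Pool.Agent.LSPP

open Pool.Agent.LSP (tau sg1 CC Gs Adm)
open Pool.Agent.LSPO (hyp cl KK rho b1 GOK)
open Pool.Agent.FG61 (mu phi cc)
open MeasureTheory Filter Topology

/-- the slope of `M5l` in `lam` -/
noncomputable def M5s (C : ℕ → ℝ) (G : ℝ → ℝ) (Q : ℕ) (S : Finset ℤ) (R : ℕ)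
    (om Z : ℝ) : ℝ :=
  4 * Real.pi * ∑ n ∈ Finset.Icc 1 Q, C n * ∑ g ∈ S, tau g.natAbs *
    (KK G om ((g : ℝ) * Z / n) * ∑ c ∈ Finset.Icc 1 R,
      cc c n * cc c g.natAbs / (c * phi c) * (1 / 2))

theorem M5l_affine (lam : ℝ) (C : ℕ → ℝ) (G : ℝ → ℝ) (Q : ℕ) (S : Finset ℤ) (R : ℕ)
    (om Z : ℝ) : M5l lam C G Q S R om Z = M5l 0 C G Q S R om Z + lam * M5s C G Q S R om Z := by
  unfold M5l M5s
  rw [mul_left_comm lam, ← mul_add, Finset.mul_sum (a := lam), ← Finset.sum_add_distrib]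
  congr 1
  refine Finset.sum_congr rfl fun n _ => ?_
  rw [mul_left_comm lam, ← mul_add, Finset.mul_sum (a := lam), ← Finset.sum_add_distrib]
  congr 1
  refine Finset.sum_congr rfl fun g _ => ?_
  rw [mul_left_comm lam, ← mul_add, mul_left_comm lam, ← mul_add, Finset.mul_sum (a := lam),
    ← Finset.sum_add_distrib]
  congr 2
  refine Finset.sum_congr rfl fun c _ => ?_
  ring

/-- **P2, linear**: `s` runs over the logarithms of the window centres -/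
theorem p2_lin {G : ℝ → ℝ} {U c₀ : ℝ} (hG : GOK G U c₀) (ha : ∀ u, G (1 - u) = - G u) (B : ℕ) :
    ∃ B' : ℕ, ∀ κ κ₁ : ℝ, 0 < κ → κ ≤ 1 / 1000 → 9 / 4 * κ ≤ κ₁ → κ₁ ≤ 1 / 100 →
    ∀ δ : ℝ, 0 < δ →
    ∃ X₀ : ℝ, ∀ X : ℝ, X₀ ≤ X → ∀ (a : ℝ) (K J : ℕ) (s0 Z : ℝ), Cov a K →
    a ≤ X ^ (-(18 * κ₁)) → 0 ≤ s0 →
    s0 + J * a ≤ 4 * Real.log X → ∀ (R Q V : ℕ) (C : ℕ → ℝ),
    X ^ (6 * κ) / 2 ≤ R → (R : ℝ) ≤ X ^ (1 / 100 : ℝ) →
    (∀ s : ℝ, s0 ≤ s → s ≤ s0 + J * a →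
      X ^ (1 / 2 : ℝ) ≤ Z * Real.exp (-s) ∧ Z * Real.exp (-s) ≤ X ^ 2 ∧
      PC κ B B' X (Z * Real.exp (-s)) R Q C ∧ U * Q ≤ V * (Z * Real.exp (-s))) →
      |∑ j ∈ Finset.range J, gw a K J j * M5l (s0 + j * a) C G Q (GV V) R
        (X ^ (-(4 * κ₁))) (Z * Real.exp (-(s0 + j * a)))| ≤ δ * J := by
  obtain ⟨B', hav⟩ := gr_av hG ha B
  refine ⟨B', fun κ κ₁ h0 h1 h2 h3 δ hδ => ?_⟩
  obtain ⟨X₀, hav⟩ := hav κ κ₁ h0 h1 h2 h3 δ hδ
  refine ⟨max X₀ 1, fun X hX a K J s0 Z hK haX hs0 hs1 R Q V C hR0 hR1 hC => ?_⟩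
  have hXa : X₀ ≤ X := le_trans (by simp) hX
  have hX1 : (1 : ℝ) ≤ X := le_trans (by simp) hX
  have hX0 : (0 : ℝ) < X := by linarith
  have h := gr_lin (J := J) hK (fun q => M5l 0 C G Q (GV V) R (X ^ (-(4 * κ₁)))
    (Z * Real.exp (-q))) (fun q => M5s C G Q (GV V) R (X ^ (-(4 * κ₁))) (Z * Real.exp (-q)))
    s0 δ hδ.le (fun q lam hq0 hq1 hl0 hl1 => ?_)
  · have e : ∀ j ∈ Finset.range J, gw a K J j * M5l (s0 + j * a) C G Q (GV V) R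
        (X ^ (-(4 * κ₁))) (Z * Real.exp (-(s0 + j * a))) =
        gw a K J j * (M5l 0 C G Q (GV V) R (X ^ (-(4 * κ₁))) (Z * Real.exp (-(s0 + j * a))) +
        (s0 + j * a) *
          M5s C G Q (GV V) R (X ^ (-(4 * κ₁))) (Z * Real.exp (-(s0 + j * a)))) := by
      intro j _
      rw [M5l_affine]
    rw [Finset.sum_congr rfl e]
    exact h
  · obtain ⟨c1, c2, c3, c4⟩ := hC q hq0 hq1
    have h5 := hav X hXa _ c1 c2 R Q V C c3 c4 hR0 hR1 lam (hs0.trans hl0) (hl1.trans hs1) a K hK haX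
    refine le_trans (le_of_eq ?_) h5
    congr 1
    refine Finset.sum_congr rfl fun l _ => ?_
    have e1 : Z * Real.exp (-(q - l * a)) =
        Real.exp (l * a) * (Z * Real.exp (-q)) := by
      rw [show -(q - l * a) = l * a + -q by ring, Real.exp_add]
      ring
    simp only [e1]
    rw [← M5l_affine]

/-- **P2, quadratic** -/
theorem p2_quad {G : ℝ → ℝ} {U c₀ : ℝ} (hG : GOK G U c₀) (ha : ∀ u, G (1 - u) = - G u) (B : ℕ) :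
    ∃ B' : ℕ, ∀ κ κ₁ : ℝ, 0 < κ → κ ≤ 1 / 1000 → 9 / 4 * κ ≤ κ₁ → κ₁ ≤ 1 / 100 →
    ∀ δ : ℝ, 0 < δ →
    ∃ X₀ : ℝ, ∀ X : ℝ, X₀ ≤ X → ∀ (a : ℝ) (K J : ℕ) (s0 Z : ℝ), Cov a K →
    a ≤ X ^ (-(18 * κ₁)) → 0 ≤ s0 →
    2 * (s0 + J * a) ≤ 4 * Real.log X → ∀ (R Q V : ℕ) (C : ℕ → ℝ),
    X ^ (6 * κ) / 2 ≤ R → (R : ℝ) ≤ X ^ (1 / 100 : ℝ) →
    (∀ s : ℝ, 2 * s0 ≤ s → s ≤ 2 * (s0 + J * a) →
      X ^ (1 / 2 : ℝ) ≤ Z * Real.exp (-s) ∧ Z * Real.exp (-s) ≤ X ^ 2 ∧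
      PC κ B B' X (Z * Real.exp (-s)) R Q C ∧ U * Q ≤ V * (Z * Real.exp (-s))) →
      |∑ j ∈ Finset.range J, ∑ j' ∈ Finset.range J, gw a K J j * gw a K J j' *
        M5l ((s0 + j * a) + (s0 + j' * a)) C G Q (GV V) R
        (X ^ (-(4 * κ₁))) (Z * Real.exp (-((s0 + j * a) + (s0 + j' * a))))| ≤
        δ * (J : ℝ) ^ 2 := by
  obtain ⟨B', hav⟩ := gr_av hG ha B
  refine ⟨B', fun κ κ₁ h0 h1 h2 h3 δ hδ => ?_⟩
  obtain ⟨X₀, hav⟩ := hav κ κ₁ h0 h1 h2 h3 δ hδ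
  refine ⟨max X₀ 1, fun X hX a K J s0 Z hK haX hs0 hs1 R Q V C hR0 hR1 hC => ?_⟩
  have hXa : X₀ ≤ X := le_trans (by simp) hX
  have hX1 : (1 : ℝ) ≤ X := le_trans (by simp) hX
  have hX0 : (0 : ℝ) < X := by linarith
  have h := gr_quad (J := J) hK (fun q => M5l 0 C G Q (GV V) R (X ^ (-(4 * κ₁)))
    (Z * Real.exp (-q))) (fun q => M5s C G Q (GV V) R (X ^ (-(4 * κ₁))) (Z * Real.exp (-q)))
    s0 δ hδ.le (fun q lam hq0 hq1 hl0 hl1 => ?_)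
  · have e : ∀ j ∈ Finset.range J, ∀ j' ∈ Finset.range J, gw a K J j * gw a K J j' *
        M5l ((s0 + j * a) + (s0 + j' * a)) C G Q (GV V) R
        (X ^ (-(4 * κ₁))) (Z * Real.exp (-((s0 + j * a) + (s0 + j' * a)))) =
        gw a K J j * gw a K J j' *
        (M5l 0 C G Q (GV V) R (X ^ (-(4 * κ₁)))
          (Z * Real.exp (-((s0 + j * a) + (s0 + j' * a)))) +
        ((s0 + j * a) + (s0 + j' * a)) *
          M5s C G Q (GV V) R (X ^ (-(4 * κ₁)))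
            (Z * Real.exp (-((s0 + j * a) + (s0 + j' * a))))) := by
      intro j _ j' _
      rw [M5l_affine]
    rw [Finset.sum_congr rfl fun j hj => Finset.sum_congr rfl fun j' hj' => e j hj j' hj']
    exact h
  · obtain ⟨c1, c2, c3, c4⟩ := hC q hq0 hq1
    have h5 := hav X hXa _ c1 c2 R Q V C c3 c4 hR0 hR1 lam (by linarith) (hl1.trans hs1) a K hK haX
    refine le_trans (le_of_eq ?_) h5
    congr 1
    refine Finset.sum_congr rfl fun l _ => ?_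
    have e1 : Z * Real.exp (-(q - l * a)) =
        Real.exp (l * a) * (Z * Real.exp (-q)) := by
      rw [show -(q - l * a) = l * a + -q by ring, Real.exp_add]
      ring
    simp only [e1]
    rw [← M5l_affine]

end Pool.Agent.LSPP
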