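import Pool.Agent.Lib_helper41.LSP2.Defs2
import Pool.Agent.Lib_helper61.FG.P.CE

/-! LSP, version 2, part P2: the kernel of the trivial character. -/

set_option autoImplicit false

namespace Pool.Agent.LSPP

open Pool.Agent.LSP (tau kap wc PsiK)
open Pool.Agent.KSL (RR)
open Pool.Agent.FG61 (mu phi cc)
open Pool.Agent.Var35 (e ram)
open Complex ComplexConjugate

/-- Ramanujan sums at integers -/
theorem kap_ram {c : ℕ} (hc : 1 ≤ c) (z : ℤ) : ((cc c z.natAbs : ℝ) : ℂ) = ram c z := by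
  have h1 := Pool.Agent.FG61.cc_exp c z.natAbs hc
  have h2 : ∑ a ∈ (Finset.range c).filter (fun a => Nat.Coprime a c),
      e ((a : ℝ) * (z.natAbs : ℕ) / c) = ram c (z.natAbs : ℤ) := by
    unfold Pool.Agent.Var35.ram
    refine Finset.sum_congr rfl fun a _ => ?_
    rw [mul_div_assoc, Int.cast_natCast]
  rw [h1, h2, Pool.Agent.Var35.ram_eq c hc, Pool.Agent.Var35.ram_eq c hc]
  refine Finset.sum_congr rfl fun d _ => ?_
  have h3 : (((c / d : ℕ) : ℤ) ∣ (z.natAbs : ℤ)) ↔ (((c / d : ℕ) : ℤ) ∣ z) := by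
    rw [Int.dvd_natAbs]
  simp only [h3]

theorem kap_ram_mul {c a : ℕ} (hc : 1 ≤ c) (ha : Nat.Coprime a c) (z : ℤ) :
    ram c ((a : ℤ) * z) = ram c z := by
  rw [Pool.Agent.Var35.ram_eq c hc, Pool.Agent.Var35.ram_eq c hc]
  refine Finset.sum_congr rfl fun d hd => ?_
  have h3 : (((c / d : ℕ) : ℤ) ∣ (a : ℤ) * z) ↔ (((c / d : ℕ) : ℤ) ∣ z) := by
    constructor
    · intro h
      have h4 : IsCoprime ((c / d : ℕ) : ℤ) (a : ℤ) := by
        rw [Nat.isCoprime_iff_coprime]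
        exact (Nat.Coprime.coprime_dvd_right (Nat.div_dvd_of_dvd (Nat.dvd_of_mem_divisors hd))
          ha).symm
      exact h4.dvd_of_dvd_mul_left h
    · exact fun h => Dvd.dvd.mul_left h _
  simp only [h3]

theorem kap_ram_neg {c : ℕ} (hc : 1 ≤ c) (z : ℤ) : ram c (-z) = ram c z := by
  rw [← kap_ram hc, ← kap_ram hc, Int.natAbs_neg]

/-- the mean value of `c_c(u m - g)` over units `u` -/
theorem kap_sum {c : ℕ} (hc : 1 ≤ c) (m : ℕ) (g : ℤ) :
    ∑ u ∈ RR c, ((cc c ((u : ℤ) * m - g).natAbs : ℝ) : ℂ) =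
      ((cc c m * cc c g.natAbs : ℝ) : ℂ) := by
  have hRR : RR c = (Finset.range c).filter (fun a => Nat.Coprime a c) := by
    unfold RR
    refine Finset.filter_congr fun a _ => ?_
    exact Nat.coprime_comm
  have h1 : ∀ u ∈ RR c, ((cc c ((u : ℤ) * m - g).natAbs : ℝ) : ℂ) =
      ∑ a ∈ (Finset.range c).filter (fun a => Nat.Coprime a c),
        e (u * (((a : ℤ) * m : ℤ) / c)) * e (a * (((-g : ℤ) : ℝ) / c)) := by
    intro u _
    rw [kap_ram hc]
    unfold Pool.Agent.Var35.ram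
    refine Finset.sum_congr rfl fun a _ => ?_
    rw [← Pool.Agent.Var35.e_add]
    congr 1
    push_cast
    ring
  rw [Finset.sum_congr rfl h1, Finset.sum_comm]
  have h2 : ∀ a ∈ (Finset.range c).filter (fun a => Nat.Coprime a c),
      ∑ u ∈ RR c, e (u * (((a : ℤ) * m : ℤ) / c)) * e (a * (((-g : ℤ) : ℝ) / c)) =
      ram c m * e (a * (((-g : ℤ) : ℝ) / c)) := by
    intro a ha
    rw [← Finset.sum_mul, hRR]
    congr 1
    exact kap_ram_mul hc (Finset.mem_filter.mp ha).2 m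
  rw [Finset.sum_congr rfl h2, ← Finset.mul_sum]
  have h3 : ∑ a ∈ (Finset.range c).filter (fun a => Nat.Coprime a c),
      e (a * (((-g : ℤ) : ℝ) / c)) = ram c (-g) := rfl
  rw [h3, kap_ram_neg hc, ← kap_ram hc g]
  have h4 := kap_ram hc (m : ℤ)
  rw [Int.natAbs_natCast] at h4
  rw [← h4]
  push_cast
  rfl

theorem kap_one {c : ℕ} (hc : 1 ≤ c) (m : ℕ) (g : ℤ) :
    kap c ⟨1, 1⟩ m g = ((cc c m * cc c g.natAbs / phi c : ℝ) : ℂ) := by
  unfold kap
  have h1 : ∀ u ∈ RR c, conj ((1 : DirichletCharacter ℂ 1) (u : ZMod 1)) *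
      ((cc c ((u : ℤ) * m - g).natAbs : ℝ) : ℂ) = ((cc c ((u : ℤ) * m - g).natAbs : ℝ) : ℂ) := by
    intro u _
    have : (1 : DirichletCharacter ℂ 1) (u : ZMod 1) = 1 := by
      apply MulChar.one_apply
      exact isUnit_of_subsingleton _
    rw [this, map_one, one_mul]
  rw [Finset.sum_congr rfl h1, kap_sum hc]
  push_cast
  ring

end Pool.Agent.LSPP
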