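import Pool.Agent.Lib_helper15.LSP2.PT
import Pool.Agent.Lib_helper15.LSP2.GR3

/-! LSP, version 2, part P2: the statement `p2_main` of `Top2`. -/

set_option autoImplicit false

namespace Pool.Agent.LSPP

open Pool.Agent.LSP (tau sg1 Gs kap wc PsiK AdmB KerL GG E2 R2 Zj)
open Pool.Agent.LSPO (hyp cl KK rho b1 GOK)
open Pool.Agent.FG61 (mu phi cc)
open MeasureTheory Filter Topology

/-- the masses of the windows -/
noncomputable def mw (v : ℝ) (X : ℕ) (J : ℕ) (dl : ℝ) (j : ℕ) : ℝ :=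
  dl / (v * Real.log X) * gw dl ⌈Real.log 2 / dl⌉₊ J j

/-- a weighted sum against a small error -/
theorem pm_sum {ι : Type} (s : Finset ι) (m f F : ι → ℝ) {M e d : ℝ} (hm : ∀ j ∈ s, 0 ≤ m j)
    (hM : ∑ j ∈ s, m j ≤ M) (he : 0 ≤ e) (hf : ∀ j ∈ s, |f j - F j| ≤ e)
    (hF : |∑ j ∈ s, m j * F j| ≤ d) : |∑ j ∈ s, m j * f j| ≤ M * e + d := by
  have h1 : ∑ j ∈ s, m j * f j = ∑ j ∈ s, m j * (f j - F j) + ∑ j ∈ s, m j * F j := by
    rw [← Finset.sum_add_distrib]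
    refine Finset.sum_congr rfl fun j _ => ?_
    ring
  rw [h1]
  refine (abs_add_le _ _).trans (add_le_add ?_ hF)
  refine (Finset.abs_sum_le_sum_abs _ _).trans ?_
  calc ∑ j ∈ s, |m j * (f j - F j)| ≤ ∑ j ∈ s, m j * e := by
        refine Finset.sum_le_sum fun j hj => ?_
        rw [abs_mul, abs_of_nonneg (hm j hj)]
        exact mul_le_mul_of_nonneg_left (hf j hj) (hm j hj)
    _ = (∑ j ∈ s, m j) * e := by rw [Finset.sum_mul]
    _ ≤ M * e := mul_le_mul_of_nonneg_right hM he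

theorem p2_main {T : ℝ} {ρ : ℝ → ℝ} (hρ : KerL T ρ) {B₀ : ℕ} (hB : 1 + T ^ 2 ≤ (B₀ : ℝ)) (B : ℕ) :
    ∃ B' : ℕ, ∀ κ v : ℝ, 0 < κ → 1000 * κ ≤ v → v ≤ 1 / 80 → ∀ δ : ℝ, 0 < δ →
    ∃ X₀ : ℕ, ∀ X : ℕ, X₀ ≤ X → ∀ (J : ℕ) (dl : ℝ), 0 < dl → dl ≤ (X : ℝ) ^ (-(136 * κ)) →
      J * dl ≤ κ * Real.log X → κ * Real.log X ≤ (J + 1) * dl → ∃ m : ℕ → ℝ,
      (∀ j, 0 ≤ m j ∧ m j ≤ dl / (v * Real.log X)) ∧
      κ / (2 * v) ≤ ∑ j ∈ Finset.range J, m j ∧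
      ∀ Z : ℝ, (X : ℝ) / 2 ≤ Z → Z ≤ 4 * X →
      (∀ (Q : ℕ) (C : ℕ → ℝ), (Q : ℝ) ≤ (X : ℝ) ^ (1 - v + 3 * κ) → AdmB κ B B' X Q C →
        |∑ j ∈ Finset.range J, m j * (PsiK C (GG ρ) (Pool.Agent.LSP.om2 κ X) (E2 κ X ^ 2)
          (Gs B₀ (E2 κ X)) (2 * (B₀ + 1) * E2 κ X) (R2 κ X) ⟨1, 1⟩ (Zj v X dl j) Z).re| ≤ δ) ∧
      (∀ (Q : ℕ) (C : ℕ → ℝ), (Q : ℝ) ≤ (X : ℝ) ^ (1 - 2 * v + 3 * κ) → AdmB κ B B' X Q C →
        |∑ j ∈ Finset.range J, ∑ j' ∈ Finset.range J, m j * m j' *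
          (PsiK C (GG ρ) (Pool.Agent.LSP.om2 κ X) (E2 κ X ^ 2) (Gs B₀ (E2 κ X))
            (2 * (B₀ + 1) * E2 κ X) (R2 κ X) ⟨1, 1⟩ (Zj v X dl j * Zj v X dl j') Z).re| ≤ δ) := by
  obtain ⟨c₀, hG⟩ := Pool.Agent.LSP.gok_gg hρ
  obtain ⟨B₁, hlin⟩ := p2_lin hG (Pool.Agent.LSP.gg_anti_all hρ) B
  obtain ⟨B₂, hquad⟩ := p2_quad hG (Pool.Agent.LSP.gg_anti_all hρ) B
  refine ⟨max B₁ B₂, fun κ v h0 hκv hv80 δ hδ => ?_⟩
  have hv0 : 0 < v := by linarith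
  have hκ : κ ≤ 1 / 80000 := by linarith
  obtain ⟨X₁, hlin⟩ := hlin (3 * κ) (15 / 2 * κ) (by positivity) (by linarith) (by linarith)
    (by linarith) (δ / 2) (by positivity)
  obtain ⟨X₂, hquad⟩ := hquad (3 * κ) (15 / 2 * κ) (by positivity) (by linarith) (by linarith)
    (by linarith) (δ / 2) (by positivity)
  obtain ⟨X₃, hpt₁⟩ := p2_pt hρ hB B B₁ (max B₁ B₂) (le_max_left _ _) h0 hκ
  obtain ⟨X₄, hpt₂⟩ := p2_pt hρ hB B B₂ (max B₁ B₂) (le_max_right _ _) h0 hκ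
  have t0 : Tendsto (fun X : ℕ => (X : ℝ)) atTop atTop := tendsto_natCast_atTop_atTop
  have t1 : Tendsto (fun X : ℝ => X ^ (-(3 * κ))) atTop (𝓝 0) :=
    tendsto_rpow_neg_atTop (by positivity)
  have ev1 : ∀ᶠ X : ℕ in atTop, (X : ℝ) ^ (-(3 * κ)) < δ / 2 :=
    t0.eventually (t1.eventually (gt_mem_nhds (show (0 : ℝ) < δ / 2 by positivity)))
  have ev2 : ∀ᶠ X : ℕ in atTop, 20 / κ ≤ Real.log X :=
    (Real.tendsto_log_atTop.comp t0).eventually_ge_atTop _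
  obtain ⟨X₅, hX₅⟩ := eventually_atTop.mp (ev1.and ev2)
  refine ⟨max (max (max ⌈X₁⌉₊ ⌈X₂⌉₊) (max X₃ X₄)) (max X₅ 3),
    fun X hX J dl hdl0 hdl1 hJ0 hJ1 => ?_⟩
  have hXa : X₁ ≤ X := by
    have : ⌈X₁⌉₊ ≤ X := le_trans (by simp) hX
    exact (Nat.le_ceil _).trans (by exact_mod_cast this)
  have hXb : X₂ ≤ X := by
    have : ⌈X₂⌉₊ ≤ X := le_trans (by simp) hX
    exact (Nat.le_ceil _).trans (by exact_mod_cast this)
  have hXc : X₃ ≤ X := le_trans (by simp) hX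
  have hXd : X₄ ≤ X := le_trans (by simp) hX
  have hXe : X₅ ≤ X := le_trans (by simp) hX
  have hXf : 3 ≤ X := le_trans (by simp) hX
  have hX1 : (1 : ℝ) ≤ X := by exact_mod_cast (by omega : 1 ≤ X)
  have hX0 : (0 : ℝ) < X := by linarith
  obtain ⟨hX5, hX6⟩ := hX₅ X hXe
  have hL : 0 < Real.log X := lt_of_lt_of_le (by positivity) hX6
  have hκL : 20 ≤ κ * Real.log X := by
    rw [div_le_iff₀ h0] at hX6
    linarith
  have hdl2 : dl ≤ 1 := hdl1.trans (Real.rpow_le_one_of_one_le_of_nonpos hX1 (by linarith))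
  have hcov : Cov dl ⌈Real.log 2 / dl⌉₊ := cov_exists hdl0 hdl2
  set K : ℕ := ⌈Real.log 2 / dl⌉₊ with hK
  set m : ℕ → ℝ := mw v X J dl with hm
  have hmd : ∀ j, m j = dl / (v * Real.log X) * gw dl K J j := fun j => rfl
  have hvL : 0 < v * Real.log X := by positivity
  have hm0 : ∀ j, 0 ≤ m j := fun j => by
    rw [hmd]
    exact mul_nonneg (by positivity) (gw_nonneg hdl0.le K J j)
  have hm1 : ∀ j, m j ≤ dl / (v * Real.log X) := fun j => by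
    rw [hmd]
    exact mul_le_of_le_one_right (by positivity) (gw_le hcov J j)
  have hJdl : (J : ℝ) * (dl / (v * Real.log X)) ≤ 1 := by
    rw [← mul_div_assoc, div_le_one hvL]
    refine hJ0.trans ?_
    apply mul_le_mul_of_nonneg_right _ hL.le
    linarith
  have hmS : ∑ j ∈ Finset.range J, m j ≤ 1 := by
    calc ∑ j ∈ Finset.range J, m j ≤ ∑ j ∈ Finset.range J, dl / (v * Real.log X) :=
          Finset.sum_le_sum fun j _ => hm1 j
      _ = J * (dl / (v * Real.log X)) := by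
          rw [Finset.sum_const, Finset.card_range, nsmul_eq_mul]
      _ ≤ 1 := hJdl
  have hadl : dl ≤ (X : ℝ) ^ (-(18 * (15 / 2 * κ))) :=
    hdl1.trans (Real.rpow_le_rpow_of_exponent_le hX1 (by linarith))
  have hom : Pool.Agent.LSP.om2 κ X = (X : ℝ) ^ (-(4 * (15 / 2 * κ))) := by
    unfold Pool.Agent.LSP.om2
    congr 1
    ring
  set s0 : ℝ := v * Real.log X with hs0
  have hZj : ∀ j : ℕ, Zj v X dl j = Real.exp (s0 + j * dl) := by
    intro j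
    unfold Pool.Agent.LSP.Zj
    rw [Real.exp_add, hs0, Real.rpow_def_of_pos hX0, mul_comm v]
  have hR0 : (X : ℝ) ^ (6 * (3 * κ)) / 2 ≤ (⌊(X : ℝ) ^ (6 * (3 * κ))⌋₊ : ℕ) := by
    have h3 : (2 : ℝ) ≤ (X : ℝ) ^ (6 * (3 * κ)) := by
      rw [Real.rpow_def_of_pos hX0]
      have := Real.add_one_le_exp (Real.log X * (6 * (3 * κ)))
      nlinarith
    have h4 := Nat.lt_floor_add_one ((X : ℝ) ^ (6 * (3 * κ)))
    linarith
  have hR1 : ((⌊(X : ℝ) ^ (6 * (3 * κ))⌋₊ : ℕ) : ℝ) ≤ (X : ℝ) ^ (1 / 100 : ℝ) := by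
    refine (Nat.floor_le (by positivity)).trans ?_
    exact Real.rpow_le_rpow_of_exponent_le hX1 (by linarith)
  have hJs : ∀ j ∈ Finset.range J, 0 ≤ (j : ℝ) * dl ∧ (j : ℝ) * dl ≤ κ * Real.log X := by
    intro j hj
    rw [Finset.mem_range] at hj
    refine ⟨by positivity, le_trans ?_ hJ0⟩
    apply mul_le_mul_of_nonneg_right _ hdl0.le
    exact_mod_cast hj.le
  refine ⟨m, fun j => ⟨hm0 j, hm1 j⟩, ?_, fun Z hZ0 hZ1 => ⟨fun Q C hQ hC => ?_,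
    fun Q C hQ hC => ?_⟩⟩
  · -- the total mass
    have hKdl := hcov.up2
    have hJ' : κ * Real.log X - 1 ≤ J * dl := by
      have : ((J : ℝ) + 1) * dl = J * dl + dl := by ring
      linarith
    have hJK : 2 * K ≤ J := by
      have h3 : (2 * K : ℝ) * dl ≤ J * dl := by
        have : (2 * K : ℝ) * dl = 2 * (K * dl) := by ring
        rw [this]
        linarith
      have h4 : (2 * K : ℝ) ≤ J := le_of_mul_le_mul_right h3 hdl0
      exact_mod_cast h4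
    rw [Finset.sum_congr rfl fun j _ => hmd j, ← Finset.mul_sum, gw_sum hcov hJK]
    have h5 : dl / (v * Real.log X) * ((J : ℝ) - 2 * K) =
        (J * dl - 2 * (K * dl)) / (v * Real.log X) := by
      field_simp
    rw [h5, div_le_div_iff₀ (by positivity) hvL]
    have h6 : κ * Real.log X / 2 ≤ J * dl - 2 * (K * dl) := by linarith
    calc κ * (v * Real.log X) = κ * Real.log X / 2 * (2 * v) := by ring
      _ ≤ (J * dl - 2 * (K * dl)) * (2 * v) := by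
          apply mul_le_mul_of_nonneg_right h6 (by positivity)
  · -- linear
    have hF : |∑ j ∈ Finset.range J, m j * M5l (s0 + j * dl) C (GG ρ) Q
        (GV (B₀ * E2 κ X ^ 2)) ⌊(X : ℝ) ^ (6 * (3 * κ))⌋₊ ((X : ℝ) ^ (-(4 * (15 / 2 * κ))))
        (Z * Real.exp (-(s0 + j * dl)))| ≤ δ / 2 := by
      have h3 := hlin X hXa dl K J s0 Z hcov hadl hvL.le (by
        rw [hs0]; nlinarith) ⌊(X : ℝ) ^ (6 * (3 * κ))⌋₊ Q (B₀ * E2 κ X ^ 2) C hR0 hR1
        (fun s hsa hsb => by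
          obtain ⟨p1, p2, p3, p4, _⟩ := hpt₁ X hXc v s Z hv0.le (by linarith) hsa
            (by rw [hs0] at hsb; nlinarith) hZ0 hZ1 Q C hQ hC
          exact ⟨p1, p2, p3, p4⟩)
      have h4 : ∑ j ∈ Finset.range J, m j * M5l (s0 + j * dl) C (GG ρ) Q
          (GV (B₀ * E2 κ X ^ 2)) ⌊(X : ℝ) ^ (6 * (3 * κ))⌋₊ ((X : ℝ) ^ (-(4 * (15 / 2 * κ))))
          (Z * Real.exp (-(s0 + j * dl))) = dl / (v * Real.log X) *
          ∑ j ∈ Finset.range J, gw dl K J j * M5l (s0 + j * dl) C (GG ρ) Q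
          (GV (B₀ * E2 κ X ^ 2)) ⌊(X : ℝ) ^ (6 * (3 * κ))⌋₊ ((X : ℝ) ^ (-(4 * (15 / 2 * κ))))
          (Z * Real.exp (-(s0 + j * dl))) := by
        rw [Finset.mul_sum]
        refine Finset.sum_congr rfl fun j _ => ?_
        rw [hmd]
        ring
      rw [h4, abs_mul, abs_of_pos (by positivity)]
      calc dl / (v * Real.log X) * _ ≤ dl / (v * Real.log X) * (δ / 2 * J) := by
            apply mul_le_mul_of_nonneg_left h3 (by positivity)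
        _ = (J * (dl / (v * Real.log X))) * (δ / 2) := by ring
        _ ≤ 1 * (δ / 2) := mul_le_mul_of_nonneg_right hJdl (by positivity)
        _ = δ / 2 := one_mul _
    have hfin := pm_sum (Finset.range J) m
      (fun j => (PsiK C (GG ρ) (Pool.Agent.LSP.om2 κ X) (E2 κ X ^ 2)
          (Gs B₀ (E2 κ X)) (2 * (B₀ + 1) * E2 κ X) (R2 κ X) ⟨1, 1⟩ (Zj v X dl j) Z).re)
      (fun j : ℕ => M5l (s0 + j * dl) C (GG ρ) Q
        (GV (B₀ * E2 κ X ^ 2)) ⌊(X : ℝ) ^ (6 * (3 * κ))⌋₊ ((X : ℝ) ^ (-(4 * (15 / 2 * κ))))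
        (Z * Real.exp (-(s0 + j * dl)))) (fun j _ => hm0 j) hmS
      (e := (X : ℝ) ^ (-(3 * κ))) (by positivity) (fun j hj => by
        obtain ⟨q1, q2⟩ := hJs j hj
        obtain ⟨_, _, _, _, p5⟩ := hpt₁ X hXc v (s0 + j * dl) Z hv0.le (by linarith)
          (by rw [hs0]; linarith) (by rw [hs0]; nlinarith) hZ0 hZ1 Q C hQ hC
        rw [hZj j, hom]
        exact p5) hF
    refine hfin.trans ?_
    linarith
  · -- quadratic
    have hF : |∑ p ∈ Finset.range J ×ˢ Finset.range J, (m p.1 * m p.2) *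
        M5l ((s0 + p.1 * dl) + (s0 + p.2 * dl)) C (GG ρ) Q
        (GV (B₀ * E2 κ X ^ 2)) ⌊(X : ℝ) ^ (6 * (3 * κ))⌋₊ ((X : ℝ) ^ (-(4 * (15 / 2 * κ))))
        (Z * Real.exp (-((s0 + p.1 * dl) + (s0 + p.2 * dl))))| ≤ δ / 2 := by
      have h3 := hquad X hXb dl K J s0 Z hcov hadl hvL.le (by
        rw [hs0]; nlinarith) ⌊(X : ℝ) ^ (6 * (3 * κ))⌋₊ Q (B₀ * E2 κ X ^ 2) C hR0 hR1
        (fun s hsa hsb => by
          obtain ⟨p1, p2, p3, p4, _⟩ := hpt₂ X hXd (2 * v) s Z (by linarith) (by linarith)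
            (by rw [hs0] at hsa; linarith)
            (by rw [hs0] at hsb; nlinarith) hZ0 hZ1 Q C hQ hC
          exact ⟨p1, p2, p3, p4⟩)
      rw [Finset.sum_product]
      have h4 : ∑ j ∈ Finset.range J, ∑ j' ∈ Finset.range J, (m j * m j') *
          M5l ((s0 + j * dl) + (s0 + j' * dl)) C (GG ρ) Q
          (GV (B₀ * E2 κ X ^ 2)) ⌊(X : ℝ) ^ (6 * (3 * κ))⌋₊ ((X : ℝ) ^ (-(4 * (15 / 2 * κ))))
          (Z * Real.exp (-((s0 + j * dl) + (s0 + j' * dl)))) = (dl / (v * Real.log X)) ^ 2 *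
          ∑ j ∈ Finset.range J, ∑ j' ∈ Finset.range J, gw dl K J j * gw dl K J j' *
          M5l ((s0 + j * dl) + (s0 + j' * dl)) C (GG ρ) Q
          (GV (B₀ * E2 κ X ^ 2)) ⌊(X : ℝ) ^ (6 * (3 * κ))⌋₊ ((X : ℝ) ^ (-(4 * (15 / 2 * κ))))
          (Z * Real.exp (-((s0 + j * dl) + (s0 + j' * dl)))) := by
        rw [Finset.mul_sum]
        refine Finset.sum_congr rfl fun j _ => ?_
        rw [Finset.mul_sum]
        refine Finset.sum_congr rfl fun j' _ => ?_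
        rw [hmd, hmd]
        ring
      rw [h4, abs_mul, abs_of_pos (by positivity)]
      calc (dl / (v * Real.log X)) ^ 2 * _ ≤
            (dl / (v * Real.log X)) ^ 2 * (δ / 2 * (J : ℝ) ^ 2) := by
            apply mul_le_mul_of_nonneg_left h3 (by positivity)
        _ = (J * (dl / (v * Real.log X))) ^ 2 * (δ / 2) := by ring
        _ ≤ 1 * (δ / 2) := by
            apply mul_le_mul_of_nonneg_right _ (by positivity)
            exact pow_le_one₀ (by positivity) hJdl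
        _ = δ / 2 := one_mul _
    have hS2 : ∑ p ∈ Finset.range J ×ˢ Finset.range J, m p.1 * m p.2 ≤ 1 := by
      rw [Finset.sum_product, ← Finset.sum_mul_sum]
      have h5 : 0 ≤ ∑ j ∈ Finset.range J, m j := Finset.sum_nonneg fun j _ => hm0 j
      nlinarith
    have hfin := pm_sum (Finset.range J ×ˢ Finset.range J) (fun p => m p.1 * m p.2)
      (fun p => (PsiK C (GG ρ) (Pool.Agent.LSP.om2 κ X) (E2 κ X ^ 2)
          (Gs B₀ (E2 κ X)) (2 * (B₀ + 1) * E2 κ X) (R2 κ X) ⟨1, 1⟩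
          (Zj v X dl p.1 * Zj v X dl p.2) Z).re)
      (fun p : ℕ × ℕ => M5l ((s0 + p.1 * dl) + (s0 + p.2 * dl)) C (GG ρ) Q
        (GV (B₀ * E2 κ X ^ 2)) ⌊(X : ℝ) ^ (6 * (3 * κ))⌋₊ ((X : ℝ) ^ (-(4 * (15 / 2 * κ))))
        (Z * Real.exp (-((s0 + p.1 * dl) + (s0 + p.2 * dl)))))
      (fun p _ => mul_nonneg (hm0 _) (hm0 _)) hS2
      (e := (X : ℝ) ^ (-(3 * κ))) (by positivity) (fun p hp => by
        rw [Finset.mem_product] at hp
        obtain ⟨q1, q2⟩ := hJs p.1 hp.1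
        obtain ⟨r1, r2⟩ := hJs p.2 hp.2
        obtain ⟨_, _, _, _, p5⟩ := hpt₂ X hXd (2 * v) ((s0 + p.1 * dl) + (s0 + p.2 * dl)) Z
          (by linarith) (by linarith) (by rw [hs0]; linarith) (by rw [hs0]; nlinarith)
          hZ0 hZ1 Q C hQ hC
        rw [hZj p.1, hZj p.2, ← Real.exp_add, hom]
        exact p5) hF
    rw [Finset.sum_product] at hfin
    refine hfin.trans ?_
    linarith

end Pool.Agent.LSPP
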