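import Pool.Agent.Lib_helper15.LSP2.DefsP2
import Pool.Agent.Lib_helper15.LSPF.AVG

/-! LSP, version 2, part P2: the average over the centre. -/

set_option autoImplicit false

namespace Pool.Agent.LSPP

open Pool.Agent.LSP (tau sg1 CC Gs Adm)
open Pool.Agent.LSPO (hyp cl KK rho b1 GOK)
open Pool.Agent.FG61 (mu phi cc)
open MeasureTheory Filter Topology

theorem pa_kk_int {G : ℝ → ℝ} {U c₀ : ℝ} (hG : GOK G U c₀) {n : ℕ} {g : ℤ} {om X : ℝ}
    (hn : 1 ≤ n) (hg : g ≠ 0) (ho : 0 < om) (hX : 0 < X) :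
    IntervalIntegrable (fun t : ℝ => KK G om ((g : ℝ) * (t * X) / n) * (th (1 / t) / t))
      volume 1 2 := by
  have h1 := avg_term_int hG (c := 1) hn hg ho hX
  have h2 := avg_term_int hG (c := 2) hn hg ho hX
  have h3 := (h1.sub h2).const_mul (1 / Real.log 2)
  refine h3.congr ?_
  intro t _
  have hl : Real.log 2 ≠ 0 := (Real.log_pos (by norm_num)).ne'
  simp only [Nat.cast_one, Real.log_one, Nat.cast_ofNat]
  field_simp
  ring

theorem pa_kk {G : ℝ → ℝ} {U c₀ : ℝ} (hG : GOK G U c₀) : ∃ K : ℝ, 1 ≤ K ∧ ∀ (n : ℕ) (g : ℤ)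
    (X om : ℝ), 1 ≤ n → g ≠ 0 → 0 < X → 0 < om → om ≤ 1 / 4 →
    |av (fun t => KK G om ((g : ℝ) * (t * X) / n)) - av (fun t => G ((g : ℝ) * (t * X) / n))| ≤
      K * om ^ (3 / 4 : ℝ) * (1 + Real.log n) := by
  obtain ⟨K, hK1, hK⟩ := avp hG
  refine ⟨6 * K, by linarith, fun n g X om hn hg hX ho ho4 => ?_⟩
  have hl2 : (1 / 2 : ℝ) < Real.log 2 := by
    have := Real.log_two_gt_d9
    linarith
  have hl2' : Real.log 2 < 1 := by
    have := Real.log_two_lt_d9
    linarith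
  have h1 := hK n 1 g X om hn le_rfl hg hX ho ho4
  have h2 := hK n 2 g X om hn (by norm_num) hg hX ho ho4
  have i1 := avg_term_int hG (c := 1) hn hg ho hX
  have i2 := avg_term_int hG (c := 2) hn hg ho hX
  have e1 : av (fun t => KK G om ((g : ℝ) * (t * X) / n) *
        (Real.log |(n : ℝ) - g * (t * X)| / 2 + ga - Real.log ((1 : ℕ) : ℝ))) -
      av (fun t => KK G om ((g : ℝ) * (t * X) / n) *
        (Real.log |(n : ℝ) - g * (t * X)| / 2 + ga - Real.log ((2 : ℕ) : ℝ))) =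
      Real.log 2 * av (fun t => KK G om ((g : ℝ) * (t * X) / n)) := by
    unfold av
    rw [← intervalIntegral.integral_sub i1 i2, ← intervalIntegral.integral_const_mul]
    refine intervalIntegral.integral_congr fun t _ => ?_
    simp only [Nat.cast_one, Real.log_one, Nat.cast_ofNat]
    ring
  have hn0 : 0 ≤ Real.log n := Real.log_natCast_nonneg n
  have hom : 0 ≤ om ^ (3 / 4 : ℝ) := Real.rpow_nonneg ho.le _
  have h3 : |Real.log 2 * (av (fun t => KK G om ((g : ℝ) * (t * X) / n)) -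
      av (fun t => G ((g : ℝ) * (t * X) / n)))| ≤
      K * om ^ (3 / 4 : ℝ) * (1 + Real.log n + Real.log ((1 : ℕ) : ℝ)) +
        K * om ^ (3 / 4 : ℝ) * (1 + Real.log n + Real.log ((2 : ℕ) : ℝ)) := by
    refine le_trans (le_of_eq ?_) ((abs_sub _ _).trans (add_le_add h1 h2))
    congr 1
    rw [mul_sub, ← e1]
    simp only [Nat.cast_one, Real.log_one, Nat.cast_ofNat]
    ring
  rw [abs_mul, abs_of_pos (by linarith : 0 < Real.log 2)] at h3
  have h4 : K * om ^ (3 / 4 : ℝ) * (1 + Real.log n + Real.log ((1 : ℕ) : ℝ)) +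
        K * om ^ (3 / 4 : ℝ) * (1 + Real.log n + Real.log ((2 : ℕ) : ℝ)) ≤
      3 * (K * om ^ (3 / 4 : ℝ) * (1 + Real.log n)) := by
    simp only [Nat.cast_one, Real.log_one, Nat.cast_ofNat]
    have h5 : 0 ≤ K * om ^ (3 / 4 : ℝ) := by positivity
    nlinarith
  have h6 : 0 ≤ |av (fun t => KK G om ((g : ℝ) * (t * X) / n)) -
      av (fun t => G ((g : ℝ) * (t * X) / n))| := abs_nonneg _
  nlinarith

/-- the difference for one triple -/
noncomputable def pa_D (lam : ℝ) (G : ℝ → ℝ) (om X : ℝ) (n c : ℕ) (g : ℤ) : ℝ :=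
  av (fun t => KK G om ((g : ℝ) * (t * X) / n) *
        (Real.log |(n : ℝ) - g * (t * X)| / 2 + (lam / 2 + ga) - Real.log c)) -
      ((Real.log n / 2 + (lam / 2 + ga) - Real.log c) * av (fun t => G ((g : ℝ) * (t * X) / n)) +
        av (fun t => G1 G ((g : ℝ) * (t * X) / n)))

theorem pa_term_int {G : ℝ → ℝ} {U c₀ : ℝ} (hG : GOK G U c₀) (lam : ℝ) {n c : ℕ} {g : ℤ}
    {om X : ℝ} (hn : 1 ≤ n) (hg : g ≠ 0) (ho : 0 < om) (hX : 0 < X) :
    IntervalIntegrable (fun t : ℝ => KK G om ((g : ℝ) * (t * X) / n) *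
        (Real.log |(n : ℝ) - g * (t * X)| / 2 + (lam / 2 + ga) - Real.log c) * (th (1 / t) / t))
      volume 1 2 := by
  have h1 := avg_term_int hG (c := c) hn hg ho hX
  have h2 := (pa_kk_int hG hn hg ho hX).const_mul (lam / 2)
  refine (h1.add h2).congr ?_
  intro t _
  simp only
  ring

theorem pa_D_eq {G : ℝ → ℝ} {U c₀ : ℝ} (hG : GOK G U c₀) (lam : ℝ) {n c : ℕ} {g : ℤ}
    {om X : ℝ} (hn : 1 ≤ n) (hg : g ≠ 0) (ho : 0 < om) (hX : 0 < X) :
    pa_D lam G om X n c g = avg_D G om X n c g +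
      lam / 2 * (av (fun t => KK G om ((g : ℝ) * (t * X) / n)) -
        av (fun t => G ((g : ℝ) * (t * X) / n))) := by
  have h1 := avg_term_int hG (c := c) hn hg ho hX
  have h2 := (pa_kk_int hG hn hg ho hX).const_mul (lam / 2)
  have e1 : av (fun t => KK G om ((g : ℝ) * (t * X) / n) *
        (Real.log |(n : ℝ) - g * (t * X)| / 2 + (lam / 2 + ga) - Real.log c)) =
      av (fun t => KK G om ((g : ℝ) * (t * X) / n) *
        (Real.log |(n : ℝ) - g * (t * X)| / 2 + ga - Real.log c)) +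
      lam / 2 * av (fun t => KK G om ((g : ℝ) * (t * X) / n)) := by
    unfold av
    rw [← intervalIntegral.integral_const_mul, ← intervalIntegral.integral_add h1 h2]
    refine intervalIntegral.integral_congr fun t _ => ?_
    ring
  unfold pa_D avg_D
  rw [e1]
  ring

theorem pa_D_bd {G : ℝ → ℝ} {U c₀ : ℝ} (hG : GOK G U c₀) : ∃ K : ℝ, 1 ≤ K ∧ ∀ (lam : ℝ)
    (n c : ℕ) (g : ℤ) (X om : ℝ), 0 ≤ lam → 1 ≤ n → 1 ≤ c → g ≠ 0 → 0 < X → 0 < om → om ≤ 1 / 4 →
    |pa_D lam G om X n c g| ≤ K * om ^ (3 / 4 : ℝ) * (1 + Real.log n + Real.log c) * (1 + lam) := by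
  obtain ⟨K, hK1, hK⟩ := avp hG
  obtain ⟨K', hK1', hK'⟩ := pa_kk hG
  refine ⟨K + K', by linarith, fun lam n c g X om hl hn hc hg hX ho ho4 => ?_⟩
  rw [pa_D_eq hG lam hn hg ho hX]
  have h1 : |avg_D G om X n c g| ≤ K * om ^ (3 / 4 : ℝ) * (1 + Real.log n + Real.log c) :=
    hK n c g X om hn hc hg hX ho ho4
  have h2 := hK' n g X om hn hg hX ho ho4
  have hn0 : 0 ≤ Real.log n := Real.log_natCast_nonneg n
  have hc0 : 0 ≤ Real.log c := Real.log_natCast_nonneg c
  have hom : 0 ≤ om ^ (3 / 4 : ℝ) := Real.rpow_nonneg ho.le _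
  refine (abs_add_le _ _).trans ?_
  rw [abs_mul, abs_of_nonneg (by linarith : 0 ≤ lam / 2)]
  have a1 : 0 ≤ K * om ^ (3 / 4 : ℝ) * (1 + Real.log n + Real.log c) := by positivity
  have a2 : 0 ≤ K' * om ^ (3 / 4 : ℝ) * (1 + Real.log n + Real.log c) := by positivity
  have h3 : lam / 2 * |av (fun t => KK G om ((g : ℝ) * (t * X) / n)) -
      av (fun t => G ((g : ℝ) * (t * X) / n))| ≤
      lam * (K' * om ^ (3 / 4 : ℝ) * (1 + Real.log n + Real.log c)) := by
    have h4 : K' * om ^ (3 / 4 : ℝ) * (1 + Real.log n) ≤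
        K' * om ^ (3 / 4 : ℝ) * (1 + Real.log n + Real.log c) :=
      mul_le_mul_of_nonneg_left (by linarith) (by positivity)
    calc _ ≤ lam / 2 * (K' * om ^ (3 / 4 : ℝ) * (1 + Real.log n + Real.log c)) :=
          mul_le_mul_of_nonneg_left (h2.trans h4) (by linarith)
      _ ≤ lam * (K' * om ^ (3 / 4 : ℝ) * (1 + Real.log n + Real.log c)) :=
          mul_le_mul_of_nonneg_right (by linarith) a2
  have h5 : 0 ≤ lam * (K * om ^ (3 / 4 : ℝ) * (1 + Real.log n + Real.log c)) :=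
    mul_nonneg hl a1
  calc _ ≤ K * om ^ (3 / 4 : ℝ) * (1 + Real.log n + Real.log c) +
        lam * (K' * om ^ (3 / 4 : ℝ) * (1 + Real.log n + Real.log c)) := add_le_add h1 h3
    _ ≤ K * om ^ (3 / 4 : ℝ) * (1 + Real.log n + Real.log c) +
        lam * (K' * om ^ (3 / 4 : ℝ) * (1 + Real.log n + Real.log c)) +
        (lam * (K * om ^ (3 / 4 : ℝ) * (1 + Real.log n + Real.log c)) +
          K' * om ^ (3 / 4 : ℝ) * (1 + Real.log n + Real.log c)) := by linarith
    _ = _ := by ring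

theorem pa_M5 (lam : ℝ) (C : ℕ → ℝ) (G : ℝ → ℝ) (Q : ℕ) (S : Finset ℤ) (R : ℕ) (om X t : ℝ) :
    M5l lam C G Q S R om (t * X) * (th (1 / t) / t) =
      ∑ n ∈ Finset.Icc 1 Q, ∑ g ∈ S, ∑ c ∈ Finset.Icc 1 R, avg_co C n c g *
        (KK G om ((g : ℝ) * (t * X) / n) *
          (Real.log |(n : ℝ) - g * (t * X)| / 2 + (lam / 2 + ga) - Real.log c) *
            (th (1 / t) / t)) := by
  unfold M5l avg_co
  simp only [Finset.mul_sum, Finset.sum_mul]
  refine Finset.sum_congr rfl fun n _ => Finset.sum_congr rfl fun g _ =>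
    Finset.sum_congr rfl fun c _ => ?_
  ring

theorem pa_M6 (lam : ℝ) (C : ℕ → ℝ) (G : ℝ → ℝ) (Q : ℕ) (S : Finset ℤ) (R : ℕ) (X : ℝ) :
    M6l lam C G Q S R X =
      ∑ n ∈ Finset.Icc 1 Q, ∑ g ∈ S, ∑ c ∈ Finset.Icc 1 R, avg_co C n c g *
        ((Real.log n / 2 + (lam / 2 + ga) - Real.log c) *
          av (fun t => G ((g : ℝ) * (t * X) / n)) +
          av (fun t => G1 G ((g : ℝ) * (t * X) / n))) := by
  unfold M6l avg_co
  rw [Finset.mul_sum]
  refine Finset.sum_congr rfl fun n _ => ?_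
  rw [Finset.sum_comm, Finset.mul_sum, Finset.mul_sum]
  refine Finset.sum_congr rfl fun c _ => ?_
  rw [Finset.mul_sum, ← Finset.sum_add_distrib, Finset.mul_sum, Finset.mul_sum, Finset.mul_sum]
  refine Finset.sum_congr rfl fun g _ => ?_
  ring

theorem pa_term_int' {G : ℝ → ℝ} {U c₀ : ℝ} (hG : GOK G U c₀) (lam : ℝ) (C : ℕ → ℝ) {n c : ℕ}
    {g : ℤ} {om X : ℝ} (hn : 1 ≤ n) (ho : 0 < om) (hX : 0 < X) :
    IntervalIntegrable (fun t : ℝ => avg_co C n c g * (KK G om ((g : ℝ) * (t * X) / n) *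
        (Real.log |(n : ℝ) - g * (t * X)| / 2 + (lam / 2 + ga) - Real.log c) *
          (th (1 / t) / t))) volume 1 2 := by
  by_cases hg : g = 0
  · subst hg
    have : avg_co C n c 0 = 0 := by
      unfold avg_co tau
      simp
    rw [this]
    simp
  · exact (pa_term_int hG lam hn hg ho hX).const_mul _

theorem pa_int {G : ℝ → ℝ} {U c₀ : ℝ} (hG : GOK G U c₀) (lam : ℝ) (C : ℕ → ℝ) (Q : ℕ)
    (S : Finset ℤ) (R : ℕ) {om X : ℝ} (ho : 0 < om) (hX : 0 < X) :
    IntervalIntegrable (fun t => M5l lam C G Q S R om (t * X) * (th (1 / t) / t)) volume 1 2 := by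
  simp only [pa_M5]
  exact avg_isum _ _ fun n hn => avg_isum _ _ fun g _ => avg_isum _ _ fun c _ =>
    pa_term_int' hG lam C (Finset.mem_Icc.mp hn).1 ho hX

theorem pa_diff {G : ℝ → ℝ} {U c₀ : ℝ} (hG : GOK G U c₀) (lam : ℝ) (C : ℕ → ℝ) (Q : ℕ)
    (S : Finset ℤ) (R : ℕ) {om X : ℝ} (ho : 0 < om) (hX : 0 < X) :
    av (fun t => M5l lam C G Q S R om (t * X)) - M6l lam C G Q S R X =
      ∑ n ∈ Finset.Icc 1 Q, ∑ g ∈ S, ∑ c ∈ Finset.Icc 1 R,
        avg_co C n c g * pa_D lam G om X n c g := by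
  have h1 : av (fun t => M5l lam C G Q S R om (t * X)) =
      ∑ n ∈ Finset.Icc 1 Q, ∑ g ∈ S, ∑ c ∈ Finset.Icc 1 R, avg_co C n c g *
        av (fun t => KK G om ((g : ℝ) * (t * X) / n) *
        (Real.log |(n : ℝ) - g * (t * X)| / 2 + (lam / 2 + ga) - Real.log c)) := by
    unfold av
    simp only [pa_M5]
    rw [intervalIntegral.integral_finsetSum fun n hn => avg_isum _ _ fun g _ =>
      avg_isum _ _ fun c _ => pa_term_int' hG lam C (Finset.mem_Icc.mp hn).1 ho hX]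
    refine Finset.sum_congr rfl fun n hn => ?_
    rw [intervalIntegral.integral_finsetSum fun g _ =>
      avg_isum _ _ fun c _ => pa_term_int' hG lam C (Finset.mem_Icc.mp hn).1 ho hX]
    refine Finset.sum_congr rfl fun g _ => ?_
    rw [intervalIntegral.integral_finsetSum fun c _ =>
      pa_term_int' hG lam C (Finset.mem_Icc.mp hn).1 ho hX]
    refine Finset.sum_congr rfl fun c _ => ?_
    rw [intervalIntegral.integral_const_mul]
  rw [h1, pa_M6, ← Finset.sum_sub_distrib]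
  refine Finset.sum_congr rfl fun n _ => ?_
  rw [← Finset.sum_sub_distrib]
  refine Finset.sum_congr rfl fun g _ => ?_
  rw [← Finset.sum_sub_distrib]
  refine Finset.sum_congr rfl fun c _ => ?_
  unfold pa_D
  ring

theorem pa_D_zero {G : ℝ → ℝ} {U c₀ : ℝ} (hG : GOK G U c₀) (lam : ℝ) (n c : ℕ) (g : ℤ)
    {om X : ℝ} (hn : 1 ≤ n) (hX : 0 < X) (h : U < |(g : ℝ)| * X / n) :
    pa_D lam G om X n c g = 0 := by
  have hz := avp_zero hG n g X hn hX h
  have e1 : av (fun t => KK G om ((g : ℝ) * (t * X) / n) *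
        (Real.log |(n : ℝ) - g * (t * X)| / 2 + (lam / 2 + ga) - Real.log c)) = 0 := by
    unfold av
    rw [intervalIntegral.integral_congr (g := fun _ => (0 : ℝ))]
    · simp
    · intro t ht
      rw [Set.uIcc_of_le (by norm_num)] at ht
      simp only [KK, hz t ht.1, zero_mul]
  have e2 : av (fun t => G ((g : ℝ) * (t * X) / n)) = 0 := by
    unfold av
    rw [intervalIntegral.integral_congr (g := fun _ => (0 : ℝ))]
    · simp
    · intro t ht
      rw [Set.uIcc_of_le (by norm_num)] at ht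
      simp only [hz t ht.1, zero_mul]
  have e3 : av (fun t => G1 G ((g : ℝ) * (t * X) / n)) = 0 := by
    unfold av
    rw [intervalIntegral.integral_congr (g := fun _ => (0 : ℝ))]
    · simp
    · intro t ht
      rw [Set.uIcc_of_le (by norm_num)] at ht
      simp only [G1, hz t ht.1, zero_mul, zero_div]
  unfold pa_D
  rw [e1, e2, e3]
  ring

end Pool.Agent.LSPP
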