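import Pool.Agent.Lib_helper15.LSP2.PA

/-! LSP, version 2, part P2: the average over the centre, sum over all variables. -/

set_option autoImplicit false

namespace Pool.Agent.LSPP

open Pool.Agent.LSP (tau sg1 CC Gs Adm)
open Pool.Agent.LSPO (hyp cl KK rho b1 GOK)
open Pool.Agent.FG61 (mu phi cc)
open MeasureTheory Filter Topology

/-- the sum over `n`, `g`, `c` -/
theorem pb_bound {U : ℝ} (hU : 1 ≤ U) (D : ℕ → ℕ → ℤ → ℝ) {K ε C1 : ℝ} (hK0 : 0 ≤ K)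
    (hε : 0 < ε) (hC1 : 1 ≤ C1) (hτ : ∀ n : ℕ, tau n ≤ C1 * (n : ℝ) ^ ε)
    (C : ℕ → ℝ) (Q : ℕ) (S : Finset ℤ) (hS : 0 ∉ S) (R : ℕ) {X W : ℝ}
    (hX : 0 < X) (hW : 0 ≤ W) (hC : ∀ n, 1 ≤ n → |C n| ≤ W / n)
    (hK : ∀ (n c : ℕ) (g : ℤ), 1 ≤ n → 1 ≤ c → g ≠ 0 →
      |D n c g| ≤ K * (1 + Real.log n + Real.log c))
    (hZ : ∀ (n c : ℕ) (g : ℤ), 1 ≤ n → U < |(g : ℝ)| * X / n → D n c g = 0) :
    |∑ n ∈ Finset.Icc 1 Q, ∑ g ∈ S, ∑ c ∈ Finset.Icc 1 R,
        avg_co C n c g * D n c g| ≤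
      64 * Real.pi * K * C1 ^ 3 * (1 + Real.log Q + Real.log R) *
        (1 + Real.log R) * (1 + Real.log Q) * W * (Q : ℝ) ^ ε * ((U * Q / X) ^ ε) ^ 2 *
        (U * Q / X) := by
  obtain ⟨T, hT⟩ : ∃ T, T = U * Q / X := ⟨_, rfl⟩
  have hT0 : 0 ≤ T := by rw [hT]; positivity
  rw [← hT]
  have hlR : 0 ≤ Real.log R := Real.log_natCast_nonneg R
  have hlQ : 0 ≤ Real.log Q := Real.log_natCast_nonneg Q
  obtain ⟨BD, hBD⟩ : ∃ BD, BD = K * (1 + Real.log Q + Real.log R) := ⟨_, rfl⟩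
  have hBD0 : 0 ≤ BD := by rw [hBD]; positivity
  obtain ⟨V, hV⟩ : ∃ V, V = 32 * Real.pi * (C1 * (Q : ℝ) ^ ε) * (C1 * T ^ ε) ^ 2 *
    (1 + Real.log R) * BD := ⟨_, rfl⟩
  have hV0 : 0 ≤ V := by rw [hV]; positivity
  have hng : ∀ n ∈ Finset.Icc 1 Q, ∀ g ∈ S,
      |∑ c ∈ Finset.Icc 1 R, avg_co C n c g * D n c g| ≤
        if |(g : ℝ)| ≤ T then |C n| * V else 0 := by
    intro n hn g hg
    rw [Finset.mem_Icc] at hn
    have hn0 : (0 : ℝ) < n := by exact_mod_cast hn.1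
    have hg0 : g ≠ 0 := fun h => hS (h ▸ hg)
    have hg1 : 1 ≤ g.natAbs := Int.natAbs_pos.mpr hg0
    by_cases hgT : |(g : ℝ)| ≤ T
    · rw [if_pos hgT]
      have hga : (g.natAbs : ℝ) ≤ T := by
        rw [Nat.cast_natAbs, Int.cast_abs]; exact hgT
      have h1 : ∀ c ∈ Finset.Icc 1 R, |avg_co C n c g * D n c g| ≤
          4 * Real.pi * |C n| * tau g.natAbs *
            (|cc c n * cc c g.natAbs| / (c * phi c)) * BD := by
        intro c hc
        rw [Finset.mem_Icc] at hc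
        have hc0 : (0 : ℝ) < c := by exact_mod_cast hc.1
        have hph : 0 ≤ phi c := by unfold phi; positivity
        have ht0 : 0 ≤ tau g.natAbs := by unfold tau; positivity
        have e1 : |avg_co C n c g| = 4 * Real.pi * |C n| * tau g.natAbs *
            (|cc c n * cc c g.natAbs| / (c * phi c)) := by
          unfold avg_co
          rw [abs_mul, abs_mul, abs_mul, abs_div, abs_of_nonneg ht0,
            abs_of_nonneg (by positivity : (0 : ℝ) ≤ c * phi c),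
            abs_of_pos (by positivity : (0 : ℝ) < 4 * Real.pi)]
        rw [abs_mul, e1]
        refine mul_le_mul_of_nonneg_left ?_ (by positivity)
        refine (hK n c g hn.1 hc.1 hg0).trans ?_
        rw [hBD]
        refine mul_le_mul_of_nonneg_left ?_ hK0
        have e2 : Real.log n ≤ Real.log Q := Real.log_le_log hn0 (by exact_mod_cast hn.2)
        have e3 : Real.log c ≤ Real.log R := Real.log_le_log hc0 (by exact_mod_cast hc.2)
        linarith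
      refine (Finset.abs_sum_le_sum_abs _ _).trans ((Finset.sum_le_sum h1).trans ?_)
      rw [← Finset.sum_mul, ← Finset.mul_sum]
      have h2 := gcs_all (n := n) (g := g.natAbs) (m := R) hn.1 hg1
      have ht0 : 0 ≤ tau g.natAbs := by unfold tau; positivity
      have htn0 : 0 ≤ tau n := by unfold tau; positivity
      have h3 : tau n ≤ C1 * (Q : ℝ) ^ ε := by
        refine (hτ n).trans (mul_le_mul_of_nonneg_left ?_ (by linarith))
        exact Real.rpow_le_rpow hn0.le (by exact_mod_cast hn.2) hε.le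
      have h4 : tau g.natAbs ≤ C1 * T ^ ε := by
        refine (hτ g.natAbs).trans (mul_le_mul_of_nonneg_left ?_ (by linarith))
        exact Real.rpow_le_rpow (Nat.cast_nonneg _) hga hε.le
      have hT2 : 0 ≤ C1 * T ^ ε := by positivity
      have hQ2 : 0 ≤ C1 * (Q : ℝ) ^ ε := by positivity
      calc 4 * Real.pi * |C n| * tau g.natAbs *
            (∑ c ∈ Finset.Icc 1 R, |cc c n * cc c g.natAbs| / (c * phi c)) * BD
          ≤ 4 * Real.pi * |C n| * tau g.natAbs *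
            (8 * (1 + Real.log R) * tau n * tau g.natAbs) * BD := by
            gcongr
        _ ≤ 4 * Real.pi * |C n| * (C1 * T ^ ε) *
            (8 * (1 + Real.log R) * (C1 * (Q : ℝ) ^ ε) * (C1 * T ^ ε)) * BD := by
            gcongr
        _ = |C n| * V := by rw [hV]; ring
    · rw [if_neg hgT]
      push Not at hgT
      have hlt : U < |(g : ℝ)| * X / n := by
        rw [lt_div_iff₀ hn0]
        rw [hT, div_lt_iff₀ hX] at hgT
        have : U * n ≤ U * Q := mul_le_mul_of_nonneg_left (by exact_mod_cast hn.2) (by linarith)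
        linarith
      rw [Finset.sum_eq_zero fun c _ => by rw [hZ n c g hn.1 hlt, mul_zero]]
      simp
  have hn1 : ∀ n ∈ Finset.Icc 1 Q, |∑ g ∈ S, ∑ c ∈ Finset.Icc 1 R,
      avg_co C n c g * D n c g| ≤ 2 * T * V * W * (1 / n) := by
    intro n hn
    refine (Finset.abs_sum_le_sum_abs _ _).trans ((Finset.sum_le_sum (hng n hn)).trans ?_)
    rw [← Finset.sum_filter, Finset.sum_const, nsmul_eq_mul]
    have h1 := avg_card S hS hT0
    have h2 := hC n (Finset.mem_Icc.mp hn).1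
    have hn0 : (0 : ℝ) < n := by exact_mod_cast (Finset.mem_Icc.mp hn).1
    calc ((S.filter (fun g : ℤ => |(g : ℝ)| ≤ T)).card : ℝ) * (|C n| * V)
        ≤ (2 * T) * ((W / n) * V) := by gcongr
      _ = 2 * T * V * W * (1 / n) := by ring
  refine (Finset.abs_sum_le_sum_abs _ _).trans ((Finset.sum_le_sum hn1).trans ?_)
  rw [← Finset.mul_sum]
  calc 2 * T * V * W * ∑ n ∈ Finset.Icc 1 Q, 1 / (n : ℝ)
      ≤ 2 * T * V * W * (1 + Real.log Q) :=
        mul_le_mul_of_nonneg_left (avg_harm Q) (by positivity)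
    _ = _ := by rw [hV, hBD]; ring

/-- the size facts shared by all estimates: `Y ≤ X²`, `Q ≤ Y X^(2.02 κ)` -/
theorem pb_Q {κ X Y : ℝ} {Q : ℕ} (h0 : 0 < κ) (h1 : κ ≤ 1 / 1000) (hX : 1 ≤ X) (hY2 : Y ≤ X ^ 2)
    (hQ : (Q : ℝ) ≤ Y * X ^ (101 / 50 * κ)) : (Q : ℝ) ≤ X ^ (3 : ℝ) := by
  have hX0 : 0 < X := by linarith
  have h2 : X ^ (101 / 50 * κ) ≤ X ^ (1 : ℝ) :=
    Real.rpow_le_rpow_of_exponent_le hX (by linarith)
  calc (Q : ℝ) ≤ Y * X ^ (101 / 50 * κ) := hQ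
    _ ≤ X ^ 2 * X ^ (1 : ℝ) := by gcongr
    _ = X ^ (3 : ℝ) := by
        rw [← Real.rpow_natCast, ← Real.rpow_add hX0]
        norm_num

theorem pb_avg {G : ℝ → ℝ} {U c₀ : ℝ} (hG : GOK G U c₀) {κ : ℝ} (h0 : 0 < κ) (h1 : κ ≤ 1 / 1000) :
    ∃ X₀ : ℝ, ∀ X : ℝ, X₀ ≤ X → ∀ Y : ℝ, 0 < Y → Y ≤ X ^ 2 → ∀ (Q : ℕ) (C : ℕ → ℝ),
      (Q : ℝ) ≤ Y * X ^ (101 / 50 * κ) → (∀ n, 1 ≤ n → |C n| ≤ X ^ (κ / 100) / n) →
      ∀ lam : ℝ, 0 ≤ lam → lam ≤ 4 * Real.log X → ∀ S : Finset ℤ, 0 ∉ S →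
      ∀ R : ℕ, 1 ≤ R → (R : ℝ) ≤ X → ∀ om : ℝ, 0 < om → om ≤ X ^ (-(4 * κ)) →
      |av (fun t => M5l lam C G Q S R om (t * Y)) - M6l lam C G Q S R Y| ≤ X ^ (-(κ / 2)) := by
  obtain ⟨K, hK1, hK⟩ := pa_D_bd hG
  obtain ⟨C1, hC1, hτ⟩ := tau_le (ε := κ / 400) (by positivity)
  have hU := hG.one_le
  obtain ⟨Mc, hMc⟩ : ∃ Mc, Mc = 64 * Real.pi * K * C1 ^ 3 * 200 * (20 / κ) ^ 4 * U ^ 3 :=
    ⟨_, rfl⟩
  have hMc0 : 0 < Mc := by rw [hMc]; positivity
  refine ⟨max (Real.exp 1) (max ((4 : ℝ) ^ (1 / (4 * κ))) (Mc ^ (1 / (1 / 5 * κ)))), ?_⟩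
  intro X hX Y hY hY2 Q C hsz hbd lam hl0 hl1 S hS R hR1 hRX om hom homX
  have hXe : Real.exp 1 ≤ X := (le_max_left _ _).trans hX
  have hX4 : (4 : ℝ) ^ (1 / (4 * κ)) ≤ X := ((le_max_left _ _).trans (le_max_right _ _)).trans hX
  have hXM : Mc ^ (1 / (1 / 5 * κ)) ≤ X := ((le_max_right _ _).trans (le_max_right _ _)).trans hX
  have hXpos : 0 < X := lt_of_lt_of_le (Real.exp_pos 1) hXe
  have hL1 : 1 ≤ Real.log X := by
    rw [Real.le_log_iff_exp_le hXpos]; exact hXe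
  have hX1 : 1 ≤ X := by
    have := Real.add_one_le_exp (1 : ℝ)
    linarith
  have hom4 : X ^ (-(4 * κ)) ≤ 1 / 4 := by
    have e1 : (4 : ℝ) ≤ X ^ (4 * κ) := by
      calc (4 : ℝ) = ((4 : ℝ) ^ (1 / (4 * κ))) ^ (4 * κ) := by
            rw [← Real.rpow_mul (by norm_num), one_div_mul_cancel (by positivity), Real.rpow_one]
        _ ≤ X ^ (4 * κ) := Real.rpow_le_rpow (by positivity) hX4 (by positivity)
    rw [Real.rpow_neg hXpos.le, ← one_div]
    exact one_div_le_one_div_of_le (by norm_num) e1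
  have hMX : Mc ≤ X ^ (1 / 5 * κ) := by
    calc Mc = (Mc ^ (1 / (1 / 5 * κ))) ^ (1 / 5 * κ) := by
          rw [← Real.rpow_mul hMc0.le, one_div_mul_cancel (by positivity), Real.rpow_one]
      _ ≤ X ^ (1 / 5 * κ) := Real.rpow_le_rpow (by positivity) hXM (by positivity)
  rw [pa_diff hG lam C Q S _ hom hY]
  obtain ⟨Kk, hKk⟩ : ∃ Kk, Kk = K * (X ^ (-(4 * κ))) ^ (3 / 4 : ℝ) * (1 + lam) := ⟨_, rfl⟩
  have hKk0 : 0 ≤ Kk := by rw [hKk]; positivity
  have hb := pb_bound hU (pa_D lam G om Y) hKk0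
    (by positivity : 0 < κ / 400) hC1 hτ C Q S hS R hY
    (Real.rpow_nonneg hXpos.le (κ / 100)) hbd
    (fun n c g a1 a2 a3 => by
      have hn0 : 0 ≤ Real.log n := Real.log_natCast_nonneg n
      have hc0 : 0 ≤ Real.log c := Real.log_natCast_nonneg c
      have e1 : om ^ (3 / 4 : ℝ) ≤ (X ^ (-(4 * κ))) ^ (3 / 4 : ℝ) :=
        Real.rpow_le_rpow hom.le homX (by norm_num)
      refine (hK lam n c g Y _ hl0 a1 a2 a3 hY hom (homX.trans hom4)).trans ?_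
      rw [hKk]
      calc K * om ^ (3 / 4 : ℝ) * (1 + Real.log n + Real.log c) * (1 + lam)
          ≤ K * (X ^ (-(4 * κ))) ^ (3 / 4 : ℝ) * (1 + Real.log n + Real.log c) * (1 + lam) := by
            gcongr
        _ = _ := by ring)
    (fun n c g a1 a2 => pa_D_zero hG lam n c g a1 hY a2)
  refine hb.trans ?_
  have hQ2 : (Q : ℝ) ≤ X ^ (3 : ℝ) := pb_Q h0 h1 hX1 hY2 hsz
  have hp4 : X ^ (101 / 50 * κ) ≤ X := by
    calc X ^ (101 / 50 * κ) ≤ X ^ (1 : ℝ) :=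
          Real.rpow_le_rpow_of_exponent_le hX1 (by linarith)
      _ = X := Real.rpow_one X
  have hlogQ : Real.log Q ≤ 3 * Real.log X := by
    by_cases hQ0 : Q = 0
    · rw [hQ0]; simp; linarith
    · have hQp : (0 : ℝ) < Q := by exact_mod_cast Nat.pos_of_ne_zero hQ0
      have := Real.log_le_log hQp hQ2
      rwa [Real.log_rpow hXpos] at this
  have hlogR : Real.log R ≤ Real.log X := Real.log_le_log (by exact_mod_cast hR1) hRX
  have hLb : Real.log X ≤ (20 / κ) * X ^ (κ / 20) := by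
    have := Real.log_le_rpow_div hXpos.le (by positivity : 0 < κ / 20)
    calc Real.log X ≤ X ^ (κ / 20) / (κ / 20) := this
      _ = (20 / κ) * X ^ (κ / 20) := by field_simp
  have hlR : 0 ≤ Real.log R := Real.log_natCast_nonneg _
  have hlQ : 0 ≤ Real.log Q := Real.log_natCast_nonneg Q
  obtain ⟨p2, hp2⟩ : ∃ p2, p2 = X ^ (κ / 20) := ⟨_, rfl⟩
  obtain ⟨p3, hp3⟩ : ∃ p3, p3 = X ^ (κ / 100) := ⟨_, rfl⟩
  obtain ⟨p4, hp4'⟩ : ∃ p4, p4 = X ^ (101 / 50 * κ) := ⟨_, rfl⟩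
  obtain ⟨p1, hp1⟩ : ∃ p1, p1 = X ^ (-(3 * κ)) := ⟨_, rfl⟩
  have hp20 : 0 < p2 := by rw [hp2]; positivity
  have hp30 : 0 < p3 := by rw [hp3]; positivity
  have hp40 : 0 < p4 := by rw [hp4']; positivity
  have hp10 : 0 < p1 := by rw [hp1]; positivity
  have hom34 : (X ^ (-(4 * κ))) ^ (3 / 4 : ℝ) = p1 := by
    rw [hp1, ← Real.rpow_mul hXpos.le]; congr 1; ring
  have hQe : (Q : ℝ) ^ (κ / 400) ≤ p3 := by
    calc (Q : ℝ) ^ (κ / 400) ≤ (X ^ (3 : ℝ)) ^ (κ / 400) :=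
          Real.rpow_le_rpow (Nat.cast_nonneg _) hQ2 (by positivity)
      _ = X ^ (3 * (κ / 400)) := by rw [← Real.rpow_mul hXpos.le]
      _ ≤ p3 := by
          rw [hp3]
          exact Real.rpow_le_rpow_of_exponent_le hX1 (by linarith)
  have hT : U * Q / Y ≤ U * p4 := by
    rw [div_le_iff₀ hY, hp4']
    calc U * (Q : ℝ) ≤ U * (Y * X ^ (101 / 50 * κ)) :=
          mul_le_mul_of_nonneg_left hsz (by linarith)
      _ = _ := by ring
  have hT0 : 0 ≤ U * Q / Y := by positivity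
  have hTe : ((U * Q / Y) ^ (κ / 400)) ^ 2 ≤ U ^ 2 * p3 := by
    have e1 : (U * Q / Y) ^ (κ / 400) ≤ U * X ^ (κ / 400) := by
      calc (U * Q / Y) ^ (κ / 400) ≤ (U * X) ^ (κ / 400) :=
            Real.rpow_le_rpow hT0 (hT.trans (mul_le_mul_of_nonneg_left
              (by rw [hp4']; exact hp4) (by linarith))) (by positivity)
        _ = U ^ (κ / 400) * X ^ (κ / 400) := Real.mul_rpow (by linarith) hXpos.le
        _ ≤ U * X ^ (κ / 400) := by
            refine mul_le_mul_of_nonneg_right ?_ (by positivity)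
            calc U ^ (κ / 400) ≤ U ^ (1 : ℝ) :=
                  Real.rpow_le_rpow_of_exponent_le hU (by linarith)
              _ = U := Real.rpow_one U
    calc ((U * Q / Y) ^ (κ / 400)) ^ 2 ≤ (U * X ^ (κ / 400)) ^ 2 :=
          pow_le_pow_left₀ (by positivity) e1 2
      _ = U ^ 2 * (X ^ (κ / 400)) ^ 2 := by ring
      _ ≤ U ^ 2 * p3 := by
          have : (X ^ (κ / 400)) ^ 2 = X ^ (κ / 200) := by
            rw [sq, ← Real.rpow_add hXpos]; congr 1; ring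
          rw [hp3, this]
          have h5 : X ^ (κ / 200) ≤ X ^ (κ / 100) :=
            Real.rpow_le_rpow_of_exponent_le hX1 (by linarith)
          exact mul_le_mul_of_nonneg_left h5 (by positivity)
  have hprod : p1 * p2 ^ 4 * p3 ^ 3 * p4 = X ^ (-(3 / 4 * κ)) := by
    rw [hp1, hp2, hp3, hp4', ← Real.rpow_natCast, ← Real.rpow_natCast, ← Real.rpow_mul hXpos.le,
      ← Real.rpow_mul hXpos.le, ← Real.rpow_add hXpos, ← Real.rpow_add hXpos,
      ← Real.rpow_add hXpos]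
    congr 1
    push_cast
    ring
  rw [hKk, hom34]
  have hb1 : 1 + Real.log Q + Real.log R ≤ 5 * ((20 / κ) * p2) := by
    rw [hp2]; linarith
  have hb2 : 1 + Real.log R ≤ 2 * ((20 / κ) * p2) := by
    rw [hp2]; linarith
  have hb3 : 1 + Real.log Q ≤ 4 * ((20 / κ) * p2) := by
    rw [hp2]; linarith
  have hb4 : 1 + lam ≤ 5 * ((20 / κ) * p2) := by
    rw [hp2]; linarith
  have hK0 : 0 ≤ K := by linarith
  have hC10 : 0 ≤ C1 := by linarith
  have hκi : 0 ≤ 20 / κ := by positivity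
  have hfin : 64 * Real.pi * (K * p1 * (1 + lam)) * C1 ^ 3 *
      (1 + Real.log Q + Real.log R) *
      (1 + Real.log R) * (1 + Real.log Q) * X ^ (κ / 100) *
      (Q : ℝ) ^ (κ / 400) * ((U * Q / Y) ^ (κ / 400)) ^ 2 * (U * Q / Y) ≤
      Mc * X ^ (-(3 / 4 * κ)) := by
    rw [← hp3]
    calc 64 * Real.pi * (K * p1 * (1 + lam)) * C1 ^ 3 *
      (1 + Real.log Q + Real.log R) *
      (1 + Real.log R) * (1 + Real.log Q) * p3 *
      (Q : ℝ) ^ (κ / 400) * ((U * Q / Y) ^ (κ / 400)) ^ 2 * (U * Q / Y)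
        ≤ 64 * Real.pi * (K * p1 * (5 * ((20 / κ) * p2))) * C1 ^ 3 * (5 * ((20 / κ) * p2)) *
          (2 * ((20 / κ) * p2)) *
          (4 * ((20 / κ) * p2)) * p3 * p3 * (U ^ 2 * p3) * (U * p4) := by
          gcongr
      _ = Mc * (p1 * p2 ^ 4 * p3 ^ 3 * p4) := by rw [hMc]; ring
      _ = _ := by rw [hprod]
  refine hfin.trans ?_
  calc Mc * X ^ (-(3 / 4 * κ)) ≤ X ^ (1 / 5 * κ) * X ^ (-(3 / 4 * κ)) := by
        gcongr
    _ = X ^ (1 / 5 * κ + -(3 / 4 * κ)) := by rw [← Real.rpow_add hXpos]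
    _ ≤ X ^ (-(κ / 2)) := Real.rpow_le_rpow_of_exponent_le hX1 (by linarith)

end Pool.Agent.LSPP
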