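import Pool.Agent.Lib_helper15.LSP2.DefsP2
import Pool.Agent.Lib_helper15.LSPF.SUB
import Pool.Agent.Lib_helper15.LSPF.POL
import Pool.Agent.Lib_helper15.LSPF.RRB
import Pool.Agent.Lib_helper15.LSPF.SIA
import Pool.Agent.Lib_helper15.LSPF.TAU

/-! LSP, version 2, part P2: substitution, polar part. -/

set_option autoImplicit false

namespace Pool.Agent.LSPP

open Pool.Agent.LSP (tau sg1 CC Gs Adm)
open Pool.Agent.LSPO (hyp cl KK rho b1 GOK)
open Pool.Agent.FG61 (mu phi cc)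
open MeasureTheory Filter Topology

theorem Gs_eq (B E : ℕ) : Gs B E = GV (B * E ^ 2) := rfl

theorem GV_zero (V : ℕ) : (0 : ℤ) ∉ GV V := by
  unfold GV
  simp

/-- pairs of opposite numbers -/
theorem pcs_gs (M : ℕ) (f : ℤ → ℝ) :
    ∑ g ∈ GV M, f g = ∑ g ∈ Finset.Icc 1 M, (f (g : ℤ) + f (-(g : ℤ))) := by
  have h := sub_gs M 1 f
  have e : M * 1 ^ 2 = M := by ring
  rw [Gs_eq, e] at h
  exact h

theorem pcs_sub {F : ℝ → ℝ} {U : ℝ} (hi : Integrable F) (hs : ∀ w, U < |w| → F w = 0)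
    {V n c : ℕ} (hn : 1 ≤ n) {X : ℝ} (hX' : 0 < X) (hV : U * n ≤ V * X) :
    ∑ g ∈ GV V, tau g.natAbs * cc c g.natAbs * av (fun t => F ((g : ℝ) * (t * X) / n)) =
      ∫ w in Set.Ioi (0 : ℝ), (F w + F (-w)) * DDc c (n / X * w) / w := by
  have hn' : (0 : ℝ) < n := by exact_mod_cast hn
  have hi' : Integrable (fun w => F (-w)) := hi.comp_neg
  rw [pcs_gs]
  have h1 : ∀ g ∈ Finset.Icc 1 V,
      (tau ((g : ℤ)).natAbs * cc c ((g : ℤ)).natAbs *
        av (fun t => F ((((g : ℤ)) : ℝ) * (t * X) / n)) +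
      tau (-(g : ℤ)).natAbs * cc c (-(g : ℤ)).natAbs *
        av (fun t => F (((-(g : ℤ) : ℤ) : ℝ) * (t * X) / n))) =
      ∫ w in Set.Ioi (0 : ℝ), tau g * cc c g * ((F w + F (-w)) * th (g * X / n / w) / w) := by
    intro g hg
    rw [Finset.mem_Icc] at hg
    have hg' : (0 : ℝ) < g := by exact_mod_cast hg.1
    have ha : (0 : ℝ) < g * X / n := by positivity
    rw [Int.natAbs_neg, Int.natAbs_natCast]
    have e1 : (fun t : ℝ => F ((((g : ℤ)) : ℝ) * (t * X) / n)) = fun t => F (g * X / n * t) := by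
      funext t
      congr 1
      push_cast
      ring
    have e2 : (fun t : ℝ => F (((-(g : ℤ) : ℤ) : ℝ) * (t * X) / n)) =
        fun t => (fun w => F (-w)) (g * X / n * t) := by
      funext t
      show F _ = F _
      congr 1
      push_cast
      ring
    rw [e1, e2, sub_one F ha, sub_one (fun w => F (-w)) ha, ← mul_add,
      ← integral_add (sub_int hi ha) (sub_int hi' ha), integral_const_mul]
    congr 1
    refine integral_congr_ae (ae_of_all _ fun w => ?_)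
    show F w * th (g * X / n / w) / w + F (-w) * th (g * X / n / w) / w =
      (F w + F (-w)) * th (g * X / n / w) / w
    ring
  rw [Finset.sum_congr rfl h1, ← integral_finsetSum]
  · refine setIntegral_congr_fun measurableSet_Ioi fun w hw => ?_
    have hw0 : (0 : ℝ) < w := hw
    show ∑ g ∈ Finset.Icc 1 V, tau g * cc c g *
      ((F w + F (-w)) * th (g * X / n / w) / w) = (F w + F (-w)) * DDc c (n / X * w) / w
    by_cases hU : w ≤ U
    · have h2 : (F w + F (-w)) * DDc c (n / X * w) / w = ∑ g ∈ Finset.Icc 1 ⌊n / X * w⌋₊,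
          tau g * cc c g * ((F w + F (-w)) * th (g * X / n / w) / w) := by
        unfold DDc
        rw [Finset.mul_sum, Finset.sum_div]
        refine Finset.sum_congr rfl fun g _ => ?_
        have e : (g : ℝ) / (n / X * w) = g * X / n / w := by field_simp
        rw [e]
        ring
      rw [h2]
      symm
      refine Finset.sum_subset ?_ ?_
      · intro g hg
        rw [Finset.mem_Icc] at hg ⊢
        refine ⟨hg.1, ?_⟩
        have h3 : (g : ℝ) ≤ n / X * w := (Nat.le_floor_iff (by positivity)).mp hg.2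
        have h4 : (n : ℝ) / X * w ≤ V := by
          rw [div_mul_eq_mul_div, div_le_iff₀ hX']
          have h5 : (n : ℝ) * w ≤ n * U := mul_le_mul_of_nonneg_left hU hn'.le
          linarith
        exact_mod_cast h3.trans h4
      · intro g hg hg'
        rw [Finset.mem_Icc] at hg hg'
        have h3 : ¬ (g ≤ ⌊n / X * w⌋₊) := fun h => hg' ⟨hg.1, h⟩
        rw [Nat.le_floor_iff (by positivity)] at h3
        have h4 : (n : ℝ) / X * w < g := not_le.mp h3
        have h5 : th (g * X / n / w) = 0 := by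
          apply sub_th_zero
          right
          rw [le_div_iff₀ hw0, one_mul, le_div_iff₀ hn']
          have h6 : (n : ℝ) / X * w * X < g * X := mul_lt_mul_of_pos_right h4 hX'
          have h7 : (n : ℝ) / X * w * X = w * n := by field_simp
          linarith
        rw [h5]
        ring
    · have h2 : F w = 0 := hs w (by rw [abs_of_pos hw0]; exact not_le.mp hU)
      have h3 : F (-w) = 0 := hs (-w) (by rw [abs_neg, abs_of_pos hw0]; exact not_le.mp hU)
      rw [h2, h3, add_zero, zero_mul, zero_div]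
      refine Finset.sum_eq_zero fun g _ => ?_
      simp
  · intro g hg
    rw [Finset.mem_Icc] at hg
    have hg' : (0 : ℝ) < g := by exact_mod_cast hg.1
    have ha : (0 : ℝ) < g * X / n := by positivity
    refine Integrable.const_mul ?_ _
    exact sub_int (F := fun w => F w + F (-w)) (hi.add hi') ha

theorem pcs_pol {G : ℝ → ℝ} {U c₀ : ℝ} (hG : GOK G U c₀) (ha : ∀ u, G (1 - u) = - G u) (lam : ℝ)
    {n c : ℕ} (hn : 1 ≤ n) (hc : 1 ≤ c) {X : ℝ} (hX : 0 < X) :
    (Real.log n / 2 + (lam / 2 + ga) - Real.log c) *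
        (∫ w in Set.Ioi (0 : ℝ), (G w + G (-w)) * Mc c (n / X * w) / w) +
      (∫ w in Set.Ioi (0 : ℝ), (G1 G w + G1 G (-w)) * Mc c (n / X * w) / w) =
      phi c / c * (n / X) * (kapG G / 2) * (I1 * (Real.log X + lam) - I2) := by
  obtain ⟨i1, i2, i3, i4⟩ := g_int hG
  obtain ⟨v1, v2, v3⟩ := g_vals hG ha
  have hn0 : (0 : ℝ) < n := by exact_mod_cast hn
  have hy : (0 : ℝ) < n / X := by positivity
  have key : ∀ F : ℝ → ℝ, ∫ w in Set.Ioi (0 : ℝ), (F w + F (-w)) * Mc c (n / X * w) / w =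
      ∫ w in Set.Ioi (0 : ℝ), (F w + F (-w)) *
        (phi c / c * (n / X) * (I1 * (Real.log (n / X) + 2 * ga - 2 * Real.log c) + I2) +
          phi c / c * (n / X) * I1 * Real.log w) := by
    intro F
    refine setIntegral_congr_fun measurableSet_Ioi ?_
    intro w hw
    have hw' : (0 : ℝ) < w := hw
    simp only
    unfold Mc
    rw [Real.log_mul hy.ne' hw'.ne']
    field_simp
    ring
  rw [key G, key (G1 G), pol_half i1 i3, pol_half i2 i4, v1, v2, v3]
  have hk : ∫ w : ℝ, G w * Real.log |w| = kapG G := rfl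
  rw [hk, Real.log_div hn0.ne' hX.ne']
  ring

theorem pcs_phi {c : ℕ} (hc : 1 ≤ c) : (0 : ℝ) < phi c := by
  have := Nat.totient_pos.mpr (show 0 < c by omega)
  exact_mod_cast this

/-- the exact evaluation of `M6l` -/
theorem pcs_m6 {G : ℝ → ℝ} {U c₀ : ℝ} (hG : GOK G U c₀) (ha : ∀ u, G (1 - u) = - G u) (lam : ℝ)
    (C : ℕ → ℝ) (Q V R : ℕ) {X : ℝ} (hX0 : 0 < X) (hV : U * Q ≤ V * X) :
    M6l lam C G Q (GV V) R X = 4 * Real.pi *
      ((kapG G / 2) * (I1 * (Real.log X + lam) - I2) / X * ∑ n ∈ Finset.Icc 1 Q, (n : ℝ) * C n *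
        ∑ c ∈ Finset.Icc 1 R, cc c n / (c : ℝ) ^ 2 + M7l lam C G Q R X) := by
  obtain ⟨hi, hi1, -, -⟩ := g_int hG
  have hU := hG.one_le
  unfold M6l M7l
  rw [Finset.mul_sum, Finset.mul_sum (a := kapG G / 2 * (I1 * (Real.log X + lam) - I2) / X),
    mul_add, Finset.mul_sum, Finset.mul_sum, ← Finset.sum_add_distrib]
  refine Finset.sum_congr rfl fun n hn => ?_
  rw [Finset.mem_Icc] at hn
  have hVn : U * n ≤ V * X := by
    have : (n : ℝ) ≤ Q := by exact_mod_cast hn.2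
    have : U * n ≤ U * Q := mul_le_mul_of_nonneg_left this (by linarith)
    linarith
  have key : ∀ c ∈ Finset.Icc 1 R, cc c n / (c * phi c) *
      ((Real.log n / 2 + (lam / 2 + ga) - Real.log c) *
        ∑ g ∈ GV V, tau g.natAbs * cc c g.natAbs * av (fun t => G ((g : ℝ) * (t * X) / n)) +
      ∑ g ∈ GV V, tau g.natAbs * cc c g.natAbs * av (fun t => G1 G ((g : ℝ) * (t * X) / n))) =
      kapG G / 2 * (I1 * (Real.log X + lam) - I2) / X * n * (cc c n / (c : ℝ) ^ 2) +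
      cc c n / (c * phi c) *
        ((Real.log n / 2 + (lam / 2 + ga) - Real.log c) * RR G c (n / X) +
          RR (G1 G) c (n / X)) := by
    intro c hc
    rw [Finset.mem_Icc] at hc
    have hn0 : (0 : ℝ) < n := by exact_mod_cast hn.1
    have hy : 0 < (n : ℝ) / X := div_pos hn0 hX0
    rw [pcs_sub hi hG.supp hn.1 hX0 hVn, pcs_sub hi1 (g1_supp hG) hn.1 hX0 hVn,
      rr_split hG (Or.inl rfl) hc.1 hy, rr_split hG (Or.inr rfl) hc.1 hy]
    have hp := pcs_pol hG ha lam hn.1 hc.1 hX0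
    have e1 : (Real.log n / 2 + (lam / 2 + ga) - Real.log c) *
        ((∫ w in Set.Ioi (0 : ℝ), (G w + G (-w)) * Mc c (n / X * w) / w) + RR G c (n / X)) +
        ((∫ w in Set.Ioi (0 : ℝ), (G1 G w + G1 G (-w)) * Mc c (n / X * w) / w) +
          RR (G1 G) c (n / X)) =
        phi c / c * (n / X) * (kapG G / 2) * (I1 * (Real.log X + lam) - I2) +
        ((Real.log n / 2 + (lam / 2 + ga) - Real.log c) * RR G c (n / X) +
          RR (G1 G) c (n / X)) := by
      rw [← hp]; ring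
    rw [e1, mul_add]
    congr 1
    have h1 : (phi c) ≠ 0 := (pcs_phi hc.1).ne'
    have h2 : (c : ℝ) ≠ 0 := by exact_mod_cast (show c ≠ 0 by omega)
    field_simp
  rw [Finset.sum_congr rfl key, Finset.sum_add_distrib, ← Finset.mul_sum]
  ring

/-- the polar part is small -/
theorem pcs_polar {κ : ℝ} (h0 : 0 < κ) (h1 : κ ≤ 1 / 1000) : ∃ K : ℝ, 0 ≤ K ∧ ∀ X : ℝ, 1 ≤ X →
    ∀ Y : ℝ, 0 < Y → Y ≤ X ^ 2 → ∀ (B B' R Q : ℕ) (C : ℕ → ℝ), PC κ B B' X Y R Q C →
      1 ≤ R → X ^ (6 * κ) / 2 ≤ R →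
      |∑ n ∈ Finset.Icc 1 Q, (n : ℝ) * C n *
        ∑ c ∈ Finset.Icc 1 R, cc c n / (c : ℝ) ^ 2| ≤ K * (Y * X ^ (-κ)) := by
  obtain ⟨M, hM⟩ := ram_sigma
  obtain ⟨Cτ, hC1, hCτ⟩ := tau_le (ε := κ / 1000) (by positivity)
  refine ⟨4 * Cτ, by positivity, fun X hX Y hY hY2 B B' R Q C hck hR1 hR => ?_⟩
  have hX0 : 0 < X := by linarith
  have hR0 : (0 : ℝ) < R := by exact_mod_cast hR1
  have hzero : ∑ n ∈ Finset.Icc 1 Q, (n : ℝ) * C n * (M * (sg1 n / n)) = 0 := by
    have : ∑ n ∈ Finset.Icc 1 Q, (n : ℝ) * C n * (M * (sg1 n / n)) =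
        M * ∑ n ∈ Finset.Icc 1 Q, C n * sg1 n := by
      rw [Finset.mul_sum]
      refine Finset.sum_congr rfl fun n hn => ?_
      rw [Finset.mem_Icc] at hn
      have : (n : ℝ) ≠ 0 := by exact_mod_cast (show n ≠ 0 by omega)
      field_simp
    rw [this, hck.sig]; simp
  have hdiff : ∑ n ∈ Finset.Icc 1 Q, (n : ℝ) * C n *
        ∑ c ∈ Finset.Icc 1 R, cc c n / (c : ℝ) ^ 2 =
      ∑ n ∈ Finset.Icc 1 Q, (n : ℝ) * C n *
        (∑ c ∈ Finset.Icc 1 R, cc c n / (c : ℝ) ^ 2 - M * (sg1 n / n)) := by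
    simp only [mul_sub, Finset.sum_sub_distrib]
    rw [hzero, sub_zero]
  rw [hdiff]
  have hQ : (Q : ℝ) ≤ Y * X ^ (101 / 50 * κ) := hck.size
  have hQ3 : (Q : ℝ) ≤ X ^ (3 : ℝ) := by
    have h2 : X ^ (101 / 50 * κ) ≤ X ^ (1 : ℝ) :=
      Real.rpow_le_rpow_of_exponent_le hX (by linarith)
    calc (Q : ℝ) ≤ Y * X ^ (101 / 50 * κ) := hQ
      _ ≤ X ^ 2 * X ^ (1 : ℝ) := by gcongr
      _ = X ^ (3 : ℝ) := by
          rw [← Real.rpow_natCast, ← Real.rpow_add hX0]
          norm_num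
  have hterm : ∀ n ∈ Finset.Icc 1 Q, |(n : ℝ) * C n *
      (∑ c ∈ Finset.Icc 1 R, cc c n / (c : ℝ) ^ 2 - M * (sg1 n / n))| ≤
      X ^ (κ / 100) * (2 * (Cτ * X ^ (κ / 300)) / (X ^ (6 * κ) / 2)) := by
    intro n hn
    rw [Finset.mem_Icc] at hn
    have hn0 : (0 : ℝ) < n := by exact_mod_cast hn.1
    rw [abs_mul, abs_mul, abs_of_pos hn0]
    have hb := hck.bdd n hn.1
    have h3 : (n : ℝ) * |C n| ≤ X ^ (κ / 100) := by
      rw [le_div_iff₀ hn0] at hb; linarith
    have h4 := hM n R hn.1 hR1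
    have hτ : tau n ≤ Cτ * X ^ (κ / 300) := by
      refine (hCτ n).trans ?_
      apply mul_le_mul_of_nonneg_left _ (by linarith)
      have hnQ : (n : ℝ) ≤ X ^ (3 : ℝ) := by
        have e1 : (n : ℝ) ≤ (Q : ℝ) := by exact_mod_cast hn.2
        exact e1.trans hQ3
      calc (n : ℝ) ^ (κ / 1000) ≤ (X ^ (3 : ℝ)) ^ (κ / 1000) :=
            Real.rpow_le_rpow hn0.le hnQ (by positivity)
        _ = X ^ (3 * (κ / 1000)) := by rw [← Real.rpow_mul hX0.le]
        _ ≤ X ^ (κ / 300) := Real.rpow_le_rpow_of_exponent_le hX (by linarith)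
    have h5 : |∑ c ∈ Finset.Icc 1 R, cc c n / (c : ℝ) ^ 2 - M * (sg1 n / n)| ≤
        2 * (Cτ * X ^ (κ / 300)) / (X ^ (6 * κ) / 2) := by
      refine h4.trans ?_
      have hp : 0 < X ^ (6 * κ) / 2 := by positivity
      apply div_le_div₀ _ _ hp hR
      · positivity
      · linarith
    exact mul_le_mul h3 h5 (abs_nonneg _) (by positivity)
  calc |∑ n ∈ Finset.Icc 1 Q, (n : ℝ) * C n *
        (∑ c ∈ Finset.Icc 1 R, cc c n / (c : ℝ) ^ 2 - M * (sg1 n / n))|
      ≤ ∑ n ∈ Finset.Icc 1 Q, |(n : ℝ) * C n *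
        (∑ c ∈ Finset.Icc 1 R, cc c n / (c : ℝ) ^ 2 - M * (sg1 n / n))| :=
        Finset.abs_sum_le_sum_abs _ _
    _ ≤ ∑ n ∈ Finset.Icc 1 Q,
        X ^ (κ / 100) * (2 * (Cτ * X ^ (κ / 300)) / (X ^ (6 * κ) / 2)) :=
        Finset.sum_le_sum hterm
    _ = (Q : ℝ) * (X ^ (κ / 100) * (2 * (Cτ * X ^ (κ / 300)) / (X ^ (6 * κ) / 2))) := by
        rw [Finset.sum_const, Nat.card_Icc, nsmul_eq_mul]; simp
    _ ≤ (Y * X ^ (101 / 50 * κ)) *
        (X ^ (κ / 100) * (2 * (Cτ * X ^ (κ / 300)) / (X ^ (6 * κ) / 2))) := by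
        apply mul_le_mul_of_nonneg_right hQ
        positivity
    _ = 4 * Cτ * (Y * (X ^ (101 / 50 * κ) * X ^ (κ / 100) * X ^ (κ / 300) *
          X ^ (-(6 * κ)))) := by
        rw [Real.rpow_neg hX0.le]
        have : X ^ (6 * κ) ≠ 0 := (Real.rpow_pos_of_pos hX0 _).ne'
        field_simp
        ring
    _ ≤ 4 * Cτ * (Y * X ^ (-κ)) := by
        apply mul_le_mul_of_nonneg_left _ (by positivity)
        apply mul_le_mul_of_nonneg_left _ hY.le
        rw [← Real.rpow_add hX0, ← Real.rpow_add hX0, ← Real.rpow_add hX0]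
        apply Real.rpow_le_rpow_of_exponent_le hX
        nlinarith

end Pool.Agent.LSPP
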