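import Pool.Agent.Lib_helper15.LSP2.DefsP2
import Pool.Agent.Lib_helper15.LSPF.REM

/-! LSP, version 2, part P2: partial summation for general coefficients. -/

set_option autoImplicit false

namespace Pool.Agent.LSPP

open Pool.Agent.LSP (tau sg1 CC Gs Adm)
open Pool.Agent.LSPO (hyp cl KK rho b1 GOK)
open Pool.Agent.FG61 (mu phi cc)
open MeasureTheory Filter Topology

/-- the function that is summed -/
noncomputable def pd_V (lam : ℝ) (G : ℝ → ℝ) (Y : ℝ) (c n : ℕ) : ℝ :=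
  (Real.log n / 2 + (lam / 2 + ga) - Real.log c) * RR G c (n / Y) + RR (G1 G) c (n / Y)

theorem pd_V_bd {lam : ℝ} {G : ℝ → ℝ} {Y P H : ℝ} {c n : ℕ}
    (h1 : |RR G c (n / Y)| ≤ P) (h2 : |RR (G1 G) c (n / Y)| ≤ P)
    (h4 : |Real.log n / 2 + (lam / 2 + ga) - Real.log c| ≤ 2 * H) (hP : 0 ≤ P) (hH : 1 ≤ H) :
    |pd_V lam G Y c n| ≤ 3 * H * P := by
  unfold pd_V
  refine (abs_add_le _ _).trans ?_
  rw [abs_mul]
  have : |Real.log n / 2 + (lam / 2 + ga) - Real.log c| * |RR G c (n / Y)| ≤ (2 * H) * P :=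
    mul_le_mul h4 h1 (abs_nonneg _) ((abs_nonneg _).trans h4)
  have h5 : P ≤ H * P := le_mul_of_one_le_left hP hH
  linarith

theorem pd_V_diff {lam : ℝ} {G : ℝ → ℝ} {Y P H : ℝ} {c n : ℕ} (hn : 1 ≤ n)
    (h1 : |RR G c (((n + 1 : ℕ) : ℝ) / Y)| ≤ P)
    (h2 : |RR G c (((n + 1 : ℕ) : ℝ) / Y) - RR G c (n / Y)| ≤ P / n)
    (h3 : |RR (G1 G) c (((n + 1 : ℕ) : ℝ) / Y) - RR (G1 G) c (n / Y)| ≤ P / n)
    (h4 : |Real.log n / 2 + (lam / 2 + ga) - Real.log c| ≤ 2 * H) (hP : 0 ≤ P) (hH : 1 ≤ H) :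
    |pd_V lam G Y c (n + 1) - pd_V lam G Y c n| ≤ 4 * H * P / n := by
  have hn0 : (0 : ℝ) < n := by exact_mod_cast hn
  have hl : |(Real.log ((n + 1 : ℕ) : ℝ) - Real.log n) / 2| ≤ 1 / n := by
    have h5 : Real.log ((n + 1 : ℕ) : ℝ) - Real.log n = Real.log (1 + 1 / n) := by
      rw [← Real.log_div (by positivity) hn0.ne']
      congr 1
      push_cast
      field_simp
    have h6 : Real.log (1 + 1 / n) ≤ 1 / n := by
      have := Real.log_le_sub_one_of_pos (x := 1 + 1 / (n : ℝ)) (by positivity)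
      linarith
    have h7 : 0 ≤ Real.log (1 + 1 / (n : ℝ)) := Real.log_nonneg (by
      have : 0 ≤ 1 / (n : ℝ) := by positivity
      linarith)
    rw [h5, abs_of_nonneg (by positivity)]
    linarith
  have e : pd_V lam G Y c (n + 1) - pd_V lam G Y c n =
      (Real.log ((n + 1 : ℕ) : ℝ) - Real.log n) / 2 * RR G c (((n + 1 : ℕ) : ℝ) / Y) +
      (Real.log n / 2 + (lam / 2 + ga) - Real.log c) *
        (RR G c (((n + 1 : ℕ) : ℝ) / Y) - RR G c (n / Y)) +
      (RR (G1 G) c (((n + 1 : ℕ) : ℝ) / Y) - RR (G1 G) c (n / Y)) := by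
    unfold pd_V
    ring
  rw [e]
  refine (abs_add_three _ _ _).trans ?_
  rw [abs_mul, abs_mul]
  have g1 : |(Real.log ((n + 1 : ℕ) : ℝ) - Real.log n) / 2| * |RR G c (((n + 1 : ℕ) : ℝ) / Y)| ≤
      1 / n * P := mul_le_mul hl h1 (abs_nonneg _) (by positivity)
  have g2 : |Real.log n / 2 + (lam / 2 + ga) - Real.log c| *
      |RR G c (((n + 1 : ℕ) : ℝ) / Y) - RR G c (n / Y)| ≤ 2 * H * (P / n) :=
    mul_le_mul h4 h2 (abs_nonneg _) (by positivity)
  have g4 : P / n ≤ H * (P / n) := le_mul_of_one_le_left (by positivity) hH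
  calc _ ≤ 1 / n * P + 2 * H * (P / n) + P / n := add_le_add (add_le_add g1 g2) h3
    _ = 2 * (P / n) + 2 * H * (P / n) := by ring
    _ ≤ 2 * (H * (P / n)) + 2 * H * (P / n) := by gcongr
    _ = 4 * H * P / n := by ring

/-- the double sum with the sums exchanged -/
theorem pd_M7 (lam : ℝ) (C : ℕ → ℝ) (G : ℝ → ℝ) (Q R : ℕ) (Y : ℝ) :
    M7l lam C G Q R Y = ∑ c ∈ Finset.Icc 1 R, 1 / (c * phi c) *
      ∑ n ∈ Finset.Icc 1 Q, C n * cc c n * pd_V lam G Y c n := by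
  unfold M7l pd_V
  simp only [Finset.mul_sum]
  rw [Finset.sum_comm]
  refine Finset.sum_congr rfl fun c _ => Finset.sum_congr rfl fun n _ => ?_
  ring

theorem pd_pow_three {L Y : ℝ} (hY : 1 ≤ Y) (hL : L = Real.log Y) (h0 : 0 ≤ L) :
    L ^ 3 ≤ 216000 * Y ^ (1 / 20 : ℝ) := by
  have h1 : L ≤ 60 * Y ^ (1 / 60 : ℝ) := by
    rw [hL]
    have := Real.log_le_rpow_div (x := Y) (by linarith) (show (0 : ℝ) < 1 / 60 by norm_num)
    linarith
  calc L ^ 3 ≤ (60 * Y ^ (1 / 60 : ℝ)) ^ 3 := by gcongr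
    _ = 216000 * (Y ^ (1 / 60 : ℝ)) ^ 3 := by ring
    _ = 216000 * Y ^ (1 / 20 : ℝ) := by
        rw [← Real.rpow_natCast (Y ^ (1 / 60 : ℝ)) 3, ← Real.rpow_mul (by linarith)]
        norm_num

theorem pd_rem {G : ℝ → ℝ} {U c₀ : ℝ} (hG : GOK G U c₀) (B : ℕ) : ∃ B' : ℕ, ∀ κ : ℝ, 0 < κ →
    κ ≤ 1 / 1000 → ∃ K : ℝ, 0 ≤ K ∧ ∀ X : ℝ, 3 ≤ X → ∀ Y : ℝ, X ^ (1 / 2 : ℝ) ≤ Y → Y ≤ X ^ 2 →
    ∀ (R Q : ℕ) (C : ℕ → ℝ), PC κ B B' X Y R Q C → 1 ≤ R → (R : ℝ) ≤ X ^ (1 / 100 : ℝ) →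
    ∀ lam : ℝ, 0 ≤ lam → lam ≤ 4 * Real.log X →
      |M7l lam C G Q R Y| ≤ K / Real.log X := by
  obtain ⟨K₂, j, hK₂, hτ⟩ := tau_sum (B + 3)
  obtain ⟨K, hK, hR⟩ := rr_bd hG
  refine ⟨6 + j, fun κ k0 k1 => ?_⟩
  refine ⟨72 * 216000 * K + 114 * K * K₂ * 2 ^ j, by positivity, fun X hX3 Y hXY hY2 R Q C hA
    hR1 hRle lam hl0 hl1 => ?_⟩
  have hX0 : (0 : ℝ) < X := by linarith
  have hX1 : (1 : ℝ) ≤ X := by linarith
  have hY1 : 1 ≤ Y := (Real.one_le_rpow hX1 (by norm_num)).trans hXY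
  have hY0 : 0 < Y := by linarith
  set L : ℝ := Real.log X with hL
  have hL1 : 1 ≤ L := by
    rw [hL, Real.le_log_iff_exp_le hX0]
    exact (Real.exp_one_lt_d9.le.trans (by norm_num)).trans hX3
  have hL0 : 0 < L := by linarith
  have hQ3 : (Q : ℝ) ≤ X ^ (3 : ℝ) := by
    have h2 : X ^ (101 / 50 * κ) ≤ X ^ (1 : ℝ) :=
      Real.rpow_le_rpow_of_exponent_le hX1 (by linarith)
    calc (Q : ℝ) ≤ Y * X ^ (101 / 50 * κ) := hA.size
      _ ≤ X ^ 2 * X ^ (1 : ℝ) := by gcongr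
      _ = X ^ (3 : ℝ) := by
          rw [← Real.rpow_natCast, ← Real.rpow_add hX0]
          norm_num
  have ga0 : 0 < ga := by
    have := Real.one_half_lt_eulerMascheroniConstant
    unfold ga
    linarith
  have ga1 : ga < 1 := by
    have := Real.eulerMascheroniConstant_lt_two_thirds
    unfold ga
    linarith
  -- logarithms
  have hlogc : ∀ c ∈ Finset.Icc 1 R, 0 ≤ Real.log c ∧ Real.log c ≤ L / 100 := by
    intro c hc
    obtain ⟨c1, c2⟩ := Finset.mem_Icc.mp hc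
    have c1' : (1 : ℝ) ≤ c := by exact_mod_cast c1
    have c2' : (c : ℝ) ≤ X ^ (1 / 100 : ℝ) := le_trans (by exact_mod_cast c2) hRle
    refine ⟨Real.log_nonneg c1', ?_⟩
    have h := Real.log_le_log (by linarith) c2'
    rw [Real.log_rpow hX0, ← hL] at h
    linarith
  have hlogn : ∀ n : ℕ, 1 ≤ n → n ≤ Q → 0 ≤ Real.log n ∧ Real.log n ≤ 3 * L := by
    intro n n1 n2
    have n1' : (1 : ℝ) ≤ n := by exact_mod_cast n1
    have n2' : (n : ℝ) ≤ X ^ (3 : ℝ) := le_trans (by exact_mod_cast n2) hQ3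
    refine ⟨Real.log_nonneg n1', ?_⟩
    have h := Real.log_le_log (by linarith) n2'
    rw [Real.log_rpow hX0, ← hL] at h
    exact h
  have hH : ∀ c ∈ Finset.Icc 1 R, ∀ n : ℕ, 1 ≤ n → n ≤ Q →
      |Real.log n / 2 + (lam / 2 + ga) - Real.log c| ≤ 2 * (3 * L) := by
    intro c hc n n1 n2
    obtain ⟨a1, a2⟩ := hlogc c hc
    obtain ⟨b1, b2⟩ := hlogn n n1 n2
    rw [abs_le]
    constructor <;> linarith
  have h3L : 1 ≤ 3 * L := by linarith
  have hP : ∀ c : ℕ, 0 ≤ K * c * tau c ^ 3 := fun c => by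
    have := rem_tau_nonneg c
    positivity
  -- the first part
  have hlogz : 1 + Real.log Q ≤ 4 * L := by
    rcases Nat.eq_zero_or_pos Q with h | h
    · rw [h]
      simp only [Nat.cast_zero, Real.log_zero]
      linarith
    · have := (hlogn Q h le_rfl).2
      linarith
  have part1 : ∀ m : ℕ, m ≤ Q → (m : ℝ) ≤ 2 * Y ^ (1 / 2 : ℝ) →
      |∑ c ∈ Finset.Icc 1 R, 1 / (c * phi c) *
        ∑ n ∈ Finset.Icc 1 m, C n * cc c n * pd_V lam G Y c n| ≤ 72 * 216000 * K / L := by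
    intro m mQ mX
    have t1 : ∀ c ∈ Finset.Icc 1 R, ∀ n ∈ Finset.Icc 1 m, |C n * cc c n * pd_V lam G Y c n| ≤
        X ^ (κ / 100) * (c ^ 2 * (3 * (3 * L) * (K * c ^ 4 * (2 * X ^ (-(1 / 8) : ℝ))))) *
          (1 / n) := by
      intro c hc n hn
      obtain ⟨c1, c2⟩ := Finset.mem_Icc.mp hc
      obtain ⟨n1, n2⟩ := Finset.mem_Icc.mp hn
      have hn0 : (0 : ℝ) < n := by exact_mod_cast n1
      have s1 := hA.bdd n n1
      have s2 := rem_cc c1 n
      have hy : (0 : ℝ) < n / Y := by positivity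
      have s3 : ((n : ℝ) / Y) ^ (1 / (2 * 1) : ℝ) ≤ 2 * X ^ (-(1 / 8) : ℝ) := by
        have q1 : (n : ℝ) / Y ≤ 2 * Y ^ (-(1 / 2) : ℝ) := by
          rw [div_le_iff₀ hY0]
          have : 2 * Y ^ (-(1 / 2) : ℝ) * Y = 2 * Y ^ (1 / 2 : ℝ) := by
            rw [mul_assoc]
            congr 1
            nth_rewrite 2 [← Real.rpow_one Y]
            rw [← Real.rpow_add hY0]
            norm_num
          rw [this]
          exact le_trans (by exact_mod_cast n2) mX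
        calc ((n : ℝ) / Y) ^ (1 / (2 * 1) : ℝ) ≤ (2 * Y ^ (-(1 / 2) : ℝ)) ^ (1 / (2 * 1) : ℝ) :=
              Real.rpow_le_rpow hy.le q1 (by norm_num)
          _ = 2 ^ (1 / (2 * 1) : ℝ) * Y ^ (-(1 / 4) : ℝ) := by
              rw [Real.mul_rpow (by norm_num) (by positivity), ← Real.rpow_mul hY0.le]
              norm_num
          _ ≤ 2 * X ^ (-(1 / 8) : ℝ) := by
              have e1 : (2 : ℝ) ^ (1 / (2 * 1) : ℝ) ≤ 2 := by
                calc (2 : ℝ) ^ (1 / (2 * 1) : ℝ) ≤ (2 : ℝ) ^ (1 : ℝ) :=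
                      Real.rpow_le_rpow_of_exponent_le (by norm_num) (by norm_num)
                  _ = 2 := Real.rpow_one 2
              have e2 : Y ^ (-(1 / 4) : ℝ) ≤ X ^ (-(1 / 8) : ℝ) := by
                have e3 : X ^ (1 / 8 : ℝ) ≤ Y ^ (1 / 4 : ℝ) := by
                  calc X ^ (1 / 8 : ℝ) = (X ^ (1 / 2 : ℝ)) ^ (1 / 4 : ℝ) := by
                        rw [← Real.rpow_mul hX0.le]
                        norm_num
                    _ ≤ Y ^ (1 / 4 : ℝ) := Real.rpow_le_rpow (by positivity) hXY (by norm_num)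
                rw [Real.rpow_neg hY0.le, Real.rpow_neg hX0.le]
                exact inv_anti₀ (by positivity) e3
              exact mul_le_mul e1 e2 (by positivity) (by norm_num)
      have c4 : K * c * tau c ^ 3 ≤ K * (c : ℝ) ^ 4 := by
        have := rem_tau_le c
        have h0 := rem_tau_nonneg c
        calc K * c * tau c ^ 3 ≤ K * c * (c : ℝ) ^ 3 := by gcongr
          _ = K * (c : ℝ) ^ 4 := by ring
      have r1 : ∀ F : ℝ → ℝ, (F = G ∨ F = G1 G) → |RR F c (n / Y)| ≤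
          K * (c : ℝ) ^ 4 * (2 * X ^ (-(1 / 8) : ℝ)) := by
        intro F hF
        have := (hR F hF c c1 1 le_rfl).1 (n / Y) hy
        refine this.trans ?_
        rw [one_pow, mul_one]
        have h0 := hP c
        gcongr
      have r2 := pd_V_bd (lam := lam) (Y := Y) (n := n) (H := 3 * L) (r1 G (Or.inl rfl))
        (r1 (G1 G) (Or.inr rfl)) (hH c hc n n1 (n2.trans mQ)) (by positivity) h3L
      rw [abs_mul, abs_mul]
      calc |C n| * |cc c n| * |pd_V lam G Y c n|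
          ≤ (X ^ (κ / 100) / n) * c ^ 2 *
            (3 * (3 * L) * (K * (c : ℝ) ^ 4 * (2 * X ^ (-(1 / 8) : ℝ)))) := by
            gcongr
        _ = _ := by ring
    have t2 : ∀ c ∈ Finset.Icc 1 R, |1 / (c * phi c) *
        ∑ n ∈ Finset.Icc 1 m, C n * cc c n * pd_V lam G Y c n| ≤
        72 * K * L ^ 2 * X ^ (κ / 100) * X ^ (-(1 / 8) : ℝ) * (R : ℝ) ^ 5 := by
      intro c hc
      obtain ⟨c1, c2⟩ := Finset.mem_Icc.mp hc
      have c1' : (1 : ℝ) ≤ c := by exact_mod_cast c1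
      have c2' : (c : ℝ) ≤ R := by exact_mod_cast c2
      have p1 : (1 : ℝ) ≤ phi c := by
        unfold phi
        exact_mod_cast Nat.totient_pos.mpr c1
      have hlm : ∑ n ∈ Finset.Icc 1 m, 1 / (n : ℝ) ≤ 4 * L := by
        calc ∑ n ∈ Finset.Icc 1 m, 1 / (n : ℝ) ≤ ∑ n ∈ Finset.Icc 1 Q, 1 / (n : ℝ) :=
              Finset.sum_le_sum_of_subset_of_nonneg (Finset.Icc_subset_Icc le_rfl mQ)
                fun n _ _ => by positivity
          _ ≤ 1 + Real.log Q := rem_harm Q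
          _ ≤ 4 * L := hlogz
      rw [abs_mul]
      have u1 : |1 / ((c : ℝ) * phi c)| ≤ 1 / c := by
        rw [abs_of_nonneg (by positivity)]
        apply one_div_le_one_div_of_le (by linarith)
        nlinarith
      have u2 : |∑ n ∈ Finset.Icc 1 m, C n * cc c n * pd_V lam G Y c n| ≤
          X ^ (κ / 100) * (c ^ 2 * (3 * (3 * L) * (K * c ^ 4 * (2 * X ^ (-(1 / 8) : ℝ))))) *
            (4 * L) := by
        calc _ ≤ ∑ n ∈ Finset.Icc 1 m, |C n * cc c n * pd_V lam G Y c n| :=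
              Finset.abs_sum_le_sum_abs _ _
          _ ≤ ∑ n ∈ Finset.Icc 1 m, X ^ (κ / 100) *
              (c ^ 2 * (3 * (3 * L) * (K * c ^ 4 * (2 * X ^ (-(1 / 8) : ℝ))))) * (1 / n) :=
              Finset.sum_le_sum (t1 c hc)
          _ = X ^ (κ / 100) *
              (c ^ 2 * (3 * (3 * L) * (K * c ^ 4 * (2 * X ^ (-(1 / 8) : ℝ))))) *
              ∑ n ∈ Finset.Icc 1 m, 1 / (n : ℝ) := by rw [Finset.mul_sum]
          _ ≤ _ := by gcongr
      calc _ ≤ 1 / (c : ℝ) * (X ^ (κ / 100) *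
            (c ^ 2 * (3 * (3 * L) * (K * c ^ 4 * (2 * X ^ (-(1 / 8) : ℝ))))) * (4 * L)) := by
            gcongr
        _ = 72 * K * L ^ 2 * X ^ (κ / 100) * X ^ (-(1 / 8) : ℝ) * (c : ℝ) ^ 5 := by
            have : (c : ℝ) ≠ 0 := by linarith
            field_simp
            ring
        _ ≤ _ := by gcongr
    have t3 : X ^ (κ / 100) * X ^ (-(1 / 8) : ℝ) * (R : ℝ) ^ 6 ≤
        X ^ (-(1 / 20) : ℝ) := by
      calc X ^ (κ / 100) * X ^ (-(1 / 8) : ℝ) * (R : ℝ) ^ 6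
          ≤ X ^ (κ / 100) * X ^ (-(1 / 8) : ℝ) * (X ^ (1 / 100 : ℝ)) ^ 6 := by gcongr
        _ = X ^ (κ / 100 + (-(1 / 8)) + 1 / 100 * 6) := by
            rw [← Real.rpow_natCast (X ^ (1 / 100 : ℝ)) 6, ← Real.rpow_mul hX0.le,
              ← Real.rpow_add hX0, ← Real.rpow_add hX0]
            norm_num
        _ ≤ _ := Real.rpow_le_rpow_of_exponent_le hX1 (by linarith)
    calc _ ≤ ∑ c ∈ Finset.Icc 1 R, |1 / (c * phi c) *
          ∑ n ∈ Finset.Icc 1 m, C n * cc c n * pd_V lam G Y c n| :=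
          Finset.abs_sum_le_sum_abs _ _
      _ ≤ ∑ c ∈ Finset.Icc 1 R,
          72 * K * L ^ 2 * X ^ (κ / 100) * X ^ (-(1 / 8) : ℝ) * (R : ℝ) ^ 5 :=
          Finset.sum_le_sum t2
      _ = 72 * K * L ^ 2 * (X ^ (κ / 100) * X ^ (-(1 / 8) : ℝ) * (R : ℝ) ^ 6) := by
          rw [Finset.sum_const, Nat.card_Icc, nsmul_eq_mul, Nat.add_sub_cancel]
          ring
      _ ≤ 72 * K * L ^ 2 * X ^ (-(1 / 20) : ℝ) := by gcongr
      _ = 72 * K * (L ^ 3 * X ^ (-(1 / 20) : ℝ)) / L := by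
          field_simp
      _ ≤ 72 * K * 216000 / L := by
          gcongr
          calc L ^ 3 * X ^ (-(1 / 20) : ℝ)
              ≤ 216000 * X ^ (1 / 20 : ℝ) * X ^ (-(1 / 20) : ℝ) := by
                gcongr
                exact pd_pow_three hX1 hL hL0.le
            _ = 216000 := by
                rw [mul_assoc, ← Real.rpow_add hX0]
                norm_num
      _ = 72 * 216000 * K / L := by ring
  -- the second part
  have part2 : ∀ z : ℕ, z ≤ Q → Y ^ (1 / 2 : ℝ) ≤ z →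
      |∑ c ∈ Finset.Icc 1 R, 1 / (c * phi c) *
        ∑ n ∈ Finset.Ioc z Q, C n * cc c n * pd_V lam G Y c n| ≤
        114 * K * K₂ * 2 ^ j / L := by
    intro z hz hzX
    have hz1 : 1 ≤ z := by
      have : (1 : ℝ) ≤ z := (Real.one_le_rpow hY1 (by norm_num)).trans hzX
      exact_mod_cast this
    have hpow : ∀ n : ℕ, 1 ≤ n → n ≤ Q → ((n : ℝ) / Y) ^ (1 / (2 * L)) ≤ 2 := by
      intro n n1 n2
      have hn0 : (0 : ℝ) < n := by exact_mod_cast n1
      have n2' : (n : ℝ) ≤ Y * X ^ (101 / 50 * κ) :=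
        le_trans (by exact_mod_cast n2) hA.size
      have q1 : (n : ℝ) / Y ≤ X ^ (101 / 50 * κ) := by
        rw [div_le_iff₀ hY0]
        linarith
      calc ((n : ℝ) / Y) ^ (1 / (2 * L)) ≤ (X ^ (101 / 50 * κ)) ^ (1 / (2 * L)) :=
            Real.rpow_le_rpow (by positivity) q1 (by positivity)
        _ = Real.exp (101 / 100 * κ) := by
            rw [← Real.rpow_mul hX0.le, Real.rpow_def_of_pos hX0, ← hL]
            congr 1
            field_simp
            norm_num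
        _ ≤ Real.exp (1 / 2) := by
            apply Real.exp_le_exp.mpr
            linarith
        _ ≤ 2 := by
            have h1 := Real.exp_one_lt_d9
            have h2 : Real.exp (1 / 2) * Real.exp (1 / 2) = Real.exp 1 := by
              rw [← Real.exp_add]
              norm_num
            nlinarith [Real.exp_pos (1 / 2)]
    have t1 : ∀ c ∈ Finset.Icc 1 R, |∑ n ∈ Finset.Ioc z Q, C n * cc c n * pd_V lam G Y c n| ≤
        tau c ^ B / L ^ (6 + j) * (114 * (K * c * tau c ^ 3) * L ^ 5) := by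
      intro c hc
      obtain ⟨c1, c2⟩ := Finset.mem_Icc.mp hc
      have hτ0 := rem_tau_nonneg c
      have hPc := hP c
      have hmob := fun m => hA.mob c z m c1 c2 hzX
      have rr : ∀ F : ℝ → ℝ, (F = G ∨ F = G1 G) → ∀ n : ℕ, 1 ≤ n → n ≤ Q →
          |RR F c (n / Y)| ≤ 2 * ((K * c * tau c ^ 3) * L ^ 3) := by
        intro F hF n n1 n2
        have hn0 : (0 : ℝ) < n := by exact_mod_cast n1
        have := (hR F hF c c1 L hL1).1 (n / Y) (by positivity)
        refine this.trans ?_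
        have h2 := hpow n n1 n2
        calc K * c * tau c ^ 3 * L ^ 3 * ((n : ℝ) / Y) ^ (1 / (2 * L))
            ≤ K * c * tau c ^ 3 * L ^ 3 * 2 := by gcongr
          _ = _ := by ring
      have rd : ∀ F : ℝ → ℝ, (F = G ∨ F = G1 G) → ∀ n : ℕ, 1 ≤ n → n ≤ Q →
          |RR F c (((n + 1 : ℕ) : ℝ) / Y) - RR F c (n / Y)| ≤
            2 * ((K * c * tau c ^ 3) * L ^ 3) / n := by
        intro F hF n n1 n2
        have hn0 : (0 : ℝ) < n := by exact_mod_cast n1
        have n1' : (1 : ℝ) ≤ n := by exact_mod_cast n1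
        have := (hR F hF c c1 L hL1).2 (n / Y) (((n + 1 : ℕ) : ℝ) / Y) (by positivity)
          (by gcongr; push_cast; linarith)
          (by
            rw [← mul_div_assoc]
            gcongr
            push_cast
            linarith)
        refine this.trans ?_
        have h2 := hpow n n1 n2
        have h3 : (((n + 1 : ℕ) : ℝ) / Y - n / Y) / (n / Y) = 1 / n := by
          push_cast
          field_simp
          ring
        rw [h3]
        calc K * c * tau c ^ 3 * L ^ 3 * ((n : ℝ) / Y) ^ (1 / (2 * L)) * (1 / n)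
            ≤ K * c * tau c ^ 3 * L ^ 3 * 2 * (1 / n) := by gcongr
          _ = _ := by ring
      have hQ1 : 1 ≤ Q := hz1.trans hz
      have v1 := pd_V_bd (lam := lam) (Y := Y) (n := Q) (H := 3 * L)
        (rr G (Or.inl rfl) Q hQ1 le_rfl) (rr (G1 G) (Or.inr rfl) Q hQ1 le_rfl)
        (hH c hc Q hQ1 le_rfl) (by positivity) h3L
      have v2 : ∀ n, z ≤ n → n < Q → |pd_V lam G Y c (n + 1) - pd_V lam G Y c n| ≤
          4 * (3 * L) * (2 * ((K * c * tau c ^ 3) * L ^ 3)) / n := by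
        intro n h1 h2
        exact pd_V_diff (hz1.trans h1) (rr G (Or.inl rfl) (n + 1) (by omega) (by omega))
          (rd G (Or.inl rfl) n (hz1.trans h1) h2.le) (rd (G1 G) (Or.inr rfl) n (hz1.trans h1) h2.le)
          (hH c hc n (hz1.trans h1) h2.le) (by positivity) h3L
      have := rem_abel_bd (a := fun n => C n * cc c n) (V := pd_V lam G Y c) hz1 hz
        (A := tau c ^ B / L ^ (6 + j)) (by positivity) (by positivity) hmob v1 v2
      refine this.trans ?_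
      have hQ3 := hlogz
      refine mul_le_mul_of_nonneg_left ?_ (by positivity)
      have w : 0 ≤ (K * c * tau c ^ 3) * L ^ 4 := by positivity
      calc 3 * (3 * L) * (2 * (K * c * tau c ^ 3 * L ^ 3)) +
            4 * (3 * L) * (2 * (K * c * tau c ^ 3 * L ^ 3)) * (1 + Real.log Q)
          ≤ 3 * (3 * L) * (2 * (K * c * tau c ^ 3 * L ^ 3)) +
            4 * (3 * L) * (2 * (K * c * tau c ^ 3 * L ^ 3)) * (4 * L) := by gcongr
        _ = 18 * (K * c * tau c ^ 3) * L ^ 4 * 1 + 96 * (K * c * tau c ^ 3) * L ^ 5 := by ring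
        _ ≤ 18 * (K * c * tau c ^ 3) * L ^ 4 * L + 96 * (K * c * tau c ^ 3) * L ^ 5 := by gcongr
        _ = 114 * (K * c * tau c ^ 3) * L ^ 5 := by ring
    have hlR : 1 + Real.log R ≤ 2 * L := by
      have := (hlogc R (Finset.mem_Icc.mpr ⟨hR1, le_rfl⟩)).2
      linarith
    have hlR0 : 0 ≤ 1 + Real.log R := by
      have := (hlogc R (Finset.mem_Icc.mpr ⟨hR1, le_rfl⟩)).1
      linarith
    calc _ ≤ ∑ c ∈ Finset.Icc 1 R, |1 / (c * phi c) *
          ∑ n ∈ Finset.Ioc z Q, C n * cc c n * pd_V lam G Y c n| :=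
          Finset.abs_sum_le_sum_abs _ _
      _ ≤ ∑ c ∈ Finset.Icc 1 R, 114 * K * L ^ 5 / L ^ (6 + j) * (tau c ^ (B + 3) / phi c) := by
          refine Finset.sum_le_sum fun c hc => ?_
          obtain ⟨c1, c2⟩ := Finset.mem_Icc.mp hc
          have c1' : (1 : ℝ) ≤ c := by exact_mod_cast c1
          have p1 : (1 : ℝ) ≤ phi c := by
            unfold phi
            exact_mod_cast Nat.totient_pos.mpr c1
          rw [abs_mul, abs_of_nonneg (show (0 : ℝ) ≤ 1 / (c * phi c) by positivity)]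
          calc 1 / ((c : ℝ) * phi c) * |∑ n ∈ Finset.Ioc z Q, C n * cc c n * pd_V lam G Y c n|
              ≤ 1 / ((c : ℝ) * phi c) *
                (tau c ^ B / L ^ (6 + j) * (114 * (K * c * tau c ^ 3) * L ^ 5)) := by
                gcongr
                exact t1 c hc
            _ = _ := by
                have h1 : (c : ℝ) ≠ 0 := by linarith
                have h2 : phi c ≠ 0 := by linarith
                field_simp
                ring
      _ = 114 * K * L ^ 5 / L ^ (6 + j) * ∑ c ∈ Finset.Icc 1 R, tau c ^ (B + 3) / phi c := by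
          rw [Finset.mul_sum]
      _ ≤ 114 * K * L ^ 5 / L ^ (6 + j) * (K₂ * (1 + Real.log R) ^ j) := by
          gcongr
          exact hτ R hR1
      _ ≤ 114 * K * L ^ 5 / L ^ (6 + j) * (K₂ * (2 * L) ^ j) := by
          gcongr
      _ = 114 * K * K₂ * 2 ^ j / L := by
          rw [mul_pow, pow_add]
          field_simp
  rw [pd_M7]
  have fin1 : 72 * 216000 * K / L ≤ (72 * 216000 * K + 114 * K * K₂ * 2 ^ j) / L := by
    gcongr
    have : 0 ≤ 114 * K * K₂ * 2 ^ j := by positivity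
    linarith
  by_cases hz : ⌈Y ^ (1 / 2 : ℝ)⌉₊ ≤ Q
  · set z : ℕ := ⌈Y ^ (1 / 2 : ℝ)⌉₊ with hzd
    have hzX : Y ^ (1 / 2 : ℝ) ≤ z := Nat.le_ceil _
    have hzX2 : (z : ℝ) ≤ 2 * Y ^ (1 / 2 : ℝ) := by
      have h1 := Nat.ceil_lt_add_one (a := Y ^ (1 / 2 : ℝ)) (by positivity)
      have h2 : (1 : ℝ) ≤ Y ^ (1 / 2 : ℝ) := Real.one_le_rpow hY1 (by norm_num)
      rw [← hzd] at h1
      linarith
    have e : ∀ c : ℕ, ∑ n ∈ Finset.Icc 1 Q, C n * cc c n * pd_V lam G Y c n =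
        ∑ n ∈ Finset.Icc 1 z, C n * cc c n * pd_V lam G Y c n +
        ∑ n ∈ Finset.Ioc z Q, C n * cc c n * pd_V lam G Y c n := by
      intro c
      have hu : Finset.Icc 1 Q = Finset.Icc 1 z ∪ Finset.Ioc z Q := by
        ext n
        simp only [Finset.mem_Icc, Finset.mem_union, Finset.mem_Ioc]
        omega
      rw [hu, Finset.sum_union]
      refine Finset.disjoint_left.mpr fun n h1 h2 => ?_
      have := (Finset.mem_Icc.mp h1).2
      have := (Finset.mem_Ioc.mp h2).1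
      omega
    simp only [e, mul_add, Finset.sum_add_distrib]
    refine (abs_add_le _ _).trans ?_
    have := part1 z hz hzX2
    have := part2 z hz hzX
    calc _ ≤ 72 * 216000 * K / L + 114 * K * K₂ * 2 ^ j / L := by linarith
      _ = _ := by ring
  · have hQX : (Q : ℝ) ≤ 2 * Y ^ (1 / 2 : ℝ) := by
      have h1 := Nat.lt_ceil.mp (not_le.mp hz)
      have h2 : (0 : ℝ) ≤ Y ^ (1 / 2 : ℝ) := by positivity
      linarith
    exact (part1 Q le_rfl hQX).trans fin1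

end Pool.Agent.LSPP
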