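import Pool.Agent.Lib_helper15.LSP2.PB
import Pool.Agent.Lib_helper15.LSP2.PCS
import Pool.Agent.Lib_helper15.LSP2.PD

/-! LSP, version 2, part P2: the average over the centre is small. -/

set_option autoImplicit false

namespace Pool.Agent.LSPP

open Pool.Agent.LSP (tau sg1 CC Gs Adm)
open Pool.Agent.LSPO (hyp cl KK rho b1 GOK)
open Pool.Agent.FG61 (mu phi cc)
open MeasureTheory Filter Topology

/-- **P2**: the average of the principal part over the centre is small, for general coefficients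
and any enlargement `lam` of the hyperbola cut -/
theorem p2_av {G : ℝ → ℝ} {U c₀ : ℝ} (hG : GOK G U c₀) (ha : ∀ u, G (1 - u) = - G u) (B : ℕ) :
    ∃ B' : ℕ, ∀ κ : ℝ, 0 < κ → κ ≤ 1 / 1000 → ∀ δ : ℝ, 0 < δ →
    ∃ X₀ : ℝ, ∀ X : ℝ, X₀ ≤ X → ∀ Y : ℝ, X ^ (1 / 2 : ℝ) ≤ Y → Y ≤ X ^ 2 →
    ∀ (R Q V : ℕ) (C : ℕ → ℝ), PC κ B B' X Y R Q C → U * Q ≤ V * Y →
    X ^ (6 * κ) / 2 ≤ R → (R : ℝ) ≤ X ^ (1 / 100 : ℝ) →
    ∀ om : ℝ, 0 < om → om ≤ X ^ (-(4 * κ)) → ∀ lam : ℝ, 0 ≤ lam → lam ≤ 4 * Real.log X →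
      |av (fun t => M5l lam C G Q (GV V) R om (t * Y))| ≤ δ := by
  obtain ⟨B', hrem⟩ := pd_rem hG B
  refine ⟨B', fun κ h0 h1 δ hδ => ?_⟩
  obtain ⟨K, hK0, hrem⟩ := hrem κ h0 h1
  obtain ⟨X₃, havg⟩ := pb_avg hG h0 h1
  obtain ⟨Kp, hKp, hpol⟩ := pcs_polar h0 h1
  have t1 : Tendsto (fun X : ℝ => X ^ (-κ)) atTop (𝓝 0) := tendsto_rpow_neg_atTop h0
  have t2 : Tendsto (fun X : ℝ => X ^ (-(κ / 2))) atTop (𝓝 0) :=
    tendsto_rpow_neg_atTop (by positivity)
  have t3 : Tendsto (fun X : ℝ => K / Real.log X) atTop (𝓝 0) :=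
    Tendsto.div_atTop tendsto_const_nhds Real.tendsto_log_atTop
  have t4 : Tendsto (fun X : ℝ => Real.log X * X ^ (-κ)) atTop (𝓝 0) := by
    have := (isLittleO_log_rpow_atTop h0).tendsto_div_nhds_zero
    refine this.congr' ?_
    filter_upwards [eventually_gt_atTop (0 : ℝ)] with X hX
    rw [Real.rpow_neg hX.le, div_eq_mul_inv]
  set A : ℝ := |kapG G / 2| with hA
  have t5 : Tendsto (fun X : ℝ => 4 * Real.pi * (A * (6 * |I1| * (Real.log X * X ^ (-κ)) +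
      |I2| * X ^ (-κ)) * Kp + K / Real.log X) + X ^ (-(κ / 2))) atTop (𝓝 0) := by
    have h5 : Tendsto (fun X : ℝ => 4 * Real.pi * (A * (6 * |I1| * (Real.log X * X ^ (-κ)) +
      |I2| * X ^ (-κ)) * Kp + K / Real.log X) + X ^ (-(κ / 2))) atTop
        (𝓝 (4 * Real.pi * (A * (6 * |I1| * 0 + |I2| * 0) * Kp + 0) + 0)) := by
      exact ((((((t4.const_mul _).add (t1.const_mul _)).const_mul _).mul_const _).add t3).const_mul
        _).add t2
    simpa using h5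
  have ev2 : ∀ᶠ X : ℝ in atTop, 4 * Real.pi * (A * (6 * |I1| * (Real.log X * X ^ (-κ)) +
      |I2| * X ^ (-κ)) * Kp + K / Real.log X) + X ^ (-(κ / 2)) < δ :=
    t5.eventually (gt_mem_nhds hδ)
  obtain ⟨X₅, hX₅⟩ := eventually_atTop.mp ev2
  refine ⟨max X₃ (max X₅ 3), fun X hX Y hXY hY2 R Q V C hC hV hR0 hRX om
    hom homX lam hl0 hl1 => ?_⟩
  have hXc : X₃ ≤ X := (le_max_left _ _).trans hX
  have hXe : X₅ ≤ X := ((le_max_left _ _).trans (le_max_right _ _)).trans hX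
  have hX3 : 3 ≤ X := ((le_max_right _ _).trans (le_max_right _ _)).trans hX
  have hX1 : (1 : ℝ) ≤ X := by linarith
  have hX0 : (0 : ℝ) < X := by linarith
  have hY1 : 1 ≤ Y := (Real.one_le_rpow hX1 (by norm_num)).trans hXY
  have hY0 : 0 < Y := by linarith
  have hlogX : 0 ≤ Real.log X := Real.log_nonneg hX1
  have hlogY0 : 0 ≤ Real.log Y := Real.log_nonneg hY1
  have hlogY : Real.log Y ≤ 2 * Real.log X := by
    have := Real.log_le_log hY0 hY2
    rwa [Real.log_pow, Nat.cast_ofNat] at this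
  have hR1 : 1 ≤ R := by
    have h1 : 0 < X ^ (6 * κ) / 2 := by positivity
    have h2 : (0 : ℝ) < R := by linarith
    exact_mod_cast h2
  have hRX' : (R : ℝ) ≤ X := by
    refine hRX.trans ?_
    calc X ^ (1 / 100 : ℝ) ≤ X ^ (1 : ℝ) :=
          Real.rpow_le_rpow_of_exponent_le hX1 (by norm_num)
      _ = X := Real.rpow_one X
  have h6 := havg X hXc Y hY0 hY2 Q C hC.size hC.bdd lam hl0 hl1 (GV V) (GV_zero V) R hR1 hRX'
    om hom homX
  have h7 := pcs_m6 hG ha lam C Q V R hY0 hV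
  have h8 := hpol X hX1 Y hY0 hY2 B B' R Q C hC hR1 hR0
  have h9 := hrem X hX3 Y hXY hY2 R Q C hC hR1 hRX lam hl0 hl1
  have h10 := hX₅ X hXe
  have h11 : |M6l lam C G Q (GV V) R Y| ≤
      4 * Real.pi * (A * (6 * |I1| * (Real.log X * X ^ (-κ)) +
      |I2| * X ^ (-κ)) * Kp + K / Real.log X) := by
    rw [h7, abs_mul, abs_of_pos (show 0 < 4 * Real.pi by positivity)]
    apply mul_le_mul_of_nonneg_left _ (by positivity)
    refine (abs_add_le _ _).trans (add_le_add ?_ h9)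
    rw [abs_mul, abs_div, abs_mul, abs_of_pos hY0]
    have h12 : |I1 * (Real.log Y + lam) - I2| ≤ 6 * |I1| * Real.log X + |I2| := by
      refine (abs_sub _ _).trans ?_
      rw [abs_mul, abs_of_nonneg (by linarith : 0 ≤ Real.log Y + lam)]
      have : |I1| * (Real.log Y + lam) ≤ |I1| * (6 * Real.log X) :=
        mul_le_mul_of_nonneg_left (by linarith) (abs_nonneg _)
      linarith
    calc A * |I1 * (Real.log Y + lam) - I2| / Y * |∑ n ∈ Finset.Icc 1 Q, (n : ℝ) * C n *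
          ∑ c ∈ Finset.Icc 1 R, cc c n / (c : ℝ) ^ 2|
        ≤ A * (6 * |I1| * Real.log X + |I2|) / Y * (Kp * (Y * X ^ (-κ))) := by
          gcongr
      _ = A * (6 * |I1| * (Real.log X * X ^ (-κ)) + |I2| * X ^ (-κ)) * Kp := by
          field_simp
  rw [abs_le] at h6 h11 ⊢
  constructor
  · linarith [h6.1, h11.1]
  · linarith [h6.2, h11.2]

end Pool.Agent.LSPP
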