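import Pool.Agent.Lib_helper15.LSP2.TR2
import Pool.Agent.Lib_helper15.LSP2.PCS
import Pool.Agent.Lib_helper41.LSP2.DefsB
import Pool.Agent.Lib_helper41.LSPG.GOKB

/-! LSP, version 2, part P2: the kernel of the trivial character at one point. -/

set_option autoImplicit false

namespace Pool.Agent.LSPP

open Pool.Agent.LSP (tau sg1 Gs kap wc PsiK AdmB KerL GG E2 R2)
open Pool.Agent.LSPO (hyp cl KK rho b1 GOK)
open Pool.Agent.FG61 (mu phi cc)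
open MeasureTheory Filter Topology

theorem pt_large {κ : ℝ} (h0 : 0 < κ) : ∃ X₀ : ℝ, ∀ X : ℝ, X₀ ≤ X →
    3 ≤ X ∧ 1 ≤ Real.log X ∧ 4 ≤ X ^ κ := by
  have e1 : ∀ᶠ X : ℝ in atTop, 3 ≤ X := eventually_ge_atTop 3
  have e2 : ∀ᶠ X : ℝ in atTop, 1 ≤ Real.log X := Real.tendsto_log_atTop.eventually_ge_atTop 1
  have e3 : ∀ᶠ X : ℝ in atTop, 4 ≤ X ^ κ := (tendsto_rpow_atTop h0).eventually_ge_atTop 4
  obtain ⟨X₀, hX⟩ := eventually_atTop.1 (e1.and (e2.and e3))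
  exact ⟨X₀, fun X h => hX X h⟩

theorem p2_pt {T : ℝ} {ρ : ℝ → ℝ} (hρ : KerL T ρ) {B₀ : ℕ} (hB : 1 + T ^ 2 ≤ (B₀ : ℝ))
    (B B₁ B' : ℕ) (hBB : B₁ ≤ B') {κ : ℝ} (h0 : 0 < κ) (h1 : κ ≤ 1 / 80000) :
    ∃ X₀ : ℕ, ∀ X : ℕ, X₀ ≤ X → ∀ σ s Z : ℝ, 0 ≤ σ → σ ≤ 1 / 40 → σ * Real.log X ≤ s →
    s ≤ (σ + 2 * κ) * Real.log X → (X : ℝ) / 2 ≤ Z → Z ≤ 4 * X → ∀ (Q : ℕ) (C : ℕ → ℝ),
    (Q : ℝ) ≤ (X : ℝ) ^ (1 - σ + 3 * κ) → AdmB κ B B' X Q C →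
      (X : ℝ) ^ (1 / 2 : ℝ) ≤ Z * Real.exp (-s) ∧ Z * Real.exp (-s) ≤ (X : ℝ) ^ 2 ∧
      PC (3 * κ) B B₁ X (Z * Real.exp (-s)) ⌊(X : ℝ) ^ (6 * (3 * κ))⌋₊ Q C ∧
      (1 + T ^ 2) * Q ≤ ((B₀ * E2 κ X ^ 2 : ℕ) : ℝ) * (Z * Real.exp (-s)) ∧
      |(PsiK C (GG ρ) ((X : ℝ) ^ (-(4 * (15 / 2 * κ)))) (E2 κ X ^ 2) (Gs B₀ (E2 κ X))
          (2 * (B₀ + 1) * E2 κ X) (R2 κ X) ⟨1, 1⟩ (Real.exp s) Z).re -
        M5l s C (GG ρ) Q (GV (B₀ * E2 κ X ^ 2)) ⌊(X : ℝ) ^ (6 * (3 * κ))⌋₊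
          ((X : ℝ) ^ (-(4 * (15 / 2 * κ)))) (Z * Real.exp (-s))| ≤ (X : ℝ) ^ (-(3 * κ)) := by
  obtain ⟨c₀, hG⟩ := Pool.Agent.LSP.gok_gg hρ
  obtain ⟨X₁, hX₁⟩ := pt_large h0
  obtain ⟨X₂, hX₂⟩ := tra2 hG (κ := 3 * κ) (κ₁ := 15 / 2 * κ) (by positivity) (by linarith)
    (by linarith)
  refine ⟨max ⌈X₁⌉₊ ⌈X₂⌉₊, fun X hX σ s Z hσ0 hσ1 hs0 hs1 hZ0 hZ1 Q C hQ hC => ?_⟩
  have hXa : X₁ ≤ X := by
    have : ⌈X₁⌉₊ ≤ X := (le_max_left _ _).trans hX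
    exact (Nat.le_ceil _).trans (by exact_mod_cast this)
  have hXb : X₂ ≤ X := by
    have : ⌈X₂⌉₊ ≤ X := (le_max_right _ _).trans hX
    exact (Nat.le_ceil _).trans (by exact_mod_cast this)
  obtain ⟨hX3, hL1, hX4⟩ := hX₁ X hXa
  have hX1 : (1 : ℝ) ≤ X := by linarith
  have hX0 : (0 : ℝ) < X := by linarith
  have hU1 : 1 ≤ 1 + T ^ 2 := by nlinarith [sq_nonneg T]
  have hB1 : (1 : ℝ) ≤ B₀ := hU1.trans hB
  have hXlog : ∀ r : ℝ, Real.exp (r * Real.log X) = (X : ℝ) ^ r := by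
    intro r
    rw [Real.rpow_def_of_pos hX0, mul_comm]
  -- the centre
  set W : ℝ := Z * Real.exp (-s) with hW
  have hZ0' : 0 < Z := by linarith
  have hW1 : (X : ℝ) ^ (1 - σ - 2 * κ) / 2 ≤ W := by
    have e1 : (X : ℝ) ^ (-(σ + 2 * κ)) ≤ Real.exp (-s) := by
      rw [← hXlog]
      apply Real.exp_le_exp.mpr
      linarith
    calc (X : ℝ) ^ (1 - σ - 2 * κ) / 2 = (X / 2) * (X : ℝ) ^ (-(σ + 2 * κ)) := by
          rw [show (1 - σ - 2 * κ : ℝ) = 1 + -(σ + 2 * κ) by ring, Real.rpow_add hX0,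
            Real.rpow_one]
          ring
      _ ≤ W := by
          rw [hW]
          gcongr
  have hW910 : (X : ℝ) ^ (9 / 10 : ℝ) ≤ W := by
    refine le_trans ?_ hW1
    rw [le_div_iff₀ (by norm_num)]
    calc (X : ℝ) ^ (9 / 10 : ℝ) * 2 ≤ (X : ℝ) ^ (9 / 10 : ℝ) * (X : ℝ) ^ κ := by
          apply mul_le_mul_of_nonneg_left _ (by positivity)
          linarith
      _ = (X : ℝ) ^ (9 / 10 + κ) := by rw [← Real.rpow_add hX0]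
      _ ≤ (X : ℝ) ^ (1 - σ - 2 * κ) := Real.rpow_le_rpow_of_exponent_le hX1 (by linarith)
  have hW12 : (X : ℝ) ^ (1 / 2 : ℝ) ≤ W :=
    (Real.rpow_le_rpow_of_exponent_le hX1 (by norm_num)).trans hW910
  have hs00 : 0 ≤ s := by
    have : 0 ≤ σ * Real.log X := by positivity
    linarith
  have hWZ : W ≤ 4 * X := by
    have : Real.exp (-s) ≤ 1 := Real.exp_le_one_iff.mpr (by linarith)
    rw [hW]
    nlinarith
  have hW2 : W ≤ (X : ℝ) ^ 2 := by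
    have e1 : (4 : ℝ) * X ≤ X ^ 2 := by
      have h4 : (X : ℝ) ^ κ ≤ (X : ℝ) ^ (1 : ℝ) :=
        Real.rpow_le_rpow_of_exponent_le hX1 (by linarith)
      rw [Real.rpow_one] at h4
      nlinarith
    linarith
  have hWp : 0 < W := (Real.rpow_pos_of_pos hX0 _).trans_le hW12
  have hW1' : 1 ≤ W := (Real.one_le_rpow hX1 (by norm_num)).trans hW12
  -- the parameters
  have hE : (X : ℝ) ^ (1 / 2 + 3 * κ) / 2 ≤ E2 κ X := by
    have h3 : (1 : ℝ) ≤ (X : ℝ) ^ (1 / 2 + 3 * κ) := Real.one_le_rpow hX1 (by linarith)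
    have h4 := Nat.lt_floor_add_one ((X : ℝ) ^ (1 / 2 + 3 * κ))
    have h5 : (2 : ℝ) ≤ (X : ℝ) ^ (1 / 2 + 3 * κ) := by
      calc (2 : ℝ) ≤ (X : ℝ) ^ κ := by linarith
        _ ≤ _ := Real.rpow_le_rpow_of_exponent_le hX1 (by linarith)
    unfold Pool.Agent.LSP.E2
    linarith
  have hE2 : (X : ℝ) ^ (1 + 6 * κ) / 4 ≤ (E2 κ X : ℝ) ^ 2 := by
    calc (X : ℝ) ^ (1 + 6 * κ) / 4 = ((X : ℝ) ^ (1 / 2 + 3 * κ) / 2) ^ 2 := by
          rw [div_pow, ← Real.rpow_natCast ((X : ℝ) ^ (1 / 2 + 3 * κ)) 2, ← Real.rpow_mul hX0.le]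
          norm_num
          congr 1
          ring
      _ ≤ (E2 κ X : ℝ) ^ 2 := by
          apply pow_le_pow_left₀ (by positivity) hE
  have hQE : Q ≤ E2 κ X ^ 2 := by
    have h3 : (Q : ℝ) ≤ ((E2 κ X ^ 2 : ℕ) : ℝ) := by
      push_cast
      refine hQ.trans (le_trans ?_ hE2)
      rw [le_div_iff₀ (by norm_num)]
      calc (X : ℝ) ^ (1 - σ + 3 * κ) * 4 ≤ (X : ℝ) ^ (1 - σ + 3 * κ) * (X : ℝ) ^ κ := by
            gcongr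
        _ = (X : ℝ) ^ (1 - σ + 3 * κ + κ) := by rw [← Real.rpow_add hX0]
        _ ≤ (X : ℝ) ^ (1 + 6 * κ) := Real.rpow_le_rpow_of_exponent_le hX1 (by linarith)
    exact_mod_cast h3
  have hQW : (Q : ℝ) ≤ W * (X : ℝ) ^ (101 / 50 * (3 * κ)) := by
    refine hQ.trans ?_
    calc (X : ℝ) ^ (1 - σ + 3 * κ) ≤
        (X : ℝ) ^ (1 - σ - 2 * κ) * ((X : ℝ) ^ (101 / 50 * (3 * κ)) / (X : ℝ) ^ κ) := by
          rw [← Real.rpow_sub hX0, ← Real.rpow_add hX0]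
          exact Real.rpow_le_rpow_of_exponent_le hX1 (by linarith)
      _ ≤ (X : ℝ) ^ (1 - σ - 2 * κ) * ((X : ℝ) ^ (101 / 50 * (3 * κ)) / 2) := by
          have h3 : (2 : ℝ) ≤ (X : ℝ) ^ κ := by linarith
          gcongr
      _ = (X : ℝ) ^ (1 - σ - 2 * κ) / 2 * (X : ℝ) ^ (101 / 50 * (3 * κ)) := by ring
      _ ≤ W * (X : ℝ) ^ (101 / 50 * (3 * κ)) := by gcongr
  have hbd : ∀ n, 1 ≤ n → |C n| ≤ (X : ℝ) ^ (3 * κ / 100) / n := by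
    intro n hn
    refine (hC.bdd n).trans ?_
    have hn0 : (0 : ℝ) < n := by exact_mod_cast hn
    apply div_le_div_of_nonneg_right _ hn0.le
    exact Real.rpow_le_rpow_of_exponent_le hX1 (by linarith)
  have hR0 : (X : ℝ) ^ (6 * (3 * κ)) / 2 ≤ (⌊(X : ℝ) ^ (6 * (3 * κ))⌋₊ : ℕ) := by
    have h3 : (2 : ℝ) ≤ (X : ℝ) ^ (6 * (3 * κ)) := by
      calc (2 : ℝ) ≤ (X : ℝ) ^ κ := by linarith
        _ ≤ _ := Real.rpow_le_rpow_of_exponent_le hX1 (by linarith)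
    have h4 := Nat.lt_floor_add_one ((X : ℝ) ^ (6 * (3 * κ)))
    linarith
  have hR1 : ((⌊(X : ℝ) ^ (6 * (3 * κ))⌋₊ : ℕ) : ℝ) ≤ (X : ℝ) ^ (6 * (3 * κ)) :=
    Nat.floor_le (by positivity)
  have hRR : ⌊(X : ℝ) ^ (6 * (3 * κ))⌋₊ ≤ R2 κ X := by
    unfold Pool.Agent.LSP.R2
    apply Nat.floor_le_floor
    exact Real.rpow_le_rpow_of_exponent_le hX1 (by linarith)
  have hR2 : (R2 κ X : ℝ) ≤ (X : ℝ) ^ (1 / 10 : ℝ) := by
    unfold Pool.Agent.LSP.R2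
    refine (Nat.floor_le (by positivity)).trans ?_
    exact Real.rpow_le_rpow_of_exponent_le hX1 (by linarith)
  refine ⟨hW12, hW2, ⟨hQW, hbd, hC.zero, ?_⟩, ?_, ?_⟩
  · intro c z₁ z₂ hc1 hcR hz
    have hcX : (c : ℝ) ≤ (X : ℝ) ^ (20 * κ) := by
      have h3 : (c : ℝ) ≤ (⌊(X : ℝ) ^ (6 * (3 * κ))⌋₊ : ℕ) := by exact_mod_cast hcR
      refine h3.trans (hR1.trans ?_)
      exact Real.rpow_le_rpow_of_exponent_le hX1 (by linarith)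
    have hz1 : (X : ℝ) ^ (9 / 20 : ℝ) ≤ z₁ := by
      refine le_trans ?_ hz
      calc (X : ℝ) ^ (9 / 20 : ℝ) = ((X : ℝ) ^ (9 / 10 : ℝ)) ^ (1 / 2 : ℝ) := by
            rw [← Real.rpow_mul hX0.le]; norm_num
        _ ≤ W ^ (1 / 2 : ℝ) := Real.rpow_le_rpow (by positivity) hW910 (by norm_num)
    refine (hC.mob c z₁ z₂ hc1 hcX hz1).trans ?_
    have hτ : 0 ≤ tau c ^ B := by
      have : 0 ≤ tau c := by unfold Pool.Agent.LSP.tau; positivity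
      positivity
    have hLp : 0 < Real.log X := by linarith
    apply div_le_div_of_nonneg_left hτ (by positivity)
    exact pow_le_pow_right₀ hL1 hBB
  · have h3 : (Q : ℝ) ≤ (E2 κ X : ℝ) ^ 2 := by exact_mod_cast hQE
    have h4 : (0 : ℝ) ≤ (E2 κ X : ℝ) ^ 2 := by positivity
    push_cast
    calc (1 + T ^ 2) * (Q : ℝ) ≤ B₀ * (E2 κ X : ℝ) ^ 2 := by
          apply mul_le_mul hB h3 (Nat.cast_nonneg _) (by linarith)
      _ ≤ B₀ * (E2 κ X : ℝ) ^ 2 * W := by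
          have : 0 ≤ (B₀ : ℝ) * (E2 κ X : ℝ) ^ 2 := by positivity
          nlinarith
  · have hexp : Real.exp s ≤ (X : ℝ) ^ (σ + 2 * κ) := by
      rw [← hXlog]
      exact Real.exp_le_exp.mpr hs1
    have hDl : 2 * Real.sqrt ((1 + (1 + T ^ 2)) * (Real.exp s * Q)) ≤
        ((2 * (B₀ + 1) * E2 κ X : ℕ) : ℝ) := by
      have h3 : Real.sqrt ((1 + (1 + T ^ 2)) * (Real.exp s * Q)) ≤ (B₀ + 1) * (E2 κ X : ℝ) := by
        apply Real.sqrt_le_iff.mpr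
        refine ⟨by positivity, ?_⟩
        have h4 : (1 + (1 + T ^ 2)) * (Real.exp s * Q) ≤
            (B₀ + 1) * ((X : ℝ) ^ (σ + 2 * κ) * (X : ℝ) ^ (1 - σ + 3 * κ)) := by
          have : 1 + (1 + T ^ 2) ≤ (B₀ : ℝ) + 1 := by linarith
          gcongr
        have h5 : (X : ℝ) ^ (σ + 2 * κ) * (X : ℝ) ^ (1 - σ + 3 * κ) =
            (X : ℝ) ^ (1 + 5 * κ) := by
          rw [← Real.rpow_add hX0]; congr 1; ring
        have h6 : (X : ℝ) ^ (1 + 5 * κ) ≤ (E2 κ X : ℝ) ^ 2 := by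
          refine le_trans ?_ hE2
          rw [le_div_iff₀ (by norm_num)]
          calc (X : ℝ) ^ (1 + 5 * κ) * 4 ≤ (X : ℝ) ^ (1 + 5 * κ) * (X : ℝ) ^ κ := by gcongr
            _ = (X : ℝ) ^ (1 + 6 * κ) := by rw [← Real.rpow_add hX0]; congr 1; ring
        rw [h5] at h4
        refine h4.trans ?_
        have h7 : (0 : ℝ) ≤ (E2 κ X : ℝ) ^ 2 := by positivity
        calc ((B₀ : ℝ) + 1) * (X : ℝ) ^ (1 + 5 * κ) ≤ ((B₀ : ℝ) + 1) * (E2 κ X : ℝ) ^ 2 := by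
              gcongr
          _ ≤ ((B₀ + 1) * (E2 κ X : ℝ)) ^ 2 := by
              rw [mul_pow]
              apply mul_le_mul_of_nonneg_right _ h7
              nlinarith
      push_cast
      linarith
    have hZs : Z / Real.exp s = W := by
      rw [hW, Real.exp_neg]
      rfl
    have e1 := psik_re hG (S := Gs B₀ (E2 κ X)) (Dl := 2 * (B₀ + 1) * E2 κ X) (R := R2 κ X)
      (s := Real.exp s) (Z := Z) hC.supp hQE
      (Real.rpow_pos_of_pos hX0 (-(4 * (15 / 2 * κ)))) (Real.exp_pos s) hDl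
    rw [hZs] at e1
    rw [e1]
    have e2 := hX₂ X hXb W hW12 hW2 Q C hQW hbd (GV (B₀ * E2 κ X ^ 2)) (GV_zero _)
      ⌊(X : ℝ) ^ (6 * (3 * κ))⌋₊ (R2 κ X) hR0 hR1 hRR hR2 (Real.exp s)
      (Real.one_le_exp hs00) (by
        refine hexp.trans ?_
        rw [← Real.rpow_natCast]
        exact Real.rpow_le_rpow_of_exponent_le hX1 (by push_cast; linarith))
    rw [Real.log_exp] at e2
    exact e2

end Pool.Agent.LSPP
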