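import Pool.Agent.Lib_helper71.LSPM2.DEF3

/-! LSP2, part M2, block SQA: the sum of the squares for `∑ θ_p T_p y`. -/

namespace Pool.Agent.LSP

open Pool.Agent.LEV Pool.Agent.LVB Pool.Agent.KSL
open Pool.Agent.FG61 (mu phi cc ff AA Lam)

/-- the weights of `∑ θ_p T_p y` -/
theorem wd_VZ_pr (B : ℕ) (P : Finset ℕ) (θ V : ℕ → ℝ) (q : ℕ) :
    wd B (VZ P θ V) q = ∑ p ∈ P, θ p * wd B (VT p V) q ∧
    wd B (lg (VZ P θ V)) q = ∑ p ∈ P, θ p * wd B (lg (VT p V)) q := by
  constructor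
  · unfold wd
    simp_rw [Finset.mul_sum]
    rw [Finset.sum_comm]
    refine Finset.sum_congr rfl fun d _ => ?_
    split_ifs with h
    · rfl
    · simp
  · unfold wd
    simp_rw [Finset.mul_sum]
    rw [Finset.sum_comm]
    refine Finset.sum_congr rfl fun d _ => ?_
    split_ifs with h
    · unfold lg VZ
      rw [Finset.sum_mul]
      exact Finset.sum_congr rfl fun p _ => by ring
    · simp

theorem sqa_phi_pos {q : ℕ} (hq : 1 ≤ q) : 0 < phi q := by
  unfold phi
  exact_mod_cast Nat.totient_pos.2 (by omega)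

theorem sqa_inj {R : Set ℕ} [DecidablePred (· ∈ R)] (hR0 : 0 ∉ R) {Y : ℕ}
    (hRY : ∀ m ∈ R, m ≤ Y) (B : ℕ) {k : ℕ} (_hk : 1 ≤ k) :
    ∑ q ∈ Finset.Icc 1 B, (if k ∣ q ∧ q / k ∈ R then 1 / phi (q / k) else 0) ≤
      ∑ m ∈ (Finset.Icc 1 Y).filter (· ∈ R), 1 / phi m := by
  rw [← Finset.sum_filter]
  have h1 : ∑ q ∈ (Finset.Icc 1 B).filter (fun q => k ∣ q ∧ q / k ∈ R), 1 / phi (q / k) =
      ∑ m ∈ ((Finset.Icc 1 B).filter (fun q => k ∣ q ∧ q / k ∈ R)).image (fun q => q / k),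
        1 / phi m := by
    rw [Finset.sum_image]
    intro a ha b hb hab
    simp only [Finset.coe_filter, Set.mem_ofPred_eq] at ha hb
    simp only at hab
    rw [← Nat.div_mul_cancel ha.2.1, ← Nat.div_mul_cancel hb.2.1, hab]
  rw [h1]
  refine Finset.sum_le_sum_of_subset_of_nonneg ?_ fun m _ _ => ?_
  · intro m hm
    rw [Finset.mem_image] at hm
    obtain ⟨q, hq, rfl⟩ := hm
    rw [Finset.mem_filter, Finset.mem_Icc] at hq
    rw [Finset.mem_filter, Finset.mem_Icc]
    refine ⟨⟨?_, hRY _ hq.2.2⟩, hq.2.2⟩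
    rw [Nat.one_le_iff_ne_zero]
    intro h
    exact hR0 (h ▸ hq.2.2)
  · unfold phi
    positivity

theorem sqa_phi_mul_le {p : ℕ} (hp : p.Prime) (m : ℕ) : phi (p * m) ≤ p * phi m := by
  unfold phi
  have : (p * m).totient ≤ p * m.totient := by
    by_cases h : p ∣ m
    · rw [Nat.totient_mul_of_prime_of_dvd hp h]
    · rw [Nat.totient_mul_of_prime_of_not_dvd hp h]
      exact Nat.mul_le_mul_right _ (Nat.sub_le _ _)
  exact_mod_cast this

theorem sqa_phi_mul_ge {p : ℕ} (hp : p.Prime) (m : ℕ) : (p : ℝ) / 2 * phi m ≤ phi (p * m) := by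
  have h2 := hp.two_le
  have h3 : (p - 1) * m.totient ≤ (p * m).totient := by
    by_cases h : p ∣ m
    · rw [Nat.totient_mul_of_prime_of_dvd hp h]
      exact Nat.mul_le_mul_right _ (Nat.sub_le _ _)
    · rw [Nat.totient_mul_of_prime_of_not_dvd hp h]
  have h4 : (((p - 1 : ℕ) : ℝ)) * phi m ≤ phi (p * m) := by
    unfold phi
    exact_mod_cast h3
  have h5 : (p : ℝ) / 2 ≤ ((p - 1 : ℕ) : ℝ) := by
    rw [Nat.cast_sub (by omega)]
    have : (2 : ℝ) ≤ p := by exact_mod_cast h2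
    push_cast
    linarith
  have h6 : 0 ≤ phi m := by unfold phi; positivity
  exact (mul_le_mul_of_nonneg_right h5 h6).trans h4

/-- the correlation of two primes -/
theorem sqa_T {R : Set ℕ} [DecidablePred (· ∈ R)] (hR : ∀ m ∈ R, ∀ d, d ∣ m → d ∈ R)
    (hR0 : 0 ∉ R) {Y : ℕ} (hRY : ∀ m ∈ R, m ≤ Y) (B : ℕ) {p p' : ℕ} (hp : p.Prime)
    (hp' : p'.Prime) :
    ∑ q ∈ Finset.Icc 1 B, phi q * ((if p ∣ q ∧ q / p ∈ R then 1 / phi (q / p) else 0) *
      (if p' ∣ q ∧ q / p' ∈ R then 1 / phi (q / p') else 0)) ≤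
      (if p = p' then (p : ℝ) * ∑ m ∈ (Finset.Icc 1 Y).filter (· ∈ R), 1 / phi m else 0) +
        4 * ∑ m ∈ (Finset.Icc 1 Y).filter (· ∈ R), 1 / phi m := by
  have hS : 0 ≤ ∑ m ∈ (Finset.Icc 1 Y).filter (· ∈ R), 1 / phi m :=
    Finset.sum_nonneg fun m _ => by unfold phi; positivity
  split_ifs with h
  · subst h
    have h1 := sqa_inj hR0 hRY B hp.one_lt.le
    have h2 : ∑ q ∈ Finset.Icc 1 B, phi q * ((if p ∣ q ∧ q / p ∈ R then 1 / phi (q / p) else 0) *
        (if p ∣ q ∧ q / p ∈ R then 1 / phi (q / p) else 0)) ≤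
        ∑ q ∈ Finset.Icc 1 B, (p : ℝ) * (if p ∣ q ∧ q / p ∈ R then 1 / phi (q / p) else 0) := by
      refine Finset.sum_le_sum fun q hq => ?_
      rw [Finset.mem_Icc] at hq
      split_ifs with hc
      · obtain ⟨m, rfl⟩ := hc.1
        rw [Nat.mul_div_cancel_left m hp.pos]
        have hm : 1 ≤ m := by
          rw [Nat.one_le_iff_ne_zero]
          rintro rfl
          omega
        have h3 := sqa_phi_pos hm
        have h4 := sqa_phi_mul_le hp m
        rw [show phi (p * m) * (1 / phi m * (1 / phi m)) = phi (p * m) / phi m * (1 / phi m) by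
          field_simp]
        refine mul_le_mul_of_nonneg_right ?_ (by positivity)
        rw [div_le_iff₀ h3]
        exact h4
      · simp
    rw [← Finset.mul_sum] at h2
    have h3 : (p : ℝ) * ∑ q ∈ Finset.Icc 1 B, (if p ∣ q ∧ q / p ∈ R then 1 / phi (q / p) else 0) ≤
        p * ∑ m ∈ (Finset.Icc 1 Y).filter (· ∈ R), 1 / phi m :=
      mul_le_mul_of_nonneg_left h1 (Nat.cast_nonneg _)
    linarith
  · have hk : 1 ≤ p * p' := Nat.mul_pos hp.pos hp'.pos
    have h1 := sqa_inj hR0 hRY B hk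
    have h2 : ∑ q ∈ Finset.Icc 1 B, phi q * ((if p ∣ q ∧ q / p ∈ R then 1 / phi (q / p) else 0) *
        (if p' ∣ q ∧ q / p' ∈ R then 1 / phi (q / p') else 0)) ≤
        ∑ q ∈ Finset.Icc 1 B, 4 * (if p * p' ∣ q ∧ q / (p * p') ∈ R then
          1 / phi (q / (p * p')) else 0) := by
      refine Finset.sum_le_sum fun q hq => ?_
      rw [Finset.mem_Icc] at hq
      by_cases hc : p ∣ q ∧ q / p ∈ R
      · by_cases hc' : p' ∣ q ∧ q / p' ∈ R
        · have hd : p * p' ∣ q :=
            Nat.Coprime.mul_dvd_of_dvd_of_dvd ((Nat.coprime_primes hp hp').2 h) hc.1 hc'.1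
          obtain ⟨m, rfl⟩ := hd
          have hm : 1 ≤ m := by
            rw [Nat.one_le_iff_ne_zero]
            rintro rfl
            omega
          have e1 : p * p' * m / p = p' * m := by
            rw [mul_assoc, Nat.mul_div_cancel_left _ hp.pos]
          have e2 : p * p' * m / p' = p * m := by
            rw [mul_comm p p', mul_assoc, Nat.mul_div_cancel_left _ hp'.pos]
          have e3 : p * p' * m / (p * p') = m := Nat.mul_div_cancel_left _ hk
          rw [if_pos hc, if_pos hc', e1, e2, e3]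
          have hmR : m ∈ R := by
            refine hR _ hc.2 m ?_
            rw [e1]
            exact Dvd.intro_left _ rfl
          rw [if_pos ⟨Dvd.intro _ rfl, hmR⟩]
          have h3 := sqa_phi_pos hm
          have h4 : phi (p * p' * m) ≤ p * (p' * phi m) := by
            rw [mul_assoc]
            exact (sqa_phi_mul_le hp _).trans
              (mul_le_mul_of_nonneg_left (sqa_phi_mul_le hp' m) (Nat.cast_nonneg _))
          have h5 := sqa_phi_mul_ge hp m
          have h6 := sqa_phi_mul_ge hp' m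
          have hp0 : (0 : ℝ) < p := by exact_mod_cast hp.pos
          have hp0' : (0 : ℝ) < p' := by exact_mod_cast hp'.pos
          have h7 : 0 < phi (p * m) := lt_of_lt_of_le (by positivity) h5
          have h8 : 0 < phi (p' * m) := lt_of_lt_of_le (by positivity) h6
          calc phi (p * p' * m) * (1 / phi (p' * m) * (1 / phi (p * m)))
              ≤ (p * (p' * phi m)) * (1 / ((p' : ℝ) / 2 * phi m) * (1 / ((p : ℝ) / 2 * phi m))) := by
                refine mul_le_mul h4 ?_ (by positivity) (by positivity)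
                exact mul_le_mul (one_div_le_one_div_of_le (by positivity) h6)
                  (one_div_le_one_div_of_le (by positivity) h5) (by positivity) (by positivity)
            _ = 4 * (1 / phi m) := by
                field_simp
                ring
        · rw [if_neg hc', mul_zero, mul_zero]
          split_ifs
          · unfold phi
            positivity
          · simp
      · rw [if_neg hc, zero_mul, mul_zero]
        split_ifs
        · unfold phi
          positivity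
        · simp
    rw [← Finset.mul_sum] at h2
    linarith

/-- the sum of the squares for `∑ θ_p T_p y`; `R` = a set of positive integers closed under
divisors -/
theorem sq_sum_pr {R : Set ℕ} [DecidablePred (· ∈ R)] (hR : ∀ m ∈ R, ∀ d, d ∣ m → d ∈ R)
    (hR0 : 0 ∉ R) {Y : ℕ} (hRY : ∀ m ∈ R, m ≤ Y) {K : ℝ} (hK : 0 ≤ K) {P : Finset ℕ}
    (hP : ∀ p ∈ P, p.Prime) (θ : ℕ → ℝ) (B : ℕ) (D : ℕ → ℕ → ℝ)
    (hD : ∀ p ∈ P, ∀ q, 1 ≤ q → |D p q| ≤ K * (4 / p * (if q ∈ R then 1 / phi q else 0) +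
      if p ∣ q ∧ q / p ∈ R then 1 / (p * phi (q / p)) else 0)) :
    ∑ q ∈ Finset.Icc 1 B, phi q * (∑ p ∈ P, θ p * D p q) ^ 2 ≤
      40 * K ^ 2 * (∑ m ∈ (Finset.Icc 1 Y).filter (· ∈ R), 1 / phi m) * Th P θ := by
  set S : ℝ := ∑ m ∈ (Finset.Icc 1 Y).filter (· ∈ R), 1 / phi m with hSdef
  have hS : 0 ≤ S := Finset.sum_nonneg fun m _ => by unfold phi; positivity
  set Θ : ℝ := ∑ p ∈ P, |θ p| / p with hΘ
  set g : ℕ → ℕ → ℝ := fun p q => if p ∣ q ∧ q / p ∈ R then 1 / phi (q / p) else 0 with hg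
  -- pointwise
  have h1 : ∀ q ∈ Finset.Icc 1 B, phi q * (∑ p ∈ P, θ p * D p q) ^ 2 ≤
      K ^ 2 * (32 * Θ ^ 2 * (if q ∈ R then 1 / phi q else 0) +
        2 * (phi q * (∑ p ∈ P, |θ p| / p * g p q) ^ 2)) := by
    intro q hq
    rw [Finset.mem_Icc] at hq
    have hφ := sqa_phi_pos hq.1
    have h2 : |∑ p ∈ P, θ p * D p q| ≤
        K * (4 * Θ * (if q ∈ R then 1 / phi q else 0) + ∑ p ∈ P, |θ p| / p * g p q) := by
      calc |∑ p ∈ P, θ p * D p q| ≤ ∑ p ∈ P, |θ p * D p q| := Finset.abs_sum_le_sum_abs _ _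
        _ ≤ ∑ p ∈ P, K * (4 * (|θ p| / p) * (if q ∈ R then 1 / phi q else 0) +
              |θ p| / p * g p q) := by
            refine Finset.sum_le_sum fun p hp => ?_
            rw [abs_mul]
            refine (mul_le_mul_of_nonneg_left (hD p hp q hq.1) (abs_nonneg _)).trans (le_of_eq ?_)
            have e1 : (if p ∣ q ∧ q / p ∈ R then 1 / ((p : ℝ) * phi (q / p)) else 0) =
                1 / p * g p q := by
              simp only [hg]
              split_ifs with hc
              · rw [one_div_mul_one_div]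
              · simp
            rw [e1]
            ring
        _ = _ := by
            rw [← Finset.mul_sum, Finset.sum_add_distrib, ← Finset.sum_mul, ← Finset.mul_sum]
    have h3 : (∑ p ∈ P, θ p * D p q) ^ 2 ≤
        (K * (4 * Θ * (if q ∈ R then 1 / phi q else 0) + ∑ p ∈ P, |θ p| / p * g p q)) ^ 2 := by
      rw [← sq_abs (∑ p ∈ P, θ p * D p q)]
      exact pow_le_pow_left₀ (abs_nonneg _) h2 2
    refine (mul_le_mul_of_nonneg_left h3 hφ.le).trans ?_
    have h4 : phi q * (4 * Θ * (if q ∈ R then 1 / phi q else 0)) ^ 2 =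
        16 * Θ ^ 2 * (if q ∈ R then 1 / phi q else 0) := by
      split_ifs with hc
      · field_simp
        ring
      · simp
    have h5 : ∀ a b : ℝ, (a + b) ^ 2 ≤ 2 * a ^ 2 + 2 * b ^ 2 := fun a b => by
      nlinarith [sq_nonneg (a - b)]
    have h6 := mul_le_mul_of_nonneg_left (h5 (4 * Θ * (if q ∈ R then 1 / phi q else 0))
      (∑ p ∈ P, |θ p| / p * g p q)) hφ.le
    rw [mul_pow]
    calc phi q * (K ^ 2 * (4 * Θ * (if q ∈ R then 1 / phi q else 0) +
          ∑ p ∈ P, |θ p| / p * g p q) ^ 2)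
        = K ^ 2 * (phi q * (4 * Θ * (if q ∈ R then 1 / phi q else 0) +
          ∑ p ∈ P, |θ p| / p * g p q) ^ 2) := by ring
      _ ≤ K ^ 2 * (phi q * (2 * (4 * Θ * (if q ∈ R then 1 / phi q else 0)) ^ 2 +
          2 * (∑ p ∈ P, |θ p| / p * g p q) ^ 2)) := mul_le_mul_of_nonneg_left h6 (sq_nonneg _)
      _ = K ^ 2 * (2 * (phi q * (4 * Θ * (if q ∈ R then 1 / phi q else 0)) ^ 2) +
          2 * (phi q * (∑ p ∈ P, |θ p| / p * g p q) ^ 2)) := by ring
      _ = _ := by
          rw [h4]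
          ring
  -- first part
  have h2 : ∑ q ∈ Finset.Icc 1 B, (if q ∈ R then 1 / phi q else 0) ≤ S := by
    have := sqa_inj hR0 hRY B (le_refl 1)
    rw [hSdef]
    simpa using this
  -- second part
  have h3 : ∑ q ∈ Finset.Icc 1 B, phi q * (∑ p ∈ P, |θ p| / p * g p q) ^ 2 ≤
      S * (∑ p ∈ P, θ p ^ 2 / p) + 4 * S * Θ ^ 2 := by
    have e1 : ∀ q ∈ Finset.Icc 1 B, phi q * (∑ p ∈ P, |θ p| / p * g p q) ^ 2 =
        ∑ p ∈ P, ∑ p' ∈ P, |θ p| / p * (|θ p'| / p') * (phi q * (g p q * g p' q)) := by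
      intro q _
      rw [sq, Finset.sum_mul_sum, Finset.mul_sum]
      refine Finset.sum_congr rfl fun p _ => ?_
      rw [Finset.mul_sum]
      exact Finset.sum_congr rfl fun p' _ => by ring
    rw [Finset.sum_congr rfl e1, Finset.sum_comm]
    have e2 : ∀ p ∈ P, ∑ q ∈ Finset.Icc 1 B, ∑ p' ∈ P,
        |θ p| / p * (|θ p'| / p') * (phi q * (g p q * g p' q)) ≤
        ∑ p' ∈ P, |θ p| / p * (|θ p'| / p') * ((if p = p' then (p : ℝ) * S else 0) + 4 * S) := by
      intro p hp
      rw [Finset.sum_comm]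
      refine Finset.sum_le_sum fun p' hp' => ?_
      rw [← Finset.mul_sum]
      exact mul_le_mul_of_nonneg_left (sqa_T hR hR0 hRY B (hP p hp) (hP p' hp')) (by positivity)
    refine (Finset.sum_le_sum e2).trans (le_of_eq ?_)
    have e3 : ∀ p ∈ P, ∑ p' ∈ P, |θ p| / p * (|θ p'| / p') *
        ((if p = p' then (p : ℝ) * S else 0) + 4 * S) =
        S * (θ p ^ 2 / p) + 4 * S * (|θ p| / p * Θ) := by
      intro p hp
      have hp0 : (0 : ℝ) < p := by exact_mod_cast (hP p hp).pos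
      simp_rw [mul_add]
      rw [Finset.sum_add_distrib]
      congr 1
      · simp_rw [mul_ite, mul_zero]
        rw [Finset.sum_ite_eq P p]
        rw [if_pos hp, ← sq_abs (θ p)]
        field_simp
      · rw [← Finset.sum_mul, ← Finset.mul_sum]
        ring
    rw [Finset.sum_congr rfl e3, Finset.sum_add_distrib, ← Finset.mul_sum, ← Finset.mul_sum,
      ← Finset.sum_mul, sq]
  have h4 : ∑ q ∈ Finset.Icc 1 B, phi q * (∑ p ∈ P, θ p * D p q) ^ 2 ≤
      K ^ 2 * (32 * Θ ^ 2 * S + 2 * (S * (∑ p ∈ P, θ p ^ 2 / p) + 4 * S * Θ ^ 2)) := by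
    refine (Finset.sum_le_sum h1).trans ?_
    rw [← Finset.mul_sum, Finset.sum_add_distrib, ← Finset.mul_sum, ← Finset.mul_sum]
    refine mul_le_mul_of_nonneg_left ?_ (sq_nonneg _)
    have h5 := mul_le_mul_of_nonneg_left h2 (show 0 ≤ 32 * Θ ^ 2 by positivity)
    linarith
  refine h4.trans ?_
  have h5 : 0 ≤ ∑ p ∈ P, θ p ^ 2 / (p : ℝ) := Finset.sum_nonneg fun p _ => by positivity
  unfold Th
  rw [← hΘ]
  have h6 : 0 ≤ K ^ 2 * (S * ∑ p ∈ P, θ p ^ 2 / (p : ℝ)) := by positivity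
  nlinarith [h6]

end Pool.Agent.LSP
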