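import Pool.Agent.Lib_helper15.LSP2.SQA

/-! LSP2, part M2, block SQA: from bounds for `V` to bounds for `T_p y`. -/

namespace Pool.Agent.LSP

open Pool.Agent.LEV Pool.Agent.LVB Pool.Agent.KSL
open Pool.Agent.FG61 (mu phi cc ff AA Lam)

/-- one prime without the logarithm, from the weights -/
theorem sqb_one {R : Set ℕ} [DecidablePred (· ∈ R)] (hR : ∀ m ∈ R, ∀ d, d ∣ m → d ∈ R)
    (hR0 : 0 ∉ R) {K : ℝ} (hK : 0 ≤ K) {w : ℕ → ℝ}
    (h1 : ∀ q, 1 ≤ q → |w q| ≤ K * if q ∈ R then 1 / phi q else 0) {p q : ℕ} (hp : p.Prime)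
    (hq : 1 ≤ q) :
    |w (p * q)| ≤ K * (2 / p * if q ∈ R then 1 / phi q else 0) ∧
    (p ∣ q → |w (q / p)| / p ≤ K * if p ∣ q ∧ q / p ∈ R then 1 / (p * phi (q / p)) else 0) := by
  have hp0 : (0 : ℝ) < p := by exact_mod_cast hp.pos
  constructor
  · refine (h1 (p * q) (Nat.mul_pos hp.pos hq)).trans ?_
    refine mul_le_mul_of_nonneg_left ?_ hK
    by_cases hc : p * q ∈ R
    · have hc' : q ∈ R := hR _ hc q (Dvd.intro_left _ rfl)
      rw [if_pos hc, if_pos hc']
      have h2 := sqa_phi_mul_ge hp q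
      have h3 := sqa_phi_pos hq
      calc 1 / phi (p * q) ≤ 1 / ((p : ℝ) / 2 * phi q) :=
            one_div_le_one_div_of_le (by positivity) h2
        _ = _ := by field_simp
    · rw [if_neg hc]
      split_ifs
      · unfold phi
        positivity
      · simp
  · intro hd
    have hq' : 1 ≤ q / p := Nat.div_pos (Nat.le_of_dvd hq hd) hp.pos
    have h2 := h1 _ hq'
    have h3 := sqa_phi_pos hq'
    rw [div_le_iff₀ hp0]
    refine h2.trans (le_of_eq ?_)
    by_cases hc : q / p ∈ R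
    · rw [if_pos hc, if_pos ⟨hd, hc⟩]
      field_simp
    · rw [if_neg hc, if_neg (fun h => hc h.2)]
      simp

/-- from bounds for `V` to bounds for `T_p y` -/
theorem VT_bound_fst {B B' : ℕ} {V : ℕ → ℝ} {R : Set ℕ}
    [DecidablePred (· ∈ R)] (hR : ∀ m ∈ R, ∀ d, d ∣ m → d ∈ R) (hR0 : 0 ∉ R) {K : ℝ}
    (hK : 0 ≤ K)
    (h1 : ∀ q, 1 ≤ q → |wd B V q| ≤ K * if q ∈ R then 1 / phi q else 0)
    {P : Finset ℕ} (hP : ∀ p ∈ P, p.Prime) (θ : ℕ → ℝ)
    (hw : ∀ p ∈ P, ∀ q : ℕ, 1 ≤ q → wd B' (VT p V) q =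
      if p ∣ q then wd B V (q / p) / p + wd B V (p * q)
      else 2 / p * wd B V q + (1 - 1 / p) * wd B V (p * q)) :
    QF B' phi (VZ P θ V) (VZ P θ V) ≤
      40 * K ^ 2 * (∑ m ∈ (Finset.Icc 1 B).filter (· ∈ R), 1 / phi m) * Th P θ := by
  classical
  -- replace `R` by `R ∩ [1, B]`
  set R' : Set ℕ := {m | m ∈ R ∧ m ≤ B} with hR'def
  have hRR : ∀ m ∈ R', ∀ d, d ∣ m → d ∈ R' := by
    intro m hm d hd
    have hm0 : 0 < m := by
      rw [Nat.pos_iff_ne_zero]
      rintro rfl
      exact hR0 hm.1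
    exact ⟨hR m hm.1 d hd, (Nat.le_of_dvd hm0 hd).trans hm.2⟩
  have hRR0 : 0 ∉ R' := fun h => hR0 h.1
  have hRB : ∀ m ∈ R', m ≤ B := fun m hm => hm.2
  have hsum : ∑ m ∈ (Finset.Icc 1 B).filter (· ∈ R'), 1 / phi m =
      ∑ m ∈ (Finset.Icc 1 B).filter (· ∈ R), 1 / phi m := by
    refine Finset.sum_congr ?_ fun _ _ => rfl
    ext m
    simp only [Finset.mem_filter, Finset.mem_Icc, hR'def, Set.mem_ofPred_eq]
    tauto
  have hz : ∀ (U : ℕ → ℝ) (q : ℕ), B < q → wd B U q = 0 := by
    intro U q hq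
    unfold wd
    refine Finset.sum_eq_zero fun d hd => ?_
    rw [Finset.mem_Icc] at hd
    rw [if_neg]
    intro h
    have := Nat.le_of_dvd (by omega) h
    omega
  have g1 : ∀ q, 1 ≤ q → |wd B V q| ≤ K * if q ∈ R' then 1 / phi q else 0 := by
    intro q hq
    by_cases hB : q ≤ B
    · refine (h1 q hq).trans (le_of_eq ?_)
      have : (q ∈ R') ↔ q ∈ R := by simp [hR'def, hB]
      simp only [this]
    · rw [hz V q (by omega), abs_zero]
      split_ifs
      · unfold phi
        positivity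
      · simp
  have hite : ∀ q : ℕ, 0 ≤ (if q ∈ R' then 1 / phi q else 0) := fun q => by
    split_ifs
    · unfold phi
      positivity
    · exact le_rfl
  have hite' : ∀ p q : ℕ, 0 ≤ (if p ∣ q ∧ q / p ∈ R' then 1 / (p * phi (q / p)) else 0) :=
    fun p q => by
      split_ifs
      · unfold phi
        positivity
      · exact le_rfl
  rw [← hsum]
  have h3 := sq_sum_pr hRR hRR0 hRB hK hP θ B' (fun p q => wd B' (VT p V) q) (by
    intro p hp q hq
    have hpp := hP p hp
    have hp0 : (0 : ℝ) < p := by exact_mod_cast hpp.pos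
    have hp1 : (1 : ℝ) / p ≤ 1 := by
      rw [div_le_one hp0]
      exact_mod_cast hpp.one_lt.le
    have hp1' : (0 : ℝ) < 1 / p := by positivity
    obtain ⟨a1, a2⟩ := sqb_one hRR hRR0 hK g1 hpp hq
    have a3 := g1 q hq
    rw [hw p hp q hq]
    by_cases hd : p ∣ q
    · rw [if_pos hd]
      have a4 := a2 hd
      have a5 : |wd B V (q / p) / p| = |wd B V (q / p)| / p := by
        rw [abs_div, abs_of_pos hp0]
      have a6 := abs_add_le (wd B V (q / p) / p) (wd B V (p * q))
      rw [a5] at a6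
      have a7 : K * (2 / p * if q ∈ R' then 1 / phi q else 0) ≤
          K * (4 / p * if q ∈ R' then 1 / phi q else 0) := by
        refine mul_le_mul_of_nonneg_left (mul_le_mul_of_nonneg_right ?_ (hite q)) hK
        exact div_le_div_of_nonneg_right (by norm_num) hp0.le
      rw [mul_add]
      linarith
    · rw [if_neg hd]
      have a6 := abs_add_le (2 / p * wd B V q) ((1 - 1 / p) * wd B V (p * q))
      have a7 : |2 / p * wd B V q| ≤ K * (2 / p * if q ∈ R' then 1 / phi q else 0) := by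
        rw [abs_mul, abs_of_pos (by positivity : (0 : ℝ) < 2 / p)]
        calc 2 / (p : ℝ) * |wd B V q| ≤ 2 / p * (K * if q ∈ R' then 1 / phi q else 0) :=
              mul_le_mul_of_nonneg_left a3 (by positivity)
          _ = _ := by ring
      have a8 : |(1 - 1 / p) * wd B V (p * q)| ≤
          K * (2 / p * if q ∈ R' then 1 / phi q else 0) := by
        rw [abs_mul, abs_of_nonneg (by linarith : (0 : ℝ) ≤ 1 - 1 / p)]
        calc (1 - 1 / (p : ℝ)) * |wd B V (p * q)| ≤ 1 * |wd B V (p * q)| :=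
              mul_le_mul_of_nonneg_right (by linarith) (abs_nonneg _)
          _ ≤ _ := by rw [one_mul]; exact a1
      have a9 : K * (4 / p * if q ∈ R' then 1 / phi q else 0) =
          K * (2 / p * if q ∈ R' then 1 / phi q else 0) +
          K * (2 / p * if q ∈ R' then 1 / phi q else 0) := by ring
      have a10 := mul_nonneg hK (hite' p q)
      rw [mul_add, a9]
      linarith)
  refine le_trans (le_of_eq ?_) h3
  unfold QF
  refine Finset.sum_congr rfl fun q _ => ?_
  rw [(wd_VZ_pr B' P θ V q).1, sq]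

/-- from bounds for `V` to bounds for `T_p y`, with the logarithm -/
theorem VT_bound_snd {B B' : ℕ} {V : ℕ → ℝ} {R : Set ℕ}
    [DecidablePred (· ∈ R)] (hR : ∀ m ∈ R, ∀ d, d ∣ m → d ∈ R) (hR0 : 0 ∉ R) {K K' : ℝ}
    (hK : 0 ≤ K) (hK' : 0 ≤ K')
    (h1 : ∀ q, 1 ≤ q → |wd B V q| ≤ K * if q ∈ R then 1 / phi q else 0)
    (h2 : ∀ q, 1 ≤ q → |wd B (lg V) q| ≤ K' * if q ∈ R then 1 / phi q else 0)
    {P : Finset ℕ} (hP : ∀ p ∈ P, p.Prime) (θ : ℕ → ℝ)
    (hl : ∀ p ∈ P, ∀ q : ℕ, 1 ≤ q → wd B' (lg (VT p V)) q =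
      if p ∣ q then (wd B (lg V) (q / p) + Real.log p * wd B V (q / p)) / p +
        (wd B (lg V) (p * q) - Real.log p * wd B V (p * q))
      else 2 / p * wd B (lg V) q + Real.log p / p * wd B V q +
        (1 - 1 / p) * wd B (lg V) (p * q) - Real.log p * wd B V (p * q)) :
    ∀ l : ℝ, (∀ p ∈ P, Real.log p ≤ l) →
      QF B' phi (lg (VZ P θ V)) (lg (VZ P θ V)) ≤
      40 * (2 * K' + 2 * l * K) ^ 2 * (∑ m ∈ (Finset.Icc 1 B).filter (· ∈ R), 1 / phi m) *
        Th P θ := by
  classical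
  -- replace `R` by `R ∩ [1, B]`
  set R' : Set ℕ := {m | m ∈ R ∧ m ≤ B} with hR'def
  have hRR : ∀ m ∈ R', ∀ d, d ∣ m → d ∈ R' := by
    intro m hm d hd
    have hm0 : 0 < m := by
      rw [Nat.pos_iff_ne_zero]
      rintro rfl
      exact hR0 hm.1
    exact ⟨hR m hm.1 d hd, (Nat.le_of_dvd hm0 hd).trans hm.2⟩
  have hRR0 : 0 ∉ R' := fun h => hR0 h.1
  have hRB : ∀ m ∈ R', m ≤ B := fun m hm => hm.2
  have hsum : ∑ m ∈ (Finset.Icc 1 B).filter (· ∈ R'), 1 / phi m =
      ∑ m ∈ (Finset.Icc 1 B).filter (· ∈ R), 1 / phi m := by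
    refine Finset.sum_congr ?_ fun _ _ => rfl
    ext m
    simp only [Finset.mem_filter, Finset.mem_Icc, hR'def, Set.mem_ofPred_eq]
    tauto
  have hz : ∀ (U : ℕ → ℝ) (q : ℕ), B < q → wd B U q = 0 := by
    intro U q hq
    unfold wd
    refine Finset.sum_eq_zero fun d hd => ?_
    rw [Finset.mem_Icc] at hd
    rw [if_neg]
    intro h
    have := Nat.le_of_dvd (by omega) h
    omega
  have g1 : ∀ q, 1 ≤ q → |wd B V q| ≤ K * if q ∈ R' then 1 / phi q else 0 := by
    intro q hq
    by_cases hB : q ≤ B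
    · refine (h1 q hq).trans (le_of_eq ?_)
      have : (q ∈ R') ↔ q ∈ R := by simp [hR'def, hB]
      simp only [this]
    · rw [hz V q (by omega), abs_zero]
      split_ifs
      · unfold phi
        positivity
      · simp
  have g2 : ∀ q, 1 ≤ q → |wd B (lg V) q| ≤ K' * if q ∈ R' then 1 / phi q else 0 := by
    intro q hq
    by_cases hB : q ≤ B
    · refine (h2 q hq).trans (le_of_eq ?_)
      have : (q ∈ R') ↔ q ∈ R := by simp [hR'def, hB]
      simp only [this]
    · rw [hz (lg V) q (by omega), abs_zero]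
      split_ifs
      · unfold phi
        positivity
      · simp
  have hite : ∀ q : ℕ, 0 ≤ (if q ∈ R' then 1 / phi q else 0) := fun q => by
    split_ifs
    · unfold phi
      positivity
    · exact le_rfl
  have hite' : ∀ p q : ℕ, 0 ≤ (if p ∣ q ∧ q / p ∈ R' then 1 / (p * phi (q / p)) else 0) :=
    fun p q => by
      split_ifs
      · unfold phi
        positivity
      · exact le_rfl
  rw [← hsum]
  intro l hlp
  rcases P.eq_empty_or_nonempty with hPe | ⟨p₀, hp₀⟩
  · subst hPe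
    have e1 : QF B' phi (lg (VZ ∅ θ V)) (lg (VZ ∅ θ V)) = 0 := by
      unfold QF
      refine Finset.sum_eq_zero fun q _ => ?_
      rw [(wd_VZ_pr B' ∅ θ V q).2]
      simp
    rw [e1]
    unfold Th
    simp
  have hl0 : 0 ≤ l := le_trans (Real.log_nonneg
    (by exact_mod_cast (hP p₀ hp₀).one_lt.le)) (hlp p₀ hp₀)
  have h3 := sq_sum_pr hRR hRR0 hRB (show 0 ≤ 2 * K' + 2 * l * K by positivity) hP θ B'
    (fun p q => wd B' (lg (VT p V)) q) (by
    intro p hp q hq
    have hpp := hP p hp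
    have hp0 : (0 : ℝ) < p := by exact_mod_cast hpp.pos
    have hp1 : (1 : ℝ) / p ≤ 1 := by
      rw [div_le_one hp0]
      exact_mod_cast hpp.one_lt.le
    have hp1' : (0 : ℝ) < 1 / p := by positivity
    have hlg0 : 0 ≤ Real.log p := Real.log_nonneg (by exact_mod_cast hpp.one_lt.le)
    have hlg := hlp p hp
    obtain ⟨a1, a2⟩ := sqb_one hRR hRR0 hK g1 hpp hq
    obtain ⟨b1, b2⟩ := sqb_one hRR hRR0 hK' g2 hpp hq
    have a3 := g1 q hq
    have b3 := g2 q hq
    have hI := hite q
    have hI' := hite' p q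
    set I : ℝ := (if q ∈ R' then 1 / phi q else 0) with hIdef
    set I' : ℝ := (if p ∣ q ∧ q / p ∈ R' then 1 / (p * phi (q / p)) else 0) with hI'def
    have c1 : |Real.log p * wd B V (p * q)| ≤ l * (K * (2 / p * I)) := by
      rw [abs_mul, abs_of_nonneg hlg0]
      exact mul_le_mul hlg a1 (abs_nonneg _) hl0
    have hlKI : 0 ≤ l * (K * (2 / p * I)) := by positivity
    have hKI : 0 ≤ K' * (2 / p * I) := by positivity
    rw [hl p hp q hq]
    by_cases hd : p ∣ q
    · rw [if_pos hd]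
      have a4 := a2 hd
      have b4 := b2 hd
      have c2 : |(wd B (lg V) (q / p) + Real.log p * wd B V (q / p)) / p| ≤
          K' * I' + l * (K * I') := by
        rw [add_div, mul_div_assoc]
        refine (abs_add_le _ _).trans (add_le_add ?_ ?_)
        · rw [abs_div, abs_of_pos hp0]
          exact b4
        · rw [abs_mul, abs_of_nonneg hlg0, abs_div, abs_of_pos hp0]
          exact mul_le_mul hlg a4 (by positivity) hl0
      have c3 : |wd B (lg V) (p * q) - Real.log p * wd B V (p * q)| ≤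
          K' * (2 / p * I) + l * (K * (2 / p * I)) :=
        (abs_sub _ _).trans (add_le_add b1 c1)
      refine (abs_add_le _ _).trans ((add_le_add c2 c3).trans ?_)
      have d1 : 0 ≤ K' * I' := by positivity
      have d2 : 0 ≤ l * (K * I') := by positivity
      have d3 : (2 * K' + 2 * l * K) * (4 / p * I + I') =
          4 * (K' * (2 / p * I)) + 4 * (l * (K * (2 / p * I))) + 2 * (K' * I') +
            2 * (l * (K * I')) := by ring
      rw [d3]
      linarith
    · rw [if_neg hd]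
      have c2 : |2 / p * wd B (lg V) q| ≤ K' * (2 / p * I) := by
        rw [abs_mul, abs_of_pos (by positivity : (0 : ℝ) < 2 / p)]
        calc 2 / (p : ℝ) * |wd B (lg V) q| ≤ 2 / p * (K' * I) :=
              mul_le_mul_of_nonneg_left b3 (by positivity)
          _ = _ := by ring
      have c3 : |Real.log p / p * wd B V q| ≤ l * (K * (2 / p * I)) := by
        rw [abs_mul, abs_of_nonneg (by positivity : (0 : ℝ) ≤ Real.log p / p)]
        calc Real.log p / (p : ℝ) * |wd B V q| ≤ l / p * (K * I) :=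
              mul_le_mul (div_le_div_of_nonneg_right hlg hp0.le) a3 (abs_nonneg _)
                (by positivity)
          _ = l * (K * (1 / p * I)) := by ring
          _ ≤ _ := by
            refine mul_le_mul_of_nonneg_left (mul_le_mul_of_nonneg_left
              (mul_le_mul_of_nonneg_right ?_ hI) hK) hl0
            exact div_le_div_of_nonneg_right (by norm_num) hp0.le
      have c4 : |(1 - 1 / p) * wd B (lg V) (p * q)| ≤ K' * (2 / p * I) := by
        rw [abs_mul, abs_of_nonneg (by linarith : (0 : ℝ) ≤ 1 - 1 / p)]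
        calc (1 - 1 / (p : ℝ)) * |wd B (lg V) (p * q)| ≤ 1 * |wd B (lg V) (p * q)| :=
              mul_le_mul_of_nonneg_right (by linarith) (abs_nonneg _)
          _ ≤ _ := by rw [one_mul]; exact b1
      refine (abs_sub _ _).trans ((add_le_add ((abs_add_le _ _).trans (add_le_add
        ((abs_add_le _ _).trans (add_le_add c2 c3)) c4)) c1).trans ?_)
      have d1 : 0 ≤ (2 * K' + 2 * l * K) * I' := by positivity
      have d3 : (2 * K' + 2 * l * K) * (4 / p * I + I') =
          4 * (K' * (2 / p * I)) + 4 * (l * (K * (2 / p * I))) +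
            (2 * K' + 2 * l * K) * I' := by ring
      rw [d3]
      linarith)
  refine le_trans (le_of_eq ?_) h3
  unfold QF
  refine Finset.sum_congr rfl fun q _ => ?_
  rw [(wd_VZ_pr B' P θ V q).2, sq]

end Pool.Agent.LSP
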