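import Pool.Agent.Lib_helper15.LSP2.SQB

/-! LSP2, part M2, block SQA: the absolute sums. -/

namespace Pool.Agent.LSP

open Pool.Agent.LEV Pool.Agent.LVB Pool.Agent.KSL
open Pool.Agent.FG61 (mu phi cc ff AA Lam)

theorem sqc_harm (B : ℕ) : ∑ m ∈ Finset.Icc 1 B, (1 : ℝ) / m ≤ 1 + Real.log B := by
  have h := harmonic_le_one_add_log B
  rw [harmonic_eq_sum_Icc] at h
  push_cast at h
  simpa using h

theorem sqc_phi (m : ℕ) (hm : 1 ≤ m) : 1 / phi m ≤ (m.divisors.card : ℝ) * (1 / m) := by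
  have h1 := sqa_phi_pos hm
  have hm0 : (0 : ℝ) < m := by exact_mod_cast hm
  have h2 : (m : ℝ) ≤ m.divisors.card * phi m := by
    have h3 : m ≤ m.divisors.card * m.totient := by
      calc m = ∑ d ∈ m.divisors, d.totient := (Nat.sum_totient m).symm
        _ ≤ ∑ d ∈ m.divisors, m.totient := by
            refine Finset.sum_le_sum fun d hd => ?_
            exact Nat.le_of_dvd (Nat.totient_pos.2 hm)
              (Nat.totient_dvd_of_dvd (Nat.dvd_of_mem_divisors hd))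
        _ = _ := by rw [Finset.sum_const, smul_eq_mul]
    unfold phi
    exact_mod_cast h3
  rw [mul_one_div, div_le_div_iff₀ h1 hm0, one_mul]
  exact h2

theorem sqc_inv_phi (B : ℕ) :
    ∑ m ∈ Finset.Icc 1 B, 1 / phi m ≤ (1 + Real.log B) ^ 2 := by
  have h1 : ∑ m ∈ Finset.Icc 1 B, 1 / phi m ≤
      ∑ m ∈ Finset.Icc 1 B, ∑ p ∈ m.divisorsAntidiagonal, (1 / (p.1 : ℝ)) * (1 / (p.2 : ℝ)) := by
    refine Finset.sum_le_sum fun m hm => ?_
    rw [Finset.mem_Icc] at hm
    refine (sqc_phi m hm.1).trans (le_of_eq ?_)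
    have e1 : ∀ p ∈ m.divisorsAntidiagonal, (1 / (p.1 : ℝ)) * (1 / (p.2 : ℝ)) = 1 / m := by
      intro p hp
      rw [one_div_mul_one_div, ← Nat.cast_mul, (Nat.mem_divisorsAntidiagonal.1 hp).1]
    rw [Finset.sum_congr rfl e1, Finset.sum_const, nsmul_eq_mul,
      ← Nat.map_div_right_divisors, Finset.card_map]
  refine h1.trans ?_
  rw [SPL_pairs B (fun m s => (1 / (m : ℝ)) * (1 / (s : ℝ)))]
  have h2 : ∑ m ∈ Finset.Icc 1 B, ∑ s ∈ Finset.Icc 1 B,
      (if m * s ≤ B then (1 / (m : ℝ)) * (1 / (s : ℝ)) else 0) ≤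
      ∑ m ∈ Finset.Icc 1 B, ∑ s ∈ Finset.Icc 1 B, (1 / (m : ℝ)) * (1 / (s : ℝ)) := by
    refine Finset.sum_le_sum fun m _ => Finset.sum_le_sum fun s _ => ?_
    split_ifs
    · exact le_rfl
    · positivity
  refine h2.trans ?_
  rw [← Finset.sum_mul_sum, sq]
  have h3 := sqc_harm B
  have h4 : 0 ≤ ∑ m ∈ Finset.Icc 1 B, (1 : ℝ) / m := Finset.sum_nonneg fun m _ => by positivity
  exact mul_le_mul h3 h3 h4 (h4.trans h3)

theorem sqc_wd {B : ℕ} {V : ℕ → ℝ} (h1 : ∀ d, |V d| ≤ 1 / d) {q : ℕ} (hq : 1 ≤ q) :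
    wd B (fun d => |V d|) q ≤ (1 + Real.log B) * (1 / phi q) := by
  have hq0 : (0 : ℝ) < q := by exact_mod_cast hq
  have e1 : wd B (fun d => |V d|) q ≤
      ∑ d ∈ Finset.Icc 1 B, (if q ∣ d then (1 : ℝ) / d else 0) := by
    unfold wd
    refine Finset.sum_le_sum fun d _ => ?_
    split_ifs
    · exact h1 d
    · exact le_rfl
  have e2 : ∑ d ∈ Finset.Icc 1 B, (if q ∣ d then (1 : ℝ) / d else 0) ≤
      ∑ m ∈ Finset.Icc 1 B, (1 / (q : ℝ)) * (1 / m) := by
    rw [← Finset.sum_filter]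
    have e3 : ∑ d ∈ (Finset.Icc 1 B).filter (fun d => q ∣ d), (1 : ℝ) / d =
        ∑ m ∈ ((Finset.Icc 1 B).filter (fun d => q ∣ d)).image (fun d => d / q),
          (1 / (q : ℝ)) * (1 / m) := by
      rw [Finset.sum_image]
      · refine Finset.sum_congr rfl fun d hd => ?_
        rw [Finset.mem_filter] at hd
        rw [one_div_mul_one_div, ← Nat.cast_mul, Nat.mul_div_cancel' hd.2]
      · intro a ha b hb hab
        simp only [Finset.coe_filter, Set.mem_ofPred_eq] at ha hb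
        simp only at hab
        rw [← Nat.div_mul_cancel ha.2, ← Nat.div_mul_cancel hb.2, hab]
    rw [e3]
    refine Finset.sum_le_sum_of_subset_of_nonneg ?_ fun m _ _ => by positivity
    intro m hm
    rw [Finset.mem_image] at hm
    obtain ⟨d, hd, rfl⟩ := hm
    rw [Finset.mem_filter, Finset.mem_Icc] at hd
    rw [Finset.mem_Icc]
    exact ⟨Nat.div_pos (Nat.le_of_dvd hd.1.1 hd.2) hq, (Nat.div_le_self _ _).trans hd.1.2⟩
  have e4 : ∑ m ∈ Finset.Icc 1 B, (1 / (q : ℝ)) * (1 / m) ≤ (1 / phi q) * (1 + Real.log B) := by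
    rw [← Finset.mul_sum]
    have h5 := sqa_phi_pos hq
    have h6 : phi q ≤ q := by
      unfold phi
      exact_mod_cast Nat.totient_le q
    exact mul_le_mul (one_div_le_one_div_of_le h5 h6) (sqc_harm B)
      (Finset.sum_nonneg fun m _ => by positivity) (by positivity)
  linarith

theorem sqc_aV (B : ℕ) (V : ℕ → ℝ) :
    aV B V = QF B phi (fun d => |V d|) (fun d => |V d|) := by
  rw [← QF_gcd]
  rfl

theorem aV_one_pr {z B : ℕ} {V : ℕ → ℝ} (hB : 2 ≤ B) (_hV : RVec z B V) (h1 : ∀ d, |V d| ≤ 1 / d) :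
    aV B V ≤ 10 ^ 5 * Real.log B ^ 10 := by
  rw [sqc_aV]
  have hB2 : (2 : ℝ) ≤ B := by exact_mod_cast hB
  have hL : (0.69 : ℝ) ≤ Real.log B := by
    have := Real.log_two_gt_d9
    have h2 := Real.log_le_log (by norm_num : (0 : ℝ) < 2) hB2
    linarith
  set L : ℝ := Real.log B with hLd
  have h3 : QF B phi (fun d => |V d|) (fun d => |V d|) ≤
      ∑ q ∈ Finset.Icc 1 B, (1 + L) ^ 2 * (1 / phi q) := by
    unfold QF
    refine Finset.sum_le_sum fun q hq => ?_
    rw [Finset.mem_Icc] at hq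
    have h4 := sqc_wd (B := B) h1 hq.1
    have h5 : 0 ≤ wd B (fun d => |V d|) q := by
      unfold wd
      refine Finset.sum_nonneg fun d _ => ?_
      split_ifs
      · exact abs_nonneg _
      · exact le_rfl
    have h6 := sqa_phi_pos hq.1
    calc phi q * (wd B (fun d => |V d|) q * wd B (fun d => |V d|) q)
        ≤ phi q * (((1 + L) * (1 / phi q)) * ((1 + L) * (1 / phi q))) :=
          mul_le_mul_of_nonneg_left (mul_le_mul h4 h4 h5 (h5.trans h4)) h6.le
      _ = _ := by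
        field_simp
  rw [← Finset.mul_sum] at h3
  have h4 := mul_le_mul_of_nonneg_left (sqc_inv_phi B) (sq_nonneg (1 + L))
  rw [← hLd] at h4
  have h5 : 1 + L ≤ 5 / 2 * L := by linarith
  have h6 : (1 + L) ^ 4 ≤ (5 / 2 * L) ^ 4 := pow_le_pow_left₀ (by linarith) h5 4
  have h7 : (1 / 2 : ℝ) ^ 6 ≤ L ^ 6 := pow_le_pow_left₀ (by norm_num) (by linarith) 6
  have h8 : 0 ≤ L ^ 4 := by positivity
  have h9 : L ^ 4 * (1 / 2 : ℝ) ^ 6 ≤ L ^ 4 * L ^ 6 := mul_le_mul_of_nonneg_left h7 h8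
  calc QF B phi (fun d => |V d|) (fun d => |V d|) ≤ (1 + L) ^ 4 := by
        refine (h3.trans h4).trans (le_of_eq (by ring))
    _ ≤ (5 / 2 * L) ^ 4 := h6
    _ ≤ 10 ^ 5 * L ^ 10 := by
        have e : L ^ 10 = L ^ 4 * L ^ 6 := by ring
        rw [e]
        nlinarith

/-- the absolute sum (crude) -/
theorem aV_VZ_of {z B B' : ℕ} {V : ℕ → ℝ} (hB : 2 ≤ B) (_hV : RVec z B V)
    (h1 : ∀ d, |V d| ≤ 1 / d) {P : Finset ℕ} (hP : ∀ p ∈ P, p.Prime ∧ p * B ≤ B') (θ : ℕ → ℝ)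
    (hw : ∀ p ∈ P, ∀ q : ℕ, 1 ≤ q → wd B' (VT p (fun d => |V d|)) q =
      if p ∣ q then wd B (fun d => |V d|) (q / p) / p + wd B (fun d => |V d|) (p * q)
      else 2 / p * wd B (fun d => |V d|) q + (1 - 1 / p) * wd B (fun d => |V d|) (p * q)) :
    aV B' (VZ P θ V) ≤ 10 ^ 5 * Real.log B' ^ 10 * Th P θ := by
  have hTh : 0 ≤ Th P θ := by
    unfold Th
    exact add_nonneg (sq_nonneg _) (Finset.sum_nonneg fun p _ => by positivity)
  rcases P.eq_empty_or_nonempty with hPe | ⟨p₀, hp₀⟩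
  · subst hPe
    have : aV B' (VZ ∅ θ V) = 0 := by
      unfold aV VZ
      simp
    rw [this]
    unfold Th
    simp
  have hT : Th P (fun p => |θ p|) = Th P θ := by
    unfold Th
    simp only [abs_abs, sq_abs]
  have h2 : aV B' (VZ P θ V) ≤
      QF B' phi (VZ P (fun p => |θ p|) (fun d => |V d|)) (VZ P (fun p => |θ p|) (fun d => |V d|)) := by
    rw [← QF_gcd]
    unfold aV
    have h3 : ∀ d, |VZ P θ V d| ≤ VZ P (fun p => |θ p|) (fun d => |V d|) d := by
      intro d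
      unfold VZ VT
      refine (Finset.abs_sum_le_sum_abs _ _).trans (Finset.sum_le_sum fun p _ => ?_)
      rw [abs_mul]
      refine mul_le_mul_of_nonneg_left ((abs_add_le _ _).trans ?_) (abs_nonneg _)
      rw [abs_div, Nat.abs_cast]
    refine Finset.sum_le_sum fun d _ => Finset.sum_le_sum fun e _ => ?_
    exact mul_le_mul_of_nonneg_left (mul_le_mul (h3 d) (h3 e) (abs_nonneg _)
      ((abs_nonneg _).trans (h3 d))) (Nat.cast_nonneg _)
  have hB2 : (2 : ℝ) ≤ B := by exact_mod_cast hB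
  have hLB : 0 ≤ Real.log B := Real.log_nonneg (by linarith)
  have h3 := VT_bound_fst (R := {m : ℕ | 1 ≤ m}) (K := 1 + Real.log B) (B := B) (B' := B')
    (V := fun d => |V d|) (P := P)
    (fun m hm d hd => Nat.pos_of_dvd_of_pos hd hm) (by simp) (by linarith)
    (fun q hq => by
      rw [abs_of_nonneg]
      · have := sqc_wd (B := B) h1 hq
        simpa [hq] using this
      · unfold wd
        refine Finset.sum_nonneg fun d _ => ?_
        split_ifs
        · exact abs_nonneg _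
        · exact le_rfl)
    (fun p hp => (hP p hp).1) (fun p => |θ p|) hw
  rw [hT] at h3
  have h4 : ∑ m ∈ (Finset.Icc 1 B).filter (· ∈ {m : ℕ | 1 ≤ m}), 1 / phi m ≤
      (1 + Real.log B) ^ 2 := by
    refine le_trans ?_ (sqc_inv_phi B)
    refine Finset.sum_le_sum_of_subset_of_nonneg (Finset.filter_subset _ _) fun m _ _ => ?_
    unfold phi
    positivity
  have hBB : B * 2 ≤ B' := by
    have h5 := (hP p₀ hp₀).1.two_le
    have h6 := (hP p₀ hp₀).2
    calc B * 2 = 2 * B := by ring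
      _ ≤ p₀ * B := Nat.mul_le_mul_right _ h5
      _ ≤ B' := h6
  have hB4 : (4 : ℝ) ≤ B' := by
    have : 4 ≤ B' := by omega
    exact_mod_cast this
  have hBB' : Real.log B ≤ Real.log B' := by
    refine Real.log_le_log (by linarith) ?_
    have : B ≤ B' := by omega
    exact_mod_cast this
  have hL1 : 1 ≤ Real.log B' := by
    have e1 := Real.log_two_gt_d9
    have e2 : Real.log 4 = 2 * Real.log 2 := by
      rw [show (4 : ℝ) = 2 ^ 2 by norm_num, Real.log_pow]
      norm_num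
    have e3 := Real.log_le_log (by norm_num : (0 : ℝ) < 4) hB4
    linarith
  set L' : ℝ := Real.log B' with hL'
  have h5 : 1 + Real.log B ≤ 2 * L' := by linarith
  have h6 : (1 + Real.log B) ^ 4 ≤ (2 * L') ^ 4 := pow_le_pow_left₀ (by linarith) h5 4
  have h7 : L' ^ 4 ≤ L' ^ 10 := pow_le_pow_right₀ hL1 (by norm_num)
  refine h2.trans (h3.trans (mul_le_mul_of_nonneg_right ?_ hTh))
  calc 40 * (1 + Real.log B) ^ 2 *
        ∑ m ∈ (Finset.Icc 1 B).filter (· ∈ {m : ℕ | 1 ≤ m}), 1 / phi m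
      ≤ 40 * (1 + Real.log B) ^ 2 * (1 + Real.log B) ^ 2 :=
        mul_le_mul_of_nonneg_left h4 (by positivity)
    _ = 40 * (1 + Real.log B) ^ 4 := by ring
    _ ≤ 10 ^ 5 * L' ^ 10 := by nlinarith

end Pool.Agent.LSP
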