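import Pool.Agent.Lib_helper15.LSP2.SQC
import Pool.Agent.Lib_helper14.LSPM2.VTA

/-! LSP2, part M2, block SQA: bounds for `T_p y`. -/

namespace Pool.Agent.LSP

open Pool.Agent.LEV Pool.Agent.LVB Pool.Agent.KSL
open Pool.Agent.FG61 (mu phi cc ff AA Lam)

/-- from bounds for `V` to bounds for `T_p y`: both with and without the logarithm -/
theorem VT_bound_pr {z B B' : ℕ} {V : ℕ → ℝ} (hV : RVec z B V) {R : Set ℕ}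
    [DecidablePred (· ∈ R)] (hR : ∀ m ∈ R, ∀ d, d ∣ m → d ∈ R) (hR0 : 0 ∉ R) {K K' : ℝ}
    (hK : 0 ≤ K) (hK' : 0 ≤ K')
    (h1 : ∀ q, 1 ≤ q → |wd B V q| ≤ K * if q ∈ R then 1 / phi q else 0)
    (h2 : ∀ q, 1 ≤ q → |wd B (lg V) q| ≤ K' * if q ∈ R then 1 / phi q else 0)
    {P : Finset ℕ} (hP : ∀ p ∈ P, p.Prime ∧ p * B ≤ B') (θ : ℕ → ℝ) :
    QF B' phi (VZ P θ V) (VZ P θ V) ≤
      40 * K ^ 2 * (∑ m ∈ (Finset.Icc 1 B).filter (· ∈ R), 1 / phi m) * Th P θ ∧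
    ∀ l : ℝ, (∀ p ∈ P, Real.log p ≤ l) →
      QF B' phi (lg (VZ P θ V)) (lg (VZ P θ V)) ≤
      40 * (2 * K' + 2 * l * K) ^ 2 * (∑ m ∈ (Finset.Icc 1 B).filter (· ∈ R), 1 / phi m) *
        Th P θ :=
  ⟨VT_bound_fst hR hR0 hK h1 (fun p hp => (hP p hp).1) θ
    (fun p hp q hq => wd_VT_pr hV (hP p hp).1 (hP p hp).2 hq),
   VT_bound_snd hR hR0 hK hK' h1 h2 (fun p hp => (hP p hp).1) θ
    (fun p hp q hq => wd_lg_VT_pr hV (hP p hp).1 (hP p hp).2 hq)⟩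

/-- the absolute sum (crude) -/
theorem aV_VZ_pr {z B B' : ℕ} {V : ℕ → ℝ} (hB : 2 ≤ B) (hV : RVec z B V) (h1 : ∀ d, |V d| ≤ 1 / d)
    {P : Finset ℕ} (hP : ∀ p ∈ P, p.Prime ∧ p * B ≤ B') (θ : ℕ → ℝ) :
    aV B' (VZ P θ V) ≤ 10 ^ 5 * Real.log B' ^ 10 * Th P θ := by
  have hV' : RVec z B (fun d => |V d|) := fun d hd => hV d (abs_ne_zero.1 hd)
  exact aV_VZ_of hB hV h1 hP θ (fun p hp q hq => wd_VT_pr hV' (hP p hp).1 (hP p hp).2 hq)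

end Pool.Agent.LSP
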