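import Pool.Agent.Lib_helper15.LSP2.KAP
import Pool.Agent.Lib_helper15.LSP2.DefsP2
import Pool.Agent.Lib_helper15.LSPF.TRA

/-! LSP, version 2, part P2: the kernel of the trivial character, harmonic sums. -/

set_option autoImplicit false

namespace Pool.Agent.LSPP

open Pool.Agent.LSP (tau kap wc PsiK)
open Pool.Agent.LSPO (hyp cl KK rho b1 GOK)
open Pool.Agent.FG61 (mu phi cc)

theorem wc_hf {D y : ℝ} (hD : 0 < D) (hy : |y| = D) {Dl c : ℕ} (hc : 1 ≤ c)
    (hDl : 2 * Real.sqrt D ≤ Dl) : wc Dl c y = 1 / (c : ℝ) * Hf (Real.sqrt D / c) := by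
  have hc0 : (0 : ℝ) < c := by exact_mod_cast hc
  unfold Pool.Agent.LSP.wc
  rw [hy, dse_hf hD hc]
  congr 1
  have h1 : ⌊2 * Real.sqrt D⌋₊ ≤ Dl := by
    have : ((⌊2 * Real.sqrt D⌋₊ : ℕ) : ℝ) ≤ Dl := (Nat.floor_le (by positivity)).trans hDl
    exact_mod_cast this
  symm
  apply Finset.sum_subset
  · intro l hl
    rw [Finset.mem_Icc] at hl ⊢
    exact ⟨hl.1, hl.2.trans (Nat.div_le_div_right h1)⟩
  · intro l hl hl'
    rw [Finset.mem_Icc] at hl hl'
    have h2 : ⌊2 * Real.sqrt D⌋₊ / c < l := by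
      by_contra h
      exact hl' ⟨hl.1, not_lt.mp h⟩
    have h3 : ⌊2 * Real.sqrt D⌋₊ < c * l := by
      rw [mul_comm c l]
      exact (Nat.div_lt_iff_lt_mul hc).mp h2
    have h4 : 2 * Real.sqrt D < ((c * l : ℕ) : ℝ) := by
      have := Nat.lt_of_floor_lt h3
      exact this
    rw [dse_hyp0 hD h4, mul_zero]

/-- the sum over the moduli, truncated, with an arbitrary upper limit -/
theorem trb2 : ∃ K : ℝ, 1 ≤ K ∧ ∀ {D : ℝ} {n R R' : ℕ} {g : ℤ}, 1 ≤ n → g ≠ 0 → 1 ≤ D →
    1 ≤ R → R ≤ R' → (R : ℝ) ≤ Real.sqrt D → (R' : ℝ) ≤ D →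
    |∑ c ∈ Finset.Icc 1 R', cc c n * cc c g.natAbs / (c * phi c) * Hf (Real.sqrt D / c) -
      ∑ c ∈ Finset.Icc 1 R, cc c n * cc c g.natAbs / (c * phi c) *
        (Real.log D / 2 + ga - Real.log c)| ≤
      K * (1 + Real.log D) ^ 2 * tau n * tau g.natAbs * (g.natAbs / R + R / Real.sqrt D) := by
  refine ⟨64, by norm_num, ?_⟩
  intro D n R m g hn hg hD hR hRm hRD hmD
  have hD0 : 0 < D := by linarith
  have hs1 : 1 ≤ Real.sqrt D := by
    rw [Real.one_le_sqrt]
    exact hD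
  have hs0 : 0 < Real.sqrt D := by linarith
  have hR0 : (0 : ℝ) < R := by exact_mod_cast hR
  have hm0 : (0 : ℝ) < m := by
    have : (R : ℝ) ≤ m := by exact_mod_cast hRm
    linarith
  have hgn : 1 ≤ g.natAbs := Int.natAbs_pos.mpr hg
  have hlD : 0 ≤ Real.log D := Real.log_nonneg hD
  have hls : Real.log (Real.sqrt D) = Real.log D / 2 := Real.log_sqrt hD0.le
  set L : ℝ := 1 + Real.log D with hL
  have hL1 : 1 ≤ L := by linarith
  set T : ℝ := tau n * tau g.natAbs with hT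
  have hT0 : 0 ≤ T := mul_nonneg (TRB62.tau_nn _) (TRB62.tau_nn _)
  set w : ℕ → ℝ := fun c => cc c n * cc c g.natAbs / (c * phi c) with hw
  have hlm : 1 + Real.log m ≤ L := by
    have h1 : Real.log m ≤ Real.log D := Real.log_le_log hm0 hmD
    linarith
  have hlR : 1 + Real.log R ≤ L := by
    have h1 : Real.log R ≤ Real.log (Real.sqrt D) := Real.log_le_log hR0 hRD
    rw [hls] at h1
    linarith
  have hsplit : Finset.Icc 1 m = Finset.Icc 1 R ∪ Finset.Ioc R m := by
    ext c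
    simp only [Finset.mem_union, Finset.mem_Icc, Finset.mem_Ioc]
    omega
  have hdisj : Disjoint (Finset.Icc 1 R) (Finset.Ioc R m) := by
    rw [Finset.disjoint_left]
    intro c h1 h2
    simp only [Finset.mem_Icc, Finset.mem_Ioc] at h1 h2
    omega
  rw [hsplit, Finset.sum_union hdisj]
  have e1 : ∑ c ∈ Finset.Icc 1 R, cc c n * cc c g.natAbs / (c * phi c) * Hf (Real.sqrt D / c) +
      ∑ c ∈ Finset.Ioc R m, cc c n * cc c g.natAbs / (c * phi c) * Hf (Real.sqrt D / c) -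
      ∑ c ∈ Finset.Icc 1 R, cc c n * cc c g.natAbs / (c * phi c) *
        (Real.log D / 2 + ga - Real.log c) =
      ∑ c ∈ Finset.Icc 1 R, w c * (Hf (Real.sqrt D / c) - (Real.log D / 2 + ga - Real.log c)) +
      ∑ c ∈ Finset.Ioc R m, w c * Hf (Real.sqrt D / c) := by
    simp only [mul_sub, Finset.sum_sub_distrib, hw]
    ring
  rw [e1]
  have b1 : |∑ c ∈ Finset.Icc 1 R, w c *
      (Hf (Real.sqrt D / c) - (Real.log D / 2 + ga - Real.log c))| ≤
      (∑ c ∈ Finset.Icc 1 R, |w c|) * (4 * (R / Real.sqrt D)) := by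
    refine (Finset.abs_sum_le_sum_abs _ _).trans ?_
    rw [Finset.sum_mul]
    apply Finset.sum_le_sum
    intro c hc
    rw [abs_mul]
    apply mul_le_mul_of_nonneg_left _ (abs_nonneg _)
    have hc' := Finset.mem_Icc.mp hc
    have hc0 : (0 : ℝ) < c := by exact_mod_cast hc'.1
    have hcR : (c : ℝ) ≤ R := by exact_mod_cast hc'.2
    have h1 : 1 ≤ Real.sqrt D / c := by
      rw [one_le_div hc0]
      exact hcR.trans hRD
    have h2 := hf_asymp h1
    rw [Real.log_div hs0.ne' hc0.ne', hls] at h2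
    have h3 : Real.log D / 2 - Real.log c + ga = Real.log D / 2 + ga - Real.log c := by ring
    rw [h3] at h2
    refine h2.trans ?_
    have h4 : 4 / (Real.sqrt D / c) = 4 * (c / Real.sqrt D) := by field_simp
    rw [h4]
    gcongr
  have b2 : ∑ c ∈ Finset.Icc 1 R, |w c| ≤ 8 * L * T := by
    have h1 := gcs_all (m := R) hn hgn
    have h2 : ∑ c ∈ Finset.Icc 1 R, |w c| =
        ∑ c ∈ Finset.Icc 1 R, |cc c n * cc c g.natAbs| / (c * phi c) :=
      Finset.sum_congr rfl fun c _ => TRB62.abs_w _ _ _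
    rw [h2]
    refine h1.trans ?_
    have h3 : 8 * (1 + Real.log R) * tau n * tau g.natAbs = 8 * (1 + Real.log R) * T := by
      rw [hT]; ring
    rw [h3]
    gcongr
  have b3 : |∑ c ∈ Finset.Ioc R m, w c * Hf (Real.sqrt D / c)| ≤
      (∑ c ∈ Finset.Ioc R m, |w c|) * (4 * L) := by
    refine (Finset.abs_sum_le_sum_abs _ _).trans ?_
    rw [Finset.sum_mul]
    apply Finset.sum_le_sum
    intro c hc
    rw [abs_mul]
    apply mul_le_mul_of_nonneg_left _ (abs_nonneg _)
    have hc' := Finset.mem_Ioc.mp hc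
    have hc1 : (1 : ℝ) ≤ c := by
      have : 1 ≤ c := by omega
      exact_mod_cast this
    have hc0 : (0 : ℝ) < c := by linarith
    rw [abs_of_nonneg (hf_nonneg _)]
    rcases le_total (Real.sqrt D / c) 1 with h | h
    · exact (hf_le' h).trans (by linarith)
    · refine (hf_le h).trans ?_
      rw [Real.log_div hs0.ne' hc0.ne', hls]
      have := Real.log_nonneg hc1
      linarith
  have b4 : ∑ c ∈ Finset.Ioc R m, |w c| ≤ 8 * L * T * (g.natAbs / R) := by
    have h1 := gcs_tail (m := m) hn hgn hR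
    have h2 : ∑ c ∈ Finset.Ioc R m, |w c| =
        ∑ c ∈ Finset.Ioc R m, |cc c n * cc c g.natAbs| / (c * phi c) :=
      Finset.sum_congr rfl fun c _ => TRB62.abs_w _ _ _
    rw [h2]
    refine h1.trans ?_
    have h3 : 8 * (1 + Real.log m) * tau n * tau g.natAbs * g.natAbs / R =
        8 * (1 + Real.log m) * (T * (g.natAbs / R)) := by
      rw [hT]; ring
    have h4 : 8 * L * T * (g.natAbs / R) = 8 * L * (T * (g.natAbs / R)) := by ring
    rw [h3, h4]
    gcongr
  have hA : 0 ≤ (g.natAbs : ℝ) / R := by positivity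
  have hB : 0 ≤ (R : ℝ) / Real.sqrt D := by positivity
  calc |∑ c ∈ Finset.Icc 1 R, w c *
          (Hf (Real.sqrt D / c) - (Real.log D / 2 + ga - Real.log c)) +
        ∑ c ∈ Finset.Ioc R m, w c * Hf (Real.sqrt D / c)|
      ≤ (∑ c ∈ Finset.Icc 1 R, |w c|) * (4 * (R / Real.sqrt D)) +
        (∑ c ∈ Finset.Ioc R m, |w c|) * (4 * L) := (abs_add_le _ _).trans (add_le_add b1 b3)
    _ ≤ (8 * L * T) * (4 * (R / Real.sqrt D)) + (8 * L * T * (g.natAbs / R)) * (4 * L) := by
        gcongr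
    _ ≤ 64 * L ^ 2 * T * (g.natAbs / R + R / Real.sqrt D) := by
        have h1 : 0 ≤ T * ((R : ℝ) / Real.sqrt D) := mul_nonneg hT0 hB
        have h2 : 0 ≤ T * ((g.natAbs : ℝ) / R) := mul_nonneg hT0 hA
        have h3 : L ≤ L ^ 2 := by nlinarith
        have h5 : (0 : ℝ) ≤ L ^ 2 := by positivity
        have h4 : (8 * L * T) * (4 * (R / Real.sqrt D)) ≤
            32 * L ^ 2 * (T * ((R : ℝ) / Real.sqrt D)) := by
          calc (8 * L * T) * (4 * (R / Real.sqrt D)) = 32 * L * (T * ((R : ℝ) / Real.sqrt D)) := by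
                ring
            _ ≤ _ := by gcongr
        have h6 : 0 ≤ L ^ 2 * (T * ((R : ℝ) / Real.sqrt D)) := mul_nonneg h5 h1
        have h7 : 0 ≤ L ^ 2 * (T * ((g.natAbs : ℝ) / R)) := mul_nonneg h5 h2
        nlinarith
    _ = 64 * (1 + Real.log D) ^ 2 * tau n * tau g.natAbs * (g.natAbs / R + R / Real.sqrt D) := by
        rw [hT, hL]; ring

/-- the kernel of the trivial character with harmonic sums -/
noncomputable def PKs (C : ℕ → ℝ) (G : ℝ → ℝ) (Q : ℕ) (S : Finset ℤ) (R : ℕ) (om Y s : ℝ) : ℝ :=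
  4 * Real.pi * ∑ n ∈ Finset.Icc 1 Q, C n * ∑ g ∈ S, tau g.natAbs *
    (KK G om ((g : ℝ) * Y / n) * ∑ c ∈ Finset.Icc 1 R,
      cc c n * cc c g.natAbs / (c * phi c) * Hf (Real.sqrt (s * |(n : ℝ) - g * Y|) / c))

theorem psik_re {G : ℝ → ℝ} {U c₀ : ℝ} (hG : GOK G U c₀) {C : ℕ → ℝ} {Q Q' : ℕ}
    (hC : ∀ n, C n ≠ 0 → n ≤ Q) (hQ : Q ≤ Q') {om : ℝ} (hom : 0 < om) (S : Finset ℤ) {Dl R : ℕ}
    {s Z : ℝ} (hs : 0 < s) (hDl : 2 * Real.sqrt ((1 + U) * (s * Q)) ≤ Dl) :
    (PsiK C G om Q' S Dl R ⟨1, 1⟩ s Z).re = PKs C G Q S R om (Z / s) s := by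
  have hU := hG.one_le
  have h1 : ∀ m ∈ Finset.Icc 1 Q', m ∉ Finset.Icc 1 Q → C m = 0 := by
    intro m hm hm'
    by_contra h
    exact hm' (Finset.mem_Icc.mpr ⟨(Finset.mem_Icc.mp hm).1, hC m h⟩)
  have hsub : Finset.Icc 1 Q ⊆ Finset.Icc 1 Q' := by
    intro m hm
    rw [Finset.mem_Icc] at hm ⊢
    omega
  have h2 : PsiK C G om Q' S Dl R ⟨1, 1⟩ s Z = ((PKs C G Q S R om (Z / s) s : ℝ) : ℂ) := by
    unfold Pool.Agent.LSP.PsiK PKs
    rw [← Finset.sum_subset hsub (fun m hm hm' => by rw [h1 m hm hm']; simp)]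
    push_cast
    congr 1
    refine Finset.sum_congr rfl fun n hn => ?_
    rw [Finset.mem_Icc] at hn
    have hn0 : (0 : ℝ) < n := by exact_mod_cast hn.1
    have hnQ : (n : ℝ) ≤ Q := by exact_mod_cast hn.2
    congr 1
    refine Finset.sum_congr rfl fun g _ => ?_
    have hu : (g : ℝ) * Z / (s * n) = (g : ℝ) * (Z / s) / n := by field_simp
    rw [hu]
    set u : ℝ := (g : ℝ) * (Z / s) / n with hud
    by_cases hK : KK G om u = 0
    · rw [hK]
      simp
    · have hcl : cl om u ≠ 0 := fun h => hK (by unfold KK; rw [h, mul_zero])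
      have hGu : G u ≠ 0 := fun h => hK (by unfold KK; rw [h, zero_mul])
      have huU : |u| ≤ U := by
        by_contra h
        exact hGu (hG.supp u (not_le.1 h))
      have hu1 : om < |1 - u| := tra_cl_ne hom hcl
      set D : ℝ := s * |(n : ℝ) - g * (Z / s)| with hD
      have hDu : D = s * (n * |1 - u|) := by
        have : (n : ℝ) - g * (Z / s) = n * (1 - u) := by
          rw [hud]
          field_simp
        rw [hD, this, abs_mul, abs_of_pos hn0]
      have hD0 : 0 < D := by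
        rw [hDu]
        have : 0 < |1 - u| := by linarith
        positivity
      have hy : |s * (n : ℝ) - g * Z| = D := by
        rw [hD]
        have : s * (n : ℝ) - g * Z = s * ((n : ℝ) - g * (Z / s)) := by field_simp
        rw [this, abs_mul, abs_of_pos hs]
      have h1u : |1 - u| ≤ 1 + U := by
        refine (abs_sub _ _).trans ?_
        rw [abs_one]
        linarith
      have hDle : D ≤ (1 + U) * (s * Q) := by
        rw [hDu]
        calc s * (n * |1 - u|) ≤ s * (Q * (1 + U)) := by gcongr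
          _ = (1 + U) * (s * Q) := by ring
      have hDl' : 2 * Real.sqrt D ≤ Dl :=
        (mul_le_mul_of_nonneg_left (Real.sqrt_le_sqrt hDle) (by norm_num)).trans hDl
      have hfil : (Finset.Icc 1 R).filter (fun c => 1 ∣ c) = Finset.Icc 1 R := by
        apply Finset.filter_true_of_mem
        intro c _
        exact one_dvd c
      rw [hfil]
      rw [mul_assoc]
      congr 2
      refine Finset.sum_congr rfl fun c hc => ?_
      have hc1 := (Finset.mem_Icc.mp hc).1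
      rw [kap_one hc1, wc_hf hD0 hy hc1 hDl']
      push_cast
      ring
  rw [h2, Complex.ofReal_re]

end Pool.Agent.LSPP
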