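import Pool.Agent.Lib_helper15.LSP2.TR1

/-! LSP, version 2, part P2: from harmonic sums to logarithms. -/

set_option autoImplicit false

namespace Pool.Agent.LSPP

open Pool.Agent.LSP (tau kap wc PsiK)
open Pool.Agent.LSPO (hyp cl KK rho b1 GOK)
open Pool.Agent.FG61 (mu phi cc)
open MeasureTheory Filter Topology

theorem tra2_large {U A κ : ℝ} (h0 : 0 < κ) (hA : 0 < A) : ∃ X₀ : ℝ, ∀ X : ℝ, X₀ ≤ X →
    1 ≤ Real.log X ∧ 1 + U ≤ X ∧ U ≤ X ^ (3 / 50 : ℝ) ∧ 2 ≤ X ^ (6 * κ) ∧
      A * Real.log X ^ 4 ≤ X ^ (9 / 10 * κ) := by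
  obtain ⟨X₀, hX⟩ := tra_large (U := U) h0 hA
  have e3 : ∀ᶠ X : ℝ in atTop, U ≤ X ^ (3 / 50 : ℝ) :=
    (tendsto_rpow_atTop (by norm_num)).eventually_ge_atTop U
  obtain ⟨X₁, hX₁⟩ := eventually_atTop.1 e3
  refine ⟨max X₀ X₁, fun X h => ?_⟩
  obtain ⟨a1, a2, a3, a4, a5⟩ := hX X ((le_max_left _ _).trans h)
  exact ⟨a1, a2, hX₁ X ((le_max_right _ _).trans h), a4, a5⟩

theorem tra2 {G : ℝ → ℝ} {U c₀ : ℝ} (hG : GOK G U c₀) {κ κ₁ : ℝ} (h0 : 0 < κ)
    (h1 : κ ≤ 1 / 1000) (h2 : κ₁ ≤ 1 / 100) :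
    ∃ X₀ : ℝ, ∀ X : ℝ, X₀ ≤ X → ∀ Y : ℝ, X ^ (1 / 2 : ℝ) ≤ Y → Y ≤ X ^ 2 →
    ∀ (Q : ℕ) (C : ℕ → ℝ), (Q : ℝ) ≤ Y * X ^ (101 / 50 * κ) →
    (∀ n, 1 ≤ n → |C n| ≤ X ^ (κ / 100) / n) → ∀ S : Finset ℤ, 0 ∉ S →
    ∀ R R' : ℕ, X ^ (6 * κ) / 2 ≤ R → (R : ℝ) ≤ X ^ (6 * κ) → R ≤ R' →
    (R' : ℝ) ≤ X ^ (1 / 10 : ℝ) → ∀ s : ℝ, 1 ≤ s → s ≤ X ^ 2 →
      |PKs C G Q S R' (X ^ (-(4 * κ₁))) Y s -
        M5l (Real.log s) C G Q S R (X ^ (-(4 * κ₁))) Y| ≤ X ^ (-κ) := by
  obtain ⟨K, hK1, hK⟩ := trb2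
  obtain ⟨Ct, hCt1, hCt⟩ := tau_le (ε := κ / 1000) (by positivity)
  have hU := hG.one_le
  have hc₀ := hG.one_le'
  have hU0 : 0 < U := by linarith
  have hpi := Real.pi_pos
  set A : ℝ := 4 * Real.pi * (4 * (2 * U * (Ct ^ 3 * (3 * c₀) * K * 49 * (3 * U)))) with hAdef
  have hA : 0 < A := by positivity
  obtain ⟨X₀, hX₀⟩ := tra2_large (U := U) h0 hA
  refine ⟨X₀, ?_⟩
  intro X hX Y hY1 hY2 Q C hQY hbd S hS R R' hRge hRle hRR' hR' s hs1 hs2
  obtain ⟨hL1, hUX, hUX2, hX6, hfin⟩ := hX₀ X hX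
  set L : ℝ := Real.log X with hLdef
  have hX1 : 1 < X := by
    by_contra h
    have := Real.log_nonpos (x := X) (by linarith) (not_lt.1 h)
    linarith
  have hXp : 0 < X := by linarith
  have hsp : 0 < s := by linarith
  have hYp : 0 < Y := (Real.rpow_pos_of_pos hXp _).trans_le hY1
  set om : ℝ := X ^ (-(4 * κ₁)) with hom
  have hom0 : 0 < om := Real.rpow_pos_of_pos hXp _
  have hR1 : 1 ≤ R := by
    have : (1 : ℝ) ≤ R := by linarith
    exact_mod_cast this
  have hRp : (0 : ℝ) < R := by exact_mod_cast hR1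
  -- the per-pair bound
  set V : ℝ := U * X ^ (101 / 50 * κ) with hV
  have hV0 : 0 < V := mul_pos hU0 (Real.rpow_pos_of_pos hXp _)
  set Tt : ℝ := Ct * X ^ (3 * (κ / 1000)) with hTt
  have hTt0 : 0 < Tt := mul_pos (by linarith) (Real.rpow_pos_of_pos hXp _)
  set T : ℝ := Tt ^ 3 * (3 * c₀ * L) * K * (49 * L ^ 2) * (3 * U * X ^ (-(199 / 50 * κ))) with hT
  have hT0 : 0 ≤ T := by
    have := Real.rpow_nonneg hXp.le (-(199 / 50 * κ))
    have : 0 ≤ L := by linarith
    positivity
  have hQ3 : (Q : ℝ) ≤ X ^ (3 : ℝ) := by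
    have h3 : X ^ (101 / 50 * κ) ≤ X ^ (1 : ℝ) :=
      Real.rpow_le_rpow_of_exponent_le hX1.le (by linarith)
    calc (Q : ℝ) ≤ Y * X ^ (101 / 50 * κ) := hQY
      _ ≤ X ^ 2 * X ^ (1 : ℝ) := by gcongr
      _ = X ^ (3 : ℝ) := by
          rw [← Real.rpow_natCast, ← Real.rpow_add hXp]
          norm_num
  have hpair : ∀ n ∈ Finset.Icc 1 Q, ∀ g ∈ S, tau g.natAbs * |KK G om ((g : ℝ) * Y / n)| *
      |∑ c ∈ Finset.Icc 1 R', cc c n * cc c g.natAbs / (c * phi c) *
          Hf (Real.sqrt (s * |(n : ℝ) - g * Y|) / c) -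
        ∑ c ∈ Finset.Icc 1 R, cc c n * cc c g.natAbs / (c * phi c) *
          (Real.log |(n : ℝ) - g * Y| / 2 + (Real.log s / 2 + ga) - Real.log c)| ≤
      if |(g : ℝ)| ≤ V then T else 0 := by
    intro n hn g hg
    have hn1 := (Finset.mem_Icc.1 hn).1
    have hnQ : (n : ℝ) ≤ Q := by exact_mod_cast (Finset.mem_Icc.1 hn).2
    have hnp : (0 : ℝ) < n := by exact_mod_cast hn1
    have hg0 : g ≠ 0 := fun h => hS (h ▸ hg)
    have hga : (1 : ℝ) ≤ |(g : ℝ)| := by
      rw [← Int.cast_abs]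
      exact_mod_cast Int.one_le_abs hg0
    have hgn : ((g.natAbs : ℕ) : ℝ) = |(g : ℝ)| := by rw [Nat.cast_natAbs, Int.cast_abs]
    set u : ℝ := (g : ℝ) * Y / n with hu
    by_cases hKK : KK G om u = 0
    · rw [hKK, abs_zero, mul_zero, zero_mul]
      split_ifs
      · exact hT0
      · exact le_rfl
    have hGu : G u ≠ 0 := fun h => hKK (by unfold KK; rw [h, zero_mul])
    have hcl : cl om u ≠ 0 := fun h => hKK (by unfold KK; rw [h, mul_zero])
    have huU : |u| ≤ U := by
      by_contra h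
      exact hGu (hG.supp u (not_le.1 h))
    have hu1 : om < |1 - u| := tra_cl_ne hom0 hcl
    have hua : |u| = |(g : ℝ)| * Y / n := by
      rw [hu, abs_div, abs_mul, abs_of_pos hYp, abs_of_pos hnp]
    have hu0 : u ≠ 0 := by
      intro h
      rw [h, abs_zero] at hua
      have : 0 < |(g : ℝ)| * Y / n := by positivity
      linarith
    have hune : u ≠ 1 := by
      intro h
      rw [h, sub_self, abs_zero] at hu1
      linarith
    -- sizes
    have hgU : |(g : ℝ)| * Y ≤ U * n := by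
      rw [hua, div_le_iff₀ hnp] at huU
      exact huU
    have hnY : Y / U ≤ n := by
      rw [div_le_iff₀ hU0]
      nlinarith
    have hgV : |(g : ℝ)| ≤ V := by
      have h2 : |(g : ℝ)| * Y ≤ V * Y := by
        calc |(g : ℝ)| * Y ≤ U * n := hgU
          _ ≤ U * (Y * X ^ (101 / 50 * κ)) := by
            have := hnQ.trans hQY
            gcongr
          _ = V * Y := by rw [hV]; ring
      exact le_of_mul_le_mul_right h2 hYp
    rw [if_pos hgV]
    set E : ℝ := |(n : ℝ) - g * Y| with hE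
    have hEu : E = n * |1 - u| := by
      have : (n : ℝ) - g * Y = n * (1 - u) := by
        rw [hu]
        field_simp
      rw [hE, this, abs_mul, abs_of_pos hnp]
    have h25 : X ^ (2 / 5 : ℝ) ≤ E := by
      rw [hEu]
      have h3 : Y / U * om ≤ n * |1 - u| := by
        have : 0 ≤ Y / U := by positivity
        gcongr
      refine le_trans ?_ h3
      have h4 : X ^ (-(1 / 25) : ℝ) ≤ om :=
        Real.rpow_le_rpow_of_exponent_le hX1.le (by linarith)
      have h5 : X ^ (11 / 25 : ℝ) ≤ Y / U := by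
        rw [le_div_iff₀ hU0]
        calc X ^ (11 / 25 : ℝ) * U ≤ X ^ (11 / 25 : ℝ) * X ^ (3 / 50 : ℝ) := by
              have := Real.rpow_nonneg hXp.le (11 / 25 : ℝ)
              gcongr
          _ = X ^ (1 / 2 : ℝ) := by rw [← Real.rpow_add hXp]; norm_num
          _ ≤ Y := hY1
      calc X ^ (2 / 5 : ℝ) = X ^ (11 / 25 : ℝ) * X ^ (-(1 / 25) : ℝ) := by
            rw [← Real.rpow_add hXp]; norm_num
        _ ≤ Y / U * om := by
            apply mul_le_mul h5 h4 (Real.rpow_nonneg hXp.le _) (by positivity)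
    have hEp : 0 < E := (Real.rpow_pos_of_pos hXp _).trans_le h25
    set D : ℝ := s * E with hD
    have hDE : E ≤ D := by
      rw [hD]
      nlinarith
    have hD25 : X ^ (2 / 5 : ℝ) ≤ D := h25.trans hDE
    have h1u : |1 - u| ≤ 1 + U := by
      refine (abs_sub _ _).trans ?_
      rw [abs_one]
      linarith
    have hEup : E ≤ (1 + U) * Q := by
      rw [hEu, mul_comm]
      have : 0 ≤ 1 + U := by linarith
      gcongr
    have hD1 : 1 ≤ D := (Real.one_le_rpow hX1.le (by norm_num)).trans hD25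
    have hDp : 0 < D := by linarith
    have hsq : X ^ (1 / 5 : ℝ) ≤ Real.sqrt D := by
      apply Real.le_sqrt_of_sq_le
      rw [← Real.rpow_natCast, ← Real.rpow_mul hXp.le]
      refine le_trans (le_of_eq ?_) hD25
      norm_num
    have hRsq : (R : ℝ) ≤ Real.sqrt D := by
      refine hRle.trans (le_trans ?_ hsq)
      exact Real.rpow_le_rpow_of_exponent_le hX1.le (by linarith)
    have hR'D : (R' : ℝ) ≤ D := by
      refine hR'.trans (le_trans ?_ hD25)
      exact Real.rpow_le_rpow_of_exponent_le hX1.le (by norm_num)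
    have hmain := hK (D := D) (n := n) (R := R) (R' := R') (g := g) hn1 hg0 hD1 hR1 hRR' hRsq hR'D
    have hlogDE : Real.log D / 2 + ga = Real.log E / 2 + (Real.log s / 2 + ga) := by
      rw [hD, Real.log_mul hsp.ne' hEp.ne']
      ring
    rw [hlogDE] at hmain
    -- the kernel
    have hlogu : |Real.log (|u|)| ≤ L := by
      rw [abs_le]
      constructor
      · have h2 : X⁻¹ ≤ |u| := by
          rw [hua, le_div_iff₀ hnp]
          have h3 : X ^ (101 / 50 * κ) ≤ X ^ (1 : ℝ) :=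
            Real.rpow_le_rpow_of_exponent_le hX1.le (by linarith)
          rw [Real.rpow_one] at h3
          calc X⁻¹ * n ≤ X⁻¹ * (Y * X) := by
                have := hnQ.trans hQY
                have h4 : Y * X ^ (101 / 50 * κ) ≤ Y * X := by gcongr
                have h5 : (n : ℝ) ≤ Y * X := this.trans h4
                gcongr
            _ = Y := by field_simp
            _ ≤ |(g : ℝ)| * Y := by nlinarith
        have h3 := Real.log_le_log (by positivity) h2
        rwa [Real.log_inv] at h3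
      · refine (Real.log_le_log (abs_pos.2 hu0) (huU.trans ?_))
        linarith
    have hlogu1 : |Real.log (|1 - u|)| ≤ L := by
      rw [abs_le]
      constructor
      · have h2 : X ^ (-(4 * κ₁)) ≤ |1 - u| := hu1.le
        have h3 := Real.log_le_log hom0 h2
        rw [Real.log_rpow hXp, ← hLdef] at h3
        have h4 : -(4 * κ₁) * L ≥ -L := by nlinarith
        linarith
      · refine (Real.log_le_log (abs_pos.2 (sub_ne_zero.2 (Ne.symm hune))) (h1u.trans hUX))
    have hKKb : |KK G om u| ≤ 3 * c₀ * L := by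
      unfold KK
      rw [abs_mul, abs_of_nonneg (tra_cl_le om u).1]
      have h2 := hG.bd u hu0 hune
      have h3 : c₀ * (1 + |Real.log (|u|)| + |Real.log (|1 - u|)|) ≤ c₀ * (L + L + L) := by
        have : (0 : ℝ) ≤ c₀ := by linarith
        gcongr
      calc |G u| * cl om u ≤ |G u| * 1 :=
            mul_le_mul_of_nonneg_left (tra_cl_le om u).2 (abs_nonneg _)
        _ ≤ c₀ * (L + L + L) := by
            rw [mul_one]
            exact h2.trans h3
        _ = 3 * c₀ * L := by ring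
    -- divisors
    have htn : tau n ≤ Tt := by
      refine (hCt n).trans ?_
      rw [hTt]
      have h2 : (n : ℝ) ^ (κ / 1000) ≤ X ^ (3 * (κ / 1000)) := by
        calc (n : ℝ) ^ (κ / 1000) ≤ (X ^ (3 : ℝ)) ^ (κ / 1000) :=
              Real.rpow_le_rpow hnp.le (hnQ.trans hQ3) (by positivity)
          _ = X ^ (3 * (κ / 1000)) := by rw [← Real.rpow_mul hXp.le]
      exact mul_le_mul_of_nonneg_left h2 (by linarith)
    have hgX3 : |(g : ℝ)| ≤ X ^ (3 : ℝ) := by
      calc |(g : ℝ)| ≤ V := hgV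
        _ ≤ X ^ (1 : ℝ) * X ^ (2 : ℝ) := by
            rw [hV, Real.rpow_one]
            have h3 : X ^ (101 / 50 * κ) ≤ X ^ (2 : ℝ) :=
              Real.rpow_le_rpow_of_exponent_le hX1.le (by linarith)
            have h4 : U ≤ X := by linarith
            gcongr
        _ = X ^ (3 : ℝ) := by rw [← Real.rpow_add hXp]; norm_num
    have htg : tau g.natAbs ≤ Tt := by
      refine (hCt g.natAbs).trans ?_
      rw [hTt, hgn]
      have h2 : |(g : ℝ)| ^ (κ / 1000) ≤ X ^ (3 * (κ / 1000)) := by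
        calc |(g : ℝ)| ^ (κ / 1000) ≤ (X ^ (3 : ℝ)) ^ (κ / 1000) :=
              Real.rpow_le_rpow (abs_nonneg _) hgX3 (by positivity)
          _ = X ^ (3 * (κ / 1000)) := by rw [← Real.rpow_mul hXp.le]
      exact mul_le_mul_of_nonneg_left h2 (by linarith)
    have htn0 : 0 ≤ tau n := by unfold tau; positivity
    have htg0 : 0 ≤ tau g.natAbs := by unfold tau; positivity
    have hL0 : 0 ≤ L := by linarith
    -- logarithm of D
    have hlogD : Real.log D ≤ 6 * L := by
      calc Real.log D ≤ Real.log (X ^ (2 : ℝ) * (X * X ^ (3 : ℝ))) := by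
            refine Real.log_le_log hDp ?_
            rw [hD]
            have h3 : s ≤ X ^ (2 : ℝ) := by
              rw [show (2 : ℝ) = ((2 : ℕ) : ℝ) by norm_num, Real.rpow_natCast]
              exact hs2
            have h4 : E ≤ X * X ^ (3 : ℝ) := hEup.trans (by gcongr)
            gcongr
        _ = 6 * L := by
            rw [Real.log_mul (Real.rpow_pos_of_pos hXp _).ne' (by positivity),
              Real.log_mul hXp.ne' (Real.rpow_pos_of_pos hXp _).ne', Real.log_rpow hXp,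
              Real.log_rpow hXp]
            ring
    have hlogD0 : 0 ≤ Real.log D := Real.log_nonneg hD1
    have hlog2 : (1 + Real.log D) ^ 2 ≤ 49 * L ^ 2 := by
      have : 1 + Real.log D ≤ 7 * L := by linarith
      calc (1 + Real.log D) ^ 2 ≤ (7 * L) ^ 2 := pow_le_pow_left₀ (by linarith) this 2
        _ = 49 * L ^ 2 := by ring
    -- the last factor
    have hlast : ((g.natAbs : ℕ) : ℝ) / R + R / Real.sqrt D ≤ 3 * U * X ^ (-(199 / 50 * κ)) := by
      have h2 : ((g.natAbs : ℕ) : ℝ) / R ≤ 2 * U * X ^ (-(199 / 50 * κ)) := by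
        rw [hgn, div_le_iff₀ hRp]
        calc |(g : ℝ)| ≤ V := hgV
          _ = 2 * U * X ^ (-(199 / 50 * κ)) * (X ^ (6 * κ) / 2) := by
              have : X ^ (-(199 / 50 * κ)) * X ^ (6 * κ) = X ^ (101 / 50 * κ) := by
                rw [← Real.rpow_add hXp]
                congr 1
                ring
              rw [hV, ← this]
              ring
          _ ≤ 2 * U * X ^ (-(199 / 50 * κ)) * R := by
              have := Real.rpow_nonneg hXp.le (-(199 / 50 * κ))
              gcongr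
      have h3 : (R : ℝ) / Real.sqrt D ≤ U * X ^ (-(199 / 50 * κ)) := by
        have hsD : 0 < Real.sqrt D := Real.sqrt_pos.2 hDp
        rw [div_le_iff₀ hsD]
        calc (R : ℝ) ≤ X ^ (6 * κ) := hRle
          _ ≤ X ^ (-(199 / 50 * κ)) * X ^ (1 / 5 : ℝ) := by
              rw [← Real.rpow_add hXp]
              exact Real.rpow_le_rpow_of_exponent_le hX1.le (by linarith)
          _ ≤ X ^ (-(199 / 50 * κ)) * Real.sqrt D := by
              have := Real.rpow_nonneg hXp.le (-(199 / 50 * κ))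
              gcongr
          _ ≤ U * X ^ (-(199 / 50 * κ)) * Real.sqrt D := by
              have := Real.rpow_nonneg hXp.le (-(199 / 50 * κ))
              have h5 : X ^ (-(199 / 50 * κ)) ≤ U * X ^ (-(199 / 50 * κ)) := by nlinarith
              gcongr
      linarith
    have hlast0 : 0 ≤ ((g.natAbs : ℕ) : ℝ) / R + R / Real.sqrt D := by positivity
    calc tau g.natAbs * |KK G om u| * _ ≤ Tt * (3 * c₀ * L) *
          (K * (1 + Real.log D) ^ 2 * tau n * tau g.natAbs *
            ((g.natAbs : ℕ) / R + R / Real.sqrt D)) := by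
          refine mul_le_mul (mul_le_mul htg hKKb (abs_nonneg _) hTt0.le) hmain (abs_nonneg _) ?_
          positivity
      _ ≤ Tt * (3 * c₀ * L) * (K * (49 * L ^ 2) * Tt * Tt * (3 * U * X ^ (-(199 / 50 * κ)))) := by
          have hK0 : 0 ≤ K := by linarith
          gcongr
      _ = T := by
          rw [hT]
          ring
  -- the sum over g
  have hsumg : ∀ n ∈ Finset.Icc 1 Q, ∑ g ∈ S, tau g.natAbs * |KK G om ((g : ℝ) * Y / n)| *
      |∑ c ∈ Finset.Icc 1 R', cc c n * cc c g.natAbs / (c * phi c) *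
          Hf (Real.sqrt (s * |(n : ℝ) - g * Y|) / c) -
        ∑ c ∈ Finset.Icc 1 R, cc c n * cc c g.natAbs / (c * phi c) *
          (Real.log |(n : ℝ) - g * Y| / 2 + (Real.log s / 2 + ga) - Real.log c)| ≤
      2 * V * T := by
    intro n hn
    refine (Finset.sum_le_sum (fun g hg => hpair n hn g hg)).trans ?_
    rw [← Finset.sum_filter, Finset.sum_const, nsmul_eq_mul]
    exact mul_le_mul_of_nonneg_right (tra_card S hS hV0.le) hT0
  -- the difference
  have hdiff : PKs C G Q S R' om Y s - M5l (Real.log s) C G Q S R om Y = 4 * Real.pi *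
      ∑ n ∈ Finset.Icc 1 Q, C n * ∑ g ∈ S, tau g.natAbs * KK G om ((g : ℝ) * Y / n) *
      (∑ c ∈ Finset.Icc 1 R', cc c n * cc c g.natAbs / (c * phi c) *
          Hf (Real.sqrt (s * |(n : ℝ) - g * Y|) / c) -
        ∑ c ∈ Finset.Icc 1 R, cc c n * cc c g.natAbs / (c * phi c) *
          (Real.log |(n : ℝ) - g * Y| / 2 + (Real.log s / 2 + ga) - Real.log c)) := by
    unfold PKs M5l
    rw [← mul_sub, ← Finset.sum_sub_distrib]
    congr 1
    refine Finset.sum_congr rfl ?_
    intro n _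
    rw [← mul_sub, ← Finset.sum_sub_distrib]
    congr 1
    refine Finset.sum_congr rfl ?_
    intro g _
    ring
  have htotal : |PKs C G Q S R' om Y s - M5l (Real.log s) C G Q S R om Y| ≤
      4 * Real.pi * ((4 * L) * (X ^ (κ / 100) * (2 * V * T))) := by
    rw [hdiff, abs_mul, abs_of_pos (by positivity)]
    refine mul_le_mul_of_nonneg_left ?_ (by positivity)
    refine (Finset.abs_sum_le_sum_abs _ _).trans ?_
    have hX100 := Real.rpow_nonneg hXp.le (κ / 100)
    calc ∑ n ∈ Finset.Icc 1 Q, |C n * ∑ g ∈ S, tau g.natAbs * KK G om ((g : ℝ) * Y / n) *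
          (∑ c ∈ Finset.Icc 1 R', cc c n * cc c g.natAbs / (c * phi c) *
          Hf (Real.sqrt (s * |(n : ℝ) - g * Y|) / c) -
        ∑ c ∈ Finset.Icc 1 R, cc c n * cc c g.natAbs / (c * phi c) *
          (Real.log |(n : ℝ) - g * Y| / 2 + (Real.log s / 2 + ga) - Real.log c))| ≤
        ∑ n ∈ Finset.Icc 1 Q, (X ^ (κ / 100) * (2 * V * T)) * (1 / (n : ℝ)) := by
          refine Finset.sum_le_sum ?_
          intro n hn
          have hn1 := (Finset.mem_Icc.1 hn).1
          have hnp : (0 : ℝ) < n := by exact_mod_cast hn1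
          rw [abs_mul]
          have h2 := hbd n hn1
          have h3 : |∑ g ∈ S, tau g.natAbs * KK G om ((g : ℝ) * Y / n) *
              (∑ c ∈ Finset.Icc 1 R', cc c n * cc c g.natAbs / (c * phi c) *
          Hf (Real.sqrt (s * |(n : ℝ) - g * Y|) / c) -
        ∑ c ∈ Finset.Icc 1 R, cc c n * cc c g.natAbs / (c * phi c) *
          (Real.log |(n : ℝ) - g * Y| / 2 + (Real.log s / 2 + ga) - Real.log c))| ≤
              2 * V * T := by
            refine (Finset.abs_sum_le_sum_abs _ _).trans ?_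
            refine le_trans (le_of_eq ?_) (hsumg n hn)
            refine Finset.sum_congr rfl ?_
            intro g _
            have htg0 : 0 ≤ tau g.natAbs := by unfold tau; positivity
            rw [abs_mul, abs_mul, abs_of_nonneg htg0]
          calc |C n| * _ ≤ X ^ (κ / 100) / n * (2 * V * T) :=
                mul_le_mul h2 h3 (abs_nonneg _) (by positivity)
            _ = _ := by ring
      _ ≤ (X ^ (κ / 100) * (2 * V * T)) * (4 * L) := by
          rw [← Finset.mul_sum]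
          refine mul_le_mul_of_nonneg_left ?_ (by positivity)
          refine (tra_harm Q).trans ?_
          rcases Nat.eq_zero_or_pos Q with hQ0 | hQ0
          · rw [hQ0]
            simp
            linarith
          · have hQp : (0 : ℝ) < Q := by exact_mod_cast hQ0
            have := Real.log_le_log hQp hQ3
            rw [Real.log_rpow hXp] at this
            linarith
      _ = _ := by ring
  refine htotal.trans ?_
  have e1 : 4 * Real.pi * ((4 * L) * (X ^ (κ / 100) * (2 * V * T))) =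
      (A * L ^ 4) * (X ^ (κ / 100) * X ^ (101 / 50 * κ) * (X ^ (3 * (κ / 1000))) ^ 3 *
        X ^ (-(199 / 50 * κ))) := by
    rw [hT, hTt, hV, hAdef]
    ring
  have e2 : X ^ (κ / 100) * X ^ (101 / 50 * κ) * (X ^ (3 * (κ / 1000))) ^ 3 *
        X ^ (-(199 / 50 * κ)) ≤ X ^ (-(19 / 10 * κ)) := by
    rw [← Real.rpow_natCast (X ^ (3 * (κ / 1000))), ← Real.rpow_mul hXp.le, ← Real.rpow_add hXp,
      ← Real.rpow_add hXp, ← Real.rpow_add hXp]
    refine Real.rpow_le_rpow_of_exponent_le hX1.le ?_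
    push_cast
    nlinarith
  rw [e1]
  have hL40 : 0 ≤ A * L ^ 4 := by positivity
  calc (A * L ^ 4) * (X ^ (κ / 100) * X ^ (101 / 50 * κ) * (X ^ (3 * (κ / 1000))) ^ 3 *
        X ^ (-(199 / 50 * κ))) ≤ X ^ (9 / 10 * κ) * X ^ (-(19 / 10 * κ)) := by
        refine mul_le_mul hfin e2 ?_ (Real.rpow_nonneg hXp.le _)
        have a1 := Real.rpow_nonneg hXp.le (κ / 100)
        have a2 := Real.rpow_nonneg hXp.le (101 / 50 * κ)
        have a3 := Real.rpow_nonneg hXp.le (3 * (κ / 1000))
        have a4 := Real.rpow_nonneg hXp.le (-(199 / 50 * κ))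
        positivity
    _ = X ^ (-κ) := by
        rw [← Real.rpow_add hXp]
        congr 1
        ring

end Pool.Agent.LSPP
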